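import Pool.Agent.Lib.MP_a46439_co.Cover

set_option autoImplicit false

/-! The base lemmas: covers of odd regions without ladders. -/

namespace Pool.Agent.LTD

open Finset

namespace Setup

variable {V : Type} [Fintype V] [DecidableEq V] {M : Setup V}

lemma le_e {A B : Finset V} (F : Finset (V × V))
    (hF : ∀ p ∈ F, p.1 ∈ A ∧ p.2 ∈ B ∧ M.H.Adj p.1 p.2) : F.card ≤ M.e A B := by
  classical
  have : M.e A B = ((A ×ˢ B).filter fun p => M.H.Adj p.1 p.2).card := by
    rw [card_filter, sum_product]; rfl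
  rw [this]
  apply card_le_card
  intro p hp
  rw [mem_filter, mem_product]
  obtain ⟨h1, h2, h3⟩ := hF p hp
  exact ⟨⟨h1, h2⟩, h3⟩

lemma exists_other {v : V} {W : Finset V} (h : M.e {v} W = 2) (u : V) :
    ∃ y ∈ W, y ≠ u ∧ M.H.Adj v y := by
  classical
  by_contra hcon
  push Not at hcon
  have h1 : M.e {v} W ≤ 1 := by
    have : M.e {v} W = (W.filter fun y => M.H.Adj v y).card := by
      rw [card_filter]
      simp only [Setup.e, E, sum_singleton]
    rw [this, card_le_one]
    intro a ha b hb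
    rw [mem_filter] at ha hb
    by_cases h1 : a = u
    · by_cases h2 : b = u
      · rw [h1, h2]
      · exact absurd hb.2 (hcon b hb.1 h2)
    · exact absurd ha.2 (hcon a ha.1 h1)
  omega

lemma e_eq_two_of_full {A W : Finset V} (h : 2 * A.card ≤ M.e A W) {v : V} (hv : v ∈ A) :
    M.e {v} W = 2 := by
  have h1 : M.e A W = M.e {v} W + M.e (A \ {v}) W := M.e_sdiff_left (singleton_subset_iff.2 hv) _
  have h2 := M.e_le (A \ {v}) W
  have h3 := M.e_le {v} W
  have h4 := card_sdiff_add_card_eq_card (singleton_subset_iff.2 hv)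
  simp only [card_singleton] at *
  omega

/-- a component-like set can be covered apart from an attachment vertex -/
lemma covX_comp {c : Finset V} (hc : M.Mc c) (hT : ∀ v ∈ c, M.TV v) (h2 : c.card % 4 = 2)
    (hd : M.d c ≤ 4) (hodd : ∀ c' ⊆ c, M.Mc c' → c'.card % 4 = 2 → c' ≠ c → 4 ≤ M.d c')
    {x u : V} (hx : x ∈ c) (hu : u ∉ c) (hxu : M.H.Adj x u) : M.CovX c x := by
  have h1 : M.nd x ⊆ c := hc.nd_subset hx
  have h3 : M.Cov (c \ M.nd x) := by
    apply regCov hc (Mc_nd x) h1
    · intro v hv; exact hT v (mem_sdiff.1 hv).1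
    · have := card_sdiff_add_card_eq_card h1
      rw [nd_card] at this; omega
    · intro c' hc' hmc hcard
      apply hodd c' (hc'.trans sdiff_subset) hmc hcard
      rintro rfl
      have := hc' hx
      rw [mem_sdiff] at this
      exact this.2 (self_mem_nd x)
    · rw [e_nd_nd, nd_card]
      have h4 : M.e (M.nd x) univ = M.e (M.nd x) c + M.e (M.nd x) (univ \ c) :=
        M.e_sdiff (subset_univ _) _
      have h5 := M.e_univ_le (M.nd x)
      rw [nd_card] at h5
      have h6 : 0 < M.e (M.nd x) (univ \ c) := by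
        rw [M.e_pos_iff]
        exact ⟨x, self_mem_nd x, u, by simpa using hu, hxu⟩
      omega
  have h4 := CovX.union_cov (Mc_nd x) (hc.sdiff (Mc_nd x)) disjoint_sdiff (hT x hx).covX h3
  rwa [union_sdiff_of_subset h1] at h4

lemma TV.covX_nd {x y : V} (h : M.TV y) (hx : x ∈ M.nd y) : M.CovX (M.nd y) x := by
  rw [← nd_eq_of_mem hx]
  apply TV.covX
  rw [mem_nd] at hx
  rcases hx with rfl | rfl
  · exact h
  · exact h.mu

lemma nd_eq_union (v : V) : M.nd v = {v} ∪ {M.μ v} := by ext; simp [nd]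

/-- case (a) of the base lemma -/
lemma base2a {W : Finset V} (hW : M.Mc W) (hT : ∀ v ∈ W, M.TV v) (h2 : W.card % 4 = 2)
    (hlight : ∀ c ⊆ W, M.Mc c → c.Nonempty → c ≠ W → 4 ≤ M.d c)
    {t t1 y : V} (ht : t ∈ W) (ht1 : t1 ∈ W) (hy : y ∈ W) (ha1 : M.H.Adj t t1)
    (ha2 : M.H.Adj t (M.μ t1)) (hyt : y ≠ t) (hy1 : M.H.Adj t1 y)
    (hlv : M.d W + 2 * M.e (M.nd t) W ≤ 8) : M.Cov W := by
  have hn1 : t1 ∉ M.nd t := by
    rw [mem_nd]; rintro (rfl | rfl)
    · exact M.H.loopless.irrefl _ ha1
    · exact M.Hne _ ha1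
  have hny : y ∉ M.nd t := by
    rw [mem_nd]; rintro (h | rfl)
    · exact hyt h
    · apply hT t ht (M.μ t1)
      exact ⟨ha2, by rw [M.inv]; exact hy1.symm⟩
  have hny1 : y ∉ M.nd t1 := by
    rw [mem_nd]; rintro (rfl | rfl)
    · exact M.H.loopless.irrefl _ hy1
    · exact M.Hne _ hy1
  have d1 : Disjoint (M.nd t1) (M.nd t) := nd_disjoint hn1
  have d2 : Disjoint (M.nd y) (M.nd t) := nd_disjoint hny
  have d3 : Disjoint (M.nd y) (M.nd t1) := nd_disjoint hny1
  have dK : Disjoint (M.nd t1 ∪ M.nd t) (M.nd y) := disjoint_union_left.2 ⟨d3.symm, d2.symm⟩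
  set K := M.nd t1 ∪ M.nd t ∪ M.nd y with hK
  have hKW : K ⊆ W := union_subset (union_subset (hW.nd_subset ht1) (hW.nd_subset ht))
    (hW.nd_subset hy)
  have hmcK : M.Mc K := ((Mc_nd _).union (Mc_nd _)).union (Mc_nd _)
  have hcK : K.card = 6 := by
    rw [hK, card_union_of_disjoint dK, card_union_of_disjoint d1, nd_card, nd_card, nd_card]
  have e1 : 2 ≤ M.e (M.nd t) (M.nd t1) := by
    have : M.e {t} (M.nd t1) ≤ M.e (M.nd t) (M.nd t1) :=
      M.e_mono (singleton_subset_iff.2 (self_mem_nd t)) (subset_refl _)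
    rw [nd_eq_union t1, M.e_union_right (by simpa using (M.ne t1).symm), M.e_singleton ha1,
      M.e_singleton ha2, ← nd_eq_union t1] at this
    exact this
  have e2 : 1 ≤ M.e (M.nd t1) (M.nd y) := by
    rw [Nat.succ_le_iff, M.e_pos_iff]
    exact ⟨t1, self_mem_nd _, y, self_mem_nd _, hy1⟩
  have e3 : M.e K K = M.e (M.nd t1 ∪ M.nd t) K + M.e (M.nd y) K := M.e_union_left dK _
  have e4 : M.e (M.nd t1 ∪ M.nd t) K = M.e (M.nd t1) K + M.e (M.nd t) K := M.e_union_left d1 _
  have e5 : M.e (M.nd t1) K = M.e (M.nd t1) (M.nd t1 ∪ M.nd t) + M.e (M.nd t1) (M.nd y) :=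
    M.e_union_right dK _
  have e6 : M.e (M.nd t1) (M.nd t1 ∪ M.nd t) = M.e (M.nd t1) (M.nd t1) + M.e (M.nd t1) (M.nd t) :=
    M.e_union_right d1 _
  have e7 : M.e (M.nd t) (M.nd t1) ≤ M.e (M.nd t) K :=
    M.e_mono (subset_refl _) (subset_union_left.trans subset_union_left)
  have e8 : M.e (M.nd y) (M.nd t1) ≤ M.e (M.nd y) K :=
    M.e_mono (subset_refl _) (subset_union_left.trans subset_union_left)
  have e9 := M.e_comm (M.nd t) (M.nd t1)
  have e10 := M.e_comm (M.nd y) (M.nd t1)
  have w1 : M.e K W = M.e (M.nd t1 ∪ M.nd t) W + M.e (M.nd y) W := M.e_union_left dK _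
  have w2 : M.e (M.nd t1 ∪ M.nd t) W = M.e (M.nd t1) W + M.e (M.nd t) W := M.e_union_left d1 _
  have w3 := M.e_le (M.nd t1) W
  have w4 := M.e_le (M.nd y) W
  rw [nd_card] at w3 w4
  have hcov : M.Cov (W \ K) := by
    apply regCov hW hmcK hKW
    · intro v hv; exact hT v (mem_sdiff.1 hv).1
    · have := card_sdiff_add_card_eq_card hKW
      omega
    · intro c hc hmc hcard
      refine hlight c (hc.trans sdiff_subset) hmc ?_ ?_
      · rw [← card_pos]; omega
      · rintro rfl
        have := hc ht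
        rw [mem_sdiff] at this
        exact this.2 (mem_union_left _ (mem_union_right _ (self_mem_nd t)))
    · omega
  have hc3 : M.Cov K := by
    apply CovX.cov_triple (Mc_nd _) (Mc_nd _) (Mc_nd _) d1 d3.symm d2.symm
      (hT t1 ht1).covX (hT t ht).covX (hT y hy).covX ha1.symm hy1
  have := Cov.union hmcK (hW.sdiff hmcK) disjoint_sdiff hc3 hcov
  rwa [union_sdiff_of_subset hKW] at this

/-- case (b) of the base lemma -/
lemma base2b {W : Finset V} (hW : M.Mc W) (hT : ∀ v ∈ W, M.TV v) (h2 : W.card % 4 = 2)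
    (hlight : ∀ c ⊆ W, M.Mc c → c.Nonempty → c ≠ W → 4 ≤ M.d c)
    {t t1 t2 : V} (ht : t ∈ W) (ht1 : t1 ∈ W) (ht2 : t2 ∈ W) (ha1 : M.H.Adj t t1)
    (ha2 : M.H.Adj t t2) (hne : t2 ∉ M.nd t1)
    (hlv : M.d W + 2 * M.e (M.nd t) W ≤ 8) : M.Cov W := by
  classical
  have hn1 : t1 ∉ M.nd t := by
    rw [mem_nd]; rintro (rfl | rfl)
    · exact M.H.loopless.irrefl _ ha1
    · exact M.Hne _ ha1
  have hn2 : t2 ∉ M.nd t := by
    rw [mem_nd]; rintro (rfl | rfl)
    · exact M.H.loopless.irrefl _ ha2
    · exact M.Hne _ ha2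
  have ht12 : t1 ≠ t2 := by rintro rfl; exact hne (self_mem_nd _)
  have d1 : Disjoint (M.nd t1) (M.nd t) := nd_disjoint hn1
  have d2 : Disjoint (M.nd t2) (M.nd t) := nd_disjoint hn2
  have d3 : Disjoint (M.nd t2) (M.nd t1) := nd_disjoint hne
  have dK : Disjoint (M.nd t ∪ M.nd t1) (M.nd t2) := disjoint_union_left.2 ⟨d2.symm, d3.symm⟩
  set K := M.nd t ∪ M.nd t1 ∪ M.nd t2 with hK
  have hKW : K ⊆ W := union_subset (union_subset (hW.nd_subset ht) (hW.nd_subset ht1))
    (hW.nd_subset ht2)
  have hmcK : M.Mc K := ((Mc_nd _).union (Mc_nd _)).union (Mc_nd _)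
  have hcK : K.card = 6 := by
    rw [hK, card_union_of_disjoint dK, card_union_of_disjoint d1.symm, nd_card, nd_card, nd_card]
  have hWK := card_sdiff_add_card_eq_card hKW
  have htK : t ∈ K := mem_union_left _ (mem_union_left _ (self_mem_nd t))
  have ht1K : t1 ∈ K := mem_union_left _ (mem_union_right _ (self_mem_nd t1))
  have ht2K : t2 ∈ K := mem_union_right _ (self_mem_nd t2)
  rcases reg_tutte hW hmcK hKW (fun v hv => hT v (mem_sdiff.1 hv).1) (by omega) with
    hcov | ⟨U, C, hU, hKU, hUW, hC, hCd, hcard⟩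
  · have hc3 : M.Cov K := by
      apply CovX.cov_triple (Mc_nd _) (Mc_nd _) (Mc_nd _) d1.symm d2.symm d3.symm
        (hT t ht).covX (hT t1 ht1).covX (hT t2 ht2).covX ha1 ha2
    have := Cov.union hmcK (hW.sdiff hmcK) disjoint_sdiff hc3 hcov
    rwa [union_sdiff_of_subset hKW] at this
  -- the tight case
  have hCne : ∀ c ∈ C, c.Nonempty := by
    intro c hc; rw [← card_pos]; have := (hC c hc).2.2.1; omega
  have hCW : ∀ c ∈ C, c ⊆ W := fun c hc => (hC c hc).2.1.trans sdiff_subset
  have hCU : ∀ c ∈ C, Disjoint c U := by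
    intro c hc
    rw [Finset.disjoint_left]
    intro x hx
    exact (mem_sdiff.1 ((hC c hc).2.1 hx)).2
  have htU : t ∈ U := hKU htK
  have ht1U : t1 ∈ U := hKU ht1K
  have ht2U : t2 ∈ U := hKU ht2K
  have hproper : ∀ c ⊆ W, t ∉ c → c ≠ W := by
    rintro c _ hc rfl; exact hc ht
  have hd4 : ∀ c ∈ C, 4 ≤ M.d c := fun c hc => hlight c (hCW c hc) (hC c hc).1 (hCne c hc)
    (hproper c (hCW c hc) (Finset.disjoint_right.1 (hCU c hc) htU))
  have hcount := count (M := M) hUW (fun c hc => ⟨(hC c hc).2.1, (hC c hc).2.2.2⟩) hCd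
  have hsum : 4 * C.card ≤ ∑ c ∈ C, M.d c := by
    rw [mul_comm, ← smul_eq_mul, ← sum_const]
    exact sum_le_sum hd4
  have hPU : M.nd t ⊆ U := hU.nd_subset htU
  have w1 : M.e U W = M.e (M.nd t) W + M.e (U \ M.nd t) W := M.e_sdiff_left hPU _
  have w2 := M.e_le (U \ M.nd t) W
  have w3 := card_sdiff_add_card_eq_card hPU
  rw [nd_card] at w3
  have hUU : 4 ≤ M.e U U := by
    have := le_e (M := M) (A := U) (B := U) {(t, t1), (t1, t), (t, t2), (t2, t)} ?_
    · have hc : ({(t, t1), (t1, t), (t, t2), (t2, t)} : Finset (V × V)).card = 4 := by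
        have h1 : t ≠ t1 := ha1.ne
        have h2 : t ≠ t2 := ha2.ne
        rw [card_insert_of_notMem, card_insert_of_notMem, card_insert_of_notMem, card_singleton]
        all_goals simp [h1, h2, ht12, h1.symm, h2.symm]
      rw [hc] at this; exact this
    · intro p hp
      simp only [mem_insert, mem_singleton] at hp
      rcases hp with rfl | rfl | rfl | rfl
      · exact ⟨htU, ht1U, ha1⟩
      · exact ⟨ht1U, htU, ha1.symm⟩
      · exact ⟨htU, ht2U, ha2⟩
      · exact ⟨ht2U, htU, ha2.symm⟩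
  set R := (W \ U) \ C.biUnion id with hR
  -- everything is tight
  have hsum' : ∑ c ∈ C, M.d c = 4 * C.card := by omega
  have hUU' : M.e U U = 4 := by omega
  have hdR : M.d R = 0 := by omega
  have hUcard : U.card = 2 * C.card + 2 := by omega
  have hfull : 2 * (U \ M.nd t).card ≤ M.e (U \ M.nd t) W := by omega
  have hd4' : ∀ c ∈ C, M.d c = 4 := by
    intro c hc
    by_contra hne'
    have h5 : 4 < M.d c := lt_of_le_of_ne (hd4 c hc) (Ne.symm hne')
    have : ∑ c ∈ C, 4 < ∑ c ∈ C, M.d c := sum_lt_sum hd4 ⟨c, hc, h5⟩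
    rw [sum_const, smul_eq_mul] at this
    omega
  have hRmc : M.Mc R := (hW.sdiff hU).sdiff (Mc.biUnion _ _ fun c hc => (hC c hc).1)
  have hRe : R = ∅ := by
    by_contra hne'
    have h5 := hRmc.two_le_d (nonempty_iff_ne_empty.2 hne') (by
      intro h
      have : t ∈ R := by rw [h]; exact mem_univ _
      rw [hR, mem_sdiff, mem_sdiff] at this
      exact this.1.2 htU)
    omega
  have hWeq : W = U ∪ C.biUnion id := by
    ext x
    constructor
    · intro hx
      by_contra hne'
      rw [mem_union, not_or] at hne'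
      have : x ∈ R := by rw [hR, mem_sdiff, mem_sdiff]; exact ⟨⟨hx, hne'.1⟩, hne'.2⟩
      rw [hRe] at this
      exact notMem_empty _ this
    · intro hx
      rw [mem_union] at hx
      rcases hx with hx | hx
      · exact hUW hx
      · obtain ⟨c, hc, hx⟩ := mem_biUnion.1 hx
        exact hCW c hc hx
  -- the other neighbour of `t1`
  have ht1' : t1 ∈ U \ M.nd t := mem_sdiff.2 ⟨ht1U, hn1⟩
  obtain ⟨y, hyW, hyt, hy1⟩ := exists_other (e_eq_two_of_full hfull ht1') t
  have hyU : y ∉ U := by
    intro hyU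
    have := le_e (M := M) (A := U) (B := U)
      {(t, t1), (t1, t), (t, t2), (t2, t), (t1, y), (y, t1)} ?_
    · have hc : ({(t, t1), (t1, t), (t, t2), (t2, t), (t1, y), (y, t1)} :
          Finset (V × V)).card = 6 := by
        have h1 : t ≠ t1 := ha1.ne
        have h2 : t ≠ t2 := ha2.ne
        have h3 : t1 ≠ y := hy1.ne
        rw [card_insert_of_notMem, card_insert_of_notMem, card_insert_of_notMem,
          card_insert_of_notMem, card_insert_of_notMem, card_singleton]
        all_goals simp [h1, h2, ht12, h1.symm, h2.symm, h3, h3.symm, hyt.symm, ht12.symm]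
      rw [hc] at this; omega
    · intro p hp
      simp only [mem_insert, mem_singleton] at hp
      rcases hp with rfl | rfl | rfl | rfl | rfl | rfl
      · exact ⟨htU, ht1U, ha1⟩
      · exact ⟨ht1U, htU, ha1.symm⟩
      · exact ⟨htU, ht2U, ha2⟩
      · exact ⟨ht2U, htU, ha2.symm⟩
      · exact ⟨ht1U, hyU, hy1⟩
      · exact ⟨hyU, ht1U, hy1.symm⟩
  obtain ⟨c0, hc0, hyc0⟩ : ∃ c0 ∈ C, y ∈ c0 := by
    have : y ∈ U ∪ C.biUnion id := by rw [← hWeq]; exact hyW
    rw [mem_union] at this
    rcases this with h | h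
    · exact absurd h hyU
    · obtain ⟨c, hc, h⟩ := mem_biUnion.1 h
      exact ⟨c, hc, h⟩
  -- set up Hall's theorem
  set B0 := M.nd t ∪ M.nd t1 with hB0
  have hB0card : B0.card = 4 := by
    rw [hB0, card_union_of_disjoint d1.symm, nd_card, nd_card]
  have hB0mc : M.Mc B0 := (Mc_nd _).union (Mc_nd _)
  have hB0U : B0 ⊆ U := union_subset hPU (hU.nd_subset ht1U)
  set Q := U \ B0 with hQ
  have hQmc : M.Mc Q := hU.sdiff hB0mc
  have hQcard : Q.card + 4 = U.card := by
    have := card_sdiff_add_card_eq_card hB0U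
    rw [hB0card] at this; exact this
  let I := {c : Finset V // c ∈ C.erase c0}
  have hIcard : Fintype.card I = C.card - 1 := by
    simp only [I, Fintype.card_coe]; rw [card_erase_of_mem hc0]
  have hIC : ∀ c : I, c.1 ∈ C := fun c => (mem_erase.1 c.2).2
  let nb : I → Finset (Finset V) := fun c => (Q.image M.nd).filter fun N => 0 < M.e c.1 N
  have hHall : ∀ s : Finset I, s.card ≤ (s.biUnion nb).card := by
    intro s
    by_contra hlt
    push Not at hlt
    -- the vertex sets
    set X := s.biUnion (fun c => c.1) with hX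
    set Z := (s.biUnion nb).biUnion id with hZ
    have hnbQ : s.biUnion nb ⊆ Q.image M.nd := by
      rw [biUnion_subset]; intro c _; exact filter_subset _ _
    have hZQ : Z ⊆ Q := by
      rw [hZ, ← nodes_biUnion hQmc]; exact biUnion_subset_biUnion_of_subset_left _ hnbQ
    have hZcard : Z.card = 2 * (s.biUnion nb).card := nodes_card hnbQ
    have hXW : X ⊆ W := by
      rw [hX, biUnion_subset]; intro c _; exact hCW _ (hIC c)
    have hXU : Disjoint X U := by
      rw [hX, disjoint_biUnion_left]; intro c _; exact hCU _ (hIC c)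
    have hXmc : M.Mc X := Mc.biUnion _ _ fun c _ => (hC _ (hIC c)).1
    have hZmc : M.Mc Z := by
      apply Mc.biUnion
      intro A hA
      obtain ⟨v, _, rfl⟩ := mem_image.1 (hnbQ hA)
      exact Mc_nd v
    set B := Z ∪ B0 with hB
    have hZB0 : Disjoint Z B0 := by
      rw [Finset.disjoint_left]; intro x hx
      exact (mem_sdiff.1 (hZQ hx)).2
    have hBU : B ⊆ U := union_subset (hZQ.trans sdiff_subset) hB0U
    have hBcard : B.card = Z.card + 4 := by
      rw [hB, card_union_of_disjoint hZB0, hB0card]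
    have hXB : Disjoint X B := disjoint_of_subset_right hBU hXU
    set A := X ∪ B with hA
    have hAW : A ⊆ W := union_subset hXW (hBU.trans hUW)
    -- no edges from X to the rest
    have hXout : M.e X (W \ A) = 0 := by
      rw [M.e_eq_zero_iff]
      intro x hx v hv hxv
      rw [mem_sdiff, hA, mem_union, not_or] at hv
      obtain ⟨hvW, hvX, hvB⟩ := hv
      obtain ⟨c, hcs, hxc⟩ := mem_biUnion.1 hx
      have hcC := hIC c
      by_cases hvU : v ∈ U
      · have hvQ : v ∈ Q := by
          rw [hQ, mem_sdiff]; exact ⟨hvU, fun h => hvB (mem_union_right _ h)⟩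
        apply hvB
        apply mem_union_left
        rw [hZ, mem_biUnion]
        refine ⟨M.nd v, ?_, self_mem_nd v⟩
        rw [mem_biUnion]
        refine ⟨c, hcs, ?_⟩
        rw [mem_filter]
        refine ⟨mem_image_of_mem _ hvQ, ?_⟩
        rw [M.e_pos_iff]
        exact ⟨x, hxc, v, self_mem_nd v, hxv⟩
      · have := (hC _ hcC).2.2.2
        rw [M.e_eq_zero_iff] at this
        refine this x hxc v ?_ hxv
        rw [mem_sdiff, mem_sdiff]
        exact ⟨⟨hvW, hvU⟩, fun h => hvX (mem_biUnion.2 ⟨c, hcs, h⟩)⟩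
    have hdX : M.d X = 4 * s.card := by
      have : X = (s.image fun c => c.1).biUnion id := by
        ext x; simp [hX]
      rw [this, M.d_biUnion]
      · rw [sum_image (fun a _ b _ h => Subtype.ext h), sum_congr rfl
          (fun c _ => hd4' _ (hIC c)), sum_const, smul_eq_mul, mul_comm]
      · intro a ha b hb hab
        obtain ⟨a', _, rfl⟩ := mem_image.1 ha
        obtain ⟨b', _, rfl⟩ := mem_image.1 hb
        exact hCd _ (hIC a') _ (hIC b') hab
      · intro a ha b hb hab
        obtain ⟨a', _, rfl⟩ := mem_image.1 ha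
        obtain ⟨b', _, rfl⟩ := mem_image.1 hb
        rw [← Nat.le_zero, ← (hC _ (hIC a')).2.2.2]
        apply M.e_mono (subset_refl _)
        intro x hx
        rw [mem_sdiff]
        exact ⟨(hC _ (hIC b')).2.1 hx, Finset.disjoint_right.1
          (hCd _ (hIC a') _ (hIC b') hab) hx⟩
    have k1 := M.d_sdiff hAW
    have k2 := M.d_add X
    have k3 : M.e A A = M.e X A + M.e B A := M.e_union_left hXB _
    have k4 : M.e X A = M.e X X + M.e X B := M.e_union_right hXB _
    have k5 : M.e B A = M.e B X + M.e B B := M.e_union_right hXB _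
    have k6 := M.e_comm B X
    have k7 : M.e A W = M.e X W + M.e B W := M.e_union_left hXB _
    have k8 : M.e X W = M.e X A + M.e X (W \ A) := M.e_sdiff hAW _
    have k9 : A.card = X.card + B.card := card_union_of_disjoint hXB
    have hPB : M.nd t ⊆ B := subset_union_left.trans subset_union_right
    have k10 : M.e B W = M.e (M.nd t) W + M.e (B \ M.nd t) W := M.e_sdiff_left hPB _
    have k11 := M.e_le (B \ M.nd t) W
    have k12 := card_sdiff_add_card_eq_card hPB
    rw [nd_card] at k12
    have k13 : 2 ≤ M.e B B := by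
      have htB : t ∈ B := hPB (self_mem_nd t)
      have ht1B : t1 ∈ B := mem_union_right _ (mem_union_right _ (self_mem_nd t1))
      have := le_e (M := M) (A := B) (B := B) {(t, t1), (t1, t)} ?_
      · rw [card_pair] at this
        · exact this
        · intro h; exact ha1.ne (Prod.ext_iff.1 h).1
      · intro p hp
        simp only [mem_insert, mem_singleton] at hp
        rcases hp with rfl | rfl
        · exact ⟨htB, ht1B, ha1⟩
        · exact ⟨ht1B, htB, ha1.symm⟩
    have k14 : 4 ≤ M.d (W \ A) := by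
      apply hlight _ sdiff_subset (hW.sdiff (hXmc.union (hZmc.union hB0mc)))
      · refine ⟨y, ?_⟩
        refine mem_sdiff.2 ⟨hyW, fun h => ?_⟩
        rcases mem_union.1 h with h | h
        · obtain ⟨c, _, hyc⟩ := mem_biUnion.1 h
          have := hCd _ (hIC c) _ hc0 (mem_erase.1 c.2).1
          exact (Finset.disjoint_left.1 this hyc) hyc0
        · exact hyU (hBU h)
      · apply hproper _ sdiff_subset
        intro h
        exact (mem_sdiff.1 h).2 (mem_union_right _ (hPB (self_mem_nd t)))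
    omega
  obtain ⟨f, hfinj, hf⟩ := (Finset.all_card_le_biUnion_card_iff_exists_injective nb).1 hHall
  have hfQ : ∀ c : I, f c ∈ Q.image M.nd := fun c => (mem_filter.1 (hf c)).1
  have hQnodes : Q.card = 2 * (Q.image M.nd).card := by
    rw [← nodes_card (subset_refl _), nodes_biUnion hQmc]
  have hCpos : 0 < C.card := card_pos.2 ⟨c0, hc0⟩
  have himage : (univ : Finset I).image f = Q.image M.nd := by
    apply eq_of_subset_of_card_le
    · intro N hN
      obtain ⟨c, _, rfl⟩ := mem_image.1 hN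
      exact hfQ c
    · rw [card_image_of_injective _ hfinj, card_univ, hIcard]
      omega
  -- the pieces
  have hoddc : ∀ c ∈ C, ∀ c' ⊆ c, M.Mc c' → c'.card % 4 = 2 → c' ≠ c → 4 ≤ M.d c' := by
    intro c hc c' hc' hmc hcard _
    refine hlight c' (hc'.trans (hCW c hc)) hmc ?_ ?_
    · rw [← card_pos]; omega
    · apply hproper _ (hc'.trans (hCW c hc))
      intro h
      exact (Finset.disjoint_right.1 (hCU c hc) htU) (hc' h)
  have hcovc : ∀ c ∈ C, ∀ x ∈ c, ∀ u, u ∉ c → M.H.Adj x u → M.CovX c x := by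
    intro c hc x hx u hu hxu
    exact covX_comp (hC c hc).1 (fun v hv => hT v (hCW c hc hv)) (hC c hc).2.2.1
      (hd4' c hc).le (hoddc c hc) hx hu hxu
  have hfU : ∀ c : I, f c ⊆ U := by
    intro c
    obtain ⟨v, hv, hfv⟩ := mem_image.1 (hfQ c)
    rw [← hfv]
    exact (hQmc.nd_subset hv).trans sdiff_subset
  have hfB0 : ∀ c : I, Disjoint (f c) B0 := by
    intro c
    obtain ⟨v, hv, hfv⟩ := mem_image.1 (hfQ c)
    rw [← hfv, Finset.disjoint_left]
    intro x hx
    exact (mem_sdiff.1 (hQmc.nd_subset hv hx)).2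
  have hfmc : ∀ c : I, M.Mc (f c) := by
    intro c
    obtain ⟨v, hv, hfv⟩ := mem_image.1 (hfQ c)
    rw [← hfv]; exact Mc_nd v
  have hpiece : ∀ c : I, M.Cov (c.1 ∪ f c) := by
    intro c
    have h1 : Disjoint c.1 (f c) := disjoint_of_subset_right (hfU c) (hCU _ (hIC c))
    obtain ⟨x, hx, u, hu, hxu⟩ := M.e_pos_iff.1 (mem_filter.1 (hf c)).2
    refine CovX.cov_pair (hC _ (hIC c)).1 (hfmc c) h1 ?_ ?_ hxu
    · exact hcovc _ (hIC c) x hx u (Finset.disjoint_right.1 h1 hu) hxu
    · obtain ⟨v, hv, hfv⟩ := mem_image.1 (hfQ c)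
      rw [← hfv] at hu ⊢
      exact (hT v (hUW (mem_sdiff.1 hv).1)).covX_nd hu
  have hcovI : M.Cov ((univ : Finset I).biUnion fun c => c.1 ∪ f c) := by
    apply Cov.biUnion
    · intro c _; exact (hC _ (hIC c)).1.union (hfmc c)
    · intro a _ b _ hab
      have hab' : a.1 ≠ b.1 := fun h => hab (Subtype.ext h)
      simp only [disjoint_union_left, disjoint_union_right]
      refine ⟨⟨hCd _ (hIC a) _ (hIC b) hab', ?_⟩, ?_, ?_⟩
      · exact (disjoint_of_subset_right (hfU a) (hCU _ (hIC b))).symm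
      · exact disjoint_of_subset_right (hfU b) (hCU _ (hIC a))
      · exact nodes_disjoint (hfQ a) (hfQ b) fun h => hab (hfinj h)
    · intro c _; exact hpiece c
  have hc0t1 : t1 ∉ c0 := Finset.disjoint_right.1 (hCU _ hc0) ht1U
  have dc0 : Disjoint c0 B0 := disjoint_of_subset_right hB0U (hCU _ hc0)
  have hcov0 : M.Cov (M.nd t1 ∪ M.nd t ∪ c0) := by
    apply CovX.cov_triple (Mc_nd _) (Mc_nd _) (hC _ hc0).1 d1
      (disjoint_of_subset_right subset_union_right dc0).symm
      (disjoint_of_subset_right subset_union_left dc0).symm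
      (hT t1 ht1).covX (hT t ht).covX (hcovc _ hc0 y hyc0 t1 hc0t1 hy1.symm) ha1.symm hy1
  have hfin := Cov.union (((Mc_nd t1).union (Mc_nd t)).union (hC _ hc0).1)
    (Mc.biUnion _ _ fun c _ => (hC _ (hIC c)).1.union (hfmc c)) ?_ hcov0 hcovI
  · convert hfin using 1
    rw [hWeq]
    ext x
    simp only [mem_union, mem_biUnion, mem_univ, true_and, id]
    constructor
    · rintro (h | ⟨c, hc, h⟩)
      · by_cases hB : x ∈ B0
        · left; left
          rw [hB0, mem_union] at hB
          exact hB.symm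
        · right
          have hxQ : x ∈ Q := mem_sdiff.2 ⟨h, hB⟩
          have : M.nd x ∈ (univ : Finset I).image f := by
            rw [himage]; exact mem_image_of_mem _ hxQ
          obtain ⟨c, _, hcx⟩ := mem_image.1 this
          exact ⟨c, Or.inr (by rw [hcx]; exact self_mem_nd x)⟩
      · by_cases h0 : c = c0
        · subst h0; left; right; exact h
        · right; exact ⟨⟨c, mem_erase.2 ⟨h0, hc⟩⟩, Or.inl h⟩
    · rintro (((h | h) | h) | ⟨c, h | h⟩)
      · left; exact hU.nd_subset ht1U h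
      · left; exact hPU h
      · right; exact ⟨c0, hc0, h⟩
      · right; exact ⟨c.1, hIC c, h⟩
      · left; exact hfU c h
  · rw [disjoint_biUnion_right]
    intro c _
    have hne0 := (mem_erase.1 c.2).1
    have h1 : Disjoint c.1 B0 := disjoint_of_subset_right hB0U (hCU _ (hIC c))
    simp only [disjoint_union_left, disjoint_union_right]
    refine ⟨⟨⟨?_, ?_⟩, ?_⟩, ⟨?_, ?_⟩, ?_⟩
    · exact (disjoint_of_subset_right subset_union_right h1).symm
    · exact (disjoint_of_subset_right subset_union_left h1).symm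
    · exact (hCd _ (hIC c) _ hc0 hne0).symm
    · exact (disjoint_of_subset_right subset_union_right (hfB0 c)).symm
    · exact (disjoint_of_subset_right subset_union_left (hfB0 c)).symm
    · exact disjoint_of_subset_right (hfU c) (hCU _ hc0)

/-- The base lemma for regions without light parts. -/
theorem base2 {W : Finset V} (hW : M.Mc W) (hT : ∀ v ∈ W, M.TV v) (h2 : W.card % 4 = 2)
    (hd : M.d W ≤ 2)
    (hlight : ∀ c ⊆ W, M.Mc c → c.Nonempty → c ≠ W → 4 ≤ M.d c)
    {t t1 t2 : V} (ht : t ∈ W) (ht1 : t1 ∈ W) (ht2 : t2 ∈ W) (ha1 : M.H.Adj t t1)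
    (ha2 : M.H.Adj t t2) (hne : t1 ≠ t2)
    (hlv : M.d W + 2 * M.e (M.nd t) W ≤ 8) : M.Cov W := by
  by_cases h : t2 ∈ M.nd t1
  · have h12 : t2 = M.μ t1 := by
      rw [mem_nd] at h
      rcases h with h | h
      · exact absurd h.symm hne
      · exact h
    by_cases h3 : M.e {t1} W = 2
    · obtain ⟨y, hy, hyt, hya⟩ := exists_other h3 t
      exact base2a hW hT h2 hlight ht ht1 hy ha1 (h12 ▸ ha2) hyt hya hlv
    by_cases h4 : M.e {t2} W = 2
    · obtain ⟨y, hy, hyt, hya⟩ := exists_other h4 t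
      refine base2a hW hT h2 hlight ht ht2 hy ha2 ?_ hyt hya hlv
      rw [h12, M.inv]; exact ha1
    exfalso
    have k1 := M.d_add W
    have hP : M.nd t ⊆ W := hW.nd_subset ht
    have hn1 : t1 ∉ M.nd t := by
      rw [mem_nd]; rintro (rfl | rfl)
      · exact M.H.loopless.irrefl _ ha1
      · exact M.Hne _ ha1
    have hP1 : M.nd t1 ⊆ W \ M.nd t := by
      intro x hx
      rw [mem_sdiff]
      exact ⟨hW.nd_subset ht1 hx, Finset.disjoint_left.1 (nd_disjoint hn1) hx⟩
    have k2 : M.e W W = M.e (M.nd t) W + M.e (W \ M.nd t) W := M.e_sdiff_left hP _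
    have k3 : M.e (W \ M.nd t) W = M.e (M.nd t1) W + M.e ((W \ M.nd t) \ M.nd t1) W :=
      M.e_sdiff_left hP1 _
    have k4 := M.e_le ((W \ M.nd t) \ M.nd t1) W
    have k5 := card_sdiff_add_card_eq_card hP
    have k6 := card_sdiff_add_card_eq_card hP1
    rw [nd_card] at k5 k6
    have k7 : M.e (M.nd t1) W = M.e {t1} W + M.e {M.μ t1} W := by
      rw [nd_eq_union, M.e_union_left (by simpa using (M.ne t1).symm)]
    rw [← h12] at k7
    have k8 := M.e_le {t1} W
    have k9 := M.e_le {t2} W
    rw [card_singleton] at k8 k9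
    omega
  · exact base2b hW hT h2 hlight ht ht1 ht2 ha1 ha2 h hlv

/-- Light odd sets. -/
def LO (M : Setup V) (W : Finset V) : Prop :=
  M.Mc W ∧ (∀ v ∈ W, M.TV v) ∧ W.card % 4 = 2 ∧ M.d W = 2

/-- The base lemma for light odd sets without proper light odd subsets. -/
theorem base1 {W : Finset V} (hLO : M.LO W)
    (hmin : ∀ c ⊆ W, M.Mc c → c.card % 4 = 2 → c ≠ W → 4 ≤ M.d c) : M.Cov W := by
  obtain ⟨hW, hT, h2, hd⟩ := hLO
  by_cases hl : ∀ c ⊆ W, M.Mc c → c.Nonempty → c ≠ W → 4 ≤ M.d c
  · have h1 := M.d_add W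
    obtain ⟨a, ha, haW⟩ : ∃ a ∈ W, M.e {a} W ≤ 1 := by
      by_contra hcon
      push Not at hcon
      have : 2 * W.card ≤ M.e W W := by
        have : ∀ A ⊆ W, 2 * A.card ≤ M.e A W := by
          intro A
          induction A using Finset.induction_on with
          | empty => simp
          | insert a A ha ih =>
            intro hA
            have h3 : insert a A = {a} ∪ A := by ext; simp
            have h4 := ih ((subset_insert _ _).trans hA)
            have h5 := hcon a (hA (mem_insert_self _ _))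
            rw [card_insert_of_notMem ha, h3, M.e_union_left (by simpa using ha)]
            omega
        exact this W (subset_refl _)
      omega
    have hP : M.nd a ⊆ W := hW.nd_subset ha
    have hnd : M.e (M.nd a) W = M.e {a} W + M.e {M.μ a} W := by
      rw [nd_eq_union, M.e_union_left (by simpa using (M.ne a).symm)]
    have hle := M.e_le {M.μ a} W
    rw [card_singleton] at hle
    have ht : M.e {M.μ a} W = 2 := by
      by_contra hcon
      have k1 := M.d_sdiff hP
      rw [e_nd_nd, nd_card] at k1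
      have k2 := card_sdiff_add_card_eq_card hP
      rw [nd_card] at k2
      have k3 : (W \ M.nd a).Nonempty := by
        rw [nonempty_iff_ne_empty]
        intro h
        have : W = M.nd a := by
          apply subset_antisymm _ hP
          intro x hx
          by_contra hx'
          have : x ∈ W \ M.nd a := mem_sdiff.2 ⟨hx, hx'⟩
          rw [h] at this; exact notMem_empty _ this
        rw [this, d_nd] at hd
        omega
      have k4 := hl _ sdiff_subset (hW.sdiff (Mc_nd a)) k3 (by
        intro h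
        have : a ∈ W \ M.nd a := by rw [h]; exact ha
        exact (mem_sdiff.1 this).2 (self_mem_nd a))
      omega
    obtain ⟨t1, ht1, _, hat1⟩ := exists_other ht a
    obtain ⟨t2, ht2, hne, hat2⟩ := exists_other ht t1
    refine base2 hW hT h2 hd.le hl (hW a ha) ht1 ht2 hat1 hat2 hne.symm ?_
    rw [nd_mu]; omega
  · push Not at hl
    obtain ⟨Y, hYW, hY, hYne, hYne', hdY⟩ := hl
    obtain ⟨y0, hy0⟩ := hYne
    have hYu : Y ≠ univ := by
      rintro rfl
      exact hYne' (subset_antisymm hYW (subset_univ _))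
    have hdY2 := hY.two_le_d ⟨y0, hy0⟩ hYu
    obtain ⟨k, hk⟩ := M.d_even Y
    obtain ⟨k', hk'⟩ := hY.even_card
    have hY4 : Y.card % 4 = 0 := by
      by_contra h
      have := hmin Y hYW hY (by omega) hYne'
      omega
    have hWYne : (W \ Y).Nonempty := by
      rw [sdiff_nonempty]
      intro h; exact hYne' (subset_antisymm hYW h)
    have hcYW := card_sdiff_add_card_eq_card hYW
    have hmcWY : M.Mc (W \ Y) := hW.sdiff hY
    -- an edge
    have hedge : 0 < M.e Y (W \ Y) := by
      by_contra h0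
      have h1 := M.d_union (A := Y) (B := W \ Y) disjoint_sdiff
      rw [union_sdiff_of_subset hYW] at h1
      have h3 := hmcWY.two_le_d hWYne (by
        intro h
        have : y0 ∈ W \ Y := by rw [h]; exact mem_univ _
        exact (mem_sdiff.1 this).2 hy0)
      omega
    obtain ⟨y1, hy1, u, hu, hyu⟩ := M.e_pos_iff.1 hedge
    have huW := (mem_sdiff.1 hu).1
    have huY := (mem_sdiff.1 hu).2
    have hny1 : M.nd y1 ⊆ Y := hY.nd_subset hy1
    obtain ⟨x, hx, hyx⟩ : ∃ x ∈ Y, M.H.Adj y1 x := by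
      by_contra hcon
      push Not at hcon
      have h1 : M.e {y1} Y = 0 := by
        rw [M.e_eq_zero_iff]
        intro a ha b hb
        rw [mem_singleton] at ha; subst ha
        exact hcon b hb
      have h3 : M.e (M.nd y1) Y = M.e {y1} Y + M.e {M.μ y1} Y := by
        rw [nd_eq_union, M.e_union_left (by simpa using (M.ne y1).symm)]
      have h4 := M.e_le {M.μ y1} Y
      rw [card_singleton] at h4
      have h5 := M.d_sdiff hny1
      rw [e_nd_nd, nd_card] at h5
      have h6 := card_sdiff_add_card_eq_card hny1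
      rw [nd_card] at h6
      have h7 : Y.card ≠ 0 := by rw [Ne, card_eq_zero]; rintro rfl; exact notMem_empty _ hy0
      have := hmin (Y \ M.nd y1) (sdiff_subset.trans hYW) (hY.sdiff (Mc_nd _)) (by omega) (by
        intro h
        have : y1 ∈ Y \ M.nd y1 := by rw [h]; exact hYW hy1
        exact (mem_sdiff.1 this).2 (self_mem_nd y1))
      omega
    have hxn : x ∉ M.nd y1 := by
      rw [mem_nd]; rintro (rfl | rfl)
      · exact M.H.loopless.irrefl _ hyx
      · exact M.Hne _ hyx
    have dyx : Disjoint (M.nd y1) (M.nd x) := (nd_disjoint hxn).symm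
    set K := M.nd y1 ∪ M.nd x with hK
    have hKY : K ⊆ Y := union_subset hny1 (hY.nd_subset hx)
    have hKmc : M.Mc K := (Mc_nd _).union (Mc_nd _)
    have hKcard : K.card = 4 := by rw [hK, card_union_of_disjoint dyx, nd_card, nd_card]
    have hnotW : ∀ c ⊆ W, u ∉ c → c ≠ W := by rintro c _ h rfl; exact h huW
    have hnotW' : ∀ c ⊆ W, y1 ∉ c → c ≠ W := by rintro c _ h rfl; exact h (hYW hy1)
    have hcov1 : M.Cov (Y \ K) := by
      apply regCov hY hKmc hKY
      · intro v hv; exact hT v (hYW (mem_sdiff.1 hv).1)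
      · have := card_sdiff_add_card_eq_card hKY
        omega
      · intro c hc hmc hcard
        have hcW : c ⊆ W := (hc.trans sdiff_subset).trans hYW
        refine hmin c hcW hmc hcard (hnotW c hcW fun h => huY ((hc.trans sdiff_subset) h))
      · have h1 : 2 ≤ M.e K K := by
          have h1 : M.e K K = M.e (M.nd y1) K + M.e (M.nd x) K := M.e_union_left dyx _
          have h2 : 1 ≤ M.e (M.nd y1) K := by
            rw [Nat.succ_le_iff, M.e_pos_iff]
            exact ⟨y1, self_mem_nd _, x, mem_union_right _ (self_mem_nd _), hyx⟩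
          have h3 : 1 ≤ M.e (M.nd x) K := by
            rw [Nat.succ_le_iff, M.e_pos_iff]
            exact ⟨x, self_mem_nd _, y1, mem_union_left _ (self_mem_nd _), hyx.symm⟩
          omega
        have h3 : M.e K univ = M.e K Y + M.e K (univ \ Y) := M.e_sdiff (subset_univ _) _
        have h4 := M.e_univ_le K
        have h5 : 0 < M.e K (univ \ Y) := by
          rw [M.e_pos_iff]
          exact ⟨y1, mem_union_left _ (self_mem_nd _), u, by simpa using huY, hyu⟩
        omega
    have hnu : M.nd u ⊆ W \ Y := hmcWY.nd_subset hu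
    have hcov2 : M.Cov ((W \ Y) \ M.nd u) := by
      apply regCov hmcWY (Mc_nd u) hnu
      · intro v hv; exact hT v (mem_sdiff.1 (mem_sdiff.1 hv).1).1
      · have := card_sdiff_add_card_eq_card hnu
        rw [nd_card] at this
        omega
      · intro c hc hmc hcard
        have hcW : c ⊆ W := (hc.trans sdiff_subset).trans sdiff_subset
        refine hmin c hcW hmc hcard (hnotW c hcW fun h => ?_)
        exact (mem_sdiff.1 (hc h)).2 (self_mem_nd u)
      · rw [e_nd_nd, nd_card]
        have h1 := M.d_sdiff hYW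
        have h2 := M.e_le Y W
        have h3 := M.d_add Y
        have h4 : M.e (M.nd u) univ = M.e (M.nd u) (W \ Y) + M.e (M.nd u) (univ \ (W \ Y)) :=
          M.e_sdiff (subset_univ _) _
        have h5 := M.e_univ_le (M.nd u)
        rw [nd_card] at h5
        have h6 : 0 < M.e (M.nd u) (univ \ (W \ Y)) := by
          rw [M.e_pos_iff]
          refine ⟨u, self_mem_nd _, y1, ?_, hyu.symm⟩
          rw [mem_sdiff]
          exact ⟨mem_univ _, fun h => (mem_sdiff.1 h).2 hy1⟩
        omega
    have dKu : Disjoint (M.nd y1) (M.nd u) := by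
      apply Disjoint.symm
      apply hY.nd_disjoint huY |>.mono_right hny1
    have dxu : Disjoint (M.nd u) (M.nd x) := (hY.nd_disjoint huY).mono_right (hY.nd_subset hx)
    have hcov3 : M.Cov (M.nd y1 ∪ M.nd u ∪ M.nd x) :=
      CovX.cov_triple (Mc_nd _) (Mc_nd _) (Mc_nd _) dKu dyx dxu (hT y1 (hYW hy1)).covX
        (hT u huW).covX (hT x (hYW hx)).covX hyu hyx
    have hcov4 : M.Cov ((Y \ K) ∪ ((W \ Y) \ M.nd u)) := by
      apply Cov.union (hY.sdiff hKmc) (hmcWY.sdiff (Mc_nd u)) _ hcov1 hcov2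
      apply Disjoint.mono sdiff_subset sdiff_subset
      exact disjoint_sdiff
    have hfin := Cov.union (((Mc_nd y1).union (Mc_nd u)).union (Mc_nd x))
      ((hY.sdiff hKmc).union (hmcWY.sdiff (Mc_nd u))) ?_ hcov3 hcov4
    · convert hfin using 1
      ext v
      have a1 : v ∈ M.nd y1 → v ∈ Y := fun h => hny1 h
      have a2 : v ∈ M.nd x → v ∈ Y := fun h => hY.nd_subset hx h
      have a3 : v ∈ M.nd u → v ∈ W ∧ v ∉ Y := fun h => mem_sdiff.1 (hnu h)
      have a4 : v ∈ Y → v ∈ W := fun h => hYW h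
      simp only [mem_union, mem_sdiff, hK]
      tauto
    · rw [Finset.disjoint_left]
      intro v hv hv'
      rcases mem_union.1 hv' with h | h
      · obtain ⟨hvY, hvK⟩ := mem_sdiff.1 h
        rcases mem_union.1 hv with hv | hv
        · rcases mem_union.1 hv with hv | hv
          · exact hvK (mem_union_left _ hv)
          · exact (mem_sdiff.1 (hnu hv)).2 hvY
        · exact hvK (mem_union_right _ hv)
      · obtain ⟨hvY, hvu⟩ := mem_sdiff.1 h
        rcases mem_union.1 hv with hv | hv
        · rcases mem_union.1 hv with hv | hv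
          · exact (mem_sdiff.1 hvY).2 (hny1 hv)
          · exact hvu hv
        · exact (mem_sdiff.1 hvY).2 (hY.nd_subset hx hv)

end Setup

end Pool.Agent.LTD
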