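import Pool.Agent.Lib.MP_a46439_co.Bip4

set_option autoImplicit false

/-! Odd regions without a cover are bipartite. -/

namespace Pool.Agent.LTD

open Finset TB

namespace Setup

variable {V : Type} [Fintype V] [DecidableEq V] {M : Setup V}

/-- the structure of single-node violators: `U` is empty or a single node. -/
lemma Ctx.small {W : Finset V} (X : M.Ctx W) {a b : V} (ha : a ∈ W) (hb : b ∈ W)
    (hab : M.H.Adj a b) {U : Finset V} {C : Finset (Finset V)} {D R : Finset V}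
    (h : M.Viol W a b U C) (he : M.VEq W a b U C D R) (hp : ∀ x ∈ C, x.card = 2)
    (hs : ∀ Y ⊆ U.image M.nd, Y.Nonempty → Y.card + 1 ≤ (Y.biUnion (M.Nb C)).card)
    (hcard : 2 * C.card = U.card + 2) (hd4 : ∀ x ∈ C, M.d x = 4) (hdR : M.d R ≤ 4)
    (hsp : 2 * U.card ≤ M.e U D + 2) :
    U = ∅ ∨ (U.card = 2 ∧ M.e U D = 2) := by
  classical
  by_cases hU : U = ∅
  · exact Or.inl hU
  right
  have hUc := h.node_card
  obtain ⟨u0, hu0⟩ := nonempty_iff_ne_empty.2 hU
  have hIne : (U.image M.nd).Nonempty := ⟨_, mem_image_of_mem _ hu0⟩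
  -- special nodes
  have hsmall : ∀ v ∈ U, (∀ p ∈ M.Nb C (M.nd v), ∀ q ∈ M.Nb C (M.nd v),
      ¬ Blocked (U.image M.nd) (M.Nb C) (M.nd v) p q) → M.e (M.nd v) D ≤ 2 := by
    intro v hv hB
    have hv' : M.μ v ∈ U := h.mcU v hv
    have l1 := M.e_le {v} D
    have l2 := M.e_le {M.μ v} D
    rw [card_singleton] at l1 l2
    have n1 : M.e {v} D ≠ 2 := by
      intro h2
      obtain ⟨p, hp', q, hq, hb', _⟩ := X.blocked ha hb hab h he hp hcard hd4 hdR hv h2
      exact hB p hp' q hq hb'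
    have n2 : M.e {M.μ v} D ≠ 2 := by
      intro h2
      obtain ⟨p, hp', q, hq, hb', _⟩ := X.blocked ha hb hab h he hp hcard hd4 hdR hv' h2
      rw [nd_mu] at hp' hq hb'
      exact hB p hp' q hq hb'
    have h3 := e_nd_left (M := M) D v
    omega
  have hNC : ∀ Y : Finset (Finset V), Y.biUnion (M.Nb C) ⊆ C := by
    intro Y x hx
    obtain ⟨A, _, hx⟩ := mem_biUnion.1 hx
    exact (mem_Nb.1 hx).1
  obtain ⟨A0, hA0, hA0'⟩ := exists_unblocked hs (subset_refl _) hIne (by
    have := card_le_card (hNC (U.image M.nd))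
    omega)
  obtain ⟨v0, hv0, rfl⟩ := mem_image.1 hA0
  have h0 := hsmall v0 hv0 hA0'
  have hv0U : M.nd v0 ⊆ U := h.mcU.nd_subset hv0
  have h1 : M.e U D = M.e (M.nd v0) D + M.e (U \ M.nd v0) D := M.e_sdiff_left hv0U _
  have h2 := M.e_le (U \ M.nd v0) D
  have h3 := card_sdiff_add_card_eq_card hv0U
  rw [nd_card] at h3
  have hfull : 2 * (U \ M.nd v0).card ≤ M.e (U \ M.nd v0) D := by omega
  have hv0D : M.e (M.nd v0) D = 2 := by omega
  by_contra hcon
  have hne : (U \ M.nd v0).Nonempty := by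
    rw [← card_pos]
    by_contra h4
    apply hcon
    constructor <;> omega
  obtain ⟨w, hw⟩ := hne
  have hwU := (mem_sdiff.1 hw).1
  have hw' : M.μ w ∈ U \ M.nd v0 := (h.mcU.sdiff (Mc_nd v0)) w hw
  have hwU' := (mem_sdiff.1 hw').1
  have e1 := e_eq_two_of_full hfull hw
  have e2 := e_eq_two_of_full hfull hw'
  obtain ⟨p, hp', q, hq, hB1, hn1⟩ := X.blocked ha hb hab h he hp hcard hd4 hdR hwU e1
  obtain ⟨r, hr, s, hs', hB2, hn2⟩ := X.blocked ha hb hab h he hp hcard hd4 hdR hwU' e2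
  rw [nd_mu] at hr hs' hB2
  obtain ⟨Y, hY, hYne, hYt, hpY, hqY, _⟩ := hB1.tight hs
  obtain ⟨Z, hZ, hZne, hZt, hrZ, hsZ, _⟩ := hB2.tight hs
  have hkey : ∀ Y ⊆ (U.image M.nd).erase (M.nd w), Y.Nonempty →
      (Y.biUnion (M.Nb C)).card ≤ Y.card + 1 → M.nd v0 ∈ Y := by
    intro Y hY hYne hYt
    obtain ⟨A, hA, hA'⟩ := exists_unblocked hs (hY.trans (erase_subset _ _)) hYne hYt
    obtain ⟨v1, hv1, rfl⟩ := mem_image.1 ((hY.trans (erase_subset _ _)) hA)
    have h5 := hsmall v1 hv1 hA'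
    by_cases h6 : v1 ∈ M.nd v0
    · rw [← nd_eq_of_mem h6]; exact hA
    · exfalso
      have h7 : v1 ∈ U \ M.nd v0 := mem_sdiff.2 ⟨hv1, h6⟩
      have h8 : M.μ v1 ∈ U \ M.nd v0 := (h.mcU.sdiff (Mc_nd v0)) v1 h7
      have h9 := e_eq_two_of_full hfull h7
      have h10 := e_eq_two_of_full hfull h8
      have h11 := e_nd_left (M := M) D v1
      omega
  have hv0Y := hkey Y hY hYne hYt
  have hv0Z := hkey Z hZ hZne hZt
  obtain ⟨u, hu, y, hy, huy⟩ := M.e_pos_iff.1 (show 0 < M.e (M.nd v0) D by omega)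
  have hy' := hy
  rw [he.Ddef] at hy'
  obtain ⟨x0, hx0, hyx0⟩ := mem_biUnion.1 hy'
  have hx0N : x0 ∈ M.Nb C (M.nd v0) := by
    rw [mem_Nb, M.e_pos_iff]; exact ⟨hx0, u, hu, y, hyx0, huy⟩
  refine tight_union hs (mem_image_of_mem _ hwU) hY hZ hYt hZt
    (mem_biUnion.2 ⟨_, hv0Y, hx0N⟩) (mem_biUnion.2 ⟨_, hv0Z, hx0N⟩) ?_
  intro x hx
  rw [mem_Nb, M.e_pos_iff] at hx
  obtain ⟨hxC, t, ht, z, hz, htz⟩ := hx
  have hzD : z ∈ D := by rw [he.Ddef]; exact mem_biUnion.2 ⟨x, hxC, hz⟩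
  have hsame : ∀ p ∈ C, z ∈ p → x = p := by
    intro p hpC hzp
    by_contra hne
    exact Finset.disjoint_left.1 (h.disj x hxC p hpC hne) hz hzp
  rw [mem_union]
  rw [mem_nd] at ht
  rcases ht with rfl | rfl
  · left
    rcases hn1 z hzD htz with h5 | h5
    · rw [hsame p (mem_Nb.1 hp').1 h5]; exact hpY
    · rw [hsame q (mem_Nb.1 hq).1 h5]; exact hqY
  · right
    rcases hn2 z hzD htz with h5 | h5
    · rw [hsame r (mem_Nb.1 hr).1 h5]; exact hrZ
    · rw [hsame s (mem_Nb.1 hs').1 h5]; exact hsZ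

/-- The window lemma. -/
lemma Ctx.window {W : Finset V} (X : M.Ctx W) {a b : V} (ha : a ∈ W) (hb : b ∈ W)
    (hab : M.H.Adj a b) (hβ : M.e {M.μ a} W + M.e {M.μ b} W ≤ 3) :
    M.e {M.μ a} W + M.e {M.μ b} W = 3 ∧ M.e {a} W = 2 ∧ ∃ z ∈ W, M.e (M.nd z) W ≤ 2 := by
  classical
  obtain ⟨U, C, h, hp, hs⟩ := X.exists_single ha hb hab hβ
  obtain ⟨D, R, he⟩ := h.eqs X.mc ha hb hab (X.np ha hb)
  obtain ⟨hβ3, hcard, hd4, hsum, hdR, hRne, hRe⟩ := X.tight ha h he hβ
  have l1 := M.e_le {a} W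
  have l2 := M.e_le {b} W
  have l3 := M.e_le {M.μ a} W
  have l4 := M.e_le {M.μ b} W
  rw [card_singleton] at l1 l2 l3 l4
  have l5 := M.e_le U W
  have l6 := M.e_le D W
  have l7 := M.e_le R W
  have h1 := he.ea
  have h2 := he.eb
  have h3 := he.ea'
  have h4 := he.eb'
  have h5 := he.eU
  have h6 := he.dD
  have h7 := he.eD
  have h8 := he.tot
  have h9 := X.d4
  have hsp : 2 * U.card ≤ M.e U D + 2 := by omega
  have hsmall := X.small ha hb hab h he hp hs hcard hd4 hdR hsp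
  have hz : ∀ x ∈ C, ∃ z ∈ W, x = M.nd z := by
    intro x hx
    have h10 := hp x hx
    obtain ⟨z, hz⟩ : x.Nonempty := by rw [← card_pos]; omega
    exact ⟨z, ((h.CW x hx).trans sdiff_subset) hz, nd_of_card (h.mcC x hx) h10 hz⟩
  have hone : ∀ x ∈ C, M.e {M.μ a} x + M.e {M.μ b} x ≤ 2 := by
    intro x hx
    obtain ⟨z, hzW, rfl⟩ := hz x hx
    have h11 := X.np ha hzW
    have h12 := X.np hb hzW
    rw [e_nd_left] at h11 h12
    omega
  have hUe : U = ∅ → ∃ z ∈ W, D = M.nd z ∧ M.e {M.μ a} D + M.e {M.μ b} D ≤ 2 := by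
    intro hU
    rw [hU, card_empty] at hcard
    obtain ⟨x, hx⟩ := card_eq_one.1 (show C.card = 1 by omega)
    have hxC : x ∈ C := by rw [hx]; exact mem_singleton_self x
    have hDx : D = x := by rw [he.Ddef, hx, singleton_biUnion]; rfl
    obtain ⟨z, hzW, hzx⟩ := hz x hxC
    refine ⟨z, hzW, by rw [hDx, hzx], ?_⟩
    rw [hDx]; exact hone x hxC
  refine ⟨hβ3, ?_, ?_⟩
  · by_contra hcon
    have hR : R = ∅ := by
      by_contra hR
      exact hcon (hRne hR).1
    obtain ⟨k1, k2, k3, k4⟩ := hRe hR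
    have z1 : M.e {a} R = 0 := by rw [hR]; simp
    have z2 : M.e {b} R = 0 := by rw [hR]; simp
    have z3 : M.e {M.μ a} R = 0 := by rw [hR]; simp
    have z4 : M.e {M.μ b} R = 0 := by rw [hR]; simp
    have z5 : M.e U R = 0 := by rw [hR]; simp
    rcases hsmall with hU | ⟨hU, hUD⟩
    · obtain ⟨z, hzW, hD, hk⟩ := hUe hU
      omega
    · omega
  · rcases hsmall with hU | ⟨hU, hUD⟩
    · obtain ⟨z, hzW, hD, hk⟩ := hUe hU
      refine ⟨z, hzW, ?_⟩
      rw [← hD]
      have hUD : M.e U D = 0 := by rw [hU]; simp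
      have hU0 : U.card = 0 := by rw [hU]; rfl
      have hDc : D.card = 2 := by rw [hD, nd_card]
      omega
    · obtain ⟨x, y, hxy, hC⟩ := card_eq_two.1 (show C.card = 2 by omega)
      have hxC : x ∈ C := by rw [hC]; simp
      have hyC : y ∈ C := by rw [hC]; simp
      have hDxy : D = x ∪ y := by
        rw [he.Ddef, hC]; ext z; simp
      have dxy : Disjoint x y := h.disj x hxC y hyC hxy
      have hDc : D.card = 4 := by rw [hDxy, card_union_of_disjoint dxy, hp x hxC, hp y hyC]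
      have hDW : M.e D W = M.e x W + M.e y W := by rw [hDxy]; exact M.e_union_left dxy _
      obtain ⟨z, hzW, hzx⟩ := hz x hxC
      obtain ⟨t, htW, hty⟩ := hz y hyC
      by_cases h10 : M.e x W ≤ 2
      · exact ⟨z, hzW, by rw [← hzx]; exact h10⟩
      · refine ⟨t, htW, ?_⟩
        rw [← hty]
        omega

lemma exists_nbr {v : V} {W : Finset V} (h : 0 < M.e {v} W) : ∃ y ∈ W, M.H.Adj v y := by
  obtain ⟨u, hu, y, hy, h'⟩ := M.e_pos_iff.1 h
  rw [mem_singleton] at hu
  subst hu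
  exact ⟨y, hy, h'⟩

/-- The factor-critical case does not occur. -/
theorem Ctx.false {W : Finset V} (X : M.Ctx W) : False := by
  classical
  -- every node has at least two ends inside
  have htwo : ∀ s ∈ W, 2 ≤ M.e (M.nd s) W := by
    intro s hs
    have hsub : M.nd s ⊆ W := X.mc.nd_subset hs
    have h1 := M.d_sdiff hsub
    rw [e_nd_nd, nd_card, X.d4] at h1
    have h2 := card_sdiff_add_card_eq_card hsub
    rw [nd_card] at h2
    have h3 := X.big
    have h4 := X.light (W \ M.nd s) sdiff_subset (X.mc.sdiff (Mc_nd s))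
      (by rw [← card_pos]; omega) (by
        intro h
        have : s ∈ W \ M.nd s := by rw [h]; exact hs
        exact (mem_sdiff.1 this).2 (self_mem_nd s))
    omega
  obtain ⟨s, hs, hs1⟩ : ∃ s ∈ W, M.e {s} W ≤ 1 := by
    by_contra hcon
    push Not at hcon
    have : ∀ A ⊆ W, 2 * A.card ≤ M.e A W := by
      intro A
      induction A using Finset.induction_on with
      | empty => simp
      | insert a A ha ih =>
        intro hA
        have h3 : insert a A = {a} ∪ A := by ext; simp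
        have h4 := ih ((subset_insert _ _).trans hA)
        have h5 := hcon a (hA (mem_insert_self _ _))
        rw [card_insert_of_notMem ha, h3, M.e_union_left (by simpa using ha)]
        omega
    have h1 := this W (subset_refl _)
    have h2 := M.d_add W
    rw [X.d4] at h2
    omega
  have hle : ∀ v : V, M.e {v} W ≤ 2 := by
    intro v
    have := M.e_le {v} W
    rwa [card_singleton] at this
  obtain ⟨z, hz, hz2⟩ : ∃ z ∈ W, M.e (M.nd z) W ≤ 2 := by
    have h1 := htwo s hs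
    rw [e_nd_left] at h1
    obtain ⟨b, hb, hab⟩ := exists_nbr (M := M) (v := M.μ s) (W := W) (by omega)
    have h2 := X.window (X.mc s hs) hb hab (by rw [M.inv]; have := hle (M.μ b); omega)
    exact h2.2.2
  have h1 := htwo z hz
  rw [e_nd_left] at h1 hz2
  have hz' := X.mc z hz
  by_cases h3 : M.e {M.μ z} W = 0
  · obtain ⟨b, hb, hab⟩ := exists_nbr (M := M) (v := z) (W := W) (by omega)
    have h4 := hle (M.μ b)
    have h2 := X.window hz hb hab (by omega)
    omega
  · by_cases h5 : M.e {z} W = 0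
    · obtain ⟨b, hb, hab⟩ := exists_nbr (M := M) (v := M.μ z) (W := W) (by omega)
      have h4 := hle (M.μ b)
      have h2 := X.window hz' hb hab (by rw [M.inv]; omega)
      rw [M.inv] at h2
      omega
    · obtain ⟨b, hb, hab⟩ := exists_nbr (M := M) (v := z) (W := W) (by omega)
      have h4 := hle (M.μ b)
      have h2 := X.window hz hb hab (by omega)
      omega

/-- **Odd regions without a cover are bipartite.** -/
theorem bip_of_not_cov {c : Finset V} (hc : M.Mc c) (hT : ∀ v ∈ c, M.TV v)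
    (h2 : c.card % 4 = 2) (hd : M.d c = 4)
    (hlight : ∀ c' ⊆ c, M.Mc c' → c'.Nonempty → c' ≠ c → 4 ≤ M.d c') (hn : ¬ M.Cov c) :
    ∃ U ⊆ c, M.Mc U ∧ M.e U c = 2 * U.card ∧ M.e U U = 0 ∧ M.e (c \ U) (c \ U) = 0 ∧
      (c \ U).card = U.card + 2 := by
  classical
  have key : ∀ n, M.BipIH n := by
    intro n
    induction n with
    | zero => intro c hc; omega
    | succ n ih =>
      intro c hcn hc hT h2 hd hlight hn
      by_cases hlt : c.card < n
      · exact ih c hlt hc hT h2 hd hlight hn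
      have hcn' : c.card = n := by omega
      by_cases hfc : ∀ v ∈ c, M.Cov (c \ M.nd v)
      · by_cases hbig : 2 < c.card
        · exfalso
          exact Ctx.false (M := M) (W := c) ⟨hc, hT, h2, hd, hlight, hn, hfc, hbig, hcn' ▸ ih⟩
        · refine ⟨∅, empty_subset _, Mc_empty, by simp, by simp, ?_, ?_⟩
          · rw [sdiff_empty]
            have := M.d_add c
            omega
          · rw [sdiff_empty, card_empty]; omega
      · push Not at hfc
        obtain ⟨v, hv, hnv⟩ := hfc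
        exact bip_nf hc hT h2 hd hlight hn (hcn' ▸ ih) hv hnv
  obtain ⟨U, h1, h3, h4, h5, h6, h7⟩ := key (c.card + 1) c (by omega) hc hT h2 hd hlight hn
  exact ⟨U, h1, h3, h4, h5, h6, h7⟩

end Setup

end Pool.Agent.LTD
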