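import Mathlib

set_option autoImplicit false

/-! Abstract lemmas about tight sets in a bipartite incidence structure with positive surplus. -/

namespace Pool.Agent.LTD.TB

open Finset

variable {α β : Type} [DecidableEq α] [DecidableEq β]

/-- There is no matching of `I \ {i}` avoiding `p` and `q` (Hall's condition fails). -/
def Blocked (I : Finset α) (N : α → Finset β) (i : α) (p q : β) : Prop :=
  ∃ X ⊆ I.erase i, ((X.biUnion N) \ {p, q}).card < X.card

variable {I : Finset α} {N : α → Finset β}

/-- A blocked pair gives a tight set. -/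
lemma Blocked.tight (hs : ∀ X ⊆ I, X.Nonempty → X.card + 1 ≤ (X.biUnion N).card)
    {i : α} {p q : β} (h : Blocked I N i p q) :
    ∃ X ⊆ I.erase i, X.Nonempty ∧ (X.biUnion N).card ≤ X.card + 1 ∧ p ∈ X.biUnion N ∧
      q ∈ X.biUnion N ∧ p ≠ q := by
  obtain ⟨X, hX, hlt⟩ := h
  have hne : X.Nonempty := by rw [← card_pos]; omega
  have h1 := hs X (hX.trans (erase_subset _ _)) hne
  have h2 : (X.biUnion N).card ≤ ((X.biUnion N) \ {p, q}).card + ({p, q} : Finset β).card := by
    have := le_card_sdiff ({p, q} : Finset β) (X.biUnion N)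
    omega
  have h3 : ({p, q} : Finset β).card ≤ 2 := card_le_two
  have hpq : p ≠ q := by
    rintro rfl
    have h4 : ({p, p} : Finset β) = {p} := by simp
    rw [h4] at h2 hlt
    rw [card_singleton] at h2
    omega
  have key : ∀ r s : β, ({p, q} : Finset β) = {r, s} → r ∈ X.biUnion N := by
    intro r s hrs
    by_contra hr
    have h4 : (X.biUnion N) \ {p, q} = (X.biUnion N) \ {s} := by
      rw [hrs]
      ext z
      simp only [mem_sdiff, mem_insert, mem_singleton, not_or]
      constructor
      · rintro ⟨h1, _, h2⟩; exact ⟨h1, h2⟩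
      · rintro ⟨h1, h2⟩
        refine ⟨h1, ?_, h2⟩
        rintro rfl; exact hr h1
    have h5 := le_card_sdiff ({s} : Finset β) (X.biUnion N)
    rw [card_singleton] at h5
    rw [h4] at hlt
    omega
  exact ⟨X, hX, hne, by omega, key p q rfl, key q p (pair_comm p q), hpq⟩

/-- Minimal tight sets: some element has no blocked pair at all. -/
theorem exists_unblocked (hs : ∀ X ⊆ I, X.Nonempty → X.card + 1 ≤ (X.biUnion N).card)
    {Y : Finset α} (hY : Y ⊆ I) (hne : Y.Nonempty) (ht : (Y.biUnion N).card ≤ Y.card + 1) :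
    ∃ i ∈ Y, ∀ p ∈ N i, ∀ q ∈ N i, ¬ Blocked I N i p q := by
  classical
  induction hk : Y.card using Nat.strong_induction_on generalizing Y with
  | _ k ih =>
  obtain ⟨i, hi⟩ := hne
  by_cases hgood : ∀ p ∈ N i, ∀ q ∈ N i, ¬ Blocked I N i p q
  · exact ⟨i, hi, hgood⟩
  push Not at hgood
  obtain ⟨p, hp, q, hq, hB⟩ := hgood
  obtain ⟨X, hX, hXne, hXt, hpX, hqX, hpq⟩ := hB.tight hs
  have hXI : X ⊆ I := hX.trans (erase_subset _ _)
  have hpY : p ∈ Y.biUnion N := mem_biUnion.2 ⟨i, hi, hp⟩
  have hqY : q ∈ Y.biUnion N := mem_biUnion.2 ⟨i, hi, hq⟩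
  have h1 : ((X ∪ Y).biUnion N) = X.biUnion N ∪ Y.biUnion N := union_biUnion
  have h2 := card_union_add_card_inter (X.biUnion N) (Y.biUnion N)
  have h3 := card_union_add_card_inter X Y
  have h4 : (X ∩ Y).biUnion N ⊆ X.biUnion N ∩ Y.biUnion N := by
    apply subset_inter
    · exact biUnion_subset_biUnion_of_subset_left _ inter_subset_left
    · exact biUnion_subset_biUnion_of_subset_left _ inter_subset_right
  have h5 := card_le_card h4
  have h6 := hs (X ∪ Y) (union_subset hXI hY) (hXne.mono subset_union_left)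
  rw [h1] at h6
  by_cases hcap : (X ∩ Y).Nonempty
  · have h7 := hs (X ∩ Y) (inter_subset_left.trans hXI) hcap
    have hlt : (X ∩ Y).card < Y.card := by
      apply card_lt_card
      refine ⟨inter_subset_right, fun h => ?_⟩
      have := mem_inter.1 (h hi)
      exact (mem_erase.1 (hX this.1)).1 rfl
    obtain ⟨j, hj, hj'⟩ := ih (X ∩ Y).card (by omega) (inter_subset_left.trans hXI) hcap
      (by omega) rfl
    exact ⟨j, (mem_inter.1 hj).2, hj'⟩
  · exfalso
    rw [not_nonempty_iff_eq_empty] at hcap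
    rw [hcap, card_empty] at h3
    have h8 : ({p, q} : Finset β) ⊆ X.biUnion N ∩ Y.biUnion N := by
      intro z hz
      rw [mem_insert, mem_singleton] at hz
      rcases hz with rfl | rfl
      · exact mem_inter.2 ⟨hpX, hpY⟩
      · exact mem_inter.2 ⟨hqX, hqY⟩
    have h9 := card_le_card h8
    rw [card_pair hpq] at h9
    omega

/-- Two tight sets with a common neighbour that contain all neighbours of `i`. -/
theorem tight_union (hs : ∀ X ⊆ I, X.Nonempty → X.card + 1 ≤ (X.biUnion N).card)
    {i : α} (hi : i ∈ I) {X X' : Finset α} (hX : X ⊆ I.erase i) (hX' : X' ⊆ I.erase i)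
    (ht : (X.biUnion N).card ≤ X.card + 1) (ht' : (X'.biUnion N).card ≤ X'.card + 1)
    {v : β} (hv : v ∈ X.biUnion N) (hv' : v ∈ X'.biUnion N)
    (hN : N i ⊆ X.biUnion N ∪ X'.biUnion N) : False := by
  classical
  have hXI : X ⊆ I := hX.trans (erase_subset _ _)
  have hXI' : X' ⊆ I := hX'.trans (erase_subset _ _)
  have h1 : ((X ∪ X').biUnion N) = X.biUnion N ∪ X'.biUnion N := union_biUnion
  have h2 := card_union_add_card_inter (X.biUnion N) (X'.biUnion N)
  have h3 := card_union_add_card_inter X X'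
  have hiu : i ∉ X ∪ X' := by
    rw [mem_union, not_or]
    exact ⟨fun h => (mem_erase.1 (hX h)).1 rfl, fun h => (mem_erase.1 (hX' h)).1 rfl⟩
  have h4 : ((insert i (X ∪ X')).biUnion N) = X.biUnion N ∪ X'.biUnion N := by
    rw [biUnion_insert, h1]
    exact union_eq_right.2 hN
  have h5 := hs (insert i (X ∪ X')) (insert_subset hi (union_subset hXI hXI')) (insert_nonempty _ _)
  rw [h4, card_insert_of_notMem hiu] at h5
  have h6 : (X ∩ X').biUnion N ⊆ X.biUnion N ∩ X'.biUnion N := by
    apply subset_inter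
    · exact biUnion_subset_biUnion_of_subset_left _ inter_subset_left
    · exact biUnion_subset_biUnion_of_subset_left _ inter_subset_right
  have h7 := card_le_card h6
  by_cases hcap : (X ∩ X').Nonempty
  · have h8 := hs (X ∩ X') (inter_subset_left.trans hXI) hcap
    omega
  · rw [not_nonempty_iff_eq_empty] at hcap
    rw [hcap, card_empty] at h3
    have h9 : 1 ≤ (X.biUnion N ∩ X'.biUnion N).card := card_pos.2 ⟨v, mem_inter.2 ⟨hv, hv'⟩⟩
    omega

end Pool.Agent.LTD.TB
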