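import Pool.Agent.Lib.MP_a46439_co.Base
import Pool.Agent.Lib.MP_a46439_co.TightB

set_option autoImplicit false

/-! Towards the structure of odd regions without a cover: gluing by Hall's theorem, and the
window form of Tutte's theorem. -/

namespace Pool.Agent.LTD

open Finset

namespace Setup

variable {V : Type} [Fintype V] [DecidableEq V] {M : Setup V}

/-- the components adjacent to `A` -/
noncomputable def Nb (M : Setup V) (C : Finset (Finset V)) (A : Finset V) : Finset (Finset V) :=
  C.filter fun x => 0 < M.e A x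

lemma mem_Nb {C : Finset (Finset V)} {A x : Finset V} :
    x ∈ M.Nb C A ↔ x ∈ C ∧ 0 < M.e A x := by
  unfold Nb; rw [mem_filter]

/-- Gluing along a Hall matching. -/
theorem hall_cov {I C : Finset (Finset V)} (hI : ∀ A ∈ I, M.Mc A) (hC : ∀ x ∈ C, M.Mc x)
    (hId : ∀ A ∈ I, ∀ B ∈ I, A ≠ B → Disjoint A B)
    (hCd : ∀ A ∈ C, ∀ B ∈ C, A ≠ B → Disjoint A B)
    (hIC : ∀ A ∈ I, ∀ x ∈ C, Disjoint A x)
    (hIX : ∀ A ∈ I, ∀ u ∈ A, M.CovX A u)
    (hCX : ∀ x ∈ C, ∀ y ∈ x, ∀ u, u ∉ x → M.H.Adj y u → M.CovX x y)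
    (hall : ∀ X ⊆ I, X.card ≤ (X.biUnion (M.Nb C)).card)
    (hcard : C.card ≤ I.card) : M.Cov (I.biUnion id ∪ C.biUnion id) := by
  classical
  let ι := {A : Finset V // A ∈ I}
  let t : ι → Finset (Finset V) := fun A => M.Nb C A.1
  have hιcard : Fintype.card ι = I.card := by simp [ι]
  have hHall : ∀ s : Finset ι, s.card ≤ (s.biUnion t).card := by
    intro s
    have h1 := hall (s.map ⟨Subtype.val, Subtype.val_injective⟩) (by
      intro A hA
      simp only [mem_map, Function.Embedding.coeFn_mk] at hA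
      obtain ⟨B, _, rfl⟩ := hA
      exact B.2)
    rw [card_map] at h1
    have h2 : (s.map ⟨Subtype.val, Subtype.val_injective⟩).biUnion (M.Nb C) = s.biUnion t := by
      ext x
      simp only [mem_biUnion, mem_map, Function.Embedding.coeFn_mk, t]
      constructor
      · rintro ⟨A, ⟨B, hB, rfl⟩, hx⟩; exact ⟨B, hB, hx⟩
      · rintro ⟨B, hB, hx⟩; exact ⟨B.1, ⟨B, hB, rfl⟩, hx⟩
    rw [h2] at h1
    exact h1
  obtain ⟨f, hfinj, hf⟩ := (Finset.all_card_le_biUnion_card_iff_exists_injective t).1 hHall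
  have hfC : ∀ A : ι, f A ∈ C := fun A => (mem_Nb.1 (hf A)).1
  have himg : (univ : Finset ι).image f = C := by
    apply eq_of_subset_of_card_le
    · intro x hx
      obtain ⟨A, _, rfl⟩ := mem_image.1 hx
      exact hfC A
    · rw [card_image_of_injective _ hfinj, card_univ, hιcard]
      exact hcard
  have hset : I.biUnion id ∪ C.biUnion id = (univ : Finset ι).biUnion fun A => A.1 ∪ f A := by
    ext x
    simp only [mem_union, mem_biUnion, id, mem_univ, true_and]
    constructor
    · rintro (⟨A, hA, hx⟩ | ⟨c, hc, hx⟩)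
      · exact ⟨⟨A, hA⟩, Or.inl hx⟩
      · rw [← himg, mem_image] at hc
        obtain ⟨A, _, rfl⟩ := hc
        exact ⟨A, Or.inr hx⟩
    · rintro ⟨A, hx | hx⟩
      · exact Or.inl ⟨A.1, A.2, hx⟩
      · exact Or.inr ⟨f A, hfC A, hx⟩
  rw [hset]
  apply Cov.biUnion
  · intro A _; exact (hI _ A.2).union (hC _ (hfC A))
  · intro A _ B _ hAB
    have hAB' : A.1 ≠ B.1 := fun h => hAB (Subtype.ext h)
    simp only [disjoint_union_left, disjoint_union_right]
    refine ⟨⟨hId _ A.2 _ B.2 hAB', ?_⟩, hIC _ A.2 _ (hfC B), ?_⟩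
    · exact (hIC _ B.2 _ (hfC A)).symm
    · exact hCd _ (hfC A) _ (hfC B) fun h => hAB (hfinj h)
  · intro A _
    obtain ⟨u, hu, y, hy, huy⟩ := M.e_pos_iff.1 (mem_Nb.1 (hf A)).2
    have hd := hIC _ A.2 _ (hfC A)
    refine CovX.cov_pair (hI _ A.2) (hC _ (hfC A)) hd (hIX _ A.2 u hu) ?_ huy
    exact hCX _ (hfC A) y hy u (Finset.disjoint_left.1 hd hu) huy.symm

/-- Tutte's theorem for blocks with a set of usable vertices. -/
theorem block_tutte' (us : V → Prop) (P T : Finset (Finset V)) (hmc : ∀ A ∈ P, M.Mc A)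
    (hdis : ∀ A ∈ P, ∀ B ∈ P, A ≠ B → Disjoint A B)
    (hX : ∀ A ∈ P, ∀ u ∈ A, us u → ∀ v, v ∉ A → M.H.Adj u v → M.CovX A u)
    (hF : ∀ A ∈ P, A ∉ T → M.Cov A) :
    M.Cov (P.biUnion id) ∨ ∃ (U : Finset (Finset V)) (C : Finset (Finset (Finset V))),
      U ⊆ P ∧ U.card + 1 ≤ C.card ∧
      (∀ c ∈ C, c ⊆ T ∧ Odd c.card ∧ Disjoint c U ∧
        ∀ A ∈ c, ∀ B ∈ P, B ∉ c → B ∉ U → ∀ u ∈ A, ∀ v ∈ B, us u → us v → ¬ M.H.Adj u v) ∧
      (∀ c ∈ C, ∀ c' ∈ C, c ≠ c' → Disjoint c c') := by
  classical
  let X := {A : Finset V // A ∈ P}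
  let R : SimpleGraph X :=
    { Adj := fun A B => A ≠ B ∧ ∃ u ∈ A.1, ∃ v ∈ B.1, us u ∧ us v ∧ M.H.Adj u v
      symm := ⟨fun A B h => ⟨h.1.symm, by
        obtain ⟨u, hu, v, hv, h1, h2, h3⟩ := h.2
        exact ⟨v, hv, u, hu, h2, h1, h3.symm⟩⟩⟩
      loopless := ⟨fun A h => h.1 rfl⟩ }
  let T' : Finset X := univ.filter fun A => A.1 ∈ T
  rcases T_tutte R T' with ⟨m, hm1, hm2, hm3⟩ | ⟨U, C, hUC, _, hC, hCd⟩
  · left
    have hcov : ∀ A : X, M.Cov (A.1 ∪ (m A).1) := by
      intro A
      by_cases h : m A = A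
      · rw [h, union_self]
        apply hF _ A.2
        intro hT
        exact hm3 A (by simp [T', hT]) h
      · obtain ⟨h1, u, hu, v, hv, hus, hvs, huv⟩ := hm2 A h
        have hd : Disjoint A.1 (m A).1 := hdis _ A.2 _ (m A).2 fun h' => h1 (Subtype.ext h')
        refine CovX.cov_pair (hmc _ A.2) (hmc _ (m A).2) hd ?_ ?_ huv
        · exact hX _ A.2 u hu hus v (fun h' => (Finset.disjoint_left.1 hd h') hv) huv
        · exact hX _ (m A).2 v hv hvs u (fun h' => (Finset.disjoint_left.1 hd hu) h') huv.symm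
    have hQ : P.biUnion id = ((univ : Finset X).image fun A => A.1 ∪ (m A).1).biUnion id := by
      ext x
      simp only [mem_biUnion, id, mem_image, mem_univ, true_and]
      constructor
      · rintro ⟨A, hA, hx⟩
        exact ⟨A ∪ (m ⟨A, hA⟩).1, ⟨⟨A, hA⟩, rfl⟩, mem_union_left _ hx⟩
      · rintro ⟨B, ⟨A, rfl⟩, hx⟩
        rw [mem_union] at hx
        rcases hx with hx | hx
        · exact ⟨A.1, A.2, hx⟩
        · exact ⟨(m A).1, (m A).2, hx⟩
    rw [hQ]
    apply Cov.biUnion
    · intro c hc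
      simp only [mem_image, mem_univ, true_and] at hc
      obtain ⟨A, rfl⟩ := hc
      exact (hmc _ A.2).union (hmc _ (m A).2)
    · intro c hc c' hc' hne
      simp only [mem_image, mem_univ, true_and] at hc hc'
      obtain ⟨A, rfl⟩ := hc
      obtain ⟨B, rfl⟩ := hc'
      have h1 : A ≠ B := by rintro rfl; exact hne rfl
      have h2 : A ≠ m B := by
        rintro rfl
        apply hne; rw [hm1, union_comm]
      have h3 : m A ≠ B := by
        rintro rfl
        apply hne; rw [hm1, union_comm]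
      have h4 : m A ≠ m B := by
        intro h
        apply h1; rw [← hm1 A, h, hm1]
      have key : ∀ A B : X, A ≠ B → Disjoint A.1 B.1 := fun A B h =>
        hdis _ A.2 _ B.2 fun h' => h (Subtype.ext h')
      simp only [id, disjoint_union_left, disjoint_union_right]
      exact ⟨⟨key _ _ h1, key _ _ h3⟩, ⟨key _ _ h2, key _ _ h4⟩⟩
    · intro c hc
      simp only [mem_image, mem_univ, true_and] at hc
      obtain ⟨A, rfl⟩ := hc
      exact hcov A
  · right
    let vE : X ↪ Finset V := ⟨Subtype.val, Subtype.val_injective⟩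
    have hinj : Function.Injective (fun c : Finset X => c.map vE) := Finset.map_injective vE
    refine ⟨U.map vE, C.image (fun c => c.map vE), ?_, ?_, ?_, ?_⟩
    · intro A hA
      simp only [mem_map, vE, Function.Embedding.coeFn_mk] at hA
      obtain ⟨B, _, rfl⟩ := hA
      exact B.2
    · rw [card_map, card_image_of_injective _ hinj]; exact hUC
    · intro c hc
      simp only [mem_image] at hc
      obtain ⟨c, hc, rfl⟩ := hc
      obtain ⟨h1, h2, h3, h4⟩ := hC c hc
      refine ⟨?_, by rw [card_map]; exact h2, ?_, ?_⟩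
      · intro A hA
        simp only [mem_map, vE, Function.Embedding.coeFn_mk] at hA
        obtain ⟨B, hB, rfl⟩ := hA
        have := h1 hB
        simpa [T'] using this
      · rw [disjoint_map]; exact h3
      · intro A hA B hB hBc hBU u hu v hv hus hvs huv
        simp only [mem_map, vE, Function.Embedding.coeFn_mk] at hA
        obtain ⟨A', hA', rfl⟩ := hA
        have hne : A' ≠ ⟨B, hB⟩ := by
          rintro rfl
          apply hBc
          simp only [mem_map, vE, Function.Embedding.coeFn_mk]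
          exact ⟨_, hA', rfl⟩
        rcases h4 A' hA' ⟨B, hB⟩ ⟨hne, u, hu, v, hv, hus, hvs, huv⟩ with h | h
        · apply hBc
          simp only [mem_map, vE, Function.Embedding.coeFn_mk]
          exact ⟨_, h, rfl⟩
        · apply hBU
          simp only [mem_map, vE, Function.Embedding.coeFn_mk]
          exact ⟨_, h, rfl⟩
    · intro c hc c' hc' hne
      simp only [mem_image] at hc hc'
      obtain ⟨c, hc, rfl⟩ := hc
      obtain ⟨c', hc', rfl⟩ := hc'
      rw [disjoint_map]
      exact hCd c hc c' hc' (by rintro rfl; exact hne rfl)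

/-- A violator for the window `a b` in the region `W`: the window `K = nd a ∪ nd b` is a
flexible block whose usable ends are `a` and `b`. -/
structure Viol (M : Setup V) (W : Finset V) (a b : V) (U : Finset V) (C : Finset (Finset V)) :
    Prop where
  mcU : M.Mc U
  UW : U ⊆ W \ (M.nd a ∪ M.nd b)
  mcC : ∀ x ∈ C, M.Mc x
  CW : ∀ x ∈ C, x ⊆ W \ (M.nd a ∪ M.nd b)
  CU : ∀ x ∈ C, Disjoint x U
  card2 : ∀ x ∈ C, x.card % 4 = 2
  closed : ∀ x ∈ C, M.e x (W \ (x ∪ U ∪ {M.μ a, M.μ b})) = 0
  disj : ∀ x ∈ C, ∀ y ∈ C, x ≠ y → Disjoint x y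
  card : U.card + 2 ≤ 2 * C.card

lemma sum_card_mod {C : Finset (Finset V)} (h : ∀ x ∈ C, x.card % 4 = 2) :
    (∑ x ∈ C, x.card) % 4 = (2 * C.card) % 4 := by
  classical
  induction C using Finset.induction_on with
  | empty => simp
  | insert a C ha ih =>
    rw [sum_insert ha, card_insert_of_notMem ha]
    have h1 := ih fun x hx => h x (mem_insert_of_mem hx)
    have h2 := h a (mem_insert_self _ _)
    omega

/-- no cover of `W`: there is a violator for every window. -/
theorem exists_viol {W : Finset V} (hW : M.Mc W) (hT : ∀ v ∈ W, M.TV v) (h2 : W.card % 4 = 2)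
    (hd : M.d W ≤ 4)
    (hlight : ∀ c ⊆ W, M.Mc c → c.Nonempty → c ≠ W → 4 ≤ M.d c) (hn : ¬ M.Cov W)
    {a b : V} (ha : a ∈ W) (hb : b ∈ W) (hab : M.H.Adj a b) :
    ∃ U C, M.Viol W a b U C := by
  classical
  have hbn : b ∉ M.nd a := by
    rw [mem_nd]; rintro (rfl | rfl)
    · exact M.H.loopless.irrefl _ hab
    · exact M.Hne _ hab
  have hdab : Disjoint (M.nd b) (M.nd a) := nd_disjoint hbn
  set K := M.nd a ∪ M.nd b with hK
  have hKmc : M.Mc K := (Mc_nd _).union (Mc_nd _)
  have hKW : K ⊆ W := union_subset (hW.nd_subset ha) (hW.nd_subset hb)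
  have hKcard : K.card = 4 := by
    rw [hK, card_union_of_disjoint hdab.symm, nd_card, nd_card]
  have haK : a ∈ K := mem_union_left _ (self_mem_nd a)
  have hbK : b ∈ K := mem_union_right _ (self_mem_nd b)
  have hZ : M.Mc (W \ K) := hW.sdiff hKmc
  set Z := W \ K with hZdef
  let us : V → Prop := fun v => v ∈ K → v = a ∨ v = b
  have hnotK : K ∉ Z.image M.nd := by
    intro h
    obtain ⟨v, hv, h⟩ := mem_image.1 h
    have := nd_card (M := M) v
    rw [h, hKcard] at this
    omega
  have hZK : ∀ A ∈ Z.image M.nd, Disjoint A K := by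
    intro A hA
    obtain ⟨v, hv, rfl⟩ := mem_image.1 hA
    exact hKmc.nd_disjoint (mem_sdiff.1 hv).2
  have hP : (insert K (Z.image M.nd)).biUnion id = W := by
    rw [biUnion_insert, nodes_biUnion hZ, id, hZdef]
    exact union_sdiff_of_subset hKW
  have hTZ : ∀ v ∈ Z, M.TV v := fun v hv => hT v (mem_sdiff.1 hv).1
  have b1 : ∀ A ∈ insert K (Z.image M.nd), M.Mc A := by
    intro A hA
    rw [mem_insert] at hA
    rcases hA with rfl | hA
    · exact hKmc
    · obtain ⟨v, _, rfl⟩ := mem_image.1 hA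
      exact Mc_nd v
  have b2 : ∀ A ∈ insert K (Z.image M.nd), ∀ B ∈ insert K (Z.image M.nd), A ≠ B →
      Disjoint A B := by
    intro A hA B hB hne
    rw [mem_insert] at hA hB
    rcases hA with rfl | hA
    · rcases hB with rfl | hB
      · exact absurd rfl hne
      · exact (hZK B hB).symm
    · rcases hB with rfl | hB
      · exact hZK A hA
      · exact nodes_disjoint hA hB hne
  have hcovK : ∀ x : V, x = a ∨ x = b → M.CovX K x := by
    intro x hx
    refine ⟨{a, b}, by simpa using hx, ?_, ?_, ?_, ?_⟩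
    · intro x hx
      rw [mem_insert, mem_singleton] at hx
      rcases hx with rfl | rfl
      · exact haK
      · exact hbK
    · intro x hx
      rw [hK, mem_union, mem_nd, mem_nd] at hx
      have n1 := M.ne a
      have n2 := M.ne b
      have n3 : M.μ a ≠ b := fun h => hbn (by rw [mem_nd]; right; exact h.symm)
      have n4 : M.μ b ≠ a := fun h => hbn (by rw [mem_nd]; right; rw [← h, M.inv])
      simp only [mem_insert, mem_singleton]
      rcases hx with (rfl | rfl) | (rfl | rfl)
      · simp [n1, n3]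
      · simp [n1, n3, M.inv]
      · simp [n2, n4]
      · simp [n2, n4, M.inv]
    · intro x hx hx'
      rw [mem_insert, mem_singleton] at hx
      rcases hx with rfl | rfl
      · exact ⟨b, by simp, hab⟩
      · exact ⟨a, by simp, hab.symm⟩
    · intro x hx y hxy
      rw [mem_insert, mem_singleton] at hx
      rcases hx with rfl | rfl
      · exact absurd hxy (hT _ ha y)
      · exact absurd hxy (hT _ hb y)
  have b3 : ∀ A ∈ insert K (Z.image M.nd), ∀ u ∈ A, us u → ∀ v, v ∉ A → M.H.Adj u v →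
      M.CovX A u := by
    intro A hA u hu hus v hv huv
    rw [mem_insert] at hA
    rcases hA with rfl | hA
    · exact hcovK u (hus hu)
    · obtain ⟨w, hw, rfl⟩ := mem_image.1 hA
      exact (hTZ w hw).covX_nd hu
  have b4 : ∀ A ∈ insert K (Z.image M.nd), A ∉ Z.image M.nd → M.Cov A := by
    intro A hA hA'
    rw [mem_insert] at hA
    rcases hA with rfl | hA
    · exact CovX.cov_pair (Mc_nd a) (Mc_nd b) hdab.symm (hT a ha).covX (hT b hb).covX hab
    · exact absurd hA hA'
  rcases block_tutte' (M := M) us (insert K (Z.image M.nd)) (Z.image M.nd) b1 b2 b3 b4 with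
    h | ⟨U, C, hU, hUC, hC, hCd⟩
  · exact absurd (hP ▸ h) hn
  -- the violator
  have hCsub : ∀ c ∈ C, c ⊆ Z.image M.nd := fun c hc => (hC c hc).1
  have hbU : ∀ c ∈ C, c.biUnion id ⊆ Z := by
    intro c hc
    rw [← nodes_biUnion hZ]; exact biUnion_subset_biUnion_of_subset_left _ (hCsub c hc)
  have hne : ∀ c ∈ C, (c.biUnion id).Nonempty := by
    intro c hc
    obtain ⟨h1, h2, _, _⟩ := hC c hc
    have : c.Nonempty := by
      rw [← card_pos]; obtain ⟨k, hk⟩ := h2; omega
    obtain ⟨A, hA⟩ := this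
    obtain ⟨v, _, rfl⟩ := mem_image.1 (h1 hA)
    exact ⟨v, mem_biUnion.2 ⟨_, hA, self_mem_nd v⟩⟩
  have hdd : ∀ c ∈ C, ∀ c' ∈ C, c ≠ c' → Disjoint (c.biUnion id) (c'.biUnion id) := by
    intro c hc c' hc' hne
    rw [disjoint_biUnion_left]
    intro A hA
    rw [disjoint_biUnion_right]
    intro B hB
    apply nodes_disjoint ((hC c hc).1 hA) ((hC c' hc').1 hB)
    rintro rfl
    exact (Finset.disjoint_left.1 (hCd c hc c' hc' hne) hA) hB
  have hinj : Set.InjOn (fun c : Finset (Finset V) => c.biUnion id) C := by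
    intro c hc c' hc' h
    by_contra hne'
    have h1 := hdd c hc c' hc' hne'
    simp only at h
    rw [← h, disjoint_self_iff_empty] at h1
    exact (hne c hc).ne_empty h1
  have hCmc : ∀ c ∈ C, M.Mc (c.biUnion id) := by
    intro c hc
    apply Mc.biUnion
    intro A hA
    obtain ⟨v, _, rfl⟩ := mem_image.1 (hCsub c hc hA)
    exact Mc_nd v
  have hCcard : ∀ c ∈ C, (c.biUnion id).card % 4 = 2 := by
    intro c hc
    rw [nodes_card (hCsub c hc)]
    obtain ⟨k, hk⟩ := (hC c hc).2.1
    omega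
  set C' := C.image fun c => c.biUnion id with hC'
  have hC'card : C'.card = C.card := card_image_of_injOn hinj
  have hC'mc : ∀ x ∈ C', M.Mc x := by
    intro x hx; obtain ⟨c, hc, rfl⟩ := mem_image.1 hx; exact hCmc c hc
  have hC'W : ∀ x ∈ C', x ⊆ Z := by
    intro x hx; obtain ⟨c, hc, rfl⟩ := mem_image.1 hx; exact hbU c hc
  have hC'c2 : ∀ x ∈ C', x.card % 4 = 2 := by
    intro x hx; obtain ⟨c, hc, rfl⟩ := mem_image.1 hx; exact hCcard c hc
  have hC'd : ∀ x ∈ C', ∀ y ∈ C', x ≠ y → Disjoint x y := by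
    intro x hx y hy hxy
    obtain ⟨c, hc, rfl⟩ := mem_image.1 hx
    obtain ⟨c', hc', rfl⟩ := mem_image.1 hy
    exact hdd c hc c' hc' (by rintro rfl; exact hxy rfl)
  -- nodes of `U` other than `K`
  set U' := U.erase K with hU'
  have hU'Z : U' ⊆ Z.image M.nd := by
    intro A hA
    obtain ⟨h1, h3⟩ := mem_erase.1 hA
    have := hU h3
    rw [mem_insert] at this
    exact this.resolve_left h1
  have hU'Z' : U'.biUnion id ⊆ Z := by
    rw [← nodes_biUnion hZ]; exact biUnion_subset_biUnion_of_subset_left _ hU'Z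
  have hU'mc : M.Mc (U'.biUnion id) := by
    apply Mc.biUnion
    intro A hA
    obtain ⟨v, _, rfl⟩ := mem_image.1 (hU'Z hA)
    exact Mc_nd v
  have hU'card : (U'.biUnion id).card = 2 * U'.card := nodes_card hU'Z
  have hC'U' : ∀ x ∈ C', Disjoint x (U'.biUnion id) := by
    intro x hx; obtain ⟨c, hc, rfl⟩ := mem_image.1 hx
    rw [disjoint_biUnion_left]
    intro A hA
    rw [disjoint_biUnion_right]
    intro B hB
    apply nodes_disjoint ((hC c hc).1 hA) (hU'Z hB)
    rintro rfl
    exact (Finset.disjoint_left.1 (hC c hc).2.2.1 hA) (mem_erase.1 hB).2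
  -- adjacency
  have hclosed : ∀ x ∈ C', ∀ y ∈ x, ∀ z ∈ W, M.H.Adj y z → z ∈ x ∨ z ∈ U'.biUnion id ∨
      (z ∈ K ∧ (z = a ∨ z = b → K ∈ U)) := by
    intro x hx y hy z hz hyz
    obtain ⟨c, hc, rfl⟩ := mem_image.1 hx
    obtain ⟨A, hA, hyA⟩ := mem_biUnion.1 hy
    simp only [id] at hyA
    have hyK : y ∉ K := (mem_sdiff.1 (hbU c hc hy)).2
    have husy : us y := fun h => absurd h hyK
    by_cases hzK : z ∈ K
    · right; right
      refine ⟨hzK, ?_⟩
      intro hzab
      by_contra hKU
      refine (hC c hc).2.2.2 A hA K (mem_insert_self _ _) ?_ hKU y hyA z hzK husy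
        (fun _ => hzab) hyz
      intro hKc
      exact hnotK (hCsub c hc hKc)
    · have hzZ : z ∈ Z := mem_sdiff.2 ⟨hz, hzK⟩
      by_cases h1 : M.nd z ∈ c
      · left; exact mem_biUnion.2 ⟨_, h1, self_mem_nd z⟩
      · right; left
        by_contra h3
        refine (hC c hc).2.2.2 A hA (M.nd z) (mem_insert_of_mem (mem_image_of_mem _ hzZ)) h1 ?_
          y hyA z (self_mem_nd z) husy (fun h => absurd h hzK) hyz
        intro h4
        apply h3
        refine mem_biUnion.2 ⟨M.nd z, mem_erase.2 ⟨?_, h4⟩, self_mem_nd z⟩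
        intro h5
        exact hnotK (h5 ▸ mem_image_of_mem _ hzZ)
  by_cases hKU : K ∈ U
  · -- impossible by counting
    exfalso
    set U1 := K ∪ U'.biUnion id with hU1
    have hKU' : Disjoint K (U'.biUnion id) := by
      rw [Finset.disjoint_left]; intro x hx hx'
      exact (mem_sdiff.1 (hU'Z' hx')).2 hx
    have hU1c : U1.card = 2 * U.card + 2 := by
      rw [hU1, card_union_of_disjoint hKU', hKcard, hU'card, hU', card_erase_of_mem hKU]
      have : 0 < U.card := card_pos.2 ⟨K, hKU⟩
      omega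
    have hU1W : U1 ⊆ W := union_subset hKW (hU'Z'.trans sdiff_subset)
    have hU1mc : M.Mc U1 := hKmc.union hU'mc
    have hxU1 : ∀ x ∈ C', Disjoint x U1 := by
      intro x hx
      rw [hU1, disjoint_union_right]
      refine ⟨?_, hC'U' x hx⟩
      rw [Finset.disjoint_left]; intro y hy hy'
      exact (mem_sdiff.1 (hC'W x hx hy)).2 hy'
    have hcount := count (M := M) (C := C') hU1W (fun x hx => ⟨?_, ?_⟩) hC'd
    · have hnonempty : ∀ x ∈ C', x.Nonempty := by
        intro x hx; rw [← card_pos]; have := hC'c2 x hx; omega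
      have hd4 : ∀ x ∈ C', 4 ≤ M.d x := by
        intro x hx
        refine hlight x ((hC'W x hx).trans sdiff_subset) (hC'mc x hx) (hnonempty x hx) ?_
        rintro rfl
        exact (Finset.disjoint_left.1 (hxU1 _ hx) ha) (mem_union_left _ haK)
      have hsum : 4 * C'.card ≤ ∑ x ∈ C', M.d x := by
        rw [mul_comm, ← smul_eq_mul, ← sum_const]
        exact sum_le_sum hd4
      have hUU : 2 ≤ M.e U1 U1 := by
        have haU : a ∈ U1 := mem_union_left _ haK
        have hbU : b ∈ U1 := mem_union_left _ hbK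
        have := le_e (M := M) (A := U1) (B := U1) {(a, b), (b, a)} ?_
        · rw [card_pair] at this
          · exact this
          · intro h; exact hab.ne (Prod.ext_iff.1 h).1
        · intro p hp
          simp only [mem_insert, mem_singleton] at hp
          rcases hp with rfl | rfl
          · exact ⟨haU, hbU, hab⟩
          · exact ⟨hbU, haU, hab.symm⟩
      have h5 := M.e_le U1 W
      set R := (W \ U1) \ C'.biUnion id with hR
      have hRmc : M.Mc R := (hW.sdiff hU1mc).sdiff (Mc.biUnion _ _ hC'mc)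
      have hcardW : W.card = U1.card + (C'.biUnion id).card + R.card := by
        have h6 := card_sdiff_add_card_eq_card hU1W
        have h7 : C'.biUnion id ⊆ W \ U1 := by
          rw [biUnion_subset]; intro x hx y hy
          rw [mem_sdiff]
          exact ⟨(mem_sdiff.1 (hC'W x hx hy)).1, Finset.disjoint_left.1 (hxU1 x hx) hy⟩
        have h8 := card_sdiff_add_card_eq_card h7
        rw [← hR] at h8
        omega
      have hbc : (C'.biUnion id).card = ∑ x ∈ C', x.card := by
        rw [card_biUnion]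
        · rfl
        · exact hC'd
      have hmod := sum_card_mod hC'c2
      by_cases hRe : R.Nonempty
      · have := hlight R ((sdiff_subset.trans sdiff_subset)) hRmc hRe (by
          rintro h
          have : a ∈ R := by rw [h]; exact ha
          exact (mem_sdiff.1 (mem_sdiff.1 this).1).2 (mem_union_left _ haK))
        omega
      · rw [not_nonempty_iff_eq_empty] at hRe
        have : R.card = 0 := by rw [hRe]; rfl
        omega
    · intro y hy
      rw [mem_sdiff]
      exact ⟨(mem_sdiff.1 (hC'W x hx hy)).1, Finset.disjoint_left.1 (hxU1 x hx) hy⟩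
    · rw [M.e_eq_zero_iff]
      intro y hy z hz hyz
      rw [mem_sdiff, mem_sdiff] at hz
      rcases hclosed x hx y hy z hz.1.1 hyz with h | h | h
      · exact hz.2 h
      · exact hz.1.2 (mem_union_right _ h)
      · exact hz.1.2 (mem_union_left _ h.1)
  · refine ⟨U'.biUnion id, C', hU'mc, hU'Z', hC'mc, hC'W, hC'U', hC'c2, ?_, hC'd, ?_⟩
    · intro x hx
      rw [M.e_eq_zero_iff]
      intro y hy z hz hyz
      rw [mem_sdiff, mem_union, mem_union, not_or, not_or, mem_insert, mem_singleton] at hz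
      obtain ⟨hzW, ⟨hzx, hzU⟩, hzab⟩ := hz
      rcases hclosed x hx y hy z hzW hyz with h | h | ⟨h, h'⟩
      · exact hzx h
      · exact hzU h
      · apply hKU
        apply h'
        rw [hK, mem_union, mem_nd, mem_nd] at h
        rcases h with (h | h) | (h | h)
        · exact Or.inl h
        · exact absurd (Or.inl h) hzab
        · exact Or.inr h
        · exact absurd (Or.inr h) hzab
    · rw [hU'card, hC'card, hU', erase_eq_of_notMem hKU]
      omega

end Setup

end Pool.Agent.LTD
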