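import Pool.Agent.Lib.MP_a46439_co.Bip1

set_option autoImplicit false

/-! Odd regions without a cover: the case that is not factor-critical, and the expansion step. -/

namespace Pool.Agent.LTD

open Finset

namespace Setup

variable {V : Type} [Fintype V] [DecidableEq V] {M : Setup V}

/-- `W` is bipartite with smaller side `U`. -/
def Bip (M : Setup V) (W U : Finset V) : Prop :=
  U ⊆ W ∧ M.Mc U ∧ M.e U W = 2 * U.card ∧ M.e U U = 0 ∧ M.e (W \ U) (W \ U) = 0 ∧
    (W \ U).card = U.card + 2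

/-- two parallel edges at a node give a cover. -/
lemma par_cov {W : Finset V} (hW : M.Mc W) (hT : ∀ v ∈ W, M.TV v) {u v : V} (hu : u ∈ W)
    (hv : v ∈ W) (h1 : M.H.Adj u v) (h2 : M.H.Adj u (M.μ v)) (hc : M.Cov (W \ M.nd u)) :
    M.Cov W := by
  obtain ⟨S, hS1, hS2, hS3, hS4⟩ := hc
  have hvn : v ∉ M.nd u := by
    rw [mem_nd]; rintro (rfl | rfl)
    · exact M.H.loopless.irrefl _ h1
    · exact M.Hne _ h1
  have hv' : v ∈ W \ M.nd u := mem_sdiff.2 ⟨hv, hvn⟩
  have huS : u ∉ S := fun h => (mem_sdiff.1 (hS1 h)).2 (self_mem_nd u)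
  have huS' : M.μ u ∉ S := fun h => (mem_sdiff.1 (hS1 h)).2 (by rw [mem_nd]; right; rfl)
  have hTu := hT u hu
  refine ⟨insert u S, ?_, ?_, ?_, ?_⟩
  · intro x hx
    rw [mem_insert] at hx
    rcases hx with rfl | hx
    · exact hu
    · exact (mem_sdiff.1 (hS1 hx)).1
  · intro x hx
    by_cases hxn : x ∈ M.nd u
    · rw [mem_nd] at hxn
      rcases hxn with rfl | rfl
      · simp [M.ne, huS']
      · simp [M.ne, huS', M.inv]
    · have hx' : M.μ x ∉ M.nd u := (Mc_nd u).notMem hxn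
      have e1 : x ≠ u := by rintro rfl; exact hxn (self_mem_nd _)
      have e2 : M.μ x ≠ u := by rintro h; exact hx' (by rw [h]; exact self_mem_nd _)
      rw [mem_insert, mem_insert]
      simp only [e1, e2, false_or]
      exact hS2 x (mem_sdiff.2 ⟨hx, hxn⟩)
  · intro x hx _
    rw [mem_insert] at hx
    rcases hx with rfl | hx
    · by_cases hvS : v ∈ S
      · exact ⟨v, mem_insert_of_mem hvS, h1⟩
      · refine ⟨M.μ v, mem_insert_of_mem ?_, h2⟩
        by_contra h
        exact hvS ((hS2 v hv').2 h)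
    · obtain ⟨y, hy, h⟩ := hS3 x hx (notMem_empty _)
      exact ⟨y, mem_insert_of_mem hy, h⟩
  · intro x hx y hxy
    rw [mem_insert] at hx
    rcases hx with rfl | hx
    · exact absurd hxy (hTu y)
    · exact mem_insert_of_mem (hS4 x hx y hxy)

lemma e_pair_le (u v : V) : M.e {u} {v} ≤ 1 := by
  classical
  simp only [Setup.e, E, sum_singleton]
  split_ifs <;> omega

lemma e_nd_right (A : Finset V) (v : V) : M.e A (M.nd v) = M.e A {v} + M.e A {M.μ v} := by
  rw [nd_eq_union, M.e_union_right (by simpa using (M.ne v).symm)]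

lemma e_nd_left (A : Finset V) (v : V) : M.e (M.nd v) A = M.e {v} A + M.e {M.μ v} A := by
  rw [nd_eq_union, M.e_union_left (by simpa using (M.ne v).symm)]

lemma adj_of_e {u v : V} (h : M.e {u} {v} ≠ 0) : M.H.Adj u v := by
  by_contra hcon
  apply h
  rw [M.e_eq_zero_iff]
  intro a ha b hb
  rw [mem_singleton] at ha hb
  subst ha; subst hb; exact hcon

/-- no two nodes are joined by two edges -/
lemma nopar {W : Finset V} (hW : M.Mc W) (hT : ∀ v ∈ W, M.TV v) (hn : ¬ M.Cov W)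
    (hFC : ∀ v ∈ W, M.Cov (W \ M.nd v)) {u v : V} (hu : u ∈ W) (hv : v ∈ W) :
    M.e (M.nd u) (M.nd v) ≤ 1 := by
  by_contra hcon
  rw [e_nd_right, e_nd_left, e_nd_left] at hcon
  have l1 := e_pair_le (M := M) u v
  have l2 := e_pair_le (M := M) (M.μ u) v
  have l3 := e_pair_le (M := M) u (M.μ v)
  have l4 := e_pair_le (M := M) (M.μ u) (M.μ v)
  have c1 := M.e_comm {u} {v}
  have c2 := M.e_comm {M.μ u} {v}
  have c3 := M.e_comm {u} {M.μ v}
  have c4 := M.e_comm {M.μ u} {M.μ v}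
  -- ladders are impossible
  have x1 : M.e {u} {v} = 0 ∨ M.e {M.μ u} {M.μ v} = 0 := by
    by_contra h
    push Not at h
    exact hT u hu v ⟨adj_of_e h.1, adj_of_e h.2⟩
  have x2 : M.e {M.μ u} {v} = 0 ∨ M.e {u} {M.μ v} = 0 := by
    by_contra h
    push Not at h
    exact hT u hu (M.μ v) ⟨adj_of_e h.2, by rw [M.inv]; exact adj_of_e h.1⟩
  have hmu := hW u hu
  have hmv := hW v hv
  have y1 : M.e {u} {v} = 0 ∨ M.e {u} {M.μ v} = 0 := by
    by_contra h
    push Not at h
    exact hn (par_cov hW hT hu hv (adj_of_e h.1) (adj_of_e h.2) (hFC u hu))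
  have y2 : M.e {M.μ u} {v} = 0 ∨ M.e {M.μ u} {M.μ v} = 0 := by
    by_contra h
    push Not at h
    exact hn (par_cov hW hT hmu hv (adj_of_e h.1) (adj_of_e h.2) (hFC _ hmu))
  have y3 : M.e {u} {v} = 0 ∨ M.e {M.μ u} {v} = 0 := by
    by_contra h
    push Not at h
    exact hn (par_cov hW hT hv hu (adj_of_e (c1 ▸ h.1)) (adj_of_e (c2 ▸ h.2)) (hFC v hv))
  have y4 : M.e {u} {M.μ v} = 0 ∨ M.e {M.μ u} {M.μ v} = 0 := by
    by_contra h
    push Not at h
    exact hn (par_cov hW hT hmv hu (adj_of_e (c3 ▸ h.1)) (adj_of_e (c4 ▸ h.2)) (hFC _ hmv))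
  omega

/-- Hall gluing of the nodes in `I` with the components in `C \ E`. -/
lemma hall_nodes {U : Finset V} {C : Finset (Finset V)} (hU : M.Mc U) (hTU : ∀ v ∈ U, M.TV v)
    (hC : ∀ x ∈ C, M.Mc x) (hCd : ∀ x ∈ C, ∀ y ∈ C, x ≠ y → Disjoint x y)
    (hCU : ∀ x ∈ C, Disjoint x U)
    (hCX : ∀ x ∈ C, ∀ y ∈ x, ∀ u, u ∉ x → M.H.Adj y u → M.CovX x y)
    {I E : Finset (Finset V)} (hI : I ⊆ U.image M.nd)
    (hall : ∀ X ⊆ I, X.card ≤ ((X.biUnion (M.Nb C)) \ E).card)
    (hcard : (C \ E).card ≤ I.card) : M.Cov (I.biUnion id ∪ (C \ E).biUnion id) := by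
  classical
  apply hall_cov
  · intro A hA
    obtain ⟨v, _, rfl⟩ := mem_image.1 (hI hA)
    exact Mc_nd v
  · intro x hx; exact hC x (mem_sdiff.1 hx).1
  · intro A hA B hB hne
    exact nodes_disjoint (hI hA) (hI hB) hne
  · intro A hA B hB hne
    exact hCd A (mem_sdiff.1 hA).1 B (mem_sdiff.1 hB).1 hne
  · intro A hA x hx
    obtain ⟨v, hv, rfl⟩ := mem_image.1 (hI hA)
    exact (disjoint_of_subset_right (hU.nd_subset hv) (hCU x (mem_sdiff.1 hx).1)).symm
  · intro A hA u hu
    obtain ⟨v, hv, rfl⟩ := mem_image.1 (hI hA)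
    exact (hTU v hv).covX_nd hu
  · intro x hx y hy u hu hyu
    exact hCX x (mem_sdiff.1 hx).1 y hy u hu hyu
  · intro X hX
    have h1 := hall X hX
    have h2 : X.biUnion (M.Nb (C \ E)) = (X.biUnion (M.Nb C)) \ E := by
      ext x
      simp only [mem_biUnion, mem_Nb, mem_sdiff]
      constructor
      · rintro ⟨A, hA, ⟨h1, h2⟩, h3⟩; exact ⟨⟨A, hA, h1, h3⟩, h2⟩
      · rintro ⟨⟨A, hA, h1, h3⟩, h2⟩; exact ⟨A, hA, ⟨h1, h2⟩, h3⟩
    rw [h2]; exact h1
  · exact hcard

/-- A component with a cover can be left out. -/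
lemma surplus_cov {U : Finset V} {C : Finset (Finset V)} (hU : M.Mc U) (hTU : ∀ v ∈ U, M.TV v)
    (hC : ∀ x ∈ C, M.Mc x) (hCd : ∀ x ∈ C, ∀ y ∈ C, x ≠ y → Disjoint x y)
    (hCU : ∀ x ∈ C, Disjoint x U)
    (hCX : ∀ x ∈ C, ∀ y ∈ x, ∀ u, u ∉ x → M.H.Adj y u → M.CovX x y)
    (hs : ∀ X ⊆ U.image M.nd, X.Nonempty → X.card + 1 ≤ (X.biUnion (M.Nb C)).card)
    (hcard : 2 * C.card = U.card + 2) {x : Finset V} (hx : x ∈ C) (hxc : M.Cov x) :
    M.Cov (U ∪ C.biUnion id) := by
  classical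
  have hUc : U.card = 2 * (U.image M.nd).card := by
    rw [← nodes_card (subset_refl _), nodes_biUnion hU]
  have h1 := hall_nodes (M := M) (E := {x}) hU hTU hC hCd hCU hCX (subset_refl _) ?_ ?_
  · rw [nodes_biUnion hU] at h1
    have h2 := Cov.union (M := M) (hC x hx)
      (hU.union (Mc.biUnion (C \ {x}) id fun y hy => hC y (mem_sdiff.1 hy).1)) ?_ hxc h1
    · have h3 : x ∪ (U ∪ (C \ {x}).biUnion id) = U ∪ C.biUnion id := by
        ext z
        simp only [mem_union, mem_biUnion, mem_sdiff, mem_singleton, id]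
        constructor
        · rintro (h | h | ⟨y, ⟨hy, _⟩, hz⟩)
          · exact Or.inr ⟨x, hx, h⟩
          · exact Or.inl h
          · exact Or.inr ⟨y, hy, hz⟩
        · rintro (h | ⟨y, hy, hz⟩)
          · exact Or.inr (Or.inl h)
          · by_cases hyx : y = x
            · subst hyx; exact Or.inl hz
            · exact Or.inr (Or.inr ⟨y, ⟨hy, hyx⟩, hz⟩)
      rwa [h3] at h2
    · rw [disjoint_union_right]
      refine ⟨hCU x hx, ?_⟩
      rw [disjoint_biUnion_right]
      intro y hy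
      rw [mem_sdiff, mem_singleton] at hy
      exact hCd x hx y hy.1 (Ne.symm hy.2)
  · intro X hX
    by_cases hne : X.Nonempty
    · have h2 := hs X hX hne
      have h3 := le_card_sdiff ({x} : Finset (Finset V)) (X.biUnion (M.Nb C))
      rw [card_singleton] at h3
      omega
    · rw [not_nonempty_iff_eq_empty] at hne
      simp [hne]
  · have h2 : (C \ {x}).card = C.card - 1 := by
      rw [sdiff_singleton_eq_erase, card_erase_of_mem hx]
    omega

/-- Union of the bipartitions of the components. -/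
lemma expand {C : Finset (Finset V)} (hd : ∀ x ∈ C, ∀ y ∈ C, x ≠ y → Disjoint x y)
    (he : ∀ x ∈ C, ∀ y ∈ C, x ≠ y → M.e x y = 0) (hB : ∀ x ∈ C, ∃ U, M.Bip x U) :
    ∃ U ⊆ C.biUnion id, M.Mc U ∧ M.e U (C.biUnion id) = 2 * U.card ∧ M.e U U = 0 ∧
      M.e (C.biUnion id \ U) (C.biUnion id \ U) = 0 ∧
      (C.biUnion id \ U).card = U.card + 2 * C.card := by
  classical
  induction C using Finset.induction_on with
  | empty => exact ⟨∅, by simp, Mc_empty, by simp, by simp, by simp, by simp⟩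
  | insert x C hx ih =>
    obtain ⟨U', hU', hmc', h1', h2', h3', h4'⟩ := ih
      (fun y hy z hz => hd y (mem_insert_of_mem hy) z (mem_insert_of_mem hz))
      (fun y hy z hz => he y (mem_insert_of_mem hy) z (mem_insert_of_mem hz))
      (fun y hy => hB y (mem_insert_of_mem hy))
    obtain ⟨Ux, hUx, hmc, h1, h2, h3, h4⟩ := hB x (mem_insert_self _ _)
    have dxC : Disjoint x (C.biUnion id) := by
      rw [disjoint_biUnion_right]
      intro y hy
      exact hd x (mem_insert_self _ _) y (mem_insert_of_mem hy) (by rintro rfl; exact hx hy)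
    have exC : M.e x (C.biUnion id) = 0 := by
      rw [M.e_eq_zero_iff]
      intro u hu v hv
      obtain ⟨y, hy, hv⟩ := mem_biUnion.1 hv
      have := he x (mem_insert_self _ _) y (mem_insert_of_mem hy) (by rintro rfl; exact hx hy)
      rw [M.e_eq_zero_iff] at this
      exact this u hu v hv
    have exC' : M.e (C.biUnion id) x = 0 := by rw [M.e_comm]; exact exC
    have hz : ∀ A B : Finset V, A ⊆ x → B ⊆ C.biUnion id → M.e A B = 0 := by
      intro A B hA hB
      rw [← Nat.le_zero, ← exC]; exact M.e_mono hA hB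
    have hz' : ∀ A B : Finset V, A ⊆ x → B ⊆ C.biUnion id → M.e B A = 0 := by
      intro A B hA hB
      rw [M.e_comm]; exact hz A B hA hB
    have dU : Disjoint Ux U' := disjoint_of_subset_left hUx (disjoint_of_subset_right hU' dxC)
    have hdiff : (x ∪ C.biUnion id) \ (Ux ∪ U') = (x \ Ux) ∪ (C.biUnion id \ U') := by
      ext z
      rw [mem_sdiff, mem_union, mem_union, mem_union, mem_sdiff, mem_sdiff, not_or]
      constructor
      · rintro ⟨h | h, h5, h6⟩
        · exact Or.inl ⟨h, h5⟩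
        · exact Or.inr ⟨h, h6⟩
      · rintro (⟨h, h5⟩ | ⟨h, h5⟩)
        · exact ⟨Or.inl h, h5, fun h6 => Finset.disjoint_left.1 dxC h (hU' h6)⟩
        · exact ⟨Or.inr h, fun h6 => Finset.disjoint_left.1 dxC (hUx h6) h, h5⟩
    have dD : Disjoint (x \ Ux) (C.biUnion id \ U') :=
      disjoint_of_subset_left sdiff_subset (disjoint_of_subset_right sdiff_subset dxC)
    rw [biUnion_insert, id]
    refine ⟨Ux ∪ U', union_subset_union hUx hU', hmc.union hmc', ?_, ?_, ?_, ?_⟩
    · rw [M.e_union_left dU, M.e_union_right dxC, M.e_union_right dxC, h1, h1',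
        hz _ _ hUx (subset_refl _), hz' _ _ (subset_refl _) hU', card_union_of_disjoint dU]
      ring
    · rw [M.e_union_left dU, M.e_union_right dU, M.e_union_right dU, h2, h2', hz _ _ hUx hU',
        hz' _ _ hUx hU']
    · rw [hdiff, M.e_union_left dD, M.e_union_right dD, M.e_union_right dD, h3, h3',
        hz _ _ sdiff_subset sdiff_subset, hz' _ _ sdiff_subset sdiff_subset]
    · rw [hdiff, card_union_of_disjoint dD, h4, h4', card_union_of_disjoint dU,
        card_insert_of_notMem hx]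
      ring

/-- The induction hypothesis. -/
def BipIH (M : Setup V) (n : ℕ) : Prop :=
  ∀ c : Finset V, c.card < n → M.Mc c → (∀ v ∈ c, M.TV v) → c.card % 4 = 2 → M.d c = 4 →
    (∀ c' ⊆ c, M.Mc c' → c'.Nonempty → c' ≠ c → 4 ≤ M.d c') → ¬ M.Cov c → ∃ U, M.Bip c U

/-- The case that is not factor-critical. -/
theorem bip_nf {W : Finset V} (hW : M.Mc W) (hT : ∀ v ∈ W, M.TV v) (h2 : W.card % 4 = 2)
    (hd : M.d W = 4) (hlight : ∀ c ⊆ W, M.Mc c → c.Nonempty → c ≠ W → 4 ≤ M.d c)
    (hn : ¬ M.Cov W) (IH : M.BipIH W.card) {v : V} (hv : v ∈ W) (hnv : ¬ M.Cov (W \ M.nd v)) :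
    ∃ U, M.Bip W U := by
  classical
  have hKW : M.nd v ⊆ W := hW.nd_subset hv
  have hWK := card_sdiff_add_card_eq_card hKW
  rw [nd_card] at hWK
  rcases reg_tutte hW (Mc_nd v) hKW (fun w hw => hT w (mem_sdiff.1 hw).1) (by omega) with
    h | ⟨U, C, hU, hKU, hUW, hC, hCd, hcard⟩
  · exact absurd h hnv
  rw [nd_card] at hcard
  have hvU : v ∈ U := hKU (self_mem_nd v)
  have hCW : ∀ x ∈ C, x ⊆ W := fun x hx => (hC x hx).2.1.trans sdiff_subset
  have hCU : ∀ x ∈ C, Disjoint x U := by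
    intro x hx
    rw [Finset.disjoint_left]
    intro y hy
    exact (mem_sdiff.1 ((hC x hx).2.1 hy)).2
  have hCne : ∀ x ∈ C, x.Nonempty := by
    intro x hx; rw [← card_pos]; have := (hC x hx).2.2.1; omega
  have hproper : ∀ c ⊆ W, v ∉ c → c ≠ W := by
    rintro c _ hc rfl; exact hc hv
  have hvC : ∀ x ∈ C, v ∉ x := fun x hx => Finset.disjoint_right.1 (hCU x hx) hvU
  have hd4 : ∀ x ∈ C, 4 ≤ M.d x := fun x hx =>
    hlight x (hCW x hx) (hC x hx).1 (hCne x hx) (hproper x (hCW x hx) (hvC x hx))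
  have hcount := count (M := M) hUW (fun c hc => ⟨(hC c hc).2.1, (hC c hc).2.2.2⟩) hCd
  have hsum : 4 * C.card ≤ ∑ c ∈ C, M.d c := by
    rw [mul_comm, ← smul_eq_mul, ← sum_const]
    exact sum_le_sum hd4
  have hUle := M.e_le U W
  set R := (W \ U) \ C.biUnion id with hR
  have hsum' : ∑ c ∈ C, M.d c = 4 * C.card := by omega
  have hUU : M.e U U = 0 := by omega
  have hdR : M.d R = 0 := by omega
  have hUfull : M.e U W = 2 * U.card := by omega
  have hCcard : 2 * C.card = U.card + 2 := by omega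
  have hd4' : ∀ x ∈ C, M.d x = 4 := by
    intro c hc
    by_contra hne'
    have h5 : 4 < M.d c := lt_of_le_of_ne (hd4 c hc) (Ne.symm hne')
    have : ∑ c ∈ C, 4 < ∑ c ∈ C, M.d c := sum_lt_sum hd4 ⟨c, hc, h5⟩
    rw [sum_const, smul_eq_mul] at this
    omega
  have hRmc : M.Mc R := (hW.sdiff hU).sdiff (Mc.biUnion _ _ fun c hc => (hC c hc).1)
  have hRe : R = ∅ := by
    by_contra hne'
    have h5 := hlight R (sdiff_subset.trans sdiff_subset) hRmc (nonempty_iff_ne_empty.2 hne')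
      (hproper R (sdiff_subset.trans sdiff_subset) (by
        intro h
        rw [hR, mem_sdiff, mem_sdiff] at h
        exact h.1.2 hvU))
    omega
  have hWeq : W = U ∪ C.biUnion id := by
    ext x
    constructor
    · intro hx
      by_contra hne'
      rw [mem_union, not_or] at hne'
      have : x ∈ R := by rw [hR, mem_sdiff, mem_sdiff]; exact ⟨⟨hx, hne'.1⟩, hne'.2⟩
      rw [hRe] at this
      exact notMem_empty _ this
    · intro hx
      rw [mem_union] at hx
      rcases hx with hx | hx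
      · exact hUW hx
      · obtain ⟨c, hc, hx⟩ := mem_biUnion.1 hx
        exact hCW c hc hx
  have hee : ∀ x ∈ C, ∀ y ∈ C, x ≠ y → M.e x y = 0 := by
    intro x hx y hy hxy
    rw [← Nat.le_zero, ← (hC x hx).2.2.2]
    apply M.e_mono (subset_refl _)
    intro z hz
    rw [mem_sdiff]
    exact ⟨(hC y hy).2.1 hz, Finset.disjoint_right.1 (hCd x hx y hy hxy) hz⟩
  have hUc : U.card = 2 * (U.image M.nd).card := by
    rw [← nodes_card (subset_refl _), nodes_biUnion hU]
  -- surplus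
  have hs : ∀ X ⊆ U.image M.nd, X.Nonempty → X.card + 1 ≤ (X.biUnion (M.Nb C)).card := by
    intro X hX hXne
    set Y := X.biUnion id with hY
    have hYU : Y ⊆ U := by
      rw [hY, ← nodes_biUnion hU]; exact biUnion_subset_biUnion_of_subset_left _ hX
    have hYc : Y.card = 2 * X.card := nodes_card hX
    have hYmc : M.Mc Y := by
      apply Mc.biUnion
      intro A hA
      obtain ⟨w, _, rfl⟩ := mem_image.1 (hX hA)
      exact Mc_nd w
    set N := X.biUnion (M.Nb C) with hN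
    have hNC : N ⊆ C := by
      intro x hx
      obtain ⟨A, _, hx⟩ := mem_biUnion.1 hx
      exact (mem_Nb.1 hx).1
    set Z := N.biUnion id with hZ
    have hZmc : M.Mc Z := Mc.biUnion _ _ fun x hx => (hC x (hNC hx)).1
    have hZU : Disjoint Z U := by
      rw [hZ, disjoint_biUnion_left]; exact fun x hx => hCU x (hNC hx)
    have hYZ : Disjoint Y Z := (disjoint_of_subset_right hYU hZU).symm
    have hdZ : M.d Z = 4 * N.card := by
      rw [hZ, M.d_biUnion N (fun x hx y hy => hCd x (hNC hx) y (hNC hy))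
        (fun x hx y hy => hee x (hNC hx) y (hNC hy)), sum_congr rfl (fun x hx => hd4' x (hNC hx)),
        sum_const, smul_eq_mul, mul_comm]
    have hYY : M.e Y Y = 0 := by
      rw [← Nat.le_zero, ← hUU]; exact M.e_mono hYU hYU
    have hdY := M.d_add Y
    have hYW : M.e Y W = 2 * Y.card := by
      have k1 : M.e U W = M.e Y W + M.e (U \ Y) W := M.e_sdiff_left hYU _
      have k2 := M.e_le Y W
      have k3 := M.e_le (U \ Y) W
      have k4 := card_sdiff_add_card_eq_card hYU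
      omega
    have hYrest : M.e Y (W \ Z) = 0 := by
      rw [M.e_eq_zero_iff]
      intro y hy z hz hyz
      rw [mem_sdiff] at hz
      obtain ⟨hzW, hzZ⟩ := hz
      rw [hWeq, mem_union] at hzW
      rcases hzW with hzU | hzC
      · rw [M.e_eq_zero_iff] at hUU
        exact hUU y (hYU hy) z hzU hyz
      · obtain ⟨x, hx, hzx⟩ := mem_biUnion.1 hzC
        obtain ⟨A, hA, hyA⟩ := mem_biUnion.1 hy
        apply hzZ
        refine mem_biUnion.2 ⟨x, mem_biUnion.2 ⟨A, hA, mem_Nb.2 ⟨hx, ?_⟩⟩, hzx⟩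
        rw [M.e_pos_iff]
        exact ⟨y, hyA, z, hzx, hyz⟩
    have hZW : Z ⊆ W := by
      rw [hZ, biUnion_subset]; exact fun x hx => hCW x (hNC hx)
    have k5 : M.e Y W = M.e Y Z + M.e Y (W \ Z) := M.e_sdiff hZW _
    have k6 := M.d_union hYZ
    obtain ⟨A, hA⟩ := hXne
    obtain ⟨w, hw, rfl⟩ := mem_image.1 (hX hA)
    have hwY : w ∈ Y := mem_biUnion.2 ⟨_, hA, self_mem_nd w⟩
    by_cases hYZW : Y ∪ Z = W
    · have k7 : M.d (Y ∪ Z) = 4 := by rw [hYZW]; exact hd
      omega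
    · have k7 := hlight (Y ∪ Z) (union_subset (hYU.trans hUW) hZW) (hYmc.union hZmc)
        ⟨w, mem_union_left _ hwY⟩ hYZW
      omega
  have hTx : ∀ x ∈ C, ∀ w ∈ x, M.TV w := fun x hx w hw => hT w (hCW x hx hw)
  have hoddx : ∀ x ∈ C, ∀ c' ⊆ x, M.Mc c' → c'.Nonempty → 4 ≤ M.d c' := by
    intro x hx c' hc' hmc hne
    exact hlight c' (hc'.trans (hCW x hx)) hmc hne
      (hproper c' (hc'.trans (hCW x hx)) fun h => hvC x hx (hc' h))
  have hCX : ∀ x ∈ C, ∀ y ∈ x, ∀ u, u ∉ x → M.H.Adj y u → M.CovX x y := by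
    intro x hx y hy u hu hyu
    exact covX_comp (hC x hx).1 (hTx x hx) (hC x hx).2.2.1 (hd4' x hx).le
      (fun c' hc' hmc hcard _ => hoddx x hx c' hc' hmc (by rw [← card_pos]; omega)) hy hu hyu
  have hncov : ∀ x ∈ C, ¬ M.Cov x := by
    intro x hx hxc
    apply hn
    rw [hWeq]
    exact surplus_cov hU (fun w hw => hT w (hUW hw)) (fun x hx => (hC x hx).1) hCd hCU hCX hs
      hCcard hx hxc
  have hbip : ∀ x ∈ C, ∃ U, M.Bip x U := by
    intro x hx
    refine IH x ?_ (hC x hx).1 (hTx x hx) (hC x hx).2.2.1 (hd4' x hx)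
      (fun c' hc' hmc hne _ => hoddx x hx c' hc' hmc hne) (hncov x hx)
    apply card_lt_card
    refine ⟨hCW x hx, fun h => hvC x hx (h hv)⟩
  obtain ⟨U', hU', hmc', h1', h2', h3', h4'⟩ := expand hCd hee hbip
  set D := C.biUnion id with hD
  have hUD : Disjoint U D := by
    rw [hD, disjoint_biUnion_right]; exact fun x hx => (hCU x hx).symm
  have hUU' : Disjoint U U' := disjoint_of_subset_right hU' hUD
  have k1 : M.e U' W = M.e U' U + M.e U' D := by
    rw [hWeq]; exact M.e_union_right hUD _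
  have k2 := M.e_le U' W
  have k3 : M.e U' U = 0 := by omega
  have k4 : M.e U U' = 0 := by rw [M.e_comm]; exact k3
  have hdiff : W \ (U ∪ U') = D \ U' := by
    rw [hWeq]
    ext z
    rw [mem_sdiff, mem_union, mem_union, mem_sdiff, not_or]
    constructor
    · rintro ⟨h | h, h5, h6⟩
      · exact absurd h h5
      · exact ⟨h, h6⟩
    · rintro ⟨h, h5⟩
      exact ⟨Or.inr h, Finset.disjoint_right.1 hUD h, h5⟩
  refine ⟨U ∪ U', ?_, hU.union hmc', ?_, ?_, ?_, ?_⟩
  · rw [hWeq]; exact union_subset_union (subset_refl _) hU'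
  · rw [M.e_union_left hUU', hUfull, card_union_of_disjoint hUU']
    omega
  · rw [M.e_union_left hUU', M.e_union_right hUU', M.e_union_right hUU', hUU, k3, k4, h2']
  · rw [hdiff]; exact h3'
  · rw [hdiff, h4', card_union_of_disjoint hUU']
    omega

end Setup

end Pool.Agent.LTD
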