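import Pool.Agent.Lib.MP_a46439_co.Bip2

set_option autoImplicit false

/-! Violators: surplus, counting, and the consequences for covers. -/

namespace Pool.Agent.LTD

open Finset

namespace Setup

variable {V : Type} [Fintype V] [DecidableEq V] {M : Setup V}

lemma Viol.node_card {W : Finset V} {a b : V} {U : Finset V} {C : Finset (Finset V)}
    (h : M.Viol W a b U C) : U.card = 2 * (U.image M.nd).card := by
  rw [← nodes_card (subset_refl _), nodes_biUnion h.mcU]

/-- Minimal violators have positive surplus. -/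
lemma Viol.exists_surplus {W : Finset V} {a b : V} (p : Finset V → Prop) {U : Finset V}
    {C : Finset (Finset V)} (h : M.Viol W a b U C) (hp : ∀ x ∈ C, p x) :
    ∃ U' C', M.Viol W a b U' C' ∧ (∀ x ∈ C', p x) ∧
      ∀ X ⊆ U'.image M.nd, X.Nonempty → X.card + 1 ≤ (X.biUnion (M.Nb C')).card := by
  classical
  induction hk : U.card using Nat.strong_induction_on generalizing U C with
  | _ k ih =>
  by_cases hs : ∀ X ⊆ U.image M.nd, X.Nonempty → X.card + 1 ≤ (X.biUnion (M.Nb C)).card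
  · exact ⟨U, C, h, hp, hs⟩
  push Not at hs
  obtain ⟨X, hX, hXne, hlt⟩ := hs
  set N := X.biUnion (M.Nb C) with hN
  have hNC : N ⊆ C := by
    intro x hx
    obtain ⟨A, _, hx⟩ := mem_biUnion.1 hx
    exact (mem_Nb.1 hx).1
  set Y := X.biUnion id with hY
  have hYU : Y ⊆ U := by
    rw [hY, ← nodes_biUnion h.mcU]; exact biUnion_subset_biUnion_of_subset_left _ hX
  have hYc : Y.card = 2 * X.card := nodes_card hX
  have hYmc : M.Mc Y := by
    apply Mc.biUnion
    intro A hA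
    obtain ⟨w, _, rfl⟩ := mem_image.1 (hX hA)
    exact Mc_nd w
  have h1 := card_sdiff_add_card_eq_card hYU
  have h2 := card_sdiff_add_card_eq_card hNC
  have h3 := h.card
  have h4 : 0 < X.card := card_pos.2 hXne
  refine ih (U \ Y).card (by omega) (U := U \ Y) (C := C \ N) ?_
    (fun x hx => hp x (mem_sdiff.1 hx).1) rfl
  refine ⟨h.mcU.sdiff hYmc, sdiff_subset.trans h.UW, fun x hx => h.mcC x (mem_sdiff.1 hx).1,
    fun x hx => h.CW x (mem_sdiff.1 hx).1,
    fun x hx => disjoint_of_subset_right sdiff_subset (h.CU x (mem_sdiff.1 hx).1),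
    fun x hx => h.card2 x (mem_sdiff.1 hx).1, ?_,
    fun x hx y hy => h.disj x (mem_sdiff.1 hx).1 y (mem_sdiff.1 hy).1, by omega⟩
  intro x hx
  rw [mem_sdiff] at hx
  rw [M.e_eq_zero_iff]
  intro y hy z hz hyz
  have hcl := h.closed x hx.1
  rw [M.e_eq_zero_iff] at hcl
  rw [mem_sdiff, mem_union, mem_union, mem_sdiff, not_or, not_or] at hz
  obtain ⟨hzW, ⟨hzx, hzU⟩, hzab⟩ := hz
  by_cases hzY : z ∈ Y
  · obtain ⟨A, hA, hzA⟩ := mem_biUnion.1 hzY
    apply hx.2
    refine mem_biUnion.2 ⟨A, hA, mem_Nb.2 ⟨hx.1, ?_⟩⟩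
    rw [M.e_pos_iff]
    exact ⟨z, hzA, y, hy, hyz.symm⟩
  · refine hcl y hy z ?_ hyz
    rw [mem_sdiff, mem_union, mem_union, not_or, not_or]
    exact ⟨hzW, ⟨hzx, fun h' => hzU ⟨h', hzY⟩⟩, hzab⟩

/-- All counting facts for a violator. -/
structure VEq (M : Setup V) (W : Finset V) (a b : V) (U : Finset V) (C : Finset (Finset V))
    (D R : Finset V) : Prop where
  Ddef : D = C.biUnion id
  Rdef : R = (W \ ((M.nd a ∪ M.nd b) ∪ U)) \ D
  mcR : M.Mc R
  mcD : M.Mc D
  DW : D ⊆ W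
  RW : R ⊆ W
  UW : U ⊆ W
  dKU : Disjoint (M.nd a ∪ M.nd b) U
  dKD : Disjoint (M.nd a ∪ M.nd b) D
  dUD : Disjoint U D
  Weq : W = (M.nd a ∪ M.nd b) ∪ U ∪ D ∪ R
  ea : M.e {a} W = 1 + M.e {a} U + M.e {a} R
  eb : M.e {b} W = 1 + M.e {b} U + M.e {b} R
  ea' : M.e {M.μ a} W = M.e {M.μ a} U + M.e {M.μ a} D + M.e {M.μ a} R
  eb' : M.e {M.μ b} W = M.e {M.μ b} U + M.e {M.μ b} D + M.e {M.μ b} R
  cnt : ∑ x ∈ C, M.d x + M.d R + M.e U U +
    2 * (M.e {a} U + M.e {M.μ a} U + M.e {b} U + M.e {M.μ b} U) + 2 + 2 * U.card + 8 =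
    M.d W + 2 * (M.e U W + M.e {a} W + M.e {M.μ a} W + M.e {b} W + M.e {M.μ b} W)
  eU : M.e U W = M.e {a} U + M.e {M.μ a} U + M.e {b} U + M.e {M.μ b} U + M.e U U + M.e U D +
    M.e U R
  dD : ∑ x ∈ C, M.d x + M.e D D = 2 * D.card
  eD : M.e D W = M.e {M.μ a} D + M.e {M.μ b} D + M.e U D + M.e D D
  tot : M.e {a} W + M.e {M.μ a} W + M.e {b} W + M.e {M.μ b} W + M.e U W + M.e D W + M.e R W +
    M.d W = 2 * (4 + U.card + D.card + R.card)
  Wcard : W.card = 4 + U.card + D.card + R.card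
  DR : M.e D R = 0
  ee : ∀ x ∈ C, ∀ y ∈ C, x ≠ y → M.e x y = 0
  aD : M.e {a} D = 0
  bD : M.e {b} D = 0

lemma Viol.eqs {W : Finset V} (hW : M.Mc W) {a b : V} (ha : a ∈ W) (hb : b ∈ W)
    (hab : M.H.Adj a b) (hnp : M.e (M.nd a) (M.nd b) ≤ 1) {U : Finset V}
    {C : Finset (Finset V)} (h : M.Viol W a b U C) :
    ∃ D R, M.VEq W a b U C D R := by
  classical
  have hbn : b ∉ M.nd a := by
    rw [mem_nd]; rintro (rfl | rfl)
    · exact M.H.loopless.irrefl _ hab
    · exact M.Hne _ hab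
  have hdab : Disjoint (M.nd a) (M.nd b) := (nd_disjoint hbn).symm
  set K := M.nd a ∪ M.nd b with hK
  have hKmc : M.Mc K := (Mc_nd _).union (Mc_nd _)
  have hKW : K ⊆ W := union_subset (hW.nd_subset ha) (hW.nd_subset hb)
  have hKcard : K.card = 4 := by
    rw [hK, card_union_of_disjoint hdab, nd_card, nd_card]
  have haK : a ∈ K := mem_union_left _ (self_mem_nd a)
  have hbK : b ∈ K := mem_union_right _ (self_mem_nd b)
  have haK' : M.μ a ∈ K := hKmc a haK
  have hbK' : M.μ b ∈ K := hKmc b hbK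
  set D := C.biUnion id with hD
  set R := (W \ (K ∪ U)) \ D with hR
  have hDmc : M.Mc D := Mc.biUnion _ _ h.mcC
  have hRmc : M.Mc R := (hW.sdiff (hKmc.union h.mcU)).sdiff hDmc
  have hDW' : D ⊆ W \ K := by rw [hD, biUnion_subset]; exact h.CW
  have hDW : D ⊆ W := hDW'.trans sdiff_subset
  have hUW' : U ⊆ W \ K := h.UW
  have hUW : U ⊆ W := hUW'.trans sdiff_subset
  have hRW : R ⊆ W := sdiff_subset.trans sdiff_subset
  have dKU : Disjoint K U := by
    rw [Finset.disjoint_right]; intro x hx; exact (mem_sdiff.1 (hUW' hx)).2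
  have dKD : Disjoint K D := by
    rw [Finset.disjoint_right]; intro x hx; exact (mem_sdiff.1 (hDW' hx)).2
  have dUD : Disjoint U D := by
    rw [hD, disjoint_biUnion_right]; exact fun x hx => (h.CU x hx).symm
  have dKR : Disjoint K R := by
    rw [Finset.disjoint_right]; intro x hx hx'
    exact (mem_sdiff.1 (mem_sdiff.1 hx).1).2 (mem_union_left _ hx')
  have dUR : Disjoint U R := by
    rw [Finset.disjoint_right]; intro x hx hx'
    exact (mem_sdiff.1 (mem_sdiff.1 hx).1).2 (mem_union_right _ hx')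
  have dDR : Disjoint D R := by
    rw [Finset.disjoint_right]; intro x hx hx'
    exact (mem_sdiff.1 hx).2 hx'
  have hWeq : W = K ∪ U ∪ D ∪ R := by
    ext x
    rw [mem_union, mem_union, hR, mem_sdiff, mem_sdiff]
    constructor
    · intro hx
      by_cases h1 : x ∈ K ∪ U
      · exact Or.inl (Or.inl h1)
      · by_cases h2 : x ∈ D
        · exact Or.inl (Or.inr h2)
        · exact Or.inr ⟨⟨hx, h1⟩, h2⟩
    · rintro ((h1 | h1) | h1)
      · exact (union_subset hKW hUW) h1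
      · exact hDW h1
      · exact h1.1.1
  have hsplit : ∀ A : Finset V, M.e A W = M.e A K + M.e A U + M.e A D + M.e A R := by
    intro A
    rw [hWeq, M.e_union_right (disjoint_union_left.2 ⟨disjoint_union_left.2 ⟨dKR, dUR⟩, dDR⟩),
      M.e_union_right (disjoint_union_left.2 ⟨dKD, dUD⟩), M.e_union_right dKU]
  have hsplit' : ∀ A : Finset V, M.e K A = M.e {a} A + M.e {M.μ a} A + M.e {b} A +
      M.e {M.μ b} A := by
    intro A
    rw [hK, M.e_union_left hdab, e_nd_left, e_nd_left]; ring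
  -- comps
  have hxcl : ∀ x ∈ C, ∀ y ∈ x, ∀ z ∈ W, M.H.Adj y z → z ∈ x ∨ z ∈ U ∨ z = M.μ a ∨ z = M.μ b := by
    intro x hx y hy z hz hyz
    have := h.closed x hx
    rw [M.e_eq_zero_iff] at this
    by_contra hcon
    push Not at hcon
    refine this y hy z ?_ hyz
    rw [mem_sdiff, mem_union, mem_union, mem_insert, mem_singleton]
    refine ⟨hz, ?_⟩
    rintro ((h1 | h1) | (h1 | h1))
    · exact hcon.1 h1
    · exact hcon.2.1 h1
    · exact hcon.2.2.1 h1
    · exact hcon.2.2.2 h1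
  have hee : ∀ x ∈ C, ∀ y ∈ C, x ≠ y → M.e x y = 0 := by
    intro x hx y hy hxy
    rw [M.e_eq_zero_iff]
    intro u hu v hv huv
    have hvD : v ∈ D := mem_biUnion.2 ⟨y, hy, hv⟩
    rcases hxcl x hx u hu v (hDW hvD) huv with h1 | h1 | h1 | h1
    · exact Finset.disjoint_left.1 (h.disj x hx y hy hxy) h1 hv
    · exact Finset.disjoint_left.1 dUD h1 hvD
    · rw [h1] at hvD; exact Finset.disjoint_left.1 dKD haK' hvD
    · rw [h1] at hvD; exact Finset.disjoint_left.1 dKD hbK' hvD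
  have hDR : M.e D R = 0 := by
    rw [M.e_eq_zero_iff]
    intro u hu v hv huv
    obtain ⟨x, hx, hux⟩ := mem_biUnion.1 hu
    rcases hxcl x hx u hux v (hRW hv) huv with h1 | h1 | h1 | h1
    · exact Finset.disjoint_left.1 dDR (mem_biUnion.2 ⟨x, hx, h1⟩) hv
    · exact Finset.disjoint_left.1 dUR h1 hv
    · rw [h1] at hv; exact Finset.disjoint_left.1 dKR haK' hv
    · rw [h1] at hv; exact Finset.disjoint_left.1 dKR hbK' hv
  have hDab : ∀ y, y ∈ K → y ≠ M.μ a → y ≠ M.μ b → M.e {y} D = 0 := by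
    intro y hy hya hyb
    rw [M.e_eq_zero_iff]
    intro u hu v hv huv
    rw [mem_singleton] at hu
    subst hu
    obtain ⟨x, hx, hvx⟩ := mem_biUnion.1 hv
    rcases hxcl x hx v hvx u (hKW hy) huv.symm with h1 | h1 | h1 | h1
    · exact Finset.disjoint_left.1 dKD hy (mem_biUnion.2 ⟨x, hx, h1⟩)
    · exact Finset.disjoint_left.1 dKU hy h1
    · exact hya h1
    · exact hyb h1
  have hbne : b ≠ M.μ a := fun h1 => hbn (by rw [mem_nd]; right; exact h1)
  have hane : a ≠ M.μ b := by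
    intro h1; apply hbne; rw [h1, M.inv]
  have haD : M.e {a} D = 0 := hDab a haK (M.ne a).symm hane
  have hbD : M.e {b} D = 0 := hDab b hbK hbne (M.ne b).symm
  -- edges inside `K`
  have hab1 : M.e {a} {b} = 1 := M.e_singleton hab
  have q1 := e_nd_right (M := M) (M.nd a) b
  have q1a := e_nd_left (M := M) {b} a
  have q1b := e_nd_left (M := M) {M.μ b} a
  have q2 : M.e {a} K = M.e {a} (M.nd a) + M.e {a} (M.nd b) := by
    rw [hK]; exact M.e_union_right hdab _
  have q3 : M.e {M.μ a} K = M.e {M.μ a} (M.nd a) + M.e {M.μ a} (M.nd b) := by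
    rw [hK]; exact M.e_union_right hdab _
  have q4 : M.e {b} K = M.e {b} (M.nd a) + M.e {b} (M.nd b) := by
    rw [hK]; exact M.e_union_right hdab _
  have q5 : M.e {M.μ b} K = M.e {M.μ b} (M.nd a) + M.e {M.μ b} (M.nd b) := by
    rw [hK]; exact M.e_union_right hdab _
  have q6 := e_nd_nd (M := M) a
  rw [e_nd_left] at q6
  have q7 := e_nd_nd (M := M) b
  rw [e_nd_left] at q7
  have q8 := e_nd_right (M := M) {a} b
  have q9 := e_nd_right (M := M) {M.μ a} b
  have q10 := e_nd_right (M := M) {b} a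
  have q11 := e_nd_right (M := M) {M.μ b} a
  have c1 := M.e_comm {a} {b}
  have c2 := M.e_comm {M.μ a} {b}
  have c3 := M.e_comm {a} {M.μ b}
  have c4 := M.e_comm {M.μ a} {M.μ b}
  have hKa : M.e {a} K = 1 := by omega
  have hKb : M.e {b} K = 1 := by omega
  have hKa' : M.e {M.μ a} K = 0 := by omega
  have hKb' : M.e {M.μ b} K = 0 := by omega
  have hKK : M.e K K = 2 := by rw [hsplit', hKa, hKb, hKa', hKb']
  -- counting
  have hU1W : K ∪ U ⊆ W := union_subset hKW hUW
  have hcount := count (M := M) (C := C) hU1W (fun x hx => ⟨by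
    intro y hy
    have hyD : y ∈ D := mem_biUnion.2 ⟨x, hx, hy⟩
    rw [mem_sdiff, mem_union, not_or]
    exact ⟨hDW hyD, Finset.disjoint_right.1 dKD hyD, Finset.disjoint_right.1 dUD hyD⟩, by
    rw [M.e_eq_zero_iff]
    intro y hy z hz hyz
    rw [mem_sdiff, mem_sdiff, mem_union, not_or] at hz
    rcases hxcl x hx y hy z hz.1.1 hyz with h1 | h1 | h1 | h1
    · exact hz.2 h1
    · exact hz.1.2.2 h1
    · rw [h1] at hz; exact hz.1.2.1 haK'
    · rw [h1] at hz; exact hz.1.2.1 hbK'⟩) h.disj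
  rw [← hD, ← hR] at hcount
  have r1 : M.e (K ∪ U) W = M.e K W + M.e U W := M.e_union_left dKU _
  have r2 : M.e (K ∪ U) (K ∪ U) = M.e K (K ∪ U) + M.e U (K ∪ U) := M.e_union_left dKU _
  have r3 : M.e K (K ∪ U) = M.e K K + M.e K U := M.e_union_right dKU _
  have r4 : M.e U (K ∪ U) = M.e U K + M.e U U := M.e_union_right dKU _
  have r5 := M.e_comm U K
  have r6 := hsplit' U
  have r7 := hsplit' W
  have r8 := card_union_of_disjoint dKU
  have sa := hsplit {a}
  have sb := hsplit {b}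
  have sa' := hsplit {M.μ a}
  have sb' := hsplit {M.μ b}
  have sU := hsplit U
  have sD := hsplit D
  have r9 := M.e_comm D K
  have r10 := hsplit' D
  have r11 := M.e_comm D U
  have hdD : M.d D = ∑ x ∈ C, M.d x := M.d_biUnion C h.disj hee
  have r12 := M.d_add D
  have hcardW : W.card = K.card + U.card + D.card + R.card := by
    rw [hWeq, card_union_of_disjoint (disjoint_union_left.2
      ⟨disjoint_union_left.2 ⟨dKR, dUR⟩, dDR⟩), card_union_of_disjoint
      (disjoint_union_left.2 ⟨dKD, dUD⟩), card_union_of_disjoint dKU]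
  have r13 : M.e W W = M.e K W + M.e U W + M.e D W + M.e R W := by
    have : ∀ A : Finset V, M.e W A = M.e K A + M.e U A + M.e D A + M.e R A := by
      intro A
      rw [hWeq, M.e_union_left (disjoint_union_left.2 ⟨disjoint_union_left.2 ⟨dKR, dUR⟩, dDR⟩),
        M.e_union_left (disjoint_union_left.2 ⟨dKD, dUD⟩), M.e_union_left dKU]
    exact this W
  have r14 := M.d_add W
  refine ⟨D, R, ⟨rfl, rfl, hRmc, hDmc, hDW, hRW, hUW, dKU, dKD, dUD, hWeq, ?_, ?_, ?_, ?_, ?_, ?_,
    ?_, ?_, ?_, ?_, hDR, hee, haD, hbD⟩⟩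
  · omega
  · omega
  · omega
  · omega
  · omega
  · omega
  · omega
  · omega
  · omega
  · omega

end Setup

end Pool.Agent.LTD
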