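import Pool.Agent.Lib.MP_a46439_co.Bip3

set_option autoImplicit false

/-! The factor-critical case is impossible. -/

namespace Pool.Agent.LTD

open Finset TB

namespace Setup

variable {V : Type} [Fintype V] [DecidableEq V] {M : Setup V}

/-- a minimal counterexample -/
structure Ctx (M : Setup V) (W : Finset V) : Prop where
  mc : M.Mc W
  T : ∀ v ∈ W, M.TV v
  c2 : W.card % 4 = 2
  d4 : M.d W = 4
  light : ∀ c ⊆ W, M.Mc c → c.Nonempty → c ≠ W → 4 ≤ M.d c
  nc : ¬ M.Cov W
  fc : ∀ v ∈ W, M.Cov (W \ M.nd v)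
  big : 2 < W.card
  ih : M.BipIH W.card

lemma Ctx.np {W : Finset V} (X : M.Ctx W) {u v : V} (hu : u ∈ W) (hv : v ∈ W) :
    M.e (M.nd u) (M.nd v) ≤ 1 := nopar X.mc X.T X.nc X.fc hu hv

/-- the tightness of a violator if the window has a boundary end at `μ a` or `μ b` -/
lemma Ctx.tight {W : Finset V} (X : M.Ctx W) {a b : V} (ha : a ∈ W)
    {U : Finset V} {C : Finset (Finset V)} {D R : Finset V}
    (h : M.Viol W a b U C) (he : M.VEq W a b U C D R)
    (hβ : M.e {M.μ a} W + M.e {M.μ b} W ≤ 3) :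
    M.e {M.μ a} W + M.e {M.μ b} W = 3 ∧ 2 * C.card = U.card + 2 ∧ (∀ x ∈ C, M.d x = 4) ∧
      ∑ x ∈ C, M.d x = 4 * C.card ∧
      M.d R ≤ 4 ∧ (R ≠ ∅ → M.e {a} W = 2 ∧ M.e {b} W = 2) ∧
      (R = ∅ → M.e U U = 0 ∧ M.e {M.μ a} U = 0 ∧ M.e {M.μ b} U = 0 ∧ M.e U W = 2 * U.card) := by
  classical
  have haK : a ∈ M.nd a ∪ M.nd b := mem_union_left _ (self_mem_nd a)
  have haD : a ∉ D := Finset.disjoint_left.1 he.dKD haK
  have haR : a ∉ R := by
    rw [he.Rdef, mem_sdiff, mem_sdiff]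
    rintro ⟨⟨_, h1⟩, _⟩
    exact h1 (mem_union_left _ haK)
  have hCW : ∀ x ∈ C, x ⊆ W := fun x hx => (h.CW x hx).trans sdiff_subset
  have hxD : ∀ x ∈ C, x ⊆ D := by
    intro x hx y hy; rw [he.Ddef]; exact mem_biUnion.2 ⟨x, hx, hy⟩
  have hd4 : ∀ x ∈ C, 4 ≤ M.d x := by
    intro x hx
    refine X.light x (hCW x hx) (h.mcC x hx) ?_ ?_
    · rw [← card_pos]; have := h.card2 x hx; omega
    · rintro rfl
      exact haD (hxD _ hx ha)
  have hsum : 4 * C.card ≤ ∑ x ∈ C, M.d x := by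
    rw [mul_comm, ← smul_eq_mul, ← sum_const]
    exact sum_le_sum hd4
  have hR4 : R ≠ ∅ → 4 ≤ M.d R := by
    intro hne
    refine X.light R he.RW he.mcR (nonempty_iff_ne_empty.2 hne) ?_
    rintro rfl
    exact haR ha
  have hR0 : R = ∅ → M.e {a} R = 0 ∧ M.e {b} R = 0 ∧ M.e {M.μ a} R = 0 ∧ M.e {M.μ b} R = 0 := by
    intro h0; rw [h0]; simp
  have hc := h.card
  have hUc := h.node_card
  have h1 := he.ea
  have h2 := he.eb
  have h3 := he.cnt
  have h4 := X.d4
  have l1 := M.e_le {a} W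
  have l2 := M.e_le {b} W
  have l3 := M.e_le {M.μ a} W
  have l4 := M.e_le {M.μ b} W
  have l5 := M.e_le U W
  rw [card_singleton] at l1 l2 l3 l4
  by_cases hR : R = ∅
  · obtain ⟨z1, z2, z3, z4⟩ := hR0 hR
    have hall : M.e {M.μ a} W + M.e {M.μ b} W = 3 ∧ 2 * C.card = U.card + 2 ∧
        ∑ x ∈ C, M.d x = 4 * C.card := by omega
    refine ⟨hall.1, hall.2.1, ?_, hall.2.2, ?_, fun h' => absurd hR h', fun _ => ?_⟩
    · intro x hx
      by_contra hne'
      have h5 : 4 < M.d x := lt_of_le_of_ne (hd4 x hx) (Ne.symm hne')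
      have : ∑ c ∈ C, 4 < ∑ c ∈ C, M.d c := sum_lt_sum hd4 ⟨x, hx, h5⟩
      rw [sum_const, smul_eq_mul] at this
      omega
    · rw [hR]; simp
    · omega
  · have h5 := hR4 hR
    have hall : M.e {M.μ a} W + M.e {M.μ b} W = 3 ∧ 2 * C.card = U.card + 2 ∧
        ∑ x ∈ C, M.d x = 4 * C.card := by omega
    refine ⟨hall.1, hall.2.1, ?_, hall.2.2, by omega, fun _ => by omega, fun h' => absurd h' hR⟩
    intro x hx
    by_contra hne'
    have h5 : 4 < M.d x := lt_of_le_of_ne (hd4 x hx) (Ne.symm hne')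
    have : ∑ c ∈ C, 4 < ∑ c ∈ C, M.d c := sum_lt_sum hd4 ⟨x, hx, h5⟩
    rw [sum_const, smul_eq_mul] at this
    omega

/-- a cover of `U ∪ D` extends to `W`. -/
lemma Ctx.cov_rest {W : Finset V} (X : M.Ctx W) {a b : V} (ha : a ∈ W) (hb : b ∈ W)
    (hab : M.H.Adj a b) {U : Finset V} {C : Finset (Finset V)} {D R : Finset V}
    (h : M.Viol W a b U C) (he : M.VEq W a b U C D R) (hc : 2 * C.card = U.card + 2)
    (hdR : M.d R ≤ 4) (hcov : M.Cov (U ∪ D)) : M.Cov W := by
  classical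
  have hbn : b ∉ M.nd a := by
    rw [mem_nd]; rintro (rfl | rfl)
    · exact M.H.loopless.irrefl _ hab
    · exact M.Hne _ hab
  have hdab : Disjoint (M.nd a) (M.nd b) := (nd_disjoint hbn).symm
  have hKmc : M.Mc (M.nd a ∪ M.nd b) := (Mc_nd _).union (Mc_nd _)
  have hKcov : M.Cov (M.nd a ∪ M.nd b) :=
    CovX.cov_pair (Mc_nd a) (Mc_nd b) hdab (X.T a ha).covX (X.T b hb).covX hab
  have hDc : D.card = ∑ x ∈ C, x.card := by
    rw [he.Ddef, card_biUnion]
    · rfl
    · exact h.disj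
  have hmod := sum_card_mod h.card2
  have hUc := h.node_card
  have hWc := he.Wcard
  have h2 := X.c2
  have haK : a ∈ M.nd a ∪ M.nd b := mem_union_left _ (self_mem_nd a)
  have haR : a ∉ R := by
    rw [he.Rdef, mem_sdiff, mem_sdiff]
    rintro ⟨⟨_, h1⟩, _⟩
    exact h1 (mem_union_left _ haK)
  have hR : M.Cov (R \ ∅) := by
    apply regCov he.mcR Mc_empty (empty_subset _)
    · intro v hv; exact X.T v (he.RW (mem_sdiff.1 hv).1)
    · rw [sdiff_empty]; omega
    · intro c hc' hmc hcard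
      rw [sdiff_empty] at hc'
      refine X.light c (hc'.trans he.RW) hmc (by rw [← card_pos]; omega) ?_
      rintro rfl
      exact haR (hc' ha)
    · simp only [e_empty_left, card_empty]; omega
  rw [sdiff_empty] at hR
  have dKUD : Disjoint (M.nd a ∪ M.nd b) (U ∪ D) := disjoint_union_right.2 ⟨he.dKU, he.dKD⟩
  have h1 := Cov.union hKmc (h.mcU.union he.mcD) dKUD hKcov hcov
  have dR : Disjoint ((M.nd a ∪ M.nd b) ∪ (U ∪ D)) R := by
    rw [Finset.disjoint_right]; intro x hx hx'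
    rw [he.Rdef, mem_sdiff, mem_sdiff] at hx
    rw [mem_union, mem_union (s := U)] at hx'
    rcases hx' with h1 | h1 | h1
    · exact hx.1.2 (mem_union_left _ h1)
    · exact hx.1.2 (mem_union_right _ h1)
    · exact hx.2 h1
  have h3 := Cov.union (hKmc.union (h.mcU.union he.mcD)) he.mcR dR h1 hR
  have h4 : (M.nd a ∪ M.nd b) ∪ (U ∪ D) ∪ R = W := by
    conv_rhs => rw [he.Weq]
    rw [← union_assoc]
  rwa [h4] at h3

lemma Ctx.compX {W : Finset V} (X : M.Ctx W) {a b : V} (ha : a ∈ W)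
    {U : Finset V} {C : Finset (Finset V)} {D R : Finset V}
    (h : M.Viol W a b U C) (he : M.VEq W a b U C D R) (hd4 : ∀ x ∈ C, M.d x = 4) :
    ∀ x ∈ C, (∀ w ∈ x, M.TV w) ∧ (∀ c' ⊆ x, M.Mc c' → c'.Nonempty → 4 ≤ M.d c') ∧
      (∀ y ∈ x, ∀ u, u ∉ x → M.H.Adj y u → M.CovX x y) ∧ x.card < W.card := by
  intro x hx
  have hxW : x ⊆ W := (h.CW x hx).trans sdiff_subset
  have haK : a ∈ M.nd a ∪ M.nd b := mem_union_left _ (self_mem_nd a)
  have hax : a ∉ x := fun h' => (mem_sdiff.1 (h.CW x hx h')).2 haK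
  have hTx : ∀ w ∈ x, M.TV w := fun w hw => X.T w (hxW hw)
  have hoddx : ∀ c' ⊆ x, M.Mc c' → c'.Nonempty → 4 ≤ M.d c' := by
    intro c' hc' hmc hne
    refine X.light c' (hc'.trans hxW) hmc hne ?_
    rintro rfl
    exact hax (hc' ha)
  refine ⟨hTx, hoddx, ?_, ?_⟩
  · intro y hy u hu hyu
    exact covX_comp (h.mcC x hx) hTx (h.card2 x hx) (hd4 x hx).le
      (fun c' hc' hmc hcard _ => hoddx c' hc' hmc (by rw [← card_pos]; omega)) hy hu hyu
  · apply card_lt_card
    exact ⟨hxW, fun h' => hax (h' ha)⟩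

/-- There is a violator of positive surplus all of whose components are single nodes. -/
lemma Ctx.exists_single {W : Finset V} (X : M.Ctx W) {a b : V} (ha : a ∈ W) (hb : b ∈ W)
    (hab : M.H.Adj a b) (hβ : M.e {M.μ a} W + M.e {M.μ b} W ≤ 3) :
    ∃ U C, M.Viol W a b U C ∧ (∀ x ∈ C, x.card = 2) ∧
      ∀ Y ⊆ U.image M.nd, Y.Nonempty → Y.card + 1 ≤ (Y.biUnion (M.Nb C)).card := by
  classical
  obtain ⟨U0, C0, h0⟩ := exists_viol X.mc X.T X.c2 X.d4.le X.light X.nc ha hb hab
  obtain ⟨U, C, h, _, hs⟩ := h0.exists_surplus (fun _ => True) (fun _ _ => trivial)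
  obtain ⟨D, R, he⟩ := h.eqs X.mc ha hb hab (X.np ha hb)
  obtain ⟨_, hcard, hd4, _, hdR, _, _⟩ := X.tight ha h he hβ
  have hcomp := X.compX ha h he hd4
  have hUW : U ⊆ W := he.UW
  have hncov : ∀ x ∈ C, ¬ M.Cov x := by
    intro x hx hxc
    apply X.nc
    apply X.cov_rest ha hb hab h he hcard hdR
    rw [he.Ddef]
    exact surplus_cov h.mcU (fun w hw => X.T w (hUW hw)) h.mcC h.disj h.CU
      (fun x hx => (hcomp x hx).2.2.1) hs hcard hx hxc
  have hbip : ∀ x ∈ C, ∃ U, M.Bip x U := by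
    intro x hx
    obtain ⟨h1, h2, h3, h4⟩ := hcomp x hx
    exact X.ih x h4 (h.mcC x hx) h1 (h.card2 x hx) (hd4 x hx)
      (fun c' hc' hmc hne _ => h2 c' hc' hmc hne) (hncov x hx)
  obtain ⟨U', hU', hmc', h1', h2', h3', h4'⟩ := expand h.disj he.ee hbip
  rw [← he.Ddef] at hU' h1' h3' h4'
  have hDU' : M.Mc (D \ U') := he.mcD.sdiff hmc'
  have hUU' : Disjoint U U' := disjoint_of_subset_right hU' he.dUD
  have hcc : (D \ U').card = 2 * ((D \ U').image M.nd).card := by
    rw [← nodes_card (subset_refl _), nodes_biUnion hDU']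
  have hDK : D ⊆ W \ (M.nd a ∪ M.nd b) := by
    rw [he.Ddef, biUnion_subset]; exact h.CW
  have hv : M.Viol W a b (U ∪ U') ((D \ U').image M.nd) := by
    refine ⟨h.mcU.union hmc', union_subset h.UW (hU'.trans hDK), ?_, ?_, ?_, ?_, ?_, ?_, ?_⟩
    · intro x hx
      obtain ⟨v, _, rfl⟩ := mem_image.1 hx
      exact Mc_nd v
    · intro x hx
      obtain ⟨v, hv, rfl⟩ := mem_image.1 hx
      exact (hDU'.nd_subset hv).trans (sdiff_subset.trans hDK)
    · intro x hx
      obtain ⟨v, hv, rfl⟩ := mem_image.1 hx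
      have h5 := hDU'.nd_subset hv
      rw [disjoint_union_right]
      refine ⟨(disjoint_of_subset_right (h5.trans sdiff_subset) he.dUD).symm, ?_⟩
      rw [Finset.disjoint_left]; intro y hy
      exact (mem_sdiff.1 (h5 hy)).2
    · intro x hx
      obtain ⟨v, hv, rfl⟩ := mem_image.1 hx
      rw [nd_card]
    · intro x hx
      obtain ⟨v, hv, rfl⟩ := mem_image.1 hx
      have h5 := hDU'.nd_subset hv
      rw [M.e_eq_zero_iff]
      intro y hy z hz hyz
      rw [mem_sdiff, mem_union, mem_union, mem_union, not_or, not_or, not_or] at hz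
      obtain ⟨hzW, ⟨hzx, hzU, hzU'⟩, hzab⟩ := hz
      have hyD := h5 hy
      by_cases hzD : z ∈ D
      · rw [M.e_eq_zero_iff] at h3'
        exact h3' y hyD z (mem_sdiff.2 ⟨hzD, hzU'⟩) hyz
      · rw [mem_sdiff, he.Ddef] at hyD
        obtain ⟨w, hw, hyw⟩ := mem_biUnion.1 hyD.1
        have hcl := h.closed w hw
        rw [M.e_eq_zero_iff] at hcl
        refine hcl y hyw z ?_ hyz
        rw [mem_sdiff, mem_union, mem_union, not_or, not_or]
        refine ⟨hzW, ⟨fun h' => hzD ?_, hzU⟩, hzab⟩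
        rw [he.Ddef]; exact mem_biUnion.2 ⟨w, hw, h'⟩
    · intro x hx y hy hxy
      exact nodes_disjoint hx hy hxy
    · have := h.card
      rw [card_union_of_disjoint hUU']
      omega
  obtain ⟨U1, C1, hv1, hp1, hs1⟩ := hv.exists_surplus (fun x => x.card = 2) (by
    intro x hx
    obtain ⟨v, hv, rfl⟩ := mem_image.1 hx
    exact nd_card v)
  exact ⟨U1, C1, hv1, hp1, hs1⟩

lemma two_nbrs {v y1 y2 y : V} (h1 : M.H.Adj v y1) (h2 : M.H.Adj v y2) (hne : y1 ≠ y2)
    (h : M.H.Adj v y) : y = y1 ∨ y = y2 := by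
  by_contra hcon
  push Not at hcon
  have := le_e (M := M) (A := {v}) (B := univ) {(v, y), (v, y1), (v, y2)} (by
    intro p hp
    simp only [mem_insert, mem_singleton] at hp
    rcases hp with rfl | rfl | rfl
    · exact ⟨by simp, by simp, h⟩
    · exact ⟨by simp, by simp, h1⟩
    · exact ⟨by simp, by simp, h2⟩)
  have hc : ({(v, y), (v, y1), (v, y2)} : Finset (V × V)).card = 3 := by
    rw [card_insert_of_notMem, card_insert_of_notMem, card_singleton]
    · simp [hne]
    · simp [hcon.1, hcon.2]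
  have h3 := M.e_deg v
  omega

lemma nd_of_card {x : Finset V} (hx : M.Mc x) (hc : x.card = 2) {y : V} (hy : y ∈ x) :
    x = M.nd y := by
  symm
  apply eq_of_subset_of_card_le (hx.nd_subset hy)
  rw [hc, nd_card]

/-- a side of a node of `U` with both neighbours in `D` gives a blocked pair. -/
lemma Ctx.blocked {W : Finset V} (X : M.Ctx W) {a b : V} (ha : a ∈ W) (hb : b ∈ W)
    (hab : M.H.Adj a b) {U : Finset V} {C : Finset (Finset V)} {D R : Finset V}
    (h : M.Viol W a b U C) (he : M.VEq W a b U C D R) (hp : ∀ x ∈ C, x.card = 2)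
    (hcard : 2 * C.card = U.card + 2) (hd4 : ∀ x ∈ C, M.d x = 4) (hdR : M.d R ≤ 4)
    {v : V} (hv : v ∈ U) (h2 : M.e {v} D = 2) :
    ∃ p ∈ M.Nb C (M.nd v), ∃ q ∈ M.Nb C (M.nd v),
      Blocked (U.image M.nd) (M.Nb C) (M.nd v) p q ∧
      ∀ y ∈ D, M.H.Adj v y → y ∈ p ∨ y ∈ q := by
  classical
  obtain ⟨y1, hy1, _, hvy1⟩ := exists_other h2 v
  obtain ⟨y2, hy2, hne, hvy2⟩ := exists_other h2 y1
  have hy1' := hy1
  have hy2' := hy2
  rw [he.Ddef] at hy1' hy2'
  obtain ⟨p, hpC, hyp⟩ := mem_biUnion.1 hy1'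
  obtain ⟨q, hqC, hyq⟩ := mem_biUnion.1 hy2'
  simp only [id] at hyp hyq
  have hvW : v ∈ W := he.UW hv
  have hpq : p ≠ q := by
    rintro rfl
    have h3 := nd_of_card (h.mcC p hpC) (hp p hpC) hyp
    rw [h3, mem_nd] at hyq
    rcases hyq with h4 | h4
    · exact hne h4
    · have h5 := X.np hvW (he.DW hy1)
      have h6 := le_e (M := M) (A := M.nd v) (B := M.nd y1) {(v, y1), (v, M.μ y1)} (by
        intro z hz
        simp only [mem_insert, mem_singleton] at hz
        rcases hz with rfl | rfl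
        · exact ⟨self_mem_nd _, self_mem_nd _, hvy1⟩
        · exact ⟨self_mem_nd _, by simp, h4 ▸ hvy2⟩)
      rw [card_pair] at h6
      · omega
      · intro h7
        exact M.ne y1 (Prod.ext_iff.1 h7).2.symm
  have hpN : p ∈ M.Nb C (M.nd v) := by
    rw [mem_Nb, M.e_pos_iff]
    exact ⟨hpC, v, self_mem_nd v, y1, hyp, hvy1⟩
  have hqN : q ∈ M.Nb C (M.nd v) := by
    rw [mem_Nb, M.e_pos_iff]
    exact ⟨hqC, v, self_mem_nd v, y2, hyq, hvy2⟩
  refine ⟨p, hpN, q, hqN, ?_, ?_⟩
  · by_contra hB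
    have hall : ∀ Y ⊆ (U.image M.nd).erase (M.nd v),
        Y.card ≤ ((Y.biUnion (M.Nb C)) \ {p, q}).card := by
      intro Y hY
      by_contra hlt
      exact hB ⟨Y, hY, by omega⟩
    have hcomp := X.compX ha h he hd4
    have hUW : U ⊆ W := he.UW
    have hvI : M.nd v ∈ U.image M.nd := mem_image_of_mem _ hv
    have hUc := h.node_card
    have hpqC : ({p, q} : Finset (Finset V)) ⊆ C := by
      intro z hz
      rw [mem_insert, mem_singleton] at hz
      rcases hz with rfl | rfl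
      · exact hpC
      · exact hqC
    have h1 := hall_nodes (M := M) h.mcU (fun w hw => X.T w (hUW hw)) h.mcC h.disj h.CU
      (fun x hx => (hcomp x hx).2.2.1) (erase_subset _ _) hall (by
        have h3 := card_sdiff_add_card_eq_card hpqC
        rw [card_pair hpq] at h3
        rw [card_erase_of_mem hvI]
        omega)
    have hndU : M.nd v ⊆ U := h.mcU.nd_subset hv
    have dvp : Disjoint (M.nd v) p := (disjoint_of_subset_right hndU (h.CU p hpC)).symm
    have dvq : Disjoint (M.nd v) q := (disjoint_of_subset_right hndU (h.CU q hqC)).symm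
    have dpq : Disjoint p q := h.disj p hpC q hqC hpq
    have h3 : M.Cov (M.nd v ∪ p ∪ q) := by
      apply CovX.cov_triple (Mc_nd v) (h.mcC p hpC) (h.mcC q hqC) dvp dvq dpq
        (X.T v hvW).covX
        ((hcomp p hpC).2.2.1 y1 hyp v (Finset.disjoint_left.1 dvp (self_mem_nd v)) hvy1.symm)
        ((hcomp q hqC).2.2.1 y2 hyq v (Finset.disjoint_left.1 dvq (self_mem_nd v)) hvy2.symm)
        hvy1 hvy2
    set I' := (U.image M.nd).erase (M.nd v) with hI'
    have hI'sub : I' ⊆ U.image M.nd := erase_subset _ _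
    have hI'mc : M.Mc (I'.biUnion id) := by
      apply Mc.biUnion
      intro A hA
      obtain ⟨w, _, rfl⟩ := mem_image.1 (hI'sub hA)
      exact Mc_nd w
    have hI'U : I'.biUnion id ⊆ U := by
      conv_rhs => rw [← nodes_biUnion h.mcU]
      exact biUnion_subset_biUnion_of_subset_left _ hI'sub
    have hvI' : Disjoint (M.nd v) (I'.biUnion id) := by
      rw [disjoint_biUnion_right]
      intro A hA
      exact nodes_disjoint hvI (hI'sub hA) (mem_erase.1 hA).1.symm
    have hCC : M.Mc ((C \ {p, q}).biUnion id) :=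
      Mc.biUnion _ _ fun x hx => h.mcC x (mem_sdiff.1 hx).1
    have h4 := Cov.union (((Mc_nd v).union (h.mcC p hpC)).union (h.mcC q hqC))
      (hI'mc.union hCC) ?_ h3 h1
    · apply X.nc
      apply X.cov_rest ha hb hab h he hcard hdR
      have h5 : M.nd v ∪ p ∪ q ∪ (I'.biUnion id ∪ (C \ {p, q}).biUnion id) = U ∪ D := by
        have h6 : U = M.nd v ∪ I'.biUnion id := by
          conv_lhs => rw [← nodes_biUnion h.mcU, ← insert_erase hvI]
          rw [biUnion_insert]; rfl
        have h7 : D = p ∪ q ∪ (C \ {p, q}).biUnion id := by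
          rw [he.Ddef]
          ext z
          simp only [mem_biUnion, mem_union, mem_sdiff, mem_insert, mem_singleton, id, not_or]
          constructor
          · rintro ⟨x, hx, hz⟩
            by_cases e1 : x = p
            · subst e1; exact Or.inl (Or.inl hz)
            · by_cases e2 : x = q
              · subst e2; exact Or.inl (Or.inr hz)
              · exact Or.inr ⟨x, ⟨hx, e1, e2⟩, hz⟩
          · rintro ((hz | hz) | ⟨x, ⟨hx, _⟩, hz⟩)
            · exact ⟨p, hpC, hz⟩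
            · exact ⟨q, hqC, hz⟩
            · exact ⟨x, hx, hz⟩
        rw [h7]
        conv_rhs => rw [h6]
        ext z
        simp only [mem_union]
        tauto
      rwa [h5] at h4
    · have hCCU : Disjoint ((C \ {p, q}).biUnion id) U := by
        rw [disjoint_biUnion_left]
        intro x hx
        exact h.CU x (mem_sdiff.1 hx).1
      have hpI : Disjoint p (I'.biUnion id) := disjoint_of_subset_right hI'U (h.CU p hpC)
      have hqI : Disjoint q (I'.biUnion id) := disjoint_of_subset_right hI'U (h.CU q hqC)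
      have hvC : Disjoint (M.nd v) ((C \ {p, q}).biUnion id) :=
        (disjoint_of_subset_right hndU hCCU).symm
      have hpC' : Disjoint p ((C \ {p, q}).biUnion id) := by
        rw [disjoint_biUnion_right]
        intro x hx
        rw [mem_sdiff, mem_insert, mem_singleton, not_or] at hx
        exact h.disj p hpC x hx.1 (Ne.symm hx.2.1)
      have hqC' : Disjoint q ((C \ {p, q}).biUnion id) := by
        rw [disjoint_biUnion_right]
        intro x hx
        rw [mem_sdiff, mem_insert, mem_singleton, not_or] at hx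
        exact h.disj q hqC x hx.1 (Ne.symm hx.2.2)
      simp only [disjoint_union_left, disjoint_union_right]
      exact ⟨⟨⟨hvI', hpI⟩, hqI⟩, ⟨⟨hvC, hpC'⟩, hqC'⟩⟩
  · intro y hy hvy
    rcases two_nbrs hvy1 hvy2 hne.symm hvy with rfl | rfl
    · exact Or.inl hyp
    · exact Or.inr hyq

end Setup

end Pool.Agent.LTD
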