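import Pool.Agent.Lib.MP_a46439_co.Light

set_option autoImplicit false
set_option linter.unusedSectionVars false

/-! The root of a rooted graph inside a set-up. -/

namespace Pool.Agent.LTD

open Finset

namespace Setup

variable {V : Type} [Fintype V] [DecidableEq V] {M : Setup V}

lemma e_single_eq (v : V) (W : Finset V) [DecidablePred fun y => M.H.Adj v y] :
    M.e {v} W = (W.filter fun y => M.H.Adj v y).card := by
  classical
  rw [card_filter]
  simp only [Setup.e, E, sum_singleton]
  refine sum_congr rfl fun b _ => ?_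
  by_cases h : M.H.Adj v b
  · rw [if_pos h, if_pos h]
  · rw [if_neg h, if_neg h]

/-- a vertex has at most two neighbours -/
lemma nbr_two {v a b c : V} (ha : M.H.Adj v a) (hb : M.H.Adj v b) (hab : a ≠ b)
    (hc : M.H.Adj v c) : c = a ∨ c = b := by
  classical
  by_contra h
  rw [not_or] at h
  have h1 := M.e_deg v
  have h2 := le_e (M := M) (A := {v}) (B := univ) {(v, a), (v, b), (v, c)} (by
    intro q hq
    simp only [mem_insert, mem_singleton] at hq
    rcases hq with rfl | rfl | rfl
    · exact ⟨mem_singleton_self _, mem_univ _, ha⟩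
    · exact ⟨mem_singleton_self _, mem_univ _, hb⟩
    · exact ⟨mem_singleton_self _, mem_univ _, hc⟩)
  have h3 : ({(v, a), (v, b), (v, c)} : Finset (V × V)).card = 3 := by
    rw [card_insert_of_notMem, card_insert_of_notMem, card_singleton]
    · simp only [mem_singleton, Prod.mk.injEq, true_and]; exact fun h' => h.2 h'.symm
    · simp only [mem_insert, mem_singleton, Prod.mk.injEq, true_and, not_or]
      exact ⟨hab, fun h' => h.1 h'.symm⟩
  omega

/-- a vertex with a given neighbour has at most one other neighbour -/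
lemma exists_two {v : V} (h : M.e {v} univ = 2) : ∃ a b, a ≠ b ∧ M.H.Adj v a ∧ M.H.Adj v b := by
  obtain ⟨a, _, _, ha⟩ := exists_other h v
  obtain ⟨b, _, hba, hb⟩ := exists_other h a
  exact ⟨a, b, hba.symm, ha, hb⟩

/-- the root `p`, matched to an isolated vertex, and its two neighbours -/
structure Root (M : Setup V) (p p1 p2 : V) : Prop where
  a1 : M.H.Adj p p1
  a2 : M.H.Adj p p2
  ne : p1 ≠ p2
  iso : ∀ v, ¬ M.H.Adj (M.μ p) v
  full : ∀ v, v ≠ M.μ p → M.e {v} univ = 2

namespace Root

variable {p p1 p2 : V}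

lemma symm (h : M.Root p p1 p2) : M.Root p p2 p1 := ⟨h.a2, h.a1, h.ne.symm, h.iso, h.full⟩

lemma nbr (h : M.Root p p1 p2) {v : V} (hv : M.H.Adj p v) : v = p1 ∨ v = p2 :=
  nbr_two h.a1 h.a2 h.ne hv

lemma e_full (h : M.Root p p1 p2) {A : Finset V} (hA : M.μ p ∉ A) :
    M.e A univ = 2 * A.card := by
  induction A using Finset.induction_on with
  | empty => simp
  | insert a A ha ih =>
    rw [mem_insert, not_or] at hA
    have h3 : insert a A = {a} ∪ A := by ext; simp
    rw [card_insert_of_notMem ha, h3, M.e_union_left (by simpa using ha), ih hA.2,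
      h.full a (Ne.symm hA.1)]
    ring

lemma d_eq (h : M.Root p p1 p2) {A : Finset V} (hA : M.μ p ∉ A) : M.d A = M.e A Aᶜ := by
  have h1 := h.e_full hA
  have h2 := M.d_add A
  have h3 : M.e A univ = M.e A A + M.e A (univ \ A) := M.e_sdiff (subset_univ _) _
  rw [← compl_eq_univ_sdiff] at h3
  omega

lemma e_iso (h : M.Root p p1 p2) (A : Finset V) : M.e {M.μ p} A = 0 := by
  rw [M.e_eq_zero_iff]
  intro a ha b _
  rw [mem_singleton] at ha; subst ha
  exact h.iso b

lemma d_univ (h : M.Root p p1 p2) : M.d univ = 2 := by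
  have h1 : M.e univ univ = M.e {M.μ p} univ + M.e (univ \ {M.μ p}) univ :=
    M.e_sdiff_left (subset_univ _) _
  rw [h.e_iso, h.e_full (A := univ \ {M.μ p}) (by simp)] at h1
  have h2 := M.d_add univ
  have h3 := card_sdiff_add_card_eq_card (subset_univ ({M.μ p} : Finset V))
  rw [card_singleton] at h3
  omega

lemma good (h : M.Root p p1 p2) (v : V) : M.μ v ∉ M.rail v := by
  intro hb
  have := (bad_all hb).2
  rw [h.d_univ] at this
  omega

lemma tv (h : M.Root p p1 p2) : M.TV p := fun _ hw => h.iso _ hw.2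

lemma tv' (h : M.Root p p1 p2) : M.TV (M.μ p) := h.tv.mu

lemma ne1 (h : M.Root p p1 p2) : p1 ∉ M.nd p := by
  rw [mem_nd]
  rintro (h1 | h1)
  · exact h.a1.ne h1.symm
  · exact M.Hne _ (h1 ▸ h.a1)

lemma ne2 (h : M.Root p p1 p2) : p2 ∉ M.nd p := h.symm.ne1

lemma cl_nd (h : M.Root p p1 p2) : M.Cl (M.nd p) := by
  apply (Mc_nd p).cl
  intro v hv
  rw [mem_nd] at hv
  rcases hv with rfl | rfl
  · exact h.tv
  · exact h.tv'

lemma cl_W (h : M.Root p p1 p2) : M.Cl (univ \ M.nd p) := Cl_univ.sdiff h.cl_nd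

lemma d_W (h : M.Root p p1 p2) : M.d (univ \ M.nd p) = 2 := by
  have h1 := M.d_sdiff (subset_univ (M.nd p))
  have h2 : M.e (M.nd p) univ = M.e {p} univ + M.e {M.μ p} univ := by
    rw [nd_eq_union, M.e_union_left (by simpa using (M.ne p).symm)]
  rw [e_nd_nd, nd_card, h.d_univ, h2, h.e_iso, h.full p (M.ne p).symm] at h1
  omega

lemma mem_W {v : V} : v ∈ univ \ M.nd p ↔ v ≠ p ∧ v ≠ M.μ p := by
  rw [mem_sdiff, mem_nd, not_or]
  simp

lemma p1_W (h : M.Root p p1 p2) : p1 ∈ univ \ M.nd p := by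
  rw [mem_sdiff]; exact ⟨mem_univ _, h.ne1⟩

lemma p2_W (h : M.Root p p1 p2) : p2 ∈ univ \ M.nd p := h.symm.p1_W

lemma light_W (h : M.Root p p1 p2) : M.Light (univ \ M.nd p) :=
  ⟨h.cl_W, ⟨p1, h.p1_W⟩, h.d_W.le⟩

lemma nbr_W (h : M.Root p p1 p2) {a b : V} (ha : a ∈ univ \ M.nd p) (hab : M.H.Adj a b) :
    b ∈ univ \ M.nd p ∨ (b = p ∧ (a = p1 ∨ a = p2)) := by
  by_cases hb : b ∈ univ \ M.nd p
  · exact Or.inl hb
  · right
    rw [mem_sdiff, not_and_not_right] at hb
    have := hb (mem_univ _)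
    rw [mem_nd] at this
    rcases this with h1 | h1
    · subst h1
      exact ⟨rfl, h.nbr hab.symm⟩
    · subst h1
      exact absurd hab.symm (h.iso _)

lemma p_notW : p ∉ univ \ M.nd p := by
  rw [mem_sdiff]; exact fun h => h.2 (self_mem_nd p)

/-- the root lemma when the neighbour of the root lies in a ladder -/
lemma ladder (h : M.Root p p1 p2) (hT : ¬ M.TV p1) :
    ∃ S, p1 ∈ S ∧ M.IsCov (univ \ M.nd p) S ∅ := by
  have h1 := light_good h.d_univ.le h.good _ h.light_W
  exact h1.2.2 p1 h.p1_W p p_notW h.a1.symm hT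

/-- closed subsets of the region which contain exactly one of the roots -/
lemma d_compl (h : M.Root p p1 p2) {A : Finset V} (hAW : A ⊆ univ \ M.nd p)
    (h1 : p1 ∈ A) (h2 : p2 ∉ A) : M.d ((univ \ M.nd p) \ A) = M.d A := by
  have hpA : M.μ p ∉ A := by
    intro h'
    have := hAW h'
    rw [mem_W] at this
    exact this.2 rfl
  have hpA' : M.μ p ∉ (univ \ M.nd p) \ A := by
    intro h'
    have := (mem_sdiff.1 h').1
    rw [mem_W] at this
    exact this.2 rfl
  set W := univ \ M.nd p with hW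
  have hsub : ∀ X ⊆ W, ∀ a ∈ X, ∀ b, (M.H.Adj a b → b ∈ W ∨ (b = p ∧ (a = p1 ∨ a = p2))) :=
    fun X hX a ha b hab => h.nbr_W (hX ha) hab
  have key : ∀ (X Y : Finset V) (x : V), X ⊆ W → Y ⊆ W → Disjoint X Y → X ∪ Y = W → x ∈ X →
      M.H.Adj x p → (∀ v ∈ X, M.H.Adj v p → v = x) → M.μ p ∉ X → M.d X = M.e X Y + 1 := by
    intro X Y x hX hY hXY hU hx hxp hxu hpX
    rw [h.d_eq hpX]
    have h3 : Xᶜ = Y ∪ M.nd p := by
      ext v
      rw [mem_compl, mem_union]
      have h5 : v ∈ X ∪ Y ↔ v ∈ W := by rw [hU]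
      rw [mem_union, hW, mem_sdiff] at h5
      simp only [mem_univ, true_and] at h5
      constructor
      · intro hv
        by_cases h6 : v ∈ M.nd p
        · exact Or.inr h6
        · exact Or.inl ((h5.2 h6).resolve_left hv)
      · rintro (hv | hv) hvX
        · exact (Finset.disjoint_left.1 hXY hvX) hv
        · exact (h5.1 (Or.inl hvX)) hv
    have h4 : Disjoint Y (M.nd p) := by
      rw [Finset.disjoint_left]
      intro v hv
      have := hY hv
      rw [hW, mem_sdiff] at this
      exact this.2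
    rw [h3, M.e_union_right h4]
    have h5 : M.e X (M.nd p) = 1 := by
      have e1 : M.e X (M.nd p) = M.e X {p} + M.e X {M.μ p} := by
        rw [nd_eq_union, M.e_union_right (by simpa using (M.ne p).symm)]
      have e2 : M.e X {M.μ p} = 0 := by rw [M.e_comm, h.e_iso]
      have e3 : M.e X {p} = 1 := by
        rw [M.e_comm]
        classical
        rw [e_single_eq, card_eq_one]
        refine ⟨x, ?_⟩
        ext v
        rw [mem_filter, mem_singleton]
        constructor
        · rintro ⟨h7, h8⟩; exact hxu v h7 h8.symm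
        · rintro rfl; exact ⟨hx, hxp.symm⟩
      omega
    omega
  have hsd : Disjoint A (W \ A) := disjoint_sdiff
  have k1 := key A (W \ A) p1 hAW sdiff_subset hsd (union_sdiff_of_subset hAW) h1 h.a1.symm
    (by
      intro v hv hvp
      rcases h.nbr hvp.symm with h3 | h3
      · exact h3
      · subst h3; exact absurd hv h2) hpA
  have k2 := key (W \ A) A p2 sdiff_subset hAW hsd.symm
    (by rw [union_comm]; exact union_sdiff_of_subset hAW)
    (mem_sdiff.2 ⟨h.p2_W, h2⟩) h.a2.symm
    (by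
      intro v hv hvp
      rcases h.nbr hvp.symm with h3 | h3
      · subst h3; exact absurd h1 (mem_sdiff.1 hv).2
      · exact h3) hpA'
  have k3 := M.e_comm A (W \ A)
  omega

end Root

end Setup

end Pool.Agent.LTD
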