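import Pool.Agent.Lib.MP_a46439_co.Expand
import Pool.Agent.Lib.MP_a46439_co.Root

set_option autoImplicit false
set_option linter.unusedSectionVars false

/-! Classification of the violators at a root. -/

namespace Pool.Agent.LTD

open Finset

namespace Setup

variable {V : Type} [Fintype V] [DecidableEq V] {M : Setup V}

lemma two_pairs {A A' : Finset V} (h : 2 ≤ M.e A A') (a0 b0 : V) :
    ∃ a ∈ A, ∃ b ∈ A', M.H.Adj a b ∧ ¬ (a = a0 ∧ b = b0) := by
  classical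
  by_contra hcon
  push Not at hcon
  have h1 : M.e A A' ≤ 1 := by
    have : M.e A A' = ((A ×ˢ A').filter fun p => M.H.Adj p.1 p.2).card := by
      rw [card_filter, sum_product]; rfl
    rw [this, card_le_one]
    rintro ⟨a, b⟩ hab ⟨c, d⟩ hcd
    rw [mem_filter, mem_product] at hab hcd
    obtain ⟨h1, h2⟩ := hcon a hab.1.1 b hab.1.2 hab.2
    obtain ⟨h3, h4⟩ := hcon c hcd.1.1 d hcd.1.2 hcd.2
    rw [h1, h2, h3, h4]
  omega

/-- the family of the maximal light sets avoiding the roots -/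
structure Fam (M : Setup V) (p p1 p2 : V) (FF : Finset (Finset V)) : Prop where
  light : ∀ A ∈ FF, M.Light A
  sub : ∀ A ∈ FF, A ⊆ univ \ M.nd p
  n1 : ∀ A ∈ FF, p1 ∉ A
  n2 : ∀ A ∈ FF, p2 ∉ A
  dis : ∀ A ∈ FF, ∀ A' ∈ FF, A ≠ A' → Disjoint A A'
  max : ∀ A, M.Light A → A ⊆ univ \ M.nd p → p1 ∉ A → p2 ∉ A → ∃ A' ∈ FF, A ⊆ A'

lemma Fam.symm {p p1 p2 : V} {FF : Finset (Finset V)} (h : M.Fam p p1 p2 FF) :
    M.Fam p p2 p1 FF :=
  ⟨h.light, h.sub, h.n2, h.n1, h.dis, fun A h1 h2 h3 h4 => h.max A h1 h2 h4 h3⟩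

lemma exists_fam {p p1 p2 : V} (h : M.Root p p1 p2) : ∃ FF, M.Fam p p1 p2 FF := by
  classical
  set pr : Finset V → Prop := fun A => M.Light A ∧ A ⊆ univ \ M.nd p ∧ p1 ∉ A ∧ p2 ∉ A with hpr
  refine ⟨univ.filter fun A => pr A ∧ ∀ A', pr A' → A ⊆ A' → A' = A, ?_, ?_, ?_, ?_, ?_, ?_⟩
  · intro A hA; exact (mem_filter.1 hA).2.1.1
  · intro A hA; exact (mem_filter.1 hA).2.1.2.1
  · intro A hA; exact (mem_filter.1 hA).2.1.2.2.1
  · intro A hA; exact (mem_filter.1 hA).2.1.2.2.2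
  · intro A hA A' hA' hne
    by_contra hd
    rw [Finset.not_disjoint_iff] at hd
    obtain ⟨x, hx, hx'⟩ := hd
    obtain ⟨_, hpA, hmA⟩ := mem_filter.1 hA
    obtain ⟨_, hpA', hmA'⟩ := mem_filter.1 hA'
    have h1 : pr (A ∪ A') := by
      refine ⟨hpA.1.union hpA'.1 ⟨x, mem_inter.2 ⟨hx, hx'⟩⟩ ?_, union_subset hpA.2.1 hpA'.2.1,
        ?_, ?_⟩
      · intro hu
        have : p1 ∈ A ∪ A' := by rw [hu]; exact mem_univ _
        rcases mem_union.1 this with h' | h'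
        · exact hpA.2.2.1 h'
        · exact hpA'.2.2.1 h'
      · rw [mem_union, not_or]; exact ⟨hpA.2.2.1, hpA'.2.2.1⟩
      · rw [mem_union, not_or]; exact ⟨hpA.2.2.2, hpA'.2.2.2⟩
    exact hne ((hmA _ h1 subset_union_left).symm.trans (hmA' _ h1 subset_union_right))
  · intro A h1 h2 h3 h4
    have hex : ((univ : Finset (Finset V)).filter fun A' => pr A' ∧ A ⊆ A').Nonempty :=
      ⟨A, by rw [mem_filter]; exact ⟨mem_univ _, ⟨h1, h2, h3, h4⟩, subset_refl _⟩⟩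
    obtain ⟨A', hA', hmax⟩ := exists_max_image _ (fun A => A.card) hex
    rw [mem_filter] at hA'
    refine ⟨A', mem_filter.2 ⟨mem_univ _, hA'.2.1, ?_⟩, hA'.2.2⟩
    intro A'' h5 h6
    have := hmax A'' (mem_filter.2 ⟨mem_univ _, h5, hA'.2.2.trans h6⟩)
    exact (eq_of_subset_of_card_le h6 this).symm

/-- the labelling of a family -/
lemma Fam.lab {p p1 p2 : V} {FF : Finset (Finset V)} (hr : M.Root p p1 p2)
    (h : M.Fam p p1 p2 FF) : M.Lab (M.labOf FF) (M.TOf FF) := by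
  refine lab_of hr.good h.dis fun A hA => ?_
  have h1 := light_good hr.d_univ.le hr.good A (h.light A hA)
  exact ⟨(h.light A hA).1, (h.light A hA).2.2.trans (by norm_num), h1.1, h1.2.1⟩

lemma Fam.bcl {p p1 p2 : V} {FF : Finset (Finset V)} (hr : M.Root p p1 p2)
    (h : M.Fam p p1 p2 FF) : BCl (M.labOf FF) (univ \ M.nd p) := by
  intro v hv
  by_cases h' : ∃ A ∈ FF, v ∈ A
  · obtain ⟨A, hA, hvA⟩ := h'
    rw [labOf_mem h.dis hA hvA]; exact h.sub A hA
  · push Not at h'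
    rw [labOf_not h']; exact hr.cl_W.blk_subset hv

/-- there is no ring edge -/
def NR (M : Setup V) (p p1 p2 : V) : Prop :=
  ∀ A ⊆ univ \ M.nd p, M.Mc A → p1 ∈ A → p2 ∉ A → 4 ≤ M.d A

lemma NR.symm {p p1 p2 : V} (hr : M.Root p p1 p2) (h : M.NR p p1 p2) : M.NR p p2 p1 := by
  intro A hA hmc h2 h1
  have k1 := h ((univ \ M.nd p) \ A) sdiff_subset (hr.cl_W.1.sdiff hmc)
    (mem_sdiff.2 ⟨hr.p1_W, h1⟩) (fun h' => (mem_sdiff.1 h').2 h2)
  have k2 := hr.symm.d_compl hA h2 h1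
  omega

/-- everything about the situation at a root -/
structure RCtx (M : Setup V) (p p1 p2 y : V) (FF : Finset (Finset V)) : Prop where
  root : M.Root p p1 p2
  fam : M.Fam p p1 p2 FF
  nr : M.NR p p1 p2
  t1 : M.TV p1
  t2 : M.TV p2
  ay : M.H.Adj p1 y
  yp : y ≠ p
  yp2 : y ≠ p2
  mu : M.μ p1 ≠ p2

namespace RCtx

variable {p p1 p2 y : V} {FF : Finset (Finset V)}

lemma lab (h : M.RCtx p p1 p2 y FF) : M.Lab (M.labOf FF) (M.TOf FF) := h.fam.lab h.root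

lemma bW (h : M.RCtx p p1 p2 y FF) : BCl (M.labOf FF) (univ \ M.nd p) := h.fam.bcl h.root

lemma T1 (h : M.RCtx p p1 p2 y FF) : M.TOf FF p1 := ⟨h.t1, h.fam.n1⟩

lemma B1 (h : M.RCtx p p1 p2 y FF) : M.labOf FF p1 = M.nd p1 := h.lab.node _ h.T1

lemma yW (h : M.RCtx p p1 p2 y FF) : y ∈ univ \ M.nd p := by
  rcases h.root.nbr_W h.root.p1_W h.ay with h1 | h1
  · exact h1
  · exact absurd h1.1 h.yp

lemma y1 (h : M.RCtx p p1 p2 y FF) : y ∉ M.nd p1 := by
  rw [mem_nd]; rintro (h1 | h1)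
  · exact h.ay.ne h1.symm
  · exact M.Hne _ (h1 ▸ h.ay)

lemma Bne (h : M.RCtx p p1 p2 y FF) : M.labOf FF p1 ≠ M.labOf FF y := by
  intro h1
  have := h.lab.self y
  rw [← h1, h.B1] at this
  exact h.y1 this

lemma bK (h : M.RCtx p p1 p2 y FF) : BCl (M.labOf FF) (M.nd p1 ∪ M.labOf FF y) := by
  refine BCl.union ?_ (BCl_self h.lab y)
  rw [← h.B1]; exact BCl_self h.lab p1

lemma KW (h : M.RCtx p p1 p2 y FF) : M.nd p1 ∪ M.labOf FF y ⊆ univ \ M.nd p := by
  apply union_subset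
  · rw [← h.B1]; exact h.bW p1 h.root.p1_W
  · exact h.bW y h.yW

lemma Kimage (h : M.RCtx p p1 p2 y FF) :
    (M.nd p1 ∪ M.labOf FF y).image (M.labOf FF) = {M.nd p1, M.labOf FF y} := by
  rw [image_union, image_block h.lab y]
  conv_lhs => rw [← h.B1]
  rw [image_block h.lab p1, h.B1]
  rfl

lemma Kcard (h : M.RCtx p p1 p2 y FF) :
    ((M.nd p1 ∪ M.labOf FF y).image (M.labOf FF)).card = 2 := by
  rw [h.Kimage, card_pair]
  rw [← h.B1]; exact h.Bne

/-- sets of free vertices have large boundary -/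
lemma d4 (h : M.RCtx p p1 p2 y FF) {c : Finset V} (hc : c ⊆ univ \ M.nd p) (hp : p1 ∉ c)
    (hmc : M.Mc c) (hT : ∀ v ∈ c, M.TOf FF v) (hne : c.Nonempty) : 4 ≤ M.d c := by
  by_cases h2 : p2 ∈ c
  · exact h.nr.symm h.root c hc hmc h2 hp
  · have h1 := hmc.two_le_d hne (by
      intro hu
      exact hp (by rw [hu]; exact mem_univ _))
    obtain ⟨k, hk⟩ := M.d_even c
    by_contra hlt
    obtain ⟨A, hA, hcA⟩ := h.fam.max c ⟨hmc.cl fun v hv => (hT v hv).1, hne, by omega⟩ hc hp h2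
    obtain ⟨v, hv⟩ := hne
    exact (hT v hv).2 A hA (hcA hv)

/-- the rail of `y` has a second attachment -/
lemma claimZ (h : M.RCtx p p1 p2 y FF) (hy : ∀ A ∈ FF, y ∉ A) (hd : M.d (M.blk y) = 4) :
    ∃ q ∈ M.rail y, ∃ z ∈ univ \ M.nd p, z ∉ M.blk y ∧ M.H.Adj q z ∧ ¬ (q = y ∧ z = p1) := by
  have hBy : M.labOf FF y = M.blk y := labOf_not hy
  have hrW : M.rail y ⊆ univ \ M.nd p := by
    intro x hx
    apply h.bW y h.yW
    rw [hBy]; exact mem_union_left _ hx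
  have hp1 : p1 ∉ M.rail y := by
    intro h'
    have h1 := h.lab.eq y p1 (by rw [hBy]; exact mem_union_left _ h')
    exact h.Bne h1
  have hp2 : p2 ∉ M.rail y := by
    intro h'
    have h1 : M.rail p2 = M.rail y := rail_eq_of_mem h'
    rw [h.t2.rail] at h1
    have : y ∈ ({p2} : Finset V) := by rw [h1]; exact self_mem_rail y
    rw [mem_singleton] at this
    exact h.yp2 this
  have hout := rail_out (h.root.good y) hd
  have hfull : M.e (M.rail y) (univ \ M.nd p) = 2 * (M.rail y).card := by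
    have hmp : M.μ p ∉ M.rail y := by
      intro h'
      exact (Root.mem_W.1 (hrW h')).2 rfl
    have h1 := h.root.e_full hmp
    have h2 : M.e (M.rail y) univ = M.e (M.rail y) (M.nd p) + M.e (M.rail y) (univ \ M.nd p) :=
      M.e_sdiff (subset_univ _) _
    have h3 : M.e (M.rail y) (M.nd p) = 0 := by
      rw [M.e_eq_zero_iff]
      intro a ha b hb hab
      rcases h.root.nbr_W (hrW ha) hab with h4 | h4
      · exact (mem_sdiff.1 h4).2 hb
      · rcases h4.2 with rfl | rfl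
        · exact hp1 ha
        · exact hp2 ha
    omega
  have hblkW : M.blk y ⊆ univ \ M.nd p := by rw [← hBy]; exact h.bW y h.yW
  have h1 : M.e (M.rail y) (univ \ M.nd p) = M.e (M.rail y) (M.blk y) +
      M.e (M.rail y) ((univ \ M.nd p) \ M.blk y) := M.e_sdiff hblkW _
  obtain ⟨q, hq, z, hz, hqz, hne⟩ := two_pairs (M := M) (A := M.rail y)
    (A' := (univ \ M.nd p) \ M.blk y) (by omega) y p1
  rw [mem_sdiff] at hz
  exact ⟨q, hq, z, hz.1, hz.2, hqz, hne⟩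

end RCtx

end Setup

end Pool.Agent.LTD
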