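import Pool.Agent.Lib.MP_a46439_co.Class

set_option autoImplicit false
set_option linter.unusedSectionVars false

/-! Classification of the violators at a root: the three cases. -/

namespace Pool.Agent.LTD

open Finset

namespace Setup

variable {V : Type} [Fintype V] [DecidableEq V] {M : Setup V}

/-- the set covered by the window and the blocks of a violator -/
def big (K : Finset V) (U : Finset (Finset V)) : Finset V := K ∪ U.biUnion id

/-- all edges between blocks of the big side are among two given ones -/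
def Inner2 (M : Setup V) (B : V → Finset V) (X : Finset V) (p1 y q z : V) : Prop :=
  ∀ a ∈ X, ∀ b ∈ X, M.H.Adj a b → B a ≠ B b →
    (a = p1 ∧ b = y) ∨ (a = y ∧ b = p1) ∨ (a = q ∧ b = z) ∨ (a = z ∧ b = q)

/-- all edges between blocks of the big side are equal to a given one -/
def Inner1 (M : Setup V) (B : V → Finset V) (X : Finset V) (p1 y : V) : Prop :=
  ∀ a ∈ X, ∀ b ∈ X, M.H.Adj a b → B a ≠ B b → (a = p1 ∧ b = y) ∨ (a = y ∧ b = p1)

/-- the window at a root -/
noncomputable def win (M : Setup V) (FF : Finset (Finset V)) (p1 y : V) : Finset V :=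
  M.nd p1 ∪ M.labOf FF y

/-- the three cases -/
def Tri (M : Setup V) (p p1 y : V) (FF U C : Finset (Finset V)) : Prop :=
  (FF = ∅ ∧ rest (univ \ M.nd p) (M.win FF p1 y) U C = ∅ ∧ ∃ q ∈ M.labOf FF y,
    ∃ z ∈ big (M.win FF p1 y) U, M.H.Adj q z ∧ M.labOf FF q ≠ M.labOf FF z ∧
      ¬ (q = y ∧ z = p1) ∧ M.Inner2 (M.labOf FF) (big (M.win FF p1 y) U) p1 y q z) ∨
  (∃ L ∈ FF, (∀ A ∈ FF, A = L) ∧ rest (univ \ M.nd p) (M.win FF p1 y) U C = L ∧
    M.Inner1 (M.labOf FF) (big (M.win FF p1 y) U) p1 y) ∨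
  (∃ L ∈ FF, (∀ A ∈ FF, A = L) ∧ y ∈ L ∧ rest (univ \ M.nd p) (M.win FF p1 y) U C = ∅ ∧
    M.Inner1 (M.labOf FF) (big (M.win FF p1 y) U) p1 y)

/-- comps are not adjacent to the usable rail -/
def NoRail (M : Setup V) (FF : Finset (Finset V)) (y : V) (c : Finset V) : Prop :=
  (∀ A ∈ FF, y ∉ A) → ∀ a ∈ c, ∀ b ∈ M.rail y, ¬ M.H.Adj a b

namespace RCtx

variable {p p1 p2 y : V} {FF U C : Finset (Finset V)}

theorem classify (h : M.RCtx p p1 p2 y FF)
    (hv : M.Vio (M.labOf FF) (M.TOf FF) (univ \ M.nd p) (M.win FF p1 y) U C)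
    (hq : ∀ c ∈ C, M.NoRail FF y c) :
    C.card = U.card + 1 ∧ (∀ c ∈ C, M.d c = 4) ∧ p2 ∈ C.biUnion id ∧ M.Tri p p1 y FF U C := by
  classical
  have hL := h.lab
  have hW := h.bW
  have hK : BCl (M.labOf FF) (M.win FF p1 y) := h.bK
  have hKW : M.win FF p1 y ⊆ univ \ M.nd p := h.KW
  have hKi : (M.win FF p1 y).image (M.labOf FF) = {M.nd p1, M.labOf FF y} := h.Kimage
  have hKc : ((M.win FF p1 y).image (M.labOf FF)).card = 2 := h.Kcard
  have hp1K : p1 ∈ M.win FF p1 y := mem_union_left _ (self_mem_nd p1)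
  have hyK : y ∈ M.win FF p1 y := mem_union_right _ (hL.self y)
  set W := univ \ M.nd p with hWdef
  set K := M.win FF p1 y with hKdef
  set B := M.labOf FF with hB
  have hUs := hv.UU_sub hL hW hK
  have hd4 : ∀ c ∈ C, 4 ≤ M.d c := by
    intro c hc
    refine h.d4 ((hv.sub c hc).trans sdiff_subset) ?_ (hv.mc c hc) (hv.hT c hc) (hv.comp_ne hc)
    intro h1
    exact (mem_sdiff.1 (hv.sub c hc h1)).2 hp1K
  have hcount := hv.count hL hW hK hKW hd4
  have hbig : K ∪ U.biUnion id = big K U := rfl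
  rw [hKc, hbig, h.root.d_W] at hcount
  have hp1U : p1 ∈ big K U := mem_union_left _ hp1K
  have hyU : y ∈ big K U := mem_union_left _ hyK
  have hpW : p ∉ W := Root.p_notW
  have hbd := one_le_bd (M := M) (W := W) hp1U hpW h.root.a1.symm
  have hadj1 : (M.Hx B).Adj p1 y := ⟨h.ay, h.Bne⟩
  have hE := two_le_E hp1U hyU hadj1
  have hcard := hv.card
  have hRb := hv.rest_bcl hL hW hK
  have hRm := hRb.mc hL
  have hp1R : p1 ∉ rest W K U C := fun h' => (mem_rest.1 h').2.1 hp1K
  have hR2 : (rest W K U C).Nonempty → 2 ≤ M.d (rest W K U C) := by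
    intro hne
    apply hRm.two_le_d hne
    intro hu
    exact hp1R (by rw [hu]; exact mem_univ _)
  have hp2bd : p2 ∈ big K U → 2 ≤ M.bd W (big K U) := by
    intro h2
    exact two_le_bd hp1U hpW h.root.a1.symm h2 hpW h.root.a2.symm
      (Or.inl h.root.ne)
  -- defect of the block of `y`
  have hByQ : B y ∈ U ∪ K.image B := by
    rw [hKi]; simp
  have hdefy : ∀ A ∈ U ∪ K.image B, 4 - M.d A ≤ ∑ A ∈ U ∪ K.image B, (4 - M.d A) := by
    intro A hA
    exact single_le_sum (f := fun A => 4 - M.d A) (fun _ _ => Nat.zero_le _) hA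
  have hexc : ∑ c ∈ C, (M.d c - 4) = 0 → ∀ c ∈ C, M.d c = 4 := by
    intro h0 c hc
    rw [sum_eq_zero_iff] at h0
    have h1 := h0 c hc
    have h2 := hd4 c hc
    omega
  -- conclusions about `p2`
  have hp2C : M.bd W (big K U) = 1 → (p2 ∈ rest W K U C → 4 ≤ M.d (rest W K U C)) →
      M.d (rest W K U C) ≤ 2 → p2 ∈ C.biUnion id := by
    intro h1 h2 h3
    have hp2W : p2 ∈ W := h.root.p2_W
    rw [hv.W_eq hL hW hK hKW, mem_union, mem_union, mem_union] at hp2W
    rcases hp2W with (h4 | h4) | (h4 | h4)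
    · have := hp2bd (mem_union_left _ h4); omega
    · have := h2 h4; omega
    · have := hp2bd (mem_union_right _ h4); omega
    · exact h4
  have hp2R : p2 ∈ rest W K U C → 4 ≤ M.d (rest W K U C) := by
    intro h2
    exact h.nr.symm h.root _ (fun x hx => (mem_rest.1 hx).1) hRm h2 hp1R
  have hloc : ∀ A ∈ FF, A ∈ U ∪ K.image B ∨ ∃ a ∈ A, a ∈ rest W K U C := by
    intro A hA
    obtain ⟨a, ha⟩ := (h.fam.light A hA).2.1
    have haA : B a = A := labOf_mem h.fam.dis hA ha
    have haW : a ∈ W := h.fam.sub A hA ha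
    rw [hv.W_eq hL hW hK hKW, mem_union, mem_union, mem_union] at haW
    rcases haW with (h5 | h5) | (h5 | h5)
    · left
      have : a ∈ (U ∪ K.image B).biUnion id := by
        rw [Vio.Q_biUnion hL hK]; exact mem_union_left _ h5
      obtain ⟨A', hA', haA'⟩ := mem_biUnion.1 this
      rw [← haA, hv.Q_lab hL A' hA' a haA']; exact hA'
    · exact Or.inr ⟨a, ha, h5⟩
    · left
      obtain ⟨A', hA', haA'⟩ := mem_biUnion.1 h5
      rw [← haA, hv.Q_lab hL A' (mem_union_left _ hA') a haA']
      exact mem_union_left _ hA'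
    · obtain ⟨c, hc, hac⟩ := mem_biUnion.1 h5
      exact absurd ha ((hv.hT c hc a hac).2 A hA)
  by_cases hyF : ∃ A ∈ FF, y ∈ A
  · -- case delta
    obtain ⟨L, hLF, hyL⟩ := hyF
    have hBy : B y = L := labOf_mem h.fam.dis hLF hyL
    have h1 := hdefy (B y) hByQ
    have h2 := (h.fam.light L hLF).2.2
    rw [hBy] at h1
    have hR0 : rest W K U C = ∅ := by
      by_contra hne
      have := hR2 (nonempty_iff_ne_empty.2 hne)
      omega
    have huniq : ∀ A ∈ FF, A = L := by
      intro A hA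
      by_contra hne
      rcases hloc A hA with h5 | ⟨a, _, h5⟩
      · have h6 : ({A, L} : Finset (Finset V)) ⊆ U ∪ K.image B := by
          intro A' hA'
          rw [mem_insert, mem_singleton] at hA'
          rcases hA' with rfl | rfl
          · exact h5
          · rw [← hBy]; exact hByQ
        have h7 := sum_le_sum_of_subset (f := fun A => 4 - M.d A) h6
        rw [sum_pair hne] at h7
        have h8 := (h.fam.light A hA).2.2
        omega
      · rw [hR0] at h5; exact notMem_empty _ h5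
    refine ⟨by omega, hexc (by omega), hp2C (by omega) hp2R (by omega), Or.inr (Or.inr
      ⟨L, hLF, huniq, hyL, hR0, ?_⟩)⟩
    intro a ha b hb hab hne
    by_contra hcon
    have := four_le_E hp1U hyU hadj1 ha hb ⟨hab, hne⟩ (by
      rintro (⟨rfl, rfl⟩ | ⟨rfl, rfl⟩)
      · exact hcon (Or.inl ⟨rfl, rfl⟩)
      · exact hcon (Or.inr ⟨rfl, rfl⟩))
    omega
  · push Not at hyF
    have hBy : B y = M.blk y := labOf_not hyF
    have hyblk : M.blk y ⊆ W := by rw [← hBy]; exact hW y h.yW
    have hp1b : p1 ∉ M.blk y := by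
      intro h'
      exact h.Bne (hL.eq y p1 (by rw [hBy]; exact h'))
    have hdy : M.d (M.blk y) = 4 := by
      have h1 := d_blk_le (h.root.good y)
      have h2 := (Mc_blk (M := M) y).two_le_d ⟨y, self_mem_blk y⟩ (by
        intro hu
        exact hp1b (by rw [hu]; exact mem_univ _))
      obtain ⟨k, hk⟩ := M.d_even (M.blk y)
      by_contra hne
      have h3 : M.d (M.blk y) = 2 := by omega
      have h4 := hdefy (B y) hByQ
      rw [hBy] at h4
      by_cases hp2 : p2 ∈ M.blk y
      · have := hp2bd (mem_union_left _ (mem_union_right _ (by rw [← hB, hBy]; exact hp2)))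
        omega
      · obtain ⟨A, hA, hyA⟩ := h.fam.max (M.blk y) ⟨Cl_blk y, ⟨y, self_mem_blk y⟩, h3.le⟩
          hyblk hp1b hp2
        exact hyF A hA (hyA (self_mem_blk y))
    obtain ⟨q, hqr, z, hz, hzb, hqz, hne⟩ := h.claimZ hyF hdy
    have hqb : q ∈ M.blk y := mem_union_left _ hqr
    have hqB : B q = M.blk y := by rw [← hBy]; exact hL.eq y q (by rw [hBy]; exact hqb)
    have hqU : q ∈ big K U := mem_union_left _ (mem_union_right _ (by rw [← hB, hBy]; exact hqb))
    have hBqz : B q ≠ B z := by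
      intro h'
      apply hzb
      rw [← hqB, h']
      exact hL.self z
    have hzC : z ∉ C.biUnion id := by
      intro h'
      obtain ⟨c, hc, hzc⟩ := mem_biUnion.1 h'
      exact hq c hc hyF z hzc q hqr hqz.symm
    have hdist : ¬ ((p1 = q ∧ y = z) ∨ (p1 = z ∧ y = q)) := by
      rintro (⟨rfl, rfl⟩ | ⟨rfl, rfl⟩)
      · exact hp1b hqb
      · exact hne ⟨rfl, rfl⟩
    by_cases hzU : z ∈ big K U
    · -- case alpha/beta
      have h4 := four_le_E hp1U hyU hadj1 hqU hzU ⟨hqz, hBqz⟩ hdist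
      have hR0 : rest W K U C = ∅ := by
        by_contra hne
        have := hR2 (nonempty_iff_ne_empty.2 hne)
        omega
      have hFF : FF = ∅ := by
        rw [eq_empty_iff_forall_notMem]
        intro A hA
        rcases hloc A hA with h5 | ⟨a, _, h5⟩
        · have h6 := hdefy A h5
          have h7 := (h.fam.light A hA).2.2
          omega
        · rw [hR0] at h5; exact notMem_empty _ h5
      refine ⟨by omega, hexc (by omega), hp2C (by omega) hp2R (by omega), Or.inl
        ⟨hFF, hR0, q, by rw [← hB, hBy]; exact hqb, z, hzU, hqz, hBqz, hne, ?_⟩⟩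
      intro a ha b hb hab hne'
      by_contra hcon
      have := six_le_E hp1U hyU hadj1 hqU hzU ⟨hqz, hBqz⟩ ha hb ⟨hab, hne'⟩ hdist
        (by
          rintro (⟨rfl, rfl⟩ | ⟨rfl, rfl⟩)
          · exact hcon (Or.inl ⟨rfl, rfl⟩)
          · exact hcon (Or.inr (Or.inl ⟨rfl, rfl⟩)))
        (by
          rintro (⟨rfl, rfl⟩ | ⟨rfl, rfl⟩)
          · exact hcon (Or.inr (Or.inr (Or.inl ⟨rfl, rfl⟩)))
          · exact hcon (Or.inr (Or.inr (Or.inr ⟨rfl, rfl⟩))))
      omega
    · -- case gamma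
      have hzR : z ∈ rest W K U C := by
        rw [mem_rest]
        refine ⟨hz, fun h' => hzU (mem_union_left _ h'), fun h' => hzU (mem_union_right _ h'), hzC⟩
      have hR := hR2 ⟨z, hzR⟩
      have hdR : M.d (rest W K U C) = 2 := by omega
      have hp2n : p2 ∉ rest W K U C := fun h' => by have := hp2R h'; omega
      obtain ⟨L, hLF, hRL⟩ := h.fam.max (rest W K U C) ⟨hRb.cl hL, ⟨z, hzR⟩, hdR.le⟩
        (fun x hx => (mem_rest.1 hx).1) hp1R hp2n
      have hReq : rest W K U C = L := by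
        apply subset_antisymm hRL
        have h1 : B z = L := labOf_mem h.fam.dis hLF (hRL hzR)
        rw [← h1]; exact hRb z hzR
      have huniq : ∀ A ∈ FF, A = L := by
        intro A hA
        rcases hloc A hA with h5 | ⟨a, ha, h5⟩
        · have h6 := hdefy A h5
          have h7 := (h.fam.light A hA).2.2
          omega
        · rw [hReq] at h5
          by_contra hne
          exact (Finset.disjoint_left.1 (h.fam.dis A hA L hLF hne) ha) h5
      refine ⟨by omega, hexc (by omega), hp2C (by omega) hp2R (by omega), Or.inr (Or.inl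
        ⟨L, hLF, huniq, hReq, ?_⟩)⟩
      intro a ha b hb hab hne
      by_contra hcon
      have := four_le_E hp1U hyU hadj1 ha hb ⟨hab, hne⟩ (by
        rintro (⟨rfl, rfl⟩ | ⟨rfl, rfl⟩)
        · exact hcon (Or.inl ⟨rfl, rfl⟩)
        · exact hcon (Or.inr ⟨rfl, rfl⟩))
      omega

end RCtx

end Setup

end Pool.Agent.LTD
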