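import Pool.Agent.Lib.MP_a46439_co.Ladder

set_option autoImplicit false

/-! Existence of covers of the whole vertex set. -/

namespace Pool.Agent.LTD

open Finset

namespace Setup

variable {V : Type} [Fintype V] [DecidableEq V] {M : Setup V}

/-- minimal light odd sets -/
def MinLO (M : Setup V) (W : Finset V) : Prop :=
  M.LO W ∧ ∀ c ⊆ W, c ≠ W → ¬ M.LO c

lemma exists_minLO {W : Finset V} (h : M.LO W) : ∃ F ⊆ W, M.MinLO F := by
  classical
  have hex : ((W.powerset).filter fun A => M.LO A).Nonempty :=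
    ⟨W, by rw [mem_filter, mem_powerset]; exact ⟨subset_refl _, h⟩⟩
  obtain ⟨F, hF, hmin⟩ := exists_min_image _ (fun A => A.card) hex
  rw [mem_filter, mem_powerset] at hF
  refine ⟨F, hF.1, hF.2, ?_⟩
  intro c hc hne hLO
  have h1 := hmin c (by rw [mem_filter, mem_powerset]; exact ⟨hc.trans hF.1, hLO⟩)
  have h2 : c.card < F.card := card_lt_card (hc.ssubset_of_ne hne)
  omega

lemma LO.ne_univ_of_ssubset {c W : Finset V} (hc : c ⊆ W) (hne : c ≠ W) : c ≠ univ := by
  rintro rfl
  exact hne (subset_antisymm hc (subset_univ _))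

lemma MinLO.hmin {W : Finset V} (h : M.MinLO W) :
    ∀ c ⊆ W, M.Mc c → c.card % 4 = 2 → c ≠ W → 4 ≤ M.d c := by
  intro c hc hmc hcard hne
  have h1 : 2 ≤ M.d c := hmc.two_le_d (by rw [← card_pos]; omega)
    (LO.ne_univ_of_ssubset hc hne)
  obtain ⟨k, hk⟩ := M.d_even c
  by_contra hlt
  exact h.2 c hc hne ⟨hmc, fun v hv => h.1.2.1 v (hc hv), hcard, by omega⟩

/-- The main theorem: a cover of all vertices exists. -/
theorem cov_univ (hd : M.d univ ≤ 2) (hgood : ∀ v, M.μ v ∉ M.rail v) : M.Cov univ := by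
  classical
  -- a maximal family of disjoint minimal light odd sets
  have hex : ((univ : Finset (Finset (Finset V))).filter fun F => (∀ A ∈ F, M.MinLO A) ∧
      ∀ A ∈ F, ∀ B ∈ F, A ≠ B → Disjoint A B).Nonempty :=
    ⟨∅, by rw [mem_filter]; simp⟩
  obtain ⟨F, hF, hmax⟩ := exists_max_image _ (fun F => F.card) hex
  rw [mem_filter] at hF
  obtain ⟨_, hFm, hFd⟩ := hF
  have hmax' : ∀ W, M.LO W → ¬ Disjoint W (F.biUnion id) := by
    intro W hW hdis
    obtain ⟨A, hAW, hA⟩ := exists_minLO hW
    have hAne : A.Nonempty := by rw [← card_pos]; have := hA.1.2.2.1; omega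
    have hAd : ∀ B ∈ F, Disjoint A B := by
      intro B hB
      refine hdis.mono hAW ?_
      exact subset_biUnion_of_mem id hB
    have hAF : A ∉ F := by
      intro h
      have := hAd A h
      rw [disjoint_self_iff_empty] at this
      exact hAne.ne_empty this
    have := hmax (insert A F) (by
      rw [mem_filter]
      refine ⟨mem_univ _, ?_, ?_⟩
      · intro B hB
        rw [mem_insert] at hB
        rcases hB with rfl | hB
        · exact hA
        · exact hFm B hB
      · intro B hB C hC hne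
        rw [mem_insert] at hB hC
        rcases hB with rfl | hB <;> rcases hC with rfl | hC
        · exact absurd rfl hne
        · exact hAd C hC
        · exact (hAd B hB).symm
        · exact hFd B hB C hC hne)
    rw [card_insert_of_notMem hAF] at this
    omega
  set Fu := F.biUnion id with hFu
  have hFumc : M.Mc Fu := Mc.biUnion _ _ fun A hA => (hFm A hA).1.1
  have hFuT : ∀ v ∈ Fu, M.TV v := by
    intro v hv
    obtain ⟨A, hA, hvA⟩ := mem_biUnion.1 hv
    exact (hFm A hA).1.2.1 v hvA
  have hblkF : ∀ v, v ∉ Fu → Disjoint (M.blk v) Fu := by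
    intro v hv
    rw [Finset.disjoint_left]
    intro w hw hwF
    have h1 := hFuT w hwF
    have h2 := blk_eq_of_mem hw
    have h3 : v ∈ M.blk w := by rw [h2]; exact self_mem_blk v
    rw [h1.blk] at h3
    exact hv (hFumc.nd_subset hwF h3)
  have hblkd : ∀ v w, M.blk v ≠ M.blk w → Disjoint (M.blk v) (M.blk w) := by
    intro v w hne
    rw [Finset.disjoint_left]
    intro x hx hx'
    exact hne (by rw [← blk_eq_of_mem hx, blk_eq_of_mem hx'])
  set Bl := (univ.filter fun v => v ∉ Fu).image M.blk with hBl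
  set T := (univ.filter fun v => v ∉ Fu ∧ M.TV v).image M.blk with hT
  have hBlmem : ∀ A, A ∈ Bl ↔ ∃ v, v ∉ Fu ∧ M.blk v = A := by
    intro A; simp [hBl]
  have hTmem : ∀ A, A ∈ T ↔ ∃ v, (v ∉ Fu ∧ M.TV v) ∧ M.blk v = A := by
    intro A; simp [hT]
  have hFcovX : ∀ A ∈ F, ∀ u ∈ A, ∀ v, v ∉ A → M.H.Adj u v → M.CovX A u := by
    intro A hA u hu v hv huv
    have h1 := hFm A hA
    exact covX_comp h1.1.1 h1.1.2.1 h1.1.2.2.1 (by rw [h1.1.2.2.2]; norm_num) h1.hmin hu hv huv
  have hdP : ∀ A ∈ F ∪ Bl, M.d A ≤ 4 := by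
    intro A hA
    rcases mem_union.1 hA with hA | hA
    · rw [(hFm A hA).1.2.2.2]; norm_num
    · obtain ⟨v, _, rfl⟩ := (hBlmem A).1 hA
      exact d_blk_le (hgood v)
  have hPmc : ∀ A ∈ F ∪ Bl, M.Mc A := by
    intro A hA
    rcases mem_union.1 hA with hA | hA
    · exact (hFm A hA).1.1
    · obtain ⟨v, _, rfl⟩ := (hBlmem A).1 hA
      exact Mc_blk v
  have hPd : ∀ A ∈ F ∪ Bl, ∀ B ∈ F ∪ Bl, A ≠ B → Disjoint A B := by
    intro A hA B hB hne
    rcases mem_union.1 hA with hA | hA <;> rcases mem_union.1 hB with hB | hB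
    · exact hFd A hA B hB hne
    · obtain ⟨v, hv, rfl⟩ := (hBlmem B).1 hB
      exact ((hblkF v hv).mono_right (subset_biUnion_of_mem id hA)).symm
    · obtain ⟨v, hv, rfl⟩ := (hBlmem A).1 hA
      exact (hblkF v hv).mono_right (subset_biUnion_of_mem id hB)
    · obtain ⟨v, hv, rfl⟩ := (hBlmem A).1 hA
      obtain ⟨w, hw, rfl⟩ := (hBlmem B).1 hB
      exact hblkd v w hne
  have hPu : (F ∪ Bl).biUnion id = univ := by
    ext x
    simp only [mem_biUnion, mem_union, mem_univ, iff_true, id]
    by_cases hx : x ∈ Fu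
    · obtain ⟨A, hA, hxA⟩ := mem_biUnion.1 hx
      exact ⟨A, Or.inl hA, hxA⟩
    · exact ⟨M.blk x, Or.inr ((hBlmem _).2 ⟨x, hx, rfl⟩), self_mem_blk x⟩
  have hX : ∀ A ∈ F ∪ Bl, ∀ u ∈ A, ∀ v, v ∉ A → M.H.Adj u v → M.CovX A u := by
    intro A hA u hu v hv huv
    rcases mem_union.1 hA with hA | hA
    · exact hFcovX A hA u hu v hv huv
    · obtain ⟨w, hw, rfl⟩ := (hBlmem A).1 hA
      rw [← blk_eq_of_mem hu]
      by_cases hTu : M.TV u
      · rw [hTu.blk]; exact hTu.covX
      · exact (ladder_cov (hgood u) hTu).covX (self_mem_rail u)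
  have hFl : ∀ A ∈ F ∪ Bl, A ∉ T → M.Cov A := by
    intro A hA hAT
    rcases mem_union.1 hA with hA | hA
    · exact base1 (hFm A hA).1 (hFm A hA).hmin
    · obtain ⟨w, hw, rfl⟩ := (hBlmem A).1 hA
      have hTw : ¬ M.TV w := fun h => hAT ((hTmem _).2 ⟨w, ⟨hw, h⟩, rfl⟩)
      exact ⟨_, ladder_cov (hgood w) hTw⟩
  rcases block_tutte (M := M) (F ∪ Bl) T hPmc hPd hX hFl with h | ⟨U, C, hU, hUC, _, hC, hCd⟩
  · rwa [hPu] at h
  -- the unions of the members of `C`
  have hTnd : ∀ A ∈ T, ∃ v, v ∉ Fu ∧ M.TV v ∧ M.nd v = A := by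
    intro A hA
    obtain ⟨v, ⟨h1, h2⟩, rfl⟩ := (hTmem A).1 hA
    exact ⟨v, h1, h2, h2.blk.symm⟩
  have hTnodes : T ⊆ (univ : Finset V).image M.nd := by
    intro A hA
    obtain ⟨v, _, _, rfl⟩ := hTnd A hA
    exact mem_image_of_mem _ (mem_univ _)
  have hcmc : ∀ c ∈ C, M.Mc (c.biUnion id) := by
    intro c hc
    apply Mc.biUnion
    intro A hA
    obtain ⟨v, _, _, rfl⟩ := hTnd A ((hC c hc).1 hA)
    exact Mc_nd v
  have hcT : ∀ c ∈ C, ∀ x ∈ c.biUnion id, x ∉ Fu ∧ M.TV x := by
    intro c hc x hx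
    obtain ⟨A, hA, hxA⟩ := mem_biUnion.1 hx
    obtain ⟨v, h1, h2, rfl⟩ := hTnd A ((hC c hc).1 hA)
    have hxA' : x ∈ M.nd v := hxA
    rw [mem_nd] at hxA'
    rcases hxA' with rfl | rfl
    · exact ⟨h1, h2⟩
    · exact ⟨hFumc.notMem h1, h2.mu⟩
  have hccard : ∀ c ∈ C, (c.biUnion id).card % 4 = 2 := by
    intro c hc
    rw [nodes_card ((hC c hc).1.trans hTnodes)]
    obtain ⟨k, hk⟩ := (hC c hc).2.1
    omega
  have hcne : ∀ c ∈ C, (c.biUnion id).Nonempty := by
    intro c hc; rw [← card_pos]; have := hccard c hc; omega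
  by_cases hspecial : ∃ c ∈ C, c.biUnion id = univ
  · -- everything is one odd component
    obtain ⟨c, hc, hcu⟩ := hspecial
    have hallT : ∀ v, M.TV v := fun v => (hcT c hc v (by rw [hcu]; exact mem_univ _)).2
    have hFempty : Fu = ∅ := by
      rw [eq_empty_iff_forall_notMem]
      intro v; exact (hcT c hc v (by rw [hcu]; exact mem_univ _)).1
    have hcardV : (univ : Finset V).card % 4 = 2 := by rw [← hcu]; exact hccard c hc
    have hnoLO : ∀ W, ¬ M.LO W := by
      intro W hW
      apply hmax' W hW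
      rw [hFempty]; exact disjoint_empty_right _
    have hd0 : M.d univ = 0 := by
      obtain ⟨k, hk⟩ := M.d_even univ
      by_contra h
      exact hnoLO univ ⟨Mc_univ, fun v _ => hallT v, hcardV, by omega⟩
    have hfull := M.d_add univ
    have hdeg : ∀ v, M.e {v} univ = 2 := fun v => e_eq_two_of_full (by omega) (mem_univ v)
    have hsubfull : ∀ A : Finset V, M.e A univ = 2 * A.card := by
      intro A
      induction A using Finset.induction_on with
      | empty => simp
      | insert a A ha ih =>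
        have h3 : insert a A = {a} ∪ A := by ext; simp
        rw [card_insert_of_notMem ha, h3, M.e_union_left (by simpa using ha), ih, hdeg]
        ring
    obtain ⟨t, _⟩ := hcne c hc
    obtain ⟨t1, _, _, ht1⟩ := exists_other (hdeg t) t
    obtain ⟨t2, _, hne, ht2⟩ := exists_other (hdeg t) t1
    refine base2 Mc_univ (fun v _ => hallT v) hcardV hd ?_ (mem_univ t) (mem_univ t1)
      (mem_univ t2) ht1 ht2 hne.symm ?_
    · intro A _ hA hAne hAu
      have h1 := hA.two_le_d hAne hAu
      obtain ⟨k, hk⟩ := M.d_even A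
      obtain ⟨k', hk'⟩ := hA.even_card
      by_contra hlt
      by_cases h4 : A.card % 4 = 2
      · exact hnoLO A ⟨hA, fun v _ => hallT v, h4, by omega⟩
      · have h5 := M.d_sdiff (subset_univ A)
        rw [hsubfull A] at h5
        have h6 := M.d_add A
        have h7 := card_sdiff_add_card_eq_card (subset_univ A)
        exact hnoLO (univ \ A) ⟨Mc_univ.sdiff hA, fun v _ => hallT v, by omega, by omega⟩
    · have := M.e_le (M.nd t) univ
      rw [nd_card] at this
      omega
  · exfalso
    push Not at hspecial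
    have hd4 : ∀ c ∈ C, 4 ≤ M.d (c.biUnion id) := by
      intro c hc
      have h1 := (hcmc c hc).two_le_d (hcne c hc) (hspecial c hc)
      obtain ⟨k, hk⟩ := M.d_even (c.biUnion id)
      by_contra hlt
      apply hmax' (c.biUnion id) ⟨hcmc c hc, fun v hv => (hcT c hc v hv).2, hccard c hc, by omega⟩
      rw [Finset.disjoint_left]
      intro x hx
      exact (hcT c hc x hx).1
    have hdd : ∀ c ∈ C, ∀ c' ∈ C, c ≠ c' → Disjoint (c.biUnion id) (c'.biUnion id) := by
      intro c hc c' hc' hne
      rw [disjoint_biUnion_left]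
      intro A hA
      rw [disjoint_biUnion_right]
      intro B hB
      apply nodes_disjoint (hTnodes ((hC c hc).1 hA)) (hTnodes ((hC c' hc').1 hB))
      rintro rfl
      exact (Finset.disjoint_left.1 (hCd c hc c' hc' hne) hA) hB
    have hinj : Set.InjOn (fun c : Finset (Finset V) => c.biUnion id) C := by
      intro c hc c' hc' h
      by_contra hne'
      have h1 := hdd c hc c' hc' hne'
      simp only at h
      rw [← h, disjoint_self_iff_empty] at h1
      exact (hcne c hc).ne_empty h1
    -- blocks cover the union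
    have hTP : T ⊆ F ∪ Bl := by
      intro A hA
      obtain ⟨v, ⟨h1, _⟩, rfl⟩ := (hTmem A).1 hA
      exact mem_union_right _ ((hBlmem _).2 ⟨v, h1, rfl⟩)
    have hcU : ∀ c ∈ C, Disjoint (c.biUnion id) (U.biUnion id) := by
      intro c hc
      rw [disjoint_biUnion_left]
      intro A hA
      rw [disjoint_biUnion_right]
      intro B hB
      apply hPd A (hTP ((hC c hc).1 hA)) B (hU hB)
      rintro rfl
      exact (Finset.disjoint_left.1 (hC c hc).2.2.1 hA) hB
    have hcount := count (M := M) (W := univ) (U := U.biUnion id)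
      (C := C.image fun c => c.biUnion id) (subset_univ _) ?_ ?_
    · rw [sum_image hinj] at hcount
      have hsum : 4 * C.card ≤ ∑ c ∈ C, M.d (c.biUnion id) := by
        rw [mul_comm, ← smul_eq_mul, ← sum_const]
        exact sum_le_sum hd4
      have hdU : ∀ U' ⊆ F ∪ Bl, M.d (U'.biUnion id) ≤ 4 * U'.card := by
        intro U'
        induction U' using Finset.induction_on with
        | empty => simp
        | insert A U' hA ih =>
          intro hsub
          have h1 := ih ((subset_insert _ _).trans hsub)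
          have hdis : Disjoint A (U'.biUnion id) := by
            rw [disjoint_biUnion_right]
            intro B hB
            exact hPd A (hsub (mem_insert_self _ _)) B (hsub (mem_insert_of_mem hB))
              (by rintro rfl; exact hA hB)
          have h2 := M.d_union hdis
          have h3 := hdP A (hsub (mem_insert_self _ _))
          rw [biUnion_insert, id, card_insert_of_notMem hA]
          omega
      have h1 := hdU U hU
      have h2 := M.d_add (U.biUnion id)
      have h3 := M.e_le (U.biUnion id) univ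
      omega
    · intro c' hc'
      obtain ⟨c, hc, rfl⟩ := mem_image.1 hc'
      refine ⟨?_, ?_⟩
      · intro x hx
        exact mem_sdiff.2 ⟨mem_univ _, Finset.disjoint_left.1 (hcU c hc) hx⟩
      · rw [M.e_eq_zero_iff]
        intro x hx y hy hxy
        rw [mem_sdiff, mem_sdiff] at hy
        obtain ⟨⟨_, hyU⟩, hyc⟩ := hy
        obtain ⟨A, hA, hxA⟩ := mem_biUnion.1 hx
        obtain ⟨B, hB, hyB⟩ : ∃ B ∈ F ∪ Bl, y ∈ B := by
          have : y ∈ (F ∪ Bl).biUnion id := by rw [hPu]; exact mem_univ _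
          obtain ⟨B, hB, h⟩ := mem_biUnion.1 this
          exact ⟨B, hB, h⟩
        have h6 := (hC c hc).2.2.2 A hA B hB (fun h => hyc (mem_biUnion.2 ⟨B, h, hyB⟩))
          (fun h => hyU (mem_biUnion.2 ⟨B, h, hyB⟩))
        rw [M.e_eq_zero_iff] at h6
        exact h6 x hxA y hyB hxy
    · intro c h1 c' h1' hne
      obtain ⟨c, hc, rfl⟩ := mem_image.1 h1
      obtain ⟨c', hc', rfl⟩ := mem_image.1 h1'
      exact hdd c hc c' hc' (by rintro rfl; exact hne rfl)

end Setup

end Pool.Agent.LTD
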