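import Pool.Agent.Lib.MP_a46439_co.Glue
import Pool.Agent.Lib.MP_a46439_co.Main

set_option autoImplicit false
set_option linter.unusedSectionVars false

/-! Closed sets, block labellings and light closed sets. -/

namespace Pool.Agent.LTD

open Finset

namespace Setup

variable {V : Type} [Fintype V] [DecidableEq V] {M : Setup V}

lemma Mc.inter {A B : Finset V} (hA : M.Mc A) (hB : M.Mc B) : M.Mc (A ∩ B) := by
  intro v hv
  rw [mem_inter] at hv ⊢
  exact ⟨hA v hv.1, hB v hv.2⟩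

/-- closed under the matching and under the ladder relation -/
def Cl (M : Setup V) (A : Finset V) : Prop := M.Mc A ∧ ∀ a ∈ A, ∀ b, M.Psi a b → b ∈ A

lemma Cl.mc {A : Finset V} (h : M.Cl A) : M.Mc A := h.1

lemma Cl_univ : M.Cl univ := ⟨Mc_univ, fun _ _ _ _ => mem_univ _⟩

lemma Cl.union {A B : Finset V} (hA : M.Cl A) (hB : M.Cl B) : M.Cl (A ∪ B) := by
  refine ⟨hA.1.union hB.1, ?_⟩
  intro a ha b hab
  rw [mem_union] at ha ⊢
  exact ha.imp (fun h => hA.2 a h b hab) (fun h => hB.2 a h b hab)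

lemma Cl.inter {A B : Finset V} (hA : M.Cl A) (hB : M.Cl B) : M.Cl (A ∩ B) := by
  refine ⟨hA.1.inter hB.1, ?_⟩
  intro a ha b hab
  rw [mem_inter] at ha ⊢
  exact ⟨hA.2 a ha.1 b hab, hB.2 a ha.2 b hab⟩

lemma Cl.sdiff {A B : Finset V} (hA : M.Cl A) (hB : M.Cl B) : M.Cl (A \ B) := by
  refine ⟨hA.1.sdiff hB.1, ?_⟩
  intro a ha b hab
  rw [mem_sdiff] at ha ⊢
  exact ⟨hA.2 a ha.1 b hab, fun h => ha.2 (hB.2 b h a (Psi.symm M hab))⟩

lemma Cl.biUnion {ι : Type} [DecidableEq ι] (C : Finset ι) (f : ι → Finset V)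
    (h : ∀ c ∈ C, M.Cl (f c)) : M.Cl (C.biUnion f) := by
  refine ⟨Mc.biUnion C f fun c hc => (h c hc).1, ?_⟩
  intro a ha b hab
  rw [mem_biUnion] at ha ⊢
  obtain ⟨c, hc, ha⟩ := ha
  exact ⟨c, hc, (h c hc).2 a ha b hab⟩

lemma Cl.rail_subset {A : Finset V} (hA : M.Cl A) {v : V} (hv : v ∈ A) : M.rail v ⊆ A := by
  intro w hw
  rw [mem_rail] at hw
  obtain ⟨p⟩ := hw
  induction p with
  | nil => exact hv
  | cons hadj _ ih => exact ih (hA.2 _ hv _ hadj)

lemma Cl.blk_subset {A : Finset V} (hA : M.Cl A) {v : V} (hv : v ∈ A) : M.blk v ⊆ A := by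
  rw [blk]
  exact union_subset (hA.rail_subset hv) (hA.rail_subset (hA.1 v hv))

lemma Cl_blk (v : V) : M.Cl (M.blk v) := by
  refine ⟨Mc_blk v, ?_⟩
  intro a ha b hab
  rw [blk, mem_union] at ha ⊢
  exact ha.imp (fun h => rail_closed h hab) (fun h => rail_closed h hab)

/-- a set of vertices outside ladders is closed as soon as it is closed under the matching -/
lemma Mc.cl {A : Finset V} (hA : M.Mc A) (hT : ∀ v ∈ A, M.TV v) : M.Cl A :=
  ⟨hA, fun a ha b hab => absurd hab (hT a ha b)⟩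

lemma d_submod (A B : Finset V) : M.d (A ∪ B) + M.d (A ∩ B) ≤ M.d A + M.d B := by
  have hA : A = (A \ B) ∪ (A ∩ B) := by rw [sdiff_union_inter]
  have hB : B = (B \ A) ∪ (A ∩ B) := by rw [inter_comm, sdiff_union_inter]
  have h1 := M.d_union (A := A \ B) (B := A ∩ B) (by
    rw [Finset.disjoint_left]; intro x hx hx'
    exact (mem_sdiff.1 hx).2 (mem_inter.1 hx').2)
  have h2 := M.d_union (A := B \ A) (B := A ∩ B) (by
    rw [Finset.disjoint_left]; intro x hx hx'
    exact (mem_sdiff.1 hx).2 (mem_inter.1 hx').1)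
  have h3 := M.d_union (A := A) (B := B \ A) disjoint_sdiff
  rw [union_sdiff_self_eq_union] at h3
  rw [← hA] at h1
  rw [← hB] at h2
  have h4 : M.e (A ∩ B) (B \ A) ≤ M.e A (B \ A) := M.e_mono inter_subset_left (subset_refl _)
  have h5 := M.e_comm (A ∩ B) (B \ A)
  omega

/-- closed sets with small boundary -/
def Light (M : Setup V) (A : Finset V) : Prop := M.Cl A ∧ A.Nonempty ∧ M.d A ≤ 2

/-- intersecting light sets have a light union -/
lemma Light.union {A B : Finset V} (hA : M.Light A) (hB : M.Light B) (hAB : (A ∩ B).Nonempty)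
    (hu : A ∪ B ≠ univ) : M.Light (A ∪ B) := by
  refine ⟨hA.1.union hB.1, hA.2.1.mono subset_union_left, ?_⟩
  have h1 := M.d_submod A B
  have h2 := (hA.1.1.inter hB.1.1).two_le_d hAB (by
    intro h
    apply hu
    apply subset_antisymm (subset_univ _)
    rw [← h]
    exact inter_subset_left.trans subset_union_left)
  have h3 := hA.2.2
  have h4 := hB.2.2
  omega

/-- A labelling of the vertices by blocks; `T` marks the blocks which are single nodes that have
to be matched; the vertices of `E0` are exempt. -/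
structure LabE (M : Setup V) (E0 : Finset V) (B : V → Finset V) (T : V → Prop) : Prop where
  self : ∀ v, v ∈ B v
  eq : ∀ v w, w ∈ B v → B w = B v
  cl : ∀ v, M.Cl (B v)
  flex : ∀ v, M.Flex (B v)
  d4 : ∀ v, M.d (B v) ≤ 4
  cov : ∀ v, ¬ T v → M.CovF ∅ E0 (B v)
  tv : ∀ v, T v → M.TV v
  node : ∀ v, T v → B v = M.nd v
  tmu : ∀ v, T v → T (M.μ v)

/-- labellings without exempt vertices -/
abbrev Lab (M : Setup V) (B : V → Finset V) (T : V → Prop) : Prop := M.LabE ∅ B T

namespace LabE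

variable {B : V → Finset V} {T : V → Prop} {E0 : Finset V}

lemma tmu_iff (h : M.LabE E0 B T) {v : V} : T (M.μ v) ↔ T v := by
  refine ⟨fun h' => ?_, h.tmu v⟩
  have := h.tmu _ h'
  rwa [M.inv] at this

lemma t_of_mem (h : M.LabE E0 B T) {v w : V} (hv : T v) (hw : w ∈ B v) : T w := by
  rw [h.node v hv, mem_nd] at hw
  rcases hw with rfl | rfl
  · exact hv
  · exact h.tmu _ hv

lemma disj (h : M.LabE E0 B T) {v w : V} (hne : B v ≠ B w) : Disjoint (B v) (B w) := by
  rw [Finset.disjoint_left]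
  intro x hx hx'
  exact hne ((h.eq v x hx).symm.trans (h.eq w x hx'))

end LabE

variable {E0 : Finset V}

/-- closed under blocks -/
def BCl (B : V → Finset V) (A : Finset V) : Prop := ∀ v ∈ A, B v ⊆ A

lemma BCl.union {B : V → Finset V} {A A' : Finset V} (h : BCl B A) (h' : BCl B A') :
    BCl B (A ∪ A') := by
  intro v hv
  rcases mem_union.1 hv with hv | hv
  · exact (h v hv).trans subset_union_left
  · exact (h' v hv).trans subset_union_right

lemma BCl.biUnion {B : V → Finset V} {A : Finset V} (h : BCl B A) (hL : ∀ v, v ∈ B v) :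
    (A.image B).biUnion id = A := by
  ext x
  simp only [mem_biUnion, mem_image, id]
  constructor
  · rintro ⟨_, ⟨v, hv, rfl⟩, hx⟩; exact h v hv hx
  · intro hx; exact ⟨B x, ⟨x, hx, rfl⟩, hL x⟩

lemma BCl.sdiff {B : V → Finset V} {T : V → Prop} (hL : M.LabE E0 B T) {A A' : Finset V}
    (h : BCl B A) (h' : BCl B A') : BCl B (A \ A') := by
  intro v hv w hw
  rw [mem_sdiff] at hv ⊢
  refine ⟨h v hv.1 hw, fun hw' => hv.2 ?_⟩
  apply h' w hw'
  rw [hL.eq v w hw]
  exact hL.self v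

lemma BCl_self {B : V → Finset V} {T : V → Prop} (hL : M.LabE E0 B T) (v : V) : BCl B (B v) := by
  intro w hw
  rw [hL.eq v w hw]

lemma BCl.mc {B : V → Finset V} {T : V → Prop} (hL : M.LabE E0 B T) {A : Finset V}
    (h : BCl B A) : M.Mc A := fun v hv => h v hv ((hL.cl v).1 v (hL.self v))

lemma BCl.cl {B : V → Finset V} {T : V → Prop} (hL : M.LabE E0 B T) {A : Finset V}
    (h : BCl B A) : M.Cl A := by
  refine ⟨h.mc hL, fun a ha b hab => h a ha ((hL.cl a).2 a (hL.self a) b hab)⟩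

lemma BCl_of_T {B : V → Finset V} {T : V → Prop} (hL : M.LabE E0 B T) {A : Finset V}
    (hA : M.Mc A) (hT : ∀ v ∈ A, T v) : BCl B A := by
  intro v hv
  rw [hL.node v (hT v hv)]
  exact hA.nd_subset hv

/-- A violator: families of blocks and components. -/
structure Vio (M : Setup V) (B : V → Finset V) (T : V → Prop) (W K : Finset V)
    (U C : Finset (Finset V)) : Prop where
  hU : U ⊆ (W \ K).image B
  mc : ∀ c ∈ C, M.Mc c
  sub : ∀ c ∈ C, c ⊆ W \ K
  dU : ∀ c ∈ C, Disjoint c (U.biUnion id)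
  hT : ∀ c ∈ C, ∀ v ∈ c, T v
  odd : ∀ c ∈ C, c.card % 4 = 2
  clo : ∀ c ∈ C, ∀ a ∈ c, ∀ b ∈ W, b ∉ K → b ∉ c → b ∉ U.biUnion id → ¬ M.H.Adj a b
  dis : ∀ c ∈ C, ∀ c' ∈ C, c ≠ c' → Disjoint c c'
  card : U.card + 1 ≤ C.card

/-- The window lemma for labelled blocks. -/
theorem window_lab {B : V → Finset V} {T : V → Prop} (hL : M.LabE E0 B T) {W K F Ex : Finset V}
    {Us : V → Prop} (hE : E0 ⊆ Ex) (hW : BCl B W) (hK : BCl B K) (hKW : K ⊆ W) (hFK : F ⊆ K)
    (hKc : M.CovF F Ex K) (hKx : ∀ a ∈ K, Us a → M.CovFX F Ex K a) :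
    M.CovF F Ex W ∨ ∃ (U C : Finset (Finset V)), M.Vio B T W K U C ∧
      (U.card + 2 ≤ C.card ∨ ∀ c ∈ C, ∀ a ∈ c, ∀ b ∈ K, Us b → ¬ M.H.Adj a b) := by
  classical
  have hWK : BCl B (W \ K) := hW.sdiff hL hK
  set P := (W \ K).image B with hP
  set T' := ((W \ K).filter T).image B with hT'
  have hPm : ∀ A ∈ P, ∃ v ∈ W \ K, B v = A := by
    intro A hA
    obtain ⟨v, hv, h⟩ := mem_image.1 hA
    exact ⟨v, hv, h⟩
  have hT'm : ∀ A ∈ T', ∃ v ∈ W \ K, T v ∧ B v = A := by
    intro A hA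
    obtain ⟨v, hv, h⟩ := mem_image.1 hA
    rw [mem_filter] at hv
    exact ⟨v, hv.1, hv.2, h⟩
  have hPu : P.biUnion id = W \ K := hWK.biUnion hL.self
  have hKP : K ∪ P.biUnion id = W := by rw [hPu, union_sdiff_of_subset hKW]
  rcases window (M := M) (P := P) (T := T') (K := K) (F := F) (Ex := Ex) (Us := Us)
    (by
      intro A hA
      obtain ⟨v, _, rfl⟩ := hPm A hA
      exact (hL.cl v).1)
    (hK.mc hL)
    (by
      intro A hA A' hA' hne
      obtain ⟨v, _, rfl⟩ := hPm A hA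
      obtain ⟨w, _, rfl⟩ := hPm A' hA'
      exact hL.disj hne)
    (by
      intro A hA
      obtain ⟨v, hv, rfl⟩ := hPm A hA
      rw [Finset.disjoint_left]
      intro x hx
      exact (mem_sdiff.1 (hWK v hv hx)).2)
    (by
      intro A hA
      obtain ⟨v, hv, _, rfl⟩ := hT'm A hA
      exact mem_image_of_mem _ hv)
    (by
      intro A hA
      obtain ⟨v, hv, h1, rfl⟩ := hT'm A hA
      exact ⟨v, hL.tv v h1, (hL.node v h1).symm⟩)
    (by
      intro A hA
      obtain ⟨v, _, rfl⟩ := hPm A hA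
      exact hL.flex v)
    (by
      intro A hA hAT
      obtain ⟨v, hv, rfl⟩ := hPm A hA
      obtain ⟨S, _, hS⟩ := hL.cov v (by
        intro h
        exact hAT (mem_image_of_mem _ (mem_filter.2 ⟨hv, h⟩)))
      refine ⟨S, ?_, hS.mono hE⟩
      intro x hx
      rw [mem_inter] at hx
      exact absurd (hFK hx.1) (mem_sdiff.1 (hWK v hv hx.2)).2)
    hFK hKc hKx with h | ⟨U, C, h1, h2, h3, h4⟩
  · left; rwa [hKP] at h
  · right
    have hcard : U.card + 1 ≤ C.card := by
      rcases h2 with h2 | h2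
      · omega
      · exact h2.1
    refine ⟨U, C, ⟨h1, fun c hc => (h3 c hc).1, ?_, fun c hc => (h3 c hc).2.2.2.2.1, ?_,
      fun c hc => (h3 c hc).2.2.1, ?_, h4, hcard⟩, ?_⟩
    · intro c hc v hv
      obtain ⟨w, hw, hwT, hwv⟩ := hT'm _ ((h3 c hc).2.1 v hv).2
      have : v ∈ B w := by rw [hwv]; exact self_mem_nd v
      exact hWK w hw this
    · intro c hc v hv
      obtain ⟨w, hw, hwT, hwv⟩ := hT'm _ ((h3 c hc).2.1 v hv).2
      have : v ∈ B w := by rw [hwv]; exact self_mem_nd v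
      exact hL.t_of_mem hwT this
    · intro c hc a ha b hb hbK hbc hbU
      refine (h3 c hc).2.2.2.2.2 a ha b ?_ hbc hbU
      rw [hPu, mem_sdiff]; exact ⟨hb, hbK⟩
    · rcases h2 with h2 | h2
      · exact Or.inl h2
      · exact Or.inr h2.2

end Setup

end Pool.Agent.LTD
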