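import Mathlib

set_option autoImplicit false

/-! Edge counting between vertex sets and the basic set-up. -/

namespace Pool.Agent.LTD

open Finset

section Count

variable {V : Type} (H : SimpleGraph V)

open Classical in
/-- Number of ordered pairs `(u,v) ∈ A × B` that are adjacent. -/
noncomputable def E (A B : Finset V) : ℕ := ∑ u ∈ A, ∑ v ∈ B, if H.Adj u v then 1 else 0

lemma E_comm (A B : Finset V) : E H A B = E H B A := by
  classical
  unfold E
  rw [Finset.sum_comm]
  refine Finset.sum_congr rfl fun u _ => Finset.sum_congr rfl fun v _ => ?_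
  simp [H.adj_comm]

variable [DecidableEq V]

lemma E_union_left {A A' : Finset V} (h : Disjoint A A') (B : Finset V) :
    E H (A ∪ A') B = E H A B + E H A' B := by
  unfold E; rw [Finset.sum_union h]

lemma E_union_right {B B' : Finset V} (h : Disjoint B B') (A : Finset V) :
    E H A (B ∪ B') = E H A B + E H A B' := by
  rw [E_comm, E_union_left H h, E_comm, E_comm H B']

omit [DecidableEq V] in
lemma E_mono {A A' B B' : Finset V} (hA : A ⊆ A') (hB : B ⊆ B') : E H A B ≤ E H A' B' := by
  unfold E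
  refine le_trans (Finset.sum_le_sum fun u _ =>
    Finset.sum_le_sum_of_subset_of_nonneg hB (fun _ _ _ => by positivity)) ?_
  exact Finset.sum_le_sum_of_subset_of_nonneg hA (fun _ _ _ => by positivity)

omit [DecidableEq V] in
@[simp] lemma E_empty_left (B : Finset V) : E H ∅ B = 0 := by simp [E]

omit [DecidableEq V] in
@[simp] lemma E_empty_right (B : Finset V) : E H B ∅ = 0 := by simp [E]

omit [DecidableEq V] in
lemma E_eq_zero_iff {A B : Finset V} : E H A B = 0 ↔ ∀ u ∈ A, ∀ v ∈ B, ¬ H.Adj u v := by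
  unfold E
  simp only [Finset.sum_eq_zero_iff, ite_eq_right_iff, one_ne_zero, imp_false]

omit [DecidableEq V] in
lemma E_pos_iff {A B : Finset V} : 0 < E H A B ↔ ∃ u ∈ A, ∃ v ∈ B, H.Adj u v := by
  rw [Nat.pos_iff_ne_zero, Ne, E_eq_zero_iff]
  push Not
  rfl

lemma E_sdiff {A W : Finset V} (h : A ⊆ W) (B : Finset V) :
    E H B W = E H B A + E H B (W \ A) := by
  rw [← E_union_right H disjoint_sdiff, union_sdiff_of_subset h]

lemma E_sdiff_left {A W : Finset V} (h : A ⊆ W) (B : Finset V) :
    E H W B = E H A B + E H (W \ A) B := by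
  rw [← E_union_left H disjoint_sdiff, union_sdiff_of_subset h]

omit [DecidableEq V] in
lemma E_singleton_singleton {u v : V} (h : H.Adj u v) : E H {u} {v} = 1 := by
  unfold E; simp only [Finset.sum_singleton, h, if_true]

/-- The count for a symmetric irreflexive relation is even. -/
lemma even_sym (r : V → V → Prop) [DecidableRel r] (hs : ∀ u v, r u v → r v u)
    (hi : ∀ u, ¬ r u u) (A : Finset V) : Even (∑ u ∈ A, ∑ v ∈ A, if r u v then 1 else 0) := by
  induction A using Finset.induction_on with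
  | empty => simp
  | insert a A ha ih =>
    have h1 : ∀ u, (∑ v ∈ insert a A, if r u v then 1 else 0) =
        (if r u a then 1 else 0) + ∑ v ∈ A, if r u v then 1 else 0 := by
      intro u; rw [Finset.sum_insert ha]
    simp only [h1]
    rw [Finset.sum_insert ha, Finset.sum_add_distrib]
    have h2 : (∑ u ∈ A, if r u a then 1 else 0) = ∑ v ∈ A, if r a v then 1 else 0 := by
      refine Finset.sum_congr rfl fun u _ => ?_
      have : r u a ↔ r a u := ⟨hs _ _, hs _ _⟩
      simp [this]
    rw [h2]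
    simp only [hi, if_false]
    obtain ⟨k, hk⟩ := ih
    refine ⟨k + ∑ v ∈ A, if r a v then 1 else 0, ?_⟩
    rw [hk]; ring

lemma E_even (A : Finset V) : Even (E H A A) := by
  classical
  unfold E
  convert even_sym (fun u v => H.Adj u v) (fun u v h => h.symm) (fun u => H.loopless.irrefl u) A

end Count

/-- A graph `H` of maximum degree two, a fixed-point free involution `μ` that is not
contained in `H`, and connectedness of the union. -/
structure Setup (V : Type) [Fintype V] [DecidableEq V] where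
  H : SimpleGraph V
  μ : V → V
  inv : ∀ v, μ (μ v) = v
  ne : ∀ v, μ v ≠ v
  Hne : ∀ u, ¬ H.Adj u (μ u)
  deg : ∀ v, E H {v} univ ≤ 2
  conn : ∀ A : Finset V, (∀ v ∈ A, μ v ∈ A) → A.Nonempty → A ≠ univ → 0 < E H A Aᶜ

namespace Setup

variable {V : Type} [Fintype V] [DecidableEq V] (M : Setup V)

/-- ordered count of `H`-adjacent pairs -/
noncomputable def e (A B : Finset V) : ℕ := E M.H A B

lemma e_comm (A B : Finset V) : M.e A B = M.e B A := E_comm _ _ _
lemma e_union_left {A A' : Finset V} (h : Disjoint A A') (B : Finset V) :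
    M.e (A ∪ A') B = M.e A B + M.e A' B := E_union_left _ h B
lemma e_union_right {B B' : Finset V} (h : Disjoint B B') (A : Finset V) :
    M.e A (B ∪ B') = M.e A B + M.e A B' := E_union_right _ h A
lemma e_mono {A A' B B' : Finset V} (hA : A ⊆ A') (hB : B ⊆ B') : M.e A B ≤ M.e A' B' :=
  E_mono _ hA hB
@[simp] lemma e_empty_left (B : Finset V) : M.e ∅ B = 0 := E_empty_left _ B
@[simp] lemma e_empty_right (B : Finset V) : M.e B ∅ = 0 := E_empty_right _ B
lemma e_eq_zero_iff {A B : Finset V} : M.e A B = 0 ↔ ∀ u ∈ A, ∀ v ∈ B, ¬ M.H.Adj u v :=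
  E_eq_zero_iff _
lemma e_pos_iff {A B : Finset V} : 0 < M.e A B ↔ ∃ u ∈ A, ∃ v ∈ B, M.H.Adj u v :=
  E_pos_iff _
lemma e_sdiff {A W : Finset V} (h : A ⊆ W) (B : Finset V) :
    M.e B W = M.e B A + M.e B (W \ A) := E_sdiff _ h B
lemma e_sdiff_left {A W : Finset V} (h : A ⊆ W) (B : Finset V) :
    M.e W B = M.e A B + M.e (W \ A) B := E_sdiff_left _ h B
lemma e_singleton {u v : V} (h : M.H.Adj u v) : M.e {u} {v} = 1 := E_singleton_singleton _ h
lemma e_even (A : Finset V) : Even (M.e A A) := E_even _ A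
lemma e_deg (v : V) : M.e {v} univ ≤ 2 := M.deg v
lemma e_conn {A : Finset V} (hA : ∀ v ∈ A, M.μ v ∈ A) (hne : A.Nonempty) (hu : A ≠ univ) :
    0 < M.e A Aᶜ := M.conn A hA hne hu

lemma e_univ_le (A : Finset V) : M.e A univ ≤ 2 * A.card := by
  induction A using Finset.induction_on with
  | empty => simp
  | insert a A ha ih =>
    have : insert a A = {a} ∪ A := by ext; simp
    rw [this, M.e_union_left (by simpa using ha), ← this, card_insert_of_notMem ha]
    have := M.e_deg a
    omega

lemma e_le (A B : Finset V) : M.e A B ≤ 2 * A.card :=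
  (M.e_mono (subset_refl _) (subset_univ _)).trans (M.e_univ_le A)

/-- The number of edges (including missing ones) leaving `A`. -/
noncomputable def d (A : Finset V) : ℕ := 2 * A.card - M.e A A

lemma d_add (A : Finset V) : M.d A + M.e A A = 2 * A.card := by
  unfold d
  have := M.e_le A A
  omega

lemma d_even (A : Finset V) : Even (M.d A) := by
  have h1 := M.d_add A
  obtain ⟨k, hk⟩ := M.e_even A
  rw [Nat.even_iff]
  omega

lemma d_sdiff {A W : Finset V} (h : A ⊆ W) :
    M.d (W \ A) + M.e A A + 2 * A.card = M.d W + 2 * M.e A W := by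
  have h1 := M.d_add W
  have h2 := M.d_add (W \ A)
  have h3 : M.e W W = M.e A W + M.e (W \ A) W := M.e_sdiff_left h _
  have h4 : M.e A W = M.e A A + M.e A (W \ A) := M.e_sdiff h _
  have h5 : M.e (W \ A) W = M.e (W \ A) A + M.e (W \ A) (W \ A) := M.e_sdiff h _
  have h6 := M.e_comm A (W \ A)
  have h7 := card_sdiff_add_card_eq_card h
  omega

lemma d_union {A B : Finset V} (h : Disjoint A B) :
    M.d (A ∪ B) + 2 * M.e A B = M.d A + M.d B := by
  have h1 := M.d_add (A ∪ B)
  have h2 := M.d_add A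
  have h3 := M.d_add B
  have h4 : M.e (A ∪ B) (A ∪ B) = M.e A (A ∪ B) + M.e B (A ∪ B) := M.e_union_left h _
  have h5 : M.e A (A ∪ B) = M.e A A + M.e A B := M.e_union_right h _
  have h6 : M.e B (A ∪ B) = M.e B A + M.e B B := M.e_union_right h _
  have h7 := M.e_comm A B
  have h8 := card_union_of_disjoint h
  omega

@[simp] lemma d_empty : M.d ∅ = 0 := by simp [d]

lemma d_biUnion (C : Finset (Finset V)) (hd : ∀ c ∈ C, ∀ c' ∈ C, c ≠ c' → Disjoint c c')
    (he : ∀ c ∈ C, ∀ c' ∈ C, c ≠ c' → M.e c c' = 0) :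
    M.d (C.biUnion id) = ∑ c ∈ C, M.d c := by
  induction C using Finset.induction_on with
  | empty => simp
  | insert a C ha ih =>
    rw [Finset.sum_insert ha, biUnion_insert, id]
    have h1 : Disjoint a (C.biUnion id) := by
      rw [disjoint_biUnion_right]
      intro c hc
      exact hd a (mem_insert_self _ _) c (mem_insert_of_mem hc) (by rintro rfl; exact ha hc)
    have h2 : M.e a (C.biUnion id) = 0 := by
      rw [M.e_eq_zero_iff]
      intro u hu v hv
      rw [mem_biUnion] at hv
      obtain ⟨c, hc, hv⟩ := hv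
      have := he a (mem_insert_self _ _) c (mem_insert_of_mem hc) (by rintro rfl; exact ha hc)
      rw [M.e_eq_zero_iff] at this
      exact this u hu v hv
    have h3 := M.d_union h1
    rw [h2, ih (fun c hc c' hc' => hd c (mem_insert_of_mem hc) c' (mem_insert_of_mem hc'))
      (fun c hc c' hc' => he c (mem_insert_of_mem hc) c' (mem_insert_of_mem hc'))] at h3
    omega

/-- `A` is closed under the matching. -/
def Mc (A : Finset V) : Prop := ∀ v ∈ A, M.μ v ∈ A

variable {M}

lemma Mc_univ : M.Mc univ := fun _ _ => mem_univ _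
lemma Mc_empty : M.Mc ∅ := fun _ h => absurd h (notMem_empty _)

lemma Mc.union {A B : Finset V} (hA : M.Mc A) (hB : M.Mc B) : M.Mc (A ∪ B) := by
  intro v hv
  rw [mem_union] at hv ⊢
  exact hv.imp (hA v) (hB v)

lemma Mc.notMem {A : Finset V} (hA : M.Mc A) {v : V} (hv : v ∉ A) : M.μ v ∉ A := by
  intro h; apply hv; have := hA _ h; rwa [M.inv] at this

lemma Mc.mem_iff {A : Finset V} (hA : M.Mc A) {v : V} : M.μ v ∈ A ↔ v ∈ A := by
  refine ⟨fun h => ?_, hA v⟩
  have := hA _ h; rwa [M.inv] at this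

lemma Mc.sdiff {A B : Finset V} (hA : M.Mc A) (hB : M.Mc B) : M.Mc (A \ B) := by
  intro v hv
  rw [mem_sdiff] at hv ⊢
  exact ⟨hA v hv.1, hB.notMem hv.2⟩

lemma Mc.compl {A : Finset V} (hA : M.Mc A) : M.Mc Aᶜ := by
  intro v hv
  rw [mem_compl] at hv ⊢
  exact hA.notMem hv

lemma Mc.biUnion {ι : Type} [DecidableEq ι] (C : Finset ι) (f : ι → Finset V)
    (h : ∀ c ∈ C, M.Mc (f c)) : M.Mc (C.biUnion f) := by
  intro v hv
  rw [mem_biUnion] at hv ⊢
  obtain ⟨c, hc, hv⟩ := hv
  exact ⟨c, hc, h c hc v hv⟩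

lemma Mc.even_card {A : Finset V} (hA : M.Mc A) : Even A.card := by
  classical
  have h := even_sym (fun u v => v = M.μ u) (fun u v h => by rw [h, M.inv])
    (fun u h => M.ne u h.symm) A
  have : (∑ u ∈ A, ∑ v ∈ A, if v = M.μ u then 1 else 0) = A.card := by
    rw [card_eq_sum_ones]
    refine Finset.sum_congr rfl fun u hu => ?_
    rw [Finset.sum_ite_eq' A (M.μ u) (fun _ => 1)]
    simp [hA u hu]
  rwa [this] at h

lemma Mc.two_le_d {A : Finset V} (hA : M.Mc A) (hne : A.Nonempty) (hu : A ≠ univ) :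
    2 ≤ M.d A := by
  have h1 := M.e_conn hA hne hu
  have h2 := M.d_add A
  have h3 : M.e A univ = M.e A A + M.e A (univ \ A) := M.e_sdiff (subset_univ _) _
  have h4 := M.e_univ_le A
  rw [← compl_eq_univ_sdiff] at h3
  obtain ⟨k, hk⟩ := M.d_even A
  omega

/-- The node of a vertex. -/
def nd (M : Setup V) (v : V) : Finset V := {v, M.μ v}

@[simp] lemma mem_nd {u v : V} : u ∈ M.nd v ↔ u = v ∨ u = M.μ v := by simp [nd]

lemma self_mem_nd (v : V) : v ∈ M.nd v := by simp

lemma Mc_nd (v : V) : M.Mc (M.nd v) := by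
  intro u hu
  rw [mem_nd] at hu ⊢
  rcases hu with rfl | rfl
  · right; rfl
  · left; exact M.inv v

lemma nd_card (v : V) : (M.nd v).card = 2 := by
  rw [Setup.nd, card_pair (M.ne v).symm]

lemma nd_mu (v : V) : M.nd (M.μ v) = M.nd v := by
  ext u; simp [M.inv, or_comm]

lemma nd_eq_of_mem {u v : V} (h : u ∈ M.nd v) : M.nd u = M.nd v := by
  rw [mem_nd] at h
  rcases h with rfl | rfl
  · rfl
  · exact nd_mu v

lemma nd_disjoint {u v : V} (h : u ∉ M.nd v) : Disjoint (M.nd u) (M.nd v) := by
  rw [Finset.disjoint_left]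
  intro w hw hw'
  apply h
  have h1 := nd_eq_of_mem hw
  have h2 := nd_eq_of_mem hw'
  rw [← h2, h1]; exact self_mem_nd u

lemma Mc.nd_subset {A : Finset V} (hA : M.Mc A) {v : V} (hv : v ∈ A) : M.nd v ⊆ A := by
  intro u hu
  rw [mem_nd] at hu
  rcases hu with rfl | rfl
  · exact hv
  · exact hA _ hv

lemma Mc.nd_disjoint {A : Finset V} (hA : M.Mc A) {v : V} (hv : v ∉ A) : Disjoint (M.nd v) A := by
  rw [Finset.disjoint_left]
  intro u hu hu'
  rw [mem_nd] at hu
  rcases hu with rfl | rfl
  · exact hv hu'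
  · exact hA.notMem hv hu'

lemma e_nd_nd (v : V) : M.e (M.nd v) (M.nd v) = 0 := by
  rw [M.e_eq_zero_iff]
  intro a ha b hb h
  rw [mem_nd] at ha hb
  rcases ha with rfl | rfl <;> rcases hb with rfl | rfl
  · exact M.H.loopless.irrefl _ h
  · exact M.Hne _ h
  · exact M.Hne _ h.symm
  · exact M.H.loopless.irrefl _ h

lemma d_nd (v : V) : M.d (M.nd v) = 4 := by
  have := M.d_add (M.nd v)
  rw [e_nd_nd, nd_card] at this
  omega

end Setup

end Pool.Agent.LTD
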