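import Pool.Agent.Lib.MP_a46439_co.Tutte
import Pool.Agent.Lib.MP_a46439_co.Count

set_option autoImplicit false

/-! Covers and their gluing; the consequence of Tutte's theorem for covers. -/

namespace Pool.Agent.LTD

open Finset

namespace Setup

variable {V : Type} [Fintype V] [DecidableEq V] (M : Setup V)

/-- the ladder relation -/
def Psi (u v : V) : Prop := M.H.Adj u v ∧ M.H.Adj (M.μ u) (M.μ v)

lemma Psi.symm {u v : V} (h : M.Psi u v) : M.Psi v u := ⟨h.1.symm, h.2.symm⟩

lemma Psi.mu {u v : V} (h : M.Psi u v) : M.Psi (M.μ u) (M.μ v) :=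
  ⟨h.2, by rw [M.inv, M.inv]; exact h.1⟩

/-- vertices not in a ladder -/
def TV (v : V) : Prop := ∀ w, ¬ M.Psi v w

lemma TV.mu {v : V} (h : M.TV v) : M.TV (M.μ v) := by
  intro w hw
  have := Psi.mu M hw
  rw [M.inv] at this
  exact h _ this

/-- `S` is a cover of `A` except that the vertices of `X` need no neighbour. -/
def IsCov (A S X : Finset V) : Prop :=
  S ⊆ A ∧ (∀ v ∈ A, (v ∈ S ↔ M.μ v ∉ S)) ∧ (∀ v ∈ S, v ∉ X → ∃ u ∈ S, M.H.Adj v u) ∧
    ∀ u ∈ S, ∀ v, M.Psi u v → v ∈ S

def Cov (A : Finset V) : Prop := ∃ S, M.IsCov A S ∅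

def CovX (A : Finset V) (x : V) : Prop := ∃ S, x ∈ S ∧ M.IsCov A S {x}

variable {M}

lemma IsCov.union {A B S S' X X' : Finset V} (hA : M.Mc A) (hB : M.Mc B) (hd : Disjoint A B)
    (h : M.IsCov A S X) (h' : M.IsCov B S' X')
    (hX : ∀ x ∈ X ∪ X', x ∈ S ∪ S' → ∃ u ∈ S ∪ S', M.H.Adj x u) :
    M.IsCov (A ∪ B) (S ∪ S') ∅ := by
  obtain ⟨h1, h2, h3, h4⟩ := h
  obtain ⟨h1', h2', h3', h4'⟩ := h'
  refine ⟨union_subset_union h1 h1', ?_, ?_, ?_⟩
  · intro v hv
    rw [mem_union] at hv
    rcases hv with hv | hv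
    · have e1 : v ∉ S' := fun h => (Finset.disjoint_left.1 hd hv) (h1' h)
      have e2 : M.μ v ∉ S' := fun h => (Finset.disjoint_left.1 hd (hA v hv)) (h1' h)
      simp only [mem_union, e1, e2, or_false]
      exact h2 v hv
    · have e1 : v ∉ S := fun h => (Finset.disjoint_right.1 hd hv) (h1 h)
      have e2 : M.μ v ∉ S := fun h => (Finset.disjoint_right.1 hd (hB v hv)) (h1 h)
      simp only [mem_union, e1, e2, false_or]
      exact h2' v hv
  · intro v hv _
    by_cases hx : v ∈ X ∪ X'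
    · exact hX v hx hv
    · rw [mem_union, not_or] at hx
      rw [mem_union] at hv
      rcases hv with hv | hv
      · obtain ⟨u, hu, h⟩ := h3 v hv hx.1
        exact ⟨u, mem_union_left _ hu, h⟩
      · obtain ⟨u, hu, h⟩ := h3' v hv hx.2
        exact ⟨u, mem_union_right _ hu, h⟩
  · intro u hu v huv
    rw [mem_union] at hu ⊢
    rcases hu with hu | hu
    · exact Or.inl (h4 u hu v huv)
    · exact Or.inr (h4' u hu v huv)

lemma Cov.empty : M.Cov ∅ := ⟨∅, by simp [IsCov]⟩

lemma Cov.union {A B : Finset V} (hA : M.Mc A) (hB : M.Mc B) (hd : Disjoint A B)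
    (h : M.Cov A) (h' : M.Cov B) : M.Cov (A ∪ B) := by
  obtain ⟨S, hS⟩ := h
  obtain ⟨S', hS'⟩ := h'
  exact ⟨S ∪ S', hS.union hA hB hd hS' (by simp)⟩

lemma CovX.pair {A B : Finset V} {u v : V} (hA : M.Mc A) (hB : M.Mc B) (hd : Disjoint A B)
    (h : M.CovX A u) (h' : M.CovX B v) (huv : M.H.Adj u v) :
    ∃ S, u ∈ S ∧ v ∈ S ∧ M.IsCov (A ∪ B) S ∅ := by
  obtain ⟨S, hu, hS⟩ := h
  obtain ⟨S', hv, hS'⟩ := h'
  refine ⟨S ∪ S', mem_union_left _ hu, mem_union_right _ hv, hS.union hA hB hd hS' ?_⟩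
  intro x hx _
  simp only [mem_union, mem_singleton] at hx
  rcases hx with rfl | rfl
  · exact ⟨v, mem_union_right _ hv, huv⟩
  · exact ⟨u, mem_union_left _ hu, huv.symm⟩

lemma CovX.cov_pair {A B : Finset V} {u v : V} (hA : M.Mc A) (hB : M.Mc B) (hd : Disjoint A B)
    (h : M.CovX A u) (h' : M.CovX B v) (huv : M.H.Adj u v) : M.Cov (A ∪ B) := by
  obtain ⟨S, _, _, hS⟩ := h.pair hA hB hd h' huv
  exact ⟨S, hS⟩

/-- three parts joined at the central vertex `u`. -/
lemma CovX.cov_triple {A B C : Finset V} {u v w : V} (hA : M.Mc A) (hB : M.Mc B) (hC : M.Mc C)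
    (hd : Disjoint A B) (hd' : Disjoint A C) (hd'' : Disjoint B C)
    (h : M.CovX A u) (h' : M.CovX B v) (h'' : M.CovX C w) (huv : M.H.Adj u v)
    (huw : M.H.Adj u w) : M.Cov (A ∪ B ∪ C) := by
  obtain ⟨S, hu, hv, hS⟩ := h.pair hA hB hd h' huv
  obtain ⟨S', hw, hS'⟩ := h''
  refine ⟨S ∪ S', hS.union (hA.union hB) hC (disjoint_union_left.2 ⟨hd', hd''⟩) hS' ?_⟩
  intro x hx _
  simp only [mem_union, mem_singleton, notMem_empty, false_or] at hx
  subst hx
  exact ⟨u, mem_union_left _ hu, huw.symm⟩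

lemma CovX.union_cov {A B : Finset V} {u : V} (hA : M.Mc A) (hB : M.Mc B) (hd : Disjoint A B)
    (h : M.CovX A u) (h' : M.Cov B) : M.CovX (A ∪ B) u := by
  obtain ⟨S, hu, hS⟩ := h
  obtain ⟨S', hS'⟩ := h'
  refine ⟨S ∪ S', mem_union_left _ hu, ?_⟩
  obtain ⟨h1, h2, h3, h4⟩ := hS
  obtain ⟨h1', h2', h3', h4'⟩ := hS'
  refine ⟨union_subset_union h1 h1', ?_, ?_, ?_⟩
  · intro v hv
    rw [mem_union] at hv
    rcases hv with hv | hv
    · have e1 : v ∉ S' := fun h => (Finset.disjoint_left.1 hd hv) (h1' h)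
      have e2 : M.μ v ∉ S' := fun h => (Finset.disjoint_left.1 hd (hA v hv)) (h1' h)
      simp only [mem_union, e1, e2, or_false]
      exact h2 v hv
    · have e1 : v ∉ S := fun h => (Finset.disjoint_right.1 hd hv) (h1 h)
      have e2 : M.μ v ∉ S := fun h => (Finset.disjoint_right.1 hd (hB v hv)) (h1 h)
      simp only [mem_union, e1, e2, false_or]
      exact h2' v hv
  · intro v hv hvx
    rw [mem_union] at hv
    rcases hv with hv | hv
    · obtain ⟨w, hw, h⟩ := h3 v hv hvx
      exact ⟨w, mem_union_left _ hw, h⟩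
    · obtain ⟨w, hw, h⟩ := h3' v hv (notMem_empty _)
      exact ⟨w, mem_union_right _ hw, h⟩
  · intro w hw v hwv
    rw [mem_union] at hw ⊢
    rcases hw with hw | hw
    · exact Or.inl (h4 w hw v hwv)
    · exact Or.inr (h4' w hw v hwv)

lemma TV.covX {v : V} (h : M.TV v) : M.CovX (M.nd v) v := by
  refine ⟨{v}, mem_singleton_self _, ?_, ?_, ?_, ?_⟩
  · intro u hu; rw [mem_singleton] at hu; subst hu; exact self_mem_nd _
  · intro u hu
    rw [mem_nd] at hu
    rcases hu with rfl | rfl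
    · simpa using M.ne u
    · simp [M.ne, M.inv]
  · intro u hu hu'; exact absurd hu hu'
  · intro u hu w huw
    rw [mem_singleton] at hu; subst hu
    exact absurd huw (h w)

lemma Cov.biUnion {ι : Type} [DecidableEq ι] (C : Finset ι) (f : ι → Finset V)
    (hmc : ∀ c ∈ C, M.Mc (f c))
    (hd : ∀ c ∈ C, ∀ c' ∈ C, c ≠ c' → Disjoint (f c) (f c')) (hc : ∀ c ∈ C, M.Cov (f c)) :
    M.Cov (C.biUnion f) := by
  induction C using Finset.induction_on with
  | empty => simpa using Cov.empty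
  | insert a C ha ih =>
    rw [biUnion_insert]
    refine Cov.union (hmc _ (mem_insert_self _ _))
      (Mc.biUnion _ _ fun c hc => hmc c (mem_insert_of_mem hc)) ?_ (hc _ (mem_insert_self _ _)) ?_
    · rw [disjoint_biUnion_right]
      intro c hc
      exact hd a (mem_insert_self _ _) c (mem_insert_of_mem hc) (by rintro rfl; exact ha hc)
    · exact ih (fun c hc => hmc c (mem_insert_of_mem hc))
        (fun c hc c' hc' => hd c (mem_insert_of_mem hc) c' (mem_insert_of_mem hc'))
        (fun c h => hc c (mem_insert_of_mem h))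

/-- Tutte's theorem for blocks. -/
theorem block_tutte (P T : Finset (Finset V)) (hmc : ∀ A ∈ P, M.Mc A)
    (hdis : ∀ A ∈ P, ∀ B ∈ P, A ≠ B → Disjoint A B)
    (hX : ∀ A ∈ P, ∀ u ∈ A, ∀ v, v ∉ A → M.H.Adj u v → M.CovX A u)
    (hF : ∀ A ∈ P, A ∉ T → M.Cov A) :
    M.Cov (P.biUnion id) ∨ ∃ (U : Finset (Finset V)) (C : Finset (Finset (Finset V))),
      U ⊆ P ∧ U.card + 1 ≤ C.card ∧ (T = P → Even P.card → U.card + 2 ≤ C.card) ∧
      (∀ c ∈ C, c ⊆ T ∧ Odd c.card ∧ Disjoint c U ∧
        ∀ A ∈ c, ∀ B ∈ P, B ∉ c → B ∉ U → M.e A B = 0) ∧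
      (∀ c ∈ C, ∀ c' ∈ C, c ≠ c' → Disjoint c c') := by
  classical
  let X := {A : Finset V // A ∈ P}
  let R : SimpleGraph X :=
    { Adj := fun A B => A ≠ B ∧ 0 < M.e A.1 B.1
      symm := ⟨fun A B h => ⟨h.1.symm, by rw [M.e_comm]; exact h.2⟩⟩
      loopless := ⟨fun A h => h.1 rfl⟩ }
  have hXcard : Fintype.card X = P.card := by
    simp [X]
  let T' : Finset X := univ.filter fun A => A.1 ∈ T
  rcases T_tutte R T' with ⟨m, hm1, hm2, hm3⟩ | ⟨U, C, hUC, hUC2, hC, hCd⟩
  · left
    have hcov : ∀ A : X, M.Cov (A.1 ∪ (m A).1) := by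
      intro A
      by_cases h : m A = A
      · rw [h, union_self]
        apply hF _ A.2
        intro hT
        exact hm3 A (by simp [T', hT]) h
      · obtain ⟨h1, h2⟩ := hm2 A h
        obtain ⟨u, hu, v, hv, huv⟩ := M.e_pos_iff.1 h2
        have hd : Disjoint A.1 (m A).1 := hdis _ A.2 _ (m A).2 fun h' => h1 (Subtype.ext h')
        refine CovX.cov_pair (hmc _ A.2) (hmc _ (m A).2) hd ?_ ?_ huv
        · exact hX _ A.2 u hu v (fun h' => (Finset.disjoint_left.1 hd h') hv) huv
        · exact hX _ (m A).2 v hv u (fun h' => (Finset.disjoint_left.1 hd hu) h') huv.symm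
    have hQ : P.biUnion id = ((univ : Finset X).image fun A => A.1 ∪ (m A).1).biUnion id := by
      ext x
      simp only [mem_biUnion, id, mem_image, mem_univ, true_and]
      constructor
      · rintro ⟨A, hA, hx⟩
        exact ⟨A ∪ (m ⟨A, hA⟩).1, ⟨⟨A, hA⟩, rfl⟩, mem_union_left _ hx⟩
      · rintro ⟨B, ⟨A, rfl⟩, hx⟩
        rw [mem_union] at hx
        rcases hx with hx | hx
        · exact ⟨A.1, A.2, hx⟩
        · exact ⟨(m A).1, (m A).2, hx⟩
    rw [hQ]
    apply Cov.biUnion
    · intro c hc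
      simp only [mem_image, mem_univ, true_and] at hc
      obtain ⟨A, rfl⟩ := hc
      exact (hmc _ A.2).union (hmc _ (m A).2)
    · intro c hc c' hc' hne
      simp only [mem_image, mem_univ, true_and] at hc hc'
      obtain ⟨A, rfl⟩ := hc
      obtain ⟨B, rfl⟩ := hc'
      have h1 : A ≠ B := by rintro rfl; exact hne rfl
      have h2 : A ≠ m B := by
        rintro rfl
        apply hne; rw [hm1, union_comm]
      have h3 : m A ≠ B := by
        rintro rfl
        apply hne; rw [hm1, union_comm]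
      have h4 : m A ≠ m B := by
        intro h
        apply h1; rw [← hm1 A, h, hm1]
      have key : ∀ A B : X, A ≠ B → Disjoint A.1 B.1 := fun A B h =>
        hdis _ A.2 _ B.2 fun h' => h (Subtype.ext h')
      simp only [id, disjoint_union_left, disjoint_union_right]
      exact ⟨⟨key _ _ h1, key _ _ h3⟩, ⟨key _ _ h2, key _ _ h4⟩⟩
    · intro c hc
      simp only [mem_image, mem_univ, true_and] at hc
      obtain ⟨A, rfl⟩ := hc
      exact hcov A
  · right
    let vE : X ↪ Finset V := ⟨Subtype.val, Subtype.val_injective⟩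
    have hinj : Function.Injective (fun c : Finset X => c.map vE) := Finset.map_injective vE
    refine ⟨U.map vE, C.image (fun c => c.map vE), ?_, ?_, ?_, ?_, ?_⟩
    · intro A hA
      simp only [mem_map, vE, Function.Embedding.coeFn_mk] at hA
      obtain ⟨B, _, rfl⟩ := hA
      exact B.2
    · rw [card_map, card_image_of_injective _ hinj]; exact hUC
    · intro hT hev
      rw [card_map, card_image_of_injective _ hinj]
      apply hUC2
      refine ⟨?_, by rw [hXcard]; exact hev⟩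
      ext A
      simp only [T', mem_filter, mem_univ, true_and, iff_true]
      rw [hT]; exact A.2
    · intro c hc
      simp only [mem_image] at hc
      obtain ⟨c, hc, rfl⟩ := hc
      obtain ⟨h1, h2, h3, h4⟩ := hC c hc
      refine ⟨?_, by rw [card_map]; exact h2, ?_, ?_⟩
      · intro A hA
        simp only [mem_map, vE, Function.Embedding.coeFn_mk] at hA
        obtain ⟨B, hB, rfl⟩ := hA
        have := h1 hB
        simpa [T'] using this
      · rw [disjoint_map]; exact h3
      · intro A hA B hB hBc hBU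
        simp only [mem_map, vE, Function.Embedding.coeFn_mk] at hA
        obtain ⟨A', hA', rfl⟩ := hA
        by_contra h0
        have hpos : 0 < M.e A'.1 B := Nat.pos_of_ne_zero h0
        have hne : A' ≠ ⟨B, hB⟩ := by
          rintro rfl
          apply hBc
          simp only [mem_map, vE, Function.Embedding.coeFn_mk]
          exact ⟨_, hA', rfl⟩
        rcases h4 A' hA' ⟨B, hB⟩ ⟨hne, hpos⟩ with h | h
        · apply hBc
          simp only [mem_map, vE, Function.Embedding.coeFn_mk]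
          exact ⟨_, h, rfl⟩
        · apply hBU
          simp only [mem_map, vE, Function.Embedding.coeFn_mk]
          exact ⟨_, h, rfl⟩
    · intro c hc c' hc' hne
      simp only [mem_image] at hc hc'
      obtain ⟨c, hc, rfl⟩ := hc
      obtain ⟨c', hc', rfl⟩ := hc'
      rw [disjoint_map]
      exact hCd c hc c' hc' (by rintro rfl; exact hne rfl)

/-! Nodes -/

lemma nodes_disjoint {A B : Finset V} {Z : Finset V} (hA : A ∈ Z.image M.nd)
    (hB : B ∈ Z.image M.nd) (hne : A ≠ B) : Disjoint A B := by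
  rw [mem_image] at hA hB
  obtain ⟨u, hu, rfl⟩ := hA
  obtain ⟨v, hv, rfl⟩ := hB
  apply nd_disjoint
  intro h
  exact hne (nd_eq_of_mem h)

lemma nodes_biUnion {Z : Finset V} (hZ : M.Mc Z) : (Z.image M.nd).biUnion id = Z := by
  ext x
  simp only [mem_biUnion, mem_image, id]
  constructor
  · rintro ⟨A, ⟨v, hv, rfl⟩, hx⟩
    exact hZ.nd_subset hv hx
  · intro hx
    exact ⟨M.nd x, ⟨x, hx, rfl⟩, self_mem_nd x⟩

lemma nodes_card {Z : Finset V} {c : Finset (Finset V)} (hc : c ⊆ Z.image M.nd) :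
    (c.biUnion id).card = 2 * c.card := by
  rw [card_biUnion]
  · rw [mul_comm, ← smul_eq_mul, ← sum_const]
    refine sum_congr rfl fun A hA => ?_
    obtain ⟨v, _, rfl⟩ := mem_image.1 (hc hA)
    exact nd_card v
  · intro A hA B hB hne
    exact nodes_disjoint (hc hA) (hc hB) hne

/-- Tutte's theorem for the part `W \ K` of a region `W`. -/
theorem reg_tutte {W K : Finset V} (hW : M.Mc W) (hK : M.Mc K) (hKW : K ⊆ W)
    (hT : ∀ v ∈ W \ K, M.TV v) (h4 : (W \ K).card % 4 = 0) :
    M.Cov (W \ K) ∨ ∃ (U : Finset V) (C : Finset (Finset V)), M.Mc U ∧ K ⊆ U ∧ U ⊆ W ∧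
      (∀ c ∈ C, M.Mc c ∧ c ⊆ W \ U ∧ c.card % 4 = 2 ∧ M.e c ((W \ U) \ c) = 0) ∧
      (∀ c ∈ C, ∀ c' ∈ C, c ≠ c' → Disjoint c c') ∧
      U.card + 4 ≤ 2 * C.card + K.card := by
  classical
  have hZ : M.Mc (W \ K) := hW.sdiff hK
  set Z := W \ K with hZdef
  have hcardP : Z.card = 2 * (Z.image M.nd).card := by
    rw [← nodes_card (subset_refl _), nodes_biUnion hZ]
  have g1 : ∀ A ∈ Z.image M.nd, M.Mc A := by
    intro A hA
    obtain ⟨v, _, rfl⟩ := mem_image.1 hA
    exact Mc_nd v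
  have g3 : ∀ A ∈ Z.image M.nd, ∀ u ∈ A, ∀ v, v ∉ A → M.H.Adj u v → M.CovX A u := by
    intro A hA u hu v _ _
    obtain ⟨w, hw, rfl⟩ := mem_image.1 hA
    rw [← nd_eq_of_mem hu]
    apply TV.covX
    rw [mem_nd] at hu
    rcases hu with rfl | rfl
    · exact hT _ hw
    · exact (hT _ hw).mu
  rcases block_tutte (M := M) (Z.image M.nd) (Z.image M.nd) g1
      (fun A hA B hB hne => nodes_disjoint hA hB hne) g3 (fun A hA hA' => absurd hA hA') with
    h | ⟨U, C, hU, hUC, hUC2, hC, hCd⟩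
  · left; rwa [nodes_biUnion hZ] at h
  · right
    have hev : Even (Z.image M.nd).card := by rw [Nat.even_iff]; omega
    have hUC3 := hUC2 rfl hev
    have hUZ : U.biUnion id ⊆ Z := by
      rw [← nodes_biUnion hZ]; exact biUnion_subset_biUnion_of_subset_left _ hU
    have hUK : Disjoint (U.biUnion id) K := by
      rw [Finset.disjoint_left]; intro x hx
      have := hUZ hx
      rw [hZdef, mem_sdiff] at this
      exact this.2
    have hmcU : M.Mc (U.biUnion id) := by
      apply Mc.biUnion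
      intro A hA
      obtain ⟨v, _, rfl⟩ := mem_image.1 (hU hA)
      exact Mc_nd v
    have hne : ∀ c ∈ C, (c.biUnion id).Nonempty := by
      intro c hc
      obtain ⟨h1, h2, _, _⟩ := hC c hc
      have : c.Nonempty := by
        rw [← card_pos]; obtain ⟨k, hk⟩ := h2; omega
      obtain ⟨A, hA⟩ := this
      obtain ⟨v, _, rfl⟩ := mem_image.1 (h1 hA)
      exact ⟨v, mem_biUnion.2 ⟨_, hA, self_mem_nd v⟩⟩
    have hdd : ∀ c ∈ C, ∀ c' ∈ C, c ≠ c' → Disjoint (c.biUnion id) (c'.biUnion id) := by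
      intro c hc c' hc' hne
      rw [disjoint_biUnion_left]
      intro A hA
      rw [disjoint_biUnion_right]
      intro B hB
      apply nodes_disjoint ((hC c hc).1 hA) ((hC c' hc').1 hB)
      rintro rfl
      exact (Finset.disjoint_left.1 (hCd c hc c' hc' hne) hA) hB
    have hinj : Set.InjOn (fun c : Finset (Finset V) => c.biUnion id) C := by
      intro c hc c' hc' h
      by_contra hne'
      have h1 := hdd c hc c' hc' hne'
      simp only at h
      rw [← h, disjoint_self_iff_empty] at h1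
      exact (hne c hc).ne_empty h1
    refine ⟨K ∪ U.biUnion id, C.image fun c => c.biUnion id, hK.union hmcU, subset_union_left,
      union_subset hKW (hUZ.trans sdiff_subset), ?_, ?_, ?_⟩
    · intro c hc'
      obtain ⟨c, hc, rfl⟩ := mem_image.1 hc'
      obtain ⟨h1, h2, h3, h5⟩ := hC c hc
      have hcZ : c.biUnion id ⊆ Z := by
        rw [← nodes_biUnion hZ]; exact biUnion_subset_biUnion_of_subset_left _ h1
      have hcU : Disjoint (c.biUnion id) (U.biUnion id) := by
        rw [disjoint_biUnion_left]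
        intro A hA
        rw [disjoint_biUnion_right]
        intro B hB
        apply nodes_disjoint (h1 hA) (hU hB)
        rintro rfl
        exact (Finset.disjoint_left.1 h3 hA) hB
      refine ⟨?_, ?_, ?_, ?_⟩
      · apply Mc.biUnion
        intro A hA
        obtain ⟨v, _, rfl⟩ := mem_image.1 (h1 hA)
        exact Mc_nd v
      · intro x hx
        have hx1 := hcZ hx
        rw [hZdef, mem_sdiff] at hx1
        rw [mem_sdiff, mem_union, not_or]
        exact ⟨hx1.1, hx1.2, Finset.disjoint_left.1 hcU hx⟩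
      · rw [nodes_card h1]
        obtain ⟨k, hk⟩ := h2
        omega
      · rw [M.e_eq_zero_iff]
        intro x hx y hy hxy
        rw [mem_sdiff, mem_sdiff, mem_union, not_or] at hy
        obtain ⟨⟨hyW, hyK, hyU⟩, hyc⟩ := hy
        obtain ⟨A, hA, hxA⟩ := mem_biUnion.1 hx
        have hyZ : y ∈ Z := by rw [hZdef, mem_sdiff]; exact ⟨hyW, hyK⟩
        have h6 := h5 A hA (M.nd y) (mem_image_of_mem _ hyZ) ?_ ?_
        · rw [M.e_eq_zero_iff] at h6
          exact h6 x hxA y (self_mem_nd y) hxy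
        · intro h; exact hyc (mem_biUnion.2 ⟨_, h, self_mem_nd y⟩)
        · intro h; exact hyU (mem_biUnion.2 ⟨_, h, self_mem_nd y⟩)
    · intro c h1 c' h1' hne
      obtain ⟨c, hc, rfl⟩ := mem_image.1 h1
      obtain ⟨c', hc', rfl⟩ := mem_image.1 h1'
      exact hdd c hc c' hc' (by rintro rfl; exact hne rfl)
    · rw [card_union_of_disjoint hUK.symm, nodes_card hU, card_image_of_injOn hinj]
      omega

/-- The counting identity for a family of closed sets. -/
lemma count {W U : Finset V} {C : Finset (Finset V)} (hUW : U ⊆ W)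
    (hC : ∀ c ∈ C, c ⊆ W \ U ∧ M.e c ((W \ U) \ c) = 0)
    (hCd : ∀ c ∈ C, ∀ c' ∈ C, c ≠ c' → Disjoint c c') :
    ∑ c ∈ C, M.d c + M.d ((W \ U) \ C.biUnion id) + M.e U U + 2 * U.card =
      M.d W + 2 * M.e U W := by
  have hsub : C.biUnion id ⊆ W \ U := by
    rw [biUnion_subset]; exact fun c hc => (hC c hc).1
  have h1 := M.d_sdiff hUW
  have h2 : M.d (C.biUnion id) = ∑ c ∈ C, M.d c := by
    apply M.d_biUnion C hCd
    intro c hc c' hc' hne
    rw [← Nat.le_zero, ← (hC c hc).2]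
    apply M.e_mono (subset_refl _)
    intro x hx
    rw [mem_sdiff]
    exact ⟨(hC c' hc').1 hx, Finset.disjoint_right.1 (hCd c hc c' hc' hne) hx⟩
  have h3 := M.d_union (A := C.biUnion id) (B := (W \ U) \ C.biUnion id) disjoint_sdiff
  have h4 : M.e (C.biUnion id) ((W \ U) \ C.biUnion id) = 0 := by
    rw [M.e_eq_zero_iff]
    intro x hx y hy
    obtain ⟨c, hc, hxc⟩ := mem_biUnion.1 hx
    have := (hC c hc).2
    rw [M.e_eq_zero_iff] at this
    apply this x hxc y
    rw [mem_sdiff] at hy ⊢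
    exact ⟨hy.1, fun h => hy.2 (mem_biUnion.2 ⟨c, hc, h⟩)⟩
  rw [union_sdiff_of_subset hsub, h4] at h3
  omega

/-- Covers of `W \ K` from counting. -/
theorem regCov {W K : Finset V} (hW : M.Mc W) (hK : M.Mc K) (hKW : K ⊆ W)
    (hT : ∀ v ∈ W \ K, M.TV v) (h4 : (W \ K).card % 4 = 0)
    (hodd : ∀ c ⊆ W \ K, M.Mc c → c.card % 4 = 2 → 4 ≤ M.d c)
    (hcond : M.d W + 2 * M.e K W < 8 + M.e K K + 2 * K.card) : M.Cov (W \ K) := by
  rcases reg_tutte hW hK hKW hT h4 with h | ⟨U, C, hU, hKU, hUW, hC, hCd, hcard⟩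
  · exact h
  · exfalso
    have h1 := count (M := M) hUW (fun c hc => ⟨(hC c hc).2.1, (hC c hc).2.2.2⟩) hCd
    have h2 : 4 * C.card ≤ ∑ c ∈ C, M.d c := by
      rw [mul_comm, ← smul_eq_mul, ← sum_const]
      refine sum_le_sum fun c hc => ?_
      exact hodd c ((hC c hc).2.1.trans (sdiff_subset_sdiff (subset_refl _) hKU)) (hC c hc).1
        (hC c hc).2.2.1
    have h3 : M.e U W = M.e K W + M.e (U \ K) W := M.e_sdiff_left hKU _
    have h5 := M.e_le (U \ K) W
    have h6 := card_sdiff_add_card_eq_card hKU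
    have h7 : M.e K K ≤ M.e U U := M.e_mono hKU hKU
    omega

end Setup

end Pool.Agent.LTD
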