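import Pool.Agent.Lib.MP_a46439_co.Main

set_option autoImplicit false

/-! Cubic graphs with a perfect matching. -/

namespace Pool.Agent.LTD

open Finset

variable {V : Type} [Fintype V] [DecidableEq V]

/-- three distinct neighbours exhaust the neighbourhood -/
lemma nbr3 {G : SimpleGraph V} (hdeg : ∀ v, E G {v} univ = 3) {x p q r : V}
    (hp : G.Adj x p) (hq : G.Adj x q) (hr : G.Adj x r) (hpq : p ≠ q) (hpr : p ≠ r) (hqr : q ≠ r) :
    ∀ y, G.Adj x y → y = p ∨ y = q ∨ y = r := by
  classical
  intro y hy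
  by_contra hcon
  push Not at hcon
  obtain ⟨h1, h2, h3⟩ := hcon
  have h4 := hdeg x
  have h5 : E G {x} univ = (univ.filter fun v => G.Adj x v).card := by
    rw [card_filter]; unfold E; rw [sum_singleton]
  rw [h5] at h4
  have h6 : ({p, q, r, y} : Finset V) ⊆ univ.filter fun v => G.Adj x v := by
    intro v hv
    simp only [mem_insert, mem_singleton] at hv
    rw [mem_filter]
    refine ⟨mem_univ _, ?_⟩
    rcases hv with rfl | rfl | rfl | rfl <;> assumption
  have h7 := card_le_card h6
  rw [card_insert_of_notMem, card_insert_of_notMem, card_insert_of_notMem, card_singleton] at h7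
  · omega
  · simpa using h3.symm
  · simp [hqr, h2.symm]
  · simp [hpq, hpr, h1.symm]

/-- the set-up of a cubic graph with a perfect matching -/
def mkSetup (G : SimpleGraph V) (hconn : G.Connected) (hdeg : ∀ v, E G {v} univ = 3)
    (μ : V → V) (hinv : ∀ v, μ (μ v) = v) (hadj : ∀ v, G.Adj v (μ v)) : Setup V where
  H := { Adj := fun u v => G.Adj u v ∧ v ≠ μ u
         symm := ⟨fun u v h => ⟨h.1.symm, fun h' => h.2 (by rw [h', hinv])⟩⟩
         loopless := ⟨fun u h => G.loopless.irrefl _ h.1⟩ }
  μ := μ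
  inv := hinv
  ne := fun v h => (hadj v).ne h.symm
  Hne := fun u h => h.2 rfl
  deg := by
    classical
    intro v
    have h1 := hdeg v
    have h2 : E G {v} univ = (univ.filter fun u => G.Adj v u).card := by
      rw [card_filter]; unfold E; rw [sum_singleton]
    have h3 : ∀ (H : SimpleGraph V), E H {v} univ = (univ.filter fun u => H.Adj v u).card := by
      intro H; rw [card_filter]; unfold E; rw [sum_singleton]
    rw [h3]
    rw [h2] at h1
    have h4 : ∀ (H : SimpleGraph V), (∀ u, H.Adj v u ↔ G.Adj v u ∧ u ≠ μ v) →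
        (univ.filter fun u => H.Adj v u) = (univ.filter fun u => G.Adj v u).erase (μ v) := by
      intro H hH; ext u; simp [hH, and_comm]
    rw [h4 _ (fun u => Iff.rfl), card_erase_of_mem (by simp [hadj v]), h1]
  conn := by
    intro A hA hne hu
    rw [E_pos_iff]
    obtain ⟨a, ha⟩ := hne
    obtain ⟨b, hb⟩ : ∃ b, b ∉ A := by
      by_contra hcon
      push Not at hcon
      exact hu (eq_univ_iff_forall.2 hcon)
    obtain ⟨p⟩ := hconn.preconnected a b
    obtain ⟨d, _, hd1, hd2⟩ := p.exists_boundary_dart (A : Set V) ha hb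
    refine ⟨d.fst, hd1, d.snd, by simpa using hd2, d.adj, ?_⟩
    intro h
    apply hd2
    rw [h]
    exact hA _ hd1

section

variable (G : SimpleGraph V) (hconn : G.Connected) (hdeg : ∀ v, E G {v} univ = 3)
    (μ : V → V) (hinv : ∀ v, μ (μ v) = v) (hadj : ∀ v, G.Adj v (μ v))

lemma mkSetup_adj {u v : V} : (mkSetup G hconn hdeg μ hinv hadj).H.Adj u v ↔
    G.Adj u v ∧ v ≠ μ u := Iff.rfl

lemma mkSetup_mu (v : V) : (mkSetup G hconn hdeg μ hinv hadj).μ v = μ v := rfl

lemma mkSetup_deg (v : V) : (mkSetup G hconn hdeg μ hinv hadj).e {v} univ = 2 := by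
  classical
  have h1 := hdeg v
  have h2 : E G {v} univ = (univ.filter fun u => G.Adj v u).card := by
    rw [card_filter]; unfold E; rw [sum_singleton]
  have h3 : ∀ (H : SimpleGraph V), E H {v} univ = (univ.filter fun u => H.Adj v u).card := by
    intro H; rw [card_filter]; unfold E; rw [sum_singleton]
  unfold Setup.e
  rw [h3]
  rw [h2] at h1
  have h4 : ∀ (H : SimpleGraph V), (∀ u, H.Adj v u ↔ G.Adj v u ∧ u ≠ μ v) →
      (univ.filter fun u => H.Adj v u) = (univ.filter fun u => G.Adj v u).erase (μ v) := by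
    intro H hH; ext u; simp [hH, and_comm]
  rw [h4 _ (fun u => Iff.rfl), card_erase_of_mem (by simp [hadj v]), h1]

lemma mkSetup_d : (mkSetup G hconn hdeg μ hinv hadj).d univ = 0 := by
  have h1 : ∀ A : Finset V, (mkSetup G hconn hdeg μ hinv hadj).e A univ = 2 * A.card := by
    intro A
    induction A using Finset.induction_on with
    | empty => simp
    | insert a A ha ih =>
      have h3 : insert a A = {a} ∪ A := by ext; simp
      rw [card_insert_of_notMem ha, h3, Setup.e_union_left _ (by simpa using ha), ih,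
        mkSetup_deg]
      ring
  have h2 := (mkSetup G hconn hdeg μ hinv hadj).d_add univ
  have h3 := h1 univ
  omega

/-- A cover is a locating-total dominating set with half of the vertices. -/
lemma ltd_of_cov (h : (mkSetup G hconn hdeg μ hinv hadj).Cov univ) :
    ∃ S : Finset V, (∀ v : V, ∃ u ∈ S, G.Adj v u) ∧
      (∀ u v : V, u ∉ S → v ∉ S → u ≠ v → ∃ w ∈ S, ¬ (G.Adj u w ↔ G.Adj v w)) ∧
      2 * S.card ≤ Fintype.card V := by
  obtain ⟨S, _, hS, hsup, hcl⟩ := h
  have hS' : ∀ v, v ∈ S ↔ μ v ∉ S := fun v => hS v (mem_univ v)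
  refine ⟨S, ?_, ?_, ?_⟩
  · intro v
    by_cases hv : v ∈ S
    · obtain ⟨u, hu, huv⟩ := hsup v hv (notMem_empty _)
      exact ⟨u, hu, huv.1⟩
    · refine ⟨μ v, ?_, hadj v⟩
      by_contra h'
      exact hv ((hS' v).2 h')
  · intro u v hu hv huv
    by_contra hcon
    push Not at hcon
    have hmu : μ u ∈ S := by
      by_contra h'
      exact hu ((hS' u).2 h')
    have hmv : μ v ∈ S := by
      by_contra h'
      exact hv ((hS' v).2 h')
    have h1 : G.Adj v (μ u) := ((hcon _ hmu).1 (hadj u))
    have h2 : G.Adj u (μ v) := ((hcon _ hmv).2 (hadj v))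
    have h3 : (mkSetup G hconn hdeg μ hinv hadj).Psi (μ v) u := by
      refine ⟨⟨h2.symm, ?_⟩, ⟨?_, ?_⟩⟩
      · rw [hinv]; exact huv
      · show G.Adj (μ (μ v)) (μ u)
        rw [hinv]; exact h1
      · show μ u ≠ μ (μ (μ v))
        rw [hinv]
        intro h; apply huv; rw [← hinv u, h, hinv]
    exact hu (hcl _ hmv u h3)
  · have h1 : (S.image μ) = Sᶜ := by
      ext x
      rw [mem_image, mem_compl]
      constructor
      · rintro ⟨y, hy, rfl⟩
        exact (hS' y).1 hy
      · intro hx
        refine ⟨μ x, ?_, hinv x⟩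
        by_contra h'
        exact hx ((hS' x).2 h')
    have hinj : Function.Injective μ := fun a b h => by rw [← hinv a, h, hinv]
    have h2 := card_image_of_injective S hinj
    rw [h1, card_compl] at h2
    have h3 : S.card ≤ Fintype.card V := card_le_univ S
    omega

end

lemma closed_univ {G : SimpleGraph V} (hconn : G.Connected) {A : Finset V} {a : V} (ha : a ∈ A)
    (hcl : ∀ x ∈ A, ∀ y, G.Adj x y → y ∈ A) : ∀ x, x ∈ A := by
  intro x
  by_contra hx
  obtain ⟨p⟩ := hconn.preconnected a x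
  obtain ⟨d, _, hd1, hd2⟩ := p.exists_boundary_dart (A : Set V) ha hx
  exact hd2 (hcl _ hd1 _ d.adj)

/-- The complete graph case. -/
lemma iso_K4 {G : SimpleGraph V} (hconn : G.Connected) (hdeg : ∀ v, E G {v} univ = 3)
    {a b c d : V} (hab : G.Adj a b) (hac : G.Adj a c) (had : G.Adj a d) (hbc : G.Adj b c)
    (hbd : G.Adj b d) (hcd : G.Adj c d) : Nonempty (G ≃g (⊤ : SimpleGraph (Fin 4))) := by
  have nab := hab.ne
  have nac := hac.ne
  have nad := had.ne
  have nbc := hbc.ne
  have nbd := hbd.ne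
  have ncd := hcd.ne
  have hall : ∀ x, x ∈ ({a, b, c, d} : Finset V) := by
    apply closed_univ hconn (a := a) (by simp)
    intro x hx y hxy
    simp only [mem_insert, mem_singleton] at hx ⊢
    rcases hx with rfl | rfl | rfl | rfl
    · have := nbr3 hdeg hab hac had nbc nbd ncd y hxy; tauto
    · have := nbr3 hdeg hab.symm hbc hbd nac nad ncd y hxy; tauto
    · have := nbr3 hdeg hac.symm hbc.symm hcd nab nad nbd y hxy; tauto
    · have := nbr3 hdeg had.symm hbd.symm hcd.symm nab nac nbc y hxy; tauto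
  have hcard : Fintype.card V = 4 := by
    have : (univ : Finset V) = {a, b, c, d} := by
      ext x; simpa using hall x
    rw [← card_univ, this, card_insert_of_notMem, card_insert_of_notMem, card_insert_of_notMem,
      card_singleton]
    · simpa using ncd
    · simp [nbc, nbd]
    · simp [nab, nac, nad]
  have hfull : ∀ x y, x ≠ y → G.Adj x y := by
    intro x y hxy
    have h1 := hall x
    have h2 := hall y
    simp only [mem_insert, mem_singleton] at h1 h2
    rcases h1 with rfl | rfl | rfl | rfl <;> rcases h2 with rfl | rfl | rfl | rfl <;>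
      first | exact absurd rfl hxy | assumption | (apply SimpleGraph.Adj.symm; assumption)
  have e : V ≃ Fin 4 := Fintype.equivFinOfCardEq hcard
  refine ⟨⟨e, ?_⟩⟩
  intro x y
  simp only [SimpleGraph.top_adj, ne_eq, EmbeddingLike.apply_eq_iff_eq]
  exact ⟨fun h => hfull x y h, fun h => h.ne⟩

/-- The complete bipartite case. -/
lemma iso_K33 {G : SimpleGraph V} (hconn : G.Connected) (hdeg : ∀ v, E G {v} univ = 3)
    (f g : Fin 3 → V) (hf : Function.Injective f) (hg : Function.Injective g)
    (hfg : ∀ i j, G.Adj (f i) (g j)) :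
    Nonempty (G ≃g completeBipartiteGraph (Fin 3) (Fin 3)) := by
  have nf : ∀ i y, G.Adj (f i) y → ∃ j, y = g j := by
    intro i y hy
    have := nbr3 hdeg (hfg i 0) (hfg i 1) (hfg i 2) (fun h => by simpa using hg h)
      (fun h => by simpa using hg h) (fun h => by simpa using hg h) y hy
    rcases this with h | h | h
    · exact ⟨0, h⟩
    · exact ⟨1, h⟩
    · exact ⟨2, h⟩
  have ng : ∀ i y, G.Adj (g i) y → ∃ j, y = f j := by
    intro i y hy
    have := nbr3 hdeg (hfg 0 i).symm (hfg 1 i).symm (hfg 2 i).symm (fun h => by simpa using hf h)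
      (fun h => by simpa using hf h) (fun h => by simpa using hf h) y hy
    rcases this with h | h | h
    · exact ⟨0, h⟩
    · exact ⟨1, h⟩
    · exact ⟨2, h⟩
  have hne : ∀ i j, f i ≠ g j := fun i j => (hfg i j).ne
  let F : Fin 3 ⊕ Fin 3 → V := Sum.elim f g
  have hFinj : Function.Injective F := by
    rintro (i | i) (j | j) h
    · rw [hf h]
    · exact absurd h (hne i j)
    · exact absurd h.symm (hne j i)
    · rw [hg h]
  have hFsurj : Function.Surjective F := by
    intro x
    have := closed_univ hconn (A := univ.image F) (a := f 0)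
      (mem_image.2 ⟨Sum.inl 0, mem_univ _, rfl⟩) ?_ x
    · obtain ⟨s, _, hs⟩ := mem_image.1 this
      exact ⟨s, hs⟩
    · intro y hy z hyz
      obtain ⟨s, _, rfl⟩ := mem_image.1 hy
      rcases s with i | i
      · obtain ⟨j, rfl⟩ := nf i z hyz
        exact mem_image.2 ⟨Sum.inr j, mem_univ _, rfl⟩
      · obtain ⟨j, rfl⟩ := ng i z hyz
        exact mem_image.2 ⟨Sum.inl j, mem_univ _, rfl⟩
  let e : Fin 3 ⊕ Fin 3 ≃ V := Equiv.ofBijective F ⟨hFinj, hFsurj⟩
  have iso : completeBipartiteGraph (Fin 3) (Fin 3) ≃g G := by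
    refine ⟨e, ?_⟩
    intro s t
    show G.Adj (F s) (F t) ↔ _
    rcases s with i | i <;> rcases t with j | j
    · simp only [F, Sum.elim_inl]
      constructor
      · intro h
        obtain ⟨k, hk⟩ := nf i _ h
        exact absurd hk (hne j k)
      · intro h; simp at h
    · simp only [F, Sum.elim_inl, Sum.elim_inr]
      simp [hfg i j]
    · simp only [F, Sum.elim_inl, Sum.elim_inr]
      simp [(hfg j i).symm]
    · simp only [F, Sum.elim_inr]
      constructor
      · intro h
        obtain ⟨k, hk⟩ := ng i _ h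
        exact absurd hk.symm (hne k j)
      · intro h; simp at h
  exact ⟨iso.symm⟩

/-- A cubic graph with a perfect matching, different from `K_4` and `K_{3,3}`. -/
theorem ltd_of_matching (G : SimpleGraph V) (hconn : G.Connected)
    (hdeg : ∀ v, E G {v} univ = 3)
    (μ : V → V) (hinv : ∀ v, μ (μ v) = v) (hadj : ∀ v, G.Adj v (μ v))
    (h4 : IsEmpty (G ≃g (⊤ : SimpleGraph (Fin 4))))
    (h33 : IsEmpty (G ≃g completeBipartiteGraph (Fin 3) (Fin 3))) :
    ∃ S : Finset V, (∀ v : V, ∃ u ∈ S, G.Adj v u) ∧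
      (∀ u v : V, u ∉ S → v ∉ S → u ≠ v → ∃ w ∈ S, ¬ (G.Adj u w ↔ G.Adj v w)) ∧
      2 * S.card ≤ Fintype.card V := by
  classical
  by_cases hgood : ∀ v, (mkSetup G hconn hdeg μ hinv hadj).μ v ∉
      (mkSetup G hconn hdeg μ hinv hadj).rail v
  · apply ltd_of_cov G hconn hdeg μ hinv hadj
    apply Setup.cov_univ _ hgood
    rw [mkSetup_d]; norm_num
  push Not at hgood
  obtain ⟨v0, hv0⟩ := hgood
  obtain ⟨hpsi, _⟩ := Setup.bad_all hv0
  obtain ⟨b, _, _, hab⟩ := Setup.exists_other (mkSetup_deg G hconn hdeg μ hinv hadj v0) v0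
  set a := v0 with ha
  obtain ⟨c, _, hca, hbc⟩ := Setup.exists_other (mkSetup_deg G hconn hdeg μ hinv hadj b) a
  have hP1 : (mkSetup G hconn hdeg μ hinv hadj).Psi a b := hpsi _ _ hab
  have hP2 : (mkSetup G hconn hdeg μ hinv hadj).Psi b c := hpsi _ _ hbc
  have gab : G.Adj a b := hab.1
  have gbc : G.Adj b c := hbc.1
  have gmm : G.Adj (μ a) (μ b) := hP1.2.1
  have gmm2 : G.Adj (μ b) (μ c) := hP2.2.1
  have nbma : b ≠ μ a := hab.2
  have ncmb : c ≠ μ b := hbc.2
  have nab : a ≠ b := gab.ne
  have nama : a ≠ μ a := (hadj a).ne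
  have nbmb : b ≠ μ b := (hadj b).ne
  have namb : a ≠ μ b := fun h => nbma (by rw [h, hinv])
  have nmamb : μ a ≠ μ b := gmm.ne
  -- the switched matching
  let ν : V → V := fun x => if x = a then b else if x = b then a else
    if x = μ a then μ b else if x = μ b then μ a else μ x
  have νa : ν a = b := by simp [ν]
  have νb : ν b = a := by simp [ν, nab.symm]
  have νma : ν (μ a) = μ b := by simp [ν, nama.symm, nbma.symm]
  have νmb : ν (μ b) = μ a := by simp [ν, namb.symm, nbmb.symm, nmamb.symm]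
  have νelse : ∀ x, x ≠ a → x ≠ b → x ≠ μ a → x ≠ μ b → ν x = μ x := by
    intro x h1 h2 h3 h4; simp [ν, h1, h2, h3, h4]
  have hνinv : ∀ x, ν (ν x) = x := by
    intro x
    by_cases h1 : x = a
    · rw [h1, νa, νb]
    by_cases h2 : x = b
    · rw [h2, νb, νa]
    by_cases h3 : x = μ a
    · rw [h3, νma, νmb]
    by_cases h4 : x = μ b
    · rw [h4, νmb, νma]
    rw [νelse x h1 h2 h3 h4, νelse, hinv]
    · intro h; apply h3; rw [← h, hinv]
    · intro h; apply h4; rw [← h, hinv]
    · intro h; apply h1; rw [← hinv x, h, hinv]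
    · intro h; apply h2; rw [← hinv x, h, hinv]
  have hνadj : ∀ x, G.Adj x (ν x) := by
    intro x
    by_cases h1 : x = a
    · rw [h1, νa]; exact gab
    by_cases h2 : x = b
    · rw [h2, νb]; exact gab.symm
    by_cases h3 : x = μ a
    · rw [h3, νma]; exact gmm
    by_cases h4 : x = μ b
    · rw [h4, νmb]; exact gmm.symm
    rw [νelse x h1 h2 h3 h4]; exact hadj x
  by_cases hgood' : ∀ v, (mkSetup G hconn hdeg ν hνinv hνadj).μ v ∉
      (mkSetup G hconn hdeg ν hνinv hνadj).rail v
  · apply ltd_of_cov G hconn hdeg ν hνinv hνadj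
    apply Setup.cov_univ _ hgood'
    rw [mkSetup_d]; norm_num
  exfalso
  push Not at hgood'
  obtain ⟨v1, hv1⟩ := hgood'
  obtain ⟨hpsi', _⟩ := Setup.bad_all hv1
  have hbc' : (mkSetup G hconn hdeg ν hνinv hνadj).H.Adj b c := by
    refine ⟨gbc, ?_⟩
    rw [νb]; exact hca
  have hP3 := (hpsi' _ _ hbc').2.1
  have hP3' : G.Adj a (ν c) := by
    have : G.Adj (ν b) (ν c) := hP3
    rwa [νb] at this
  by_cases hcma : c = μ a
  · rw [hcma, νma] at hP3'
    rw [hcma] at gbc
    exact h4.elim (iso_K4 hconn hdeg gab (hadj a) hP3' gbc (hadj b) gmm).some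
  · have ncb : c ≠ b := gbc.ne'
    rw [νelse c hca ncb hcma ncmb] at hP3'
    have hP4 : (mkSetup G hconn hdeg μ hinv hadj).H.Adj a (μ c) := by
      refine ⟨hP3', ?_⟩
      intro h; apply hca; rw [← hinv c, h, hinv]
    have hP5 := (hpsi _ _ hP4).2.1
    have gmac : G.Adj (μ a) c := by
      have : G.Adj (μ a) (μ (μ c)) := hP5
      rwa [hinv] at this
    have nmbmc : μ b ≠ μ c := gmm2.ne
    have nmamc : μ a ≠ μ c := fun h => hca (by rw [← hinv c, ← h, hinv])
    have nbmc : b ≠ μ c := fun h => ncmb (by rw [h, hinv])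
    refine h33.elim (iso_K33 hconn hdeg ![a, c, μ b] ![b, μ a, μ c] ?_ ?_ ?_).some
    · intro i j hij
      fin_cases i <;> fin_cases j <;> simp_all
    · intro i j hij
      fin_cases i <;> fin_cases j <;> simp_all
    · intro i j
      fin_cases i <;> fin_cases j
      · exact gab
      · exact hadj a
      · exact hP3'
      · exact gbc.symm
      · exact gmac.symm
      · exact hadj c
      · exact (hadj b).symm
      · exact gmm.symm
      · exact gmm2

end Pool.Agent.LTD
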