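import Pool.Agent.Lib.MP_a46439_co.StrLem

set_option autoImplicit false
set_option linter.unusedSectionVars false

/-! Uncrossing of the structures at the two roots: the cases with a light set. -/

namespace Pool.Agent.LTD

open Finset

namespace Setup

variable {V : Type} [Fintype V] [DecidableEq V] {M : Setup V}

lemma BCl.inter {B : V → Finset V} {A A' : Finset V} (h : BCl B A) (h' : BCl B A') :
    BCl B (A ∩ A') := fun v hv => subset_inter (h v (mem_inter.1 hv).1) (h' v (mem_inter.1 hv).2)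

lemma e_le_pairs {A A' : Finset V} (F : Finset (V × V))
    (h : ∀ a ∈ A, ∀ b ∈ A', M.H.Adj a b → (a, b) ∈ F) : M.e A A' ≤ F.card := by
  classical
  have : M.e A A' = ((A ×ˢ A').filter fun p => M.H.Adj p.1 p.2).card := by
    rw [card_filter, sum_product]; rfl
  rw [this]
  apply card_le_card
  intro x hx
  rw [mem_filter, mem_product] at hx
  exact h x.1 hx.1.1 x.2 hx.1.2 hx.2

/-- the situation at both roots -/
structure Two (M : Setup V) (p p1 p2 y1 y2 : V) (FF U1 C1 U2 C2 : Finset (Finset V)) :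
    Prop where
  h1 : M.RCtx p p1 p2 y1 FF
  h2 : M.RCtx p p2 p1 y2 FF
  s1 : M.Str p p1 p2 y1 FF U1 C1
  s2 : M.Str p p2 p1 y2 FF U2 C2

/-- the crossing part -/
noncomputable def crs (M : Setup V) (p1 p2 y1 y2 : V) (FF U1 C1 U2 C2 : Finset (Finset V)) :
    Finset V :=
  (big (M.win FF p1 y1) U1 ∩ C2.biUnion id) ∪ (big (M.win FF p2 y2) U2 ∩ C1.biUnion id)

namespace Two

variable {p p1 p2 y1 y2 : V} {FF U1 C1 U2 C2 : Finset (Finset V)}

lemma symm (t : M.Two p p1 p2 y1 y2 FF U1 C1 U2 C2) : M.Two p p2 p1 y2 y1 FF U2 C2 U1 C1 :=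
  ⟨t.h2, t.h1, t.s2, t.s1⟩

lemma crs_comm : M.crs p1 p2 y1 y2 FF U1 C1 U2 C2 = M.crs p2 p1 y2 y1 FF U2 C2 U1 C1 := by
  unfold crs; rw [union_comm]

lemma p1big (t : M.Two p p1 p2 y1 y2 FF U1 C1 U2 C2) : p1 ∈ big (M.win FF p1 y1) U1 :=
  mem_union_left _ (mem_union_left _ (self_mem_nd p1))

lemma ybig (t : M.Two p p1 p2 y1 y2 FF U1 C1 U2 C2) : y1 ∈ big (M.win FF p1 y1) U1 :=
  mem_union_left _ (mem_union_right _ (t.h1.lab.self y1))

lemma ybig2 (t : M.Two p p1 p2 y1 y2 FF U1 C1 U2 C2) : y1 ∈ big (M.win FF p2 y2) U2 :=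
  t.s2.nbrC t.s2.p2C t.h1.yW t.h1.ay

lemma labybig2 (t : M.Two p p1 p2 y1 y2 FF U1 C1 U2 C2) :
    M.labOf FF y1 ⊆ big (M.win FF p2 y2) U2 := t.s2.big_bcl t.h2 y1 t.ybig2

lemma p1X (t : M.Two p p1 p2 y1 y2 FF U1 C1 U2 C2) : p1 ∈ M.crs p1 p2 y1 y2 FF U1 C1 U2 C2 :=
  mem_union_left _ (mem_inter.2 ⟨t.p1big, t.s2.p2C⟩)

lemma p2X (t : M.Two p p1 p2 y1 y2 FF U1 C1 U2 C2) : p2 ∈ M.crs p1 p2 y1 y2 FF U1 C1 U2 C2 := by
  rw [crs_comm]; exact t.symm.p1X

lemma yA (t : M.Two p p1 p2 y1 y2 FF U1 C1 U2 C2) :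
    y1 ∈ (univ \ M.nd p) \ M.crs p1 p2 y1 y2 FF U1 C1 U2 C2 := by
  rw [mem_sdiff]
  refine ⟨t.h1.yW, ?_⟩
  unfold crs
  rw [mem_union, mem_inter, mem_inter]
  rintro (⟨_, h⟩ | ⟨_, h⟩)
  · exact t.s2.bigC t.ybig2 h
  · exact t.s1.bigC t.ybig h

lemma crossX (t : M.Two p p1 p2 y1 y2 FF U1 C1 U2 C2)
    (hR : rest (univ \ M.nd p) (M.win FF p1 y1) U1 C1 =
      rest (univ \ M.nd p) (M.win FF p2 y2) U2 C2) {a b : V} (ha : a ∈ univ \ M.nd p)
    (ha' : ¬ (a ∈ big (M.win FF p2 y2) U2 ∧ a ∈ C1.biUnion id))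
    (hb1 : b ∈ big (M.win FF p1 y1) U1) (hb2 : b ∈ C2.biUnion id) (hab : M.H.Adj a b) :
    a ∈ big (M.win FF p1 y1) U1 ∧ a ∈ big (M.win FF p2 y2) U2 ∧
      M.labOf FF a ≠ M.labOf FF b := by
  have h1 := t.s2.nbrC hb2 ha hab.symm
  refine ⟨?_, h1, ?_⟩
  · rcases t.s1.loc t.h1 ha with h2 | h2 | h2
    · exact h2
    · exact absurd ⟨h1, h2⟩ ha'
    · rw [hR] at h2
      exact absurd h2 (Str.big_rest h1)
  · intro h2
    apply t.s2.bigC ?_ hb2
    have := t.s2.big_bcl t.h2 a h1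
    rw [h2] at this
    exact this (t.h1.lab.self b)

/-- edges leaving the uncrossed part -/
lemma leave (t : M.Two p p1 p2 y1 y2 FF U1 C1 U2 C2)
    (hR : rest (univ \ M.nd p) (M.win FF p1 y1) U1 C1 =
      rest (univ \ M.nd p) (M.win FF p2 y2) U2 C2) {a b : V}
    (ha : a ∈ (univ \ M.nd p) \ M.crs p1 p2 y1 y2 FF U1 C1 U2 C2)
    (hb : b ∉ (univ \ M.nd p) \ M.crs p1 p2 y1 y2 FF U1 C1 U2 C2) (hab : M.H.Adj a b) :
    (b ∈ big (M.win FF p1 y1) U1 ∧ b ∈ C2.biUnion id ∧ a ∈ big (M.win FF p1 y1) U1 ∧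
      a ∈ big (M.win FF p2 y2) U2 ∧ M.labOf FF a ≠ M.labOf FF b) ∨
    (b ∈ big (M.win FF p2 y2) U2 ∧ b ∈ C1.biUnion id ∧ a ∈ big (M.win FF p2 y2) U2 ∧
      a ∈ big (M.win FF p1 y1) U1 ∧ M.labOf FF a ≠ M.labOf FF b) := by
  rw [mem_sdiff] at ha hb
  have hbW : b ∈ univ \ M.nd p := by
    rcases t.h1.root.nbr_W ha.1 hab with h | ⟨_, h | h⟩
    · exact h
    · subst h; exact absurd t.p1X ha.2
    · subst h; exact absurd t.p2X ha.2
  have hbX : b ∈ M.crs p1 p2 y1 y2 FF U1 C1 U2 C2 := by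
    by_contra h; exact hb ⟨hbW, h⟩
  have ha2 := ha.2
  unfold crs at hbX ha2
  rw [mem_union, mem_inter, mem_inter] at hbX ha2
  rw [not_or] at ha2
  rcases hbX with ⟨h1, h2⟩ | ⟨h1, h2⟩
  · left
    obtain ⟨h3, h4, h5⟩ := t.crossX hR ha.1 ha2.2 h1 h2 hab
    exact ⟨h1, h2, h3, h4, h5⟩
  · right
    obtain ⟨h3, h4, h5⟩ := t.symm.crossX hR.symm ha.1 ha2.1 h1 h2 hab
    exact ⟨h1, h2, h3, h4, h5⟩

lemma bclA (t : M.Two p p1 p2 y1 y2 FF U1 C1 U2 C2) :
    BCl (M.labOf FF) ((univ \ M.nd p) \ M.crs p1 p2 y1 y2 FF U1 C1 U2 C2) := by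
  refine t.h1.bW.sdiff t.h1.lab (BCl.union ?_ ?_)
  · exact (t.s1.big_bcl t.h1).inter (t.s2.vio.CC_bcl t.h1.lab)
  · exact (t.s2.big_bcl t.h2).inter (t.s1.vio.CC_bcl t.h1.lab)

lemma dA (t : M.Two p p1 p2 y1 y2 FF U1 C1 U2 C2) :
    M.d ((univ \ M.nd p) \ M.crs p1 p2 y1 y2 FF U1 C1 U2 C2) =
      M.e ((univ \ M.nd p) \ M.crs p1 p2 y1 y2 FF U1 C1 U2 C2)
        ((univ \ M.nd p) \ M.crs p1 p2 y1 y2 FF U1 C1 U2 C2)ᶜ := by
  apply t.h1.root.d_eq
  intro h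
  exact (Root.mem_W.1 (mem_sdiff.1 h).1).2 rfl

/-- the inner edge lemma for the leaving edges, one light set -/
lemma inner1_cross (t : M.Two p p1 p2 y1 y2 FF U1 C1 U2 C2)
    (hin : M.Inner1 (M.labOf FF) (big (M.win FF p1 y1) U1) p1 y1) {a b : V}
    (ha : a ∈ big (M.win FF p1 y1) U1) (hb : b ∈ big (M.win FF p1 y1) U1)
    (hb2 : b ∈ C2.biUnion id) (hab : M.H.Adj a b) (hne : M.labOf FF a ≠ M.labOf FF b) :
    a = y1 ∧ b = p1 := by
  rcases hin a ha b hb hab hne with ⟨_, h2⟩ | h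
  · exact absurd hb2 (t.s2.bigC (h2 ▸ t.ybig2))
  · exact h

/-- if both inner edge sets are single then the uncrossed part is light -/
lemma lightA (t : M.Two p p1 p2 y1 y2 FF U1 C1 U2 C2)
    (hR : rest (univ \ M.nd p) (M.win FF p1 y1) U1 C1 =
      rest (univ \ M.nd p) (M.win FF p2 y2) U2 C2)
    (hin1 : M.Inner1 (M.labOf FF) (big (M.win FF p1 y1) U1) p1 y1)
    (hin2 : M.Inner1 (M.labOf FF) (big (M.win FF p2 y2) U2) p2 y2) :
    ∃ A ∈ FF, (univ \ M.nd p) \ M.crs p1 p2 y1 y2 FF U1 C1 U2 C2 ⊆ A := by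
  apply t.h1.fam.max
  · refine ⟨t.bclA.cl t.h1.lab, ⟨y1, t.yA⟩, ?_⟩
    rw [t.dA]
    refine (e_le_pairs {(y1, p1), (y2, p2)} ?_).trans card_le_two
    intro a ha b hb hab
    rw [mem_insert, mem_singleton, Prod.mk.injEq, Prod.mk.injEq]
    rcases t.leave hR ha (by rwa [mem_compl] at hb) hab with ⟨h1, h2, h3, h4, h5⟩ | ⟨h1, h2, h3, h4, h5⟩
    · exact Or.inl (t.inner1_cross hin1 h3 h1 h2 hab h5)
    · exact Or.inr (t.symm.inner1_cross hin2 h3 h1 h2 hab h5)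
  · exact sdiff_subset
  · exact fun h => (mem_sdiff.1 h).2 t.p1X
  · exact fun h => (mem_sdiff.1 h).2 t.p2X

/-- case gamma-gamma -/
lemma no_gg (t : M.Two p p1 p2 y1 y2 FF U1 C1 U2 C2) {L : Finset V}
    (huniq : ∀ A ∈ FF, A = L)
    (hR1 : rest (univ \ M.nd p) (M.win FF p1 y1) U1 C1 = L)
    (hR2 : rest (univ \ M.nd p) (M.win FF p2 y2) U2 C2 = L)
    (hin1 : M.Inner1 (M.labOf FF) (big (M.win FF p1 y1) U1) p1 y1)
    (hin2 : M.Inner1 (M.labOf FF) (big (M.win FF p2 y2) U2) p2 y2) : False := by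
  obtain ⟨A, hA, hsub⟩ := t.lightA (hR1.trans hR2.symm) hin1 hin2
  rw [huniq A hA] at hsub
  have h1 := hsub t.yA
  rw [← hR1] at h1
  exact Str.big_rest t.ybig h1

/-- case gamma-delta -/
lemma no_gd (t : M.Two p p1 p2 y1 y2 FF U1 C1 U2 C2) {L : Finset V} (hy : y1 ∈ L)
    (hR2 : rest (univ \ M.nd p) (M.win FF p2 y2) U2 C2 = L) : False := by
  rw [← hR2] at hy
  exact Str.big_rest t.ybig2 hy

/-- case delta-delta -/
lemma no_dd (t : M.Two p p1 p2 y1 y2 FF U1 C1 U2 C2) {L : Finset V} (hL : L ∈ FF)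
    (huniq : ∀ A ∈ FF, A = L) (hy1 : y1 ∈ L) (hy2 : y2 ∈ L)
    (hR1 : rest (univ \ M.nd p) (M.win FF p1 y1) U1 C1 = ∅)
    (hR2 : rest (univ \ M.nd p) (M.win FF p2 y2) U2 C2 = ∅)
    (hin1 : M.Inner1 (M.labOf FF) (big (M.win FF p1 y1) U1) p1 y1)
    (hin2 : M.Inner1 (M.labOf FF) (big (M.win FF p2 y2) U2) p2 y2) : False := by
  classical
  obtain ⟨A, hA, hsub⟩ := t.lightA (hR1.trans hR2.symm) hin1 hin2
  rw [huniq A hA] at hsub
  have hBy1 : M.labOf FF y1 = L := labOf_mem t.h1.fam.dis hL hy1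
  have hBy2 : M.labOf FF y2 = L := labOf_mem t.h1.fam.dis hL hy2
  have hLU1 : L ⊆ big (M.win FF p1 y1) U1 := by
    rw [← hBy1]
    exact fun x hx => mem_union_left _ (mem_union_right _ hx)
  have hLU2 : L ⊆ big (M.win FF p2 y2) U2 := by
    rw [← hBy2]
    exact fun x hx => mem_union_left _ (mem_union_right _ hx)
  -- a vertex of the big side outside of `L` lies in a component on the other side
  have hX : ∀ v, v ∈ big (M.win FF p1 y1) U1 → v ∉ L → v ∈ C2.biUnion id := by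
    intro v hv hvL
    have hvW := t.s1.bigW t.h1 hv
    by_contra hcon
    apply hvL
    apply hsub
    rw [mem_sdiff]
    refine ⟨hvW, ?_⟩
    unfold crs
    rw [mem_union, mem_inter, mem_inter]
    rintro (⟨_, h⟩ | ⟨_, h⟩)
    · exact hcon h
    · exact t.s1.bigC hv h
  -- neighbours of such vertices
  have hN : ∀ v w, v ∈ big (M.win FF p1 y1) U1 → v ∉ L → v ≠ p1 → M.H.Adj v w →
      w ∈ C1.biUnion id ∧ w ∈ big (M.win FF p2 y2) U2 ∧ w ≠ p2 := by
    intro v w hv hvL hvp hvw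
    have hvW := t.s1.bigW t.h1 hv
    have hvC := hX v hv hvL
    have hwW : w ∈ univ \ M.nd p := by
      rcases t.h1.root.nbr_W hvW hvw with h | ⟨_, h | h⟩
      · exact h
      · exact absurd h hvp
      · subst h
        exact absurd t.s1.p2C (t.s1.bigC hv)
    have hwU2 := t.s2.nbrC hvC hwW hvw
    have hwC1 : w ∈ C1.biUnion id := by
      rcases t.s1.loc t.h1 hwW with h | h | h
      · exfalso
        have hne : M.labOf FF v ≠ M.labOf FF w := by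
          intro h2
          apply t.s2.bigC ?_ hvC
          have := t.s2.big_bcl t.h2 w hwU2
          rw [← h2] at this
          exact this (t.h1.lab.self v)
        rcases hin1 v hv w h hvw hne with ⟨h3, _⟩ | ⟨h3, _⟩
        · exact hvp h3
        · rw [h3] at hvL; exact hvL hy1
      · exact h
      · rw [hR1] at h; exact absurd h (notMem_empty _)
    refine ⟨hwC1, hwU2, ?_⟩
    rintro rfl
    have h3 : M.H.Adj w p := t.h1.root.a2.symm
    rcases nbr_two h3 t.h2.ay t.h2.yp.symm hvw.symm with h4 | h4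
    · subst h4
      exact Root.p_notW hvW
    · rw [h4] at hvL; exact hvL hy2
  by_cases hU : U1.Nonempty
  · have htight : Tight.IsTight U1 (M.nbc C1) U1 := by
      refine ⟨subset_refl _, hU, ?_⟩
      rw [← t.s1.card]
      apply card_le_card
      rw [biUnion_subset]; intro A _; exact filter_subset _ _
    obtain ⟨A, hA, hdb⟩ := t.s1.doubly htight
    obtain ⟨v, hvW, hvA⟩ := t.s1.vio.block_mem hA
    have hvA' : v ∈ A := by rw [← hvA]; exact t.h1.lab.self v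
    rw [mem_sdiff] at hvW
    have hv : v ∈ big (M.win FF p1 y1) U1 := mem_union_right _ (mem_biUnion.2 ⟨A, hA, hvA'⟩)
    have hvL : v ∉ L := by
      intro h
      apply hvW.2
      rw [← hBy1] at h
      exact mem_union_right _ h
    have hvp1 : v ≠ p1 := by
      rintro rfl; exact hvW.2 (mem_union_left _ (self_mem_nd _))
    have hvC := hX v hv hvL
    obtain ⟨w1, w2, hne, hw1, hw2⟩ := exists_two (t.h1.root.full v (Root.mem_W.1 hvW.1).2)
    obtain ⟨a1, b1, c1⟩ := hN v w1 hv hvL hvp1 hw1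
    obtain ⟨a2, b2, c2⟩ := hN v w2 hv hvL hvp1 hw2
    have hw21 := hdb v hvA' w1 w2 hne a1 a2 hw1 hw2
    have hw1K : w1 ∉ M.win FF p2 y2 := by
      intro h
      rcases mem_union.1 h with h | h
      · rw [mem_nd] at h
        rcases h with h | h
        · exact c1 h
        · apply c2; rw [hw21, h, M.inv]
      · rw [hBy2] at h
        exact t.s1.bigC (hLU1 h) a1
    have hw1U : M.nd w1 ∈ U2 := by
      rw [← t.h2.lab.node w1 (t.s1.Tc a1)]
      exact t.s2.memU t.h2 b1 hw1K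
    exact t.s2.noDouble t.h2 hw1U hvC hw1 (by rw [← hw21]; exact hw2)
  · rw [not_nonempty_iff_eq_empty] at hU
    have hC1 : C1.card = 1 := by rw [t.s1.card, hU, card_empty]
    obtain ⟨c, hc⟩ := card_eq_one.1 hC1
    have hcp2 : c = M.nd p2 := by
      have := t.s1.memC t.s1.p2C
      rw [hc, mem_singleton] at this
      exact this.symm
    have hCC : C1.biUnion id = M.nd p2 := by rw [hc, singleton_biUnion, id, hcp2]
    -- the partner of `p1`
    have hx : M.μ p1 ∈ big (M.win FF p1 y1) U1 :=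
      mem_union_left _ (mem_union_left _ (by simp))
    have hxL : M.μ p1 ∉ L := by
      intro h
      have h2 : p1 ∈ L := (t.h1.fam.light L hL).1.1.mem_iff.1 h
      exact t.h1.fam.n1 L hL h2
    have hxW := t.s1.bigW t.h1 hx
    obtain ⟨w1, w2, hne, hw1, hw2⟩ := exists_two (t.h1.root.full _ (Root.mem_W.1 hxW).2)
    obtain ⟨a1, b1, c1⟩ := hN _ w1 hx hxL (M.ne p1) hw1
    obtain ⟨a2, b2, c2⟩ := hN _ w2 hx hxL (M.ne p1) hw2
    rw [hCC, mem_nd] at a1 a2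
    exact hne ((a1.resolve_left c1).trans (a2.resolve_left c2).symm)

end Two

end Setup

end Pool.Agent.LTD
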