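import Pool.Agent.Lib.MP_a46439_co.End1

set_option autoImplicit false
set_option linter.unusedSectionVars false
set_option maxHeartbeats 1000000

/-! Uncrossing of the structures at the two roots: the case without light sets. -/

namespace Pool.Agent.LTD

open Finset

namespace Setup

variable {V : Type} [Fintype V] [DecidableEq V] {M : Setup V}

namespace Two

variable {p p1 p2 y1 y2 : V} {FF U1 C1 U2 C2 : Finset (Finset V)}

lemma inner2_cross (t : M.Two p p1 p2 y1 y2 FF U1 C1 U2 C2) {q z : V}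
    (hq : q ∈ M.labOf FF y1)
    (hin : M.Inner2 (M.labOf FF) (big (M.win FF p1 y1) U1) p1 y1 q z) {a b : V}
    (ha : a ∈ big (M.win FF p1 y1) U1) (hb : b ∈ big (M.win FF p1 y1) U1)
    (hb2 : b ∈ C2.biUnion id) (hab : M.H.Adj a b) (hne : M.labOf FF a ≠ M.labOf FF b) :
    (a = y1 ∧ b = p1) ∨ (a = q ∧ b = z) := by
  rcases hin a ha b hb hab hne with ⟨_, h2⟩ | h | h | ⟨_, h2⟩
  · exact absurd hb2 (t.s2.bigC (h2 ▸ t.ybig2))
  · exact Or.inl h
  · exact Or.inr h
  · exact absurd hb2 (t.s2.bigC (h2 ▸ t.labybig2 hq))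

/-- neighbours of a crossing vertex -/
lemma nbrX (t : M.Two p p1 p2 y1 y2 FF U1 C1 U2 C2)
    (hR1 : rest (univ \ M.nd p) (M.win FF p1 y1) U1 C1 = ∅) {q z : V}
    (hq : q ∈ M.labOf FF y1)
    (hin : M.Inner2 (M.labOf FF) (big (M.win FF p1 y1) U1) p1 y1 q z) {v w : V}
    (hv : v ∈ big (M.win FF p1 y1) U1) (hvC : v ∈ C2.biUnion id) (hvp : v ≠ p1)
    (hvw : M.H.Adj v w) (hne : ¬ (v = z ∧ w = q)) :
    w ∈ C1.biUnion id ∧ w ∈ big (M.win FF p2 y2) U2 ∧ w ≠ p2 := by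
  have hvW := t.s1.bigW t.h1 hv
  have hwW : w ∈ univ \ M.nd p := by
    rcases t.h1.root.nbr_W hvW hvw with h | ⟨_, h | h⟩
    · exact h
    · exact absurd h hvp
    · subst h
      exact absurd t.s1.p2C (t.s1.bigC hv)
  have hwU2 := t.s2.nbrC hvC hwW hvw
  have hwC1 : w ∈ C1.biUnion id := by
    rcases t.s1.loc t.h1 hwW with h | h | h
    · exfalso
      have hne' : M.labOf FF w ≠ M.labOf FF v := by
        intro h2
        apply t.s2.bigC ?_ hvC
        have := t.s2.big_bcl t.h2 w hwU2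
        rw [h2] at this
        exact this (t.h1.lab.self v)
      rcases t.inner2_cross hq hin h hv hvC hvw.symm hne' with ⟨_, h3⟩ | ⟨h3, h4⟩
      · exact hvp h3
      · exact hne ⟨h4, h3⟩
    · exact h
    · rw [hR1] at h; exact absurd h (notMem_empty _)
  refine ⟨hwC1, hwU2, ?_⟩
  rintro rfl
  have h3 : M.H.Adj w p := t.h1.root.a2.symm
  rcases nbr_two h3 t.h2.ay t.h2.yp.symm hvw.symm with h4 | h4
  · subst h4
    exact Root.p_notW hvW
  · subst h4
    exact t.s2.bigC t.symm.ybig hvC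

/-- if the crossing part is larger than the two root nodes we get a contradiction -/
lemma noY (t : M.Two p p1 p2 y1 y2 FF U1 C1 U2 C2)
    (hR1 : rest (univ \ M.nd p) (M.win FF p1 y1) U1 C1 = ∅) {q z : V}
    (hq : q ∈ M.labOf FF y1)
    (hin : M.Inner2 (M.labOf FF) (big (M.win FF p1 y1) U1) p1 y1 q z)
    (hcard : (big (M.win FF p2 y2) U2 ∩ C1.biUnion id).card ≤
      (big (M.win FF p1 y1) U1 ∩ C2.biUnion id).card) :
    big (M.win FF p1 y1) U1 ∩ C2.biUnion id = M.nd p1 ∧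
      big (M.win FF p2 y2) U2 ∩ C1.biUnion id = M.nd p2 := by
  classical
  set X := big (M.win FF p1 y1) U1 ∩ C2.biUnion id with hX
  set X' := big (M.win FF p2 y2) U2 ∩ C1.biUnion id with hX'
  have hXb : BCl (M.labOf FF) X := (t.s1.big_bcl t.h1).inter (t.s2.vio.CC_bcl t.h1.lab)
  have hX'b : BCl (M.labOf FF) X' := (t.s2.big_bcl t.h2).inter (t.s1.vio.CC_bcl t.h1.lab)
  have hXm := hXb.mc t.h1.lab
  have hX'm := hX'b.mc t.h1.lab
  have hp1X : p1 ∈ X := mem_inter.2 ⟨t.p1big, t.s2.p2C⟩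
  have hp2X' : p2 ∈ X' := mem_inter.2 ⟨t.symm.p1big, t.s1.p2C⟩
  set Y := U1.filter fun A => A ⊆ X with hY
  have hXT : ∀ v ∈ X, M.TOf FF v := fun v hv => t.s2.Tc (mem_inter.1 hv).2
  -- X minus the root node is covered by Y
  have hYu : X = M.nd p1 ∪ Y.biUnion id := by
    apply subset_antisymm
    · intro v hv
      rw [mem_union]
      by_cases hv1 : v ∈ M.nd p1
      · exact Or.inl hv1
      · right
        have hvK : v ∉ M.win FF p1 y1 := by
          intro h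
          rcases mem_union.1 h with h | h
          · exact hv1 h
          · exact t.s2.bigC (t.labybig2 h) (mem_inter.1 hv).2
        have h1 := t.s1.memU t.h1 (mem_inter.1 hv).1 hvK
        exact mem_biUnion.2 ⟨_, mem_filter.2 ⟨h1, hXb v hv⟩, t.h1.lab.self v⟩
    · apply union_subset (hXm.nd_subset hp1X)
      rw [biUnion_subset]
      intro A hA; exact (mem_filter.1 hA).2
  have hYnd : ∀ A ∈ Y, ∃ v, A = M.nd v ∧ v ∈ X ∧ v ∉ M.nd p1 := by
    intro A hA
    rw [hY, mem_filter] at hA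
    obtain ⟨v, hv, hvA⟩ := t.s1.vio.block_mem hA.1
    have hvX : v ∈ X := hA.2 (by rw [← hvA]; exact t.h1.lab.self v)
    refine ⟨v, ?_, hvX, ?_⟩
    · rw [← hvA, t.h1.lab.node v (hXT v hvX)]
    · intro h
      exact (mem_sdiff.1 hv).2 (mem_union_left _ h)
  have hdis : Disjoint (M.nd p1) (Y.biUnion id) := by
    rw [disjoint_biUnion_right]
    intro A hA
    obtain ⟨v, rfl, _, hv⟩ := hYnd A hA
    exact (nd_disjoint hv).symm
  have hYsub : Y ⊆ X.image M.nd := by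
    intro A hA
    obtain ⟨v, rfl, hv, _⟩ := hYnd A hA
    exact mem_image_of_mem _ hv
  have hXcard : X.card = 2 + 2 * Y.card := by
    rw [hYu, card_union_of_disjoint hdis, nd_card, nodes_card hYsub]
  by_cases hYne : Y.Nonempty
  · exfalso
    have htight : Tight.IsTight U1 (M.nbc C1) Y := by
      refine ⟨filter_subset _ _, hYne, ?_⟩
      have h1 : Y.biUnion (M.nbc C1) ⊆ X'.image M.nd := by
        intro c hc
        obtain ⟨A, hA, hcA⟩ := mem_biUnion.1 hc
        obtain ⟨hcC, a, ha, b, hb, hab⟩ := mem_nbc.1 hcA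
        have haX : a ∈ X := (mem_filter.1 hA).2 ha
        obtain ⟨x, rfl⟩ := t.s1.single c hcC
        have hbC : b ∈ C1.biUnion id := mem_biUnion.2 ⟨_, hcC, hb⟩
        have hbU := t.s2.nbrC (mem_inter.1 haX).2 (t.s1.CCW hbC) hab
        rw [← nd_eq_of_mem hb]
        exact mem_image_of_mem _ (mem_inter.2 ⟨hbU, hbC⟩)
      have h2 := card_le_card h1
      have h3 := nodes_card' hX'm
      omega
    obtain ⟨A, hA, hdb⟩ := t.s1.doubly htight
    obtain ⟨v0, rfl, hv0X, hv0p⟩ := hYnd A hA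
    -- choose the side different from `z`
    obtain ⟨v, hvA, hvz⟩ : ∃ v ∈ M.nd v0, v ≠ z := by
      by_cases h : v0 = z
      · exact ⟨M.μ v0, by simp, fun h' => M.ne v0 (h'.trans h.symm)⟩
      · exact ⟨v0, self_mem_nd _, h⟩
    have hvX : v ∈ X := (mem_filter.1 hA).2 hvA
    have hv := (mem_inter.1 hvX).1
    have hvC := (mem_inter.1 hvX).2
    have hvp1 : v ≠ p1 := by
      rintro rfl
      apply hv0p
      rw [nd_eq_of_mem hvA]; exact self_mem_nd _
    have hvW := t.s1.bigW t.h1 hv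
    obtain ⟨w1, w2, hne, hw1, hw2⟩ := exists_two (t.h1.root.full v (Root.mem_W.1 hvW).2)
    obtain ⟨a1, b1, c1⟩ := t.nbrX hR1 hq hin hv hvC hvp1 hw1 (fun h => hvz h.1)
    obtain ⟨a2, b2, c2⟩ := t.nbrX hR1 hq hin hv hvC hvp1 hw2 (fun h => hvz h.1)
    have hw21 := hdb v hvA w1 w2 hne a1 a2 hw1 hw2
    have hw1K : w1 ∉ M.win FF p2 y2 := by
      intro h
      rcases mem_union.1 h with h | h
      · rw [mem_nd] at h
        rcases h with h | h
        · exact c1 h
        · apply c2; rw [hw21, h, M.inv]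
      · exact t.s1.bigC (t.symm.labybig2 h) a1
    have hw1U : M.nd w1 ∈ U2 := by
      rw [← t.h2.lab.node w1 (t.s1.Tc a1)]
      exact t.s2.memU t.h2 b1 hw1K
    exact t.s2.noDouble t.h2 hw1U hvC hw1 (by rw [← hw21]; exact hw2)
  · rw [not_nonempty_iff_eq_empty] at hYne
    rw [hYne, card_empty] at hXcard
    refine ⟨?_, ?_⟩
    · rw [hYu, hYne, biUnion_empty, union_empty]
    · symm
      apply eq_of_subset_of_card_le (hX'm.nd_subset hp2X')
      rw [nd_card]; omega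

/-- The conclusion of type C in the case without light sets. -/
theorem typeC (t : M.Two p p1 p2 y1 y2 FF U1 C1 U2 C2) (hFF : FF = ∅)
    (hR1 : rest (univ \ M.nd p) (M.win FF p1 y1) U1 C1 = ∅)
    (hR2 : rest (univ \ M.nd p) (M.win FF p2 y2) U2 C2 = ∅) {q1 z1 q2 z2 : V}
    (hq1 : q1 ∈ M.labOf FF y1) (hz1 : z1 ∈ big (M.win FF p1 y1) U1) (hqz1 : M.H.Adj q1 z1)
    (hne1 : ¬ (q1 = y1 ∧ z1 = p1))
    (hin1 : M.Inner2 (M.labOf FF) (big (M.win FF p1 y1) U1) p1 y1 q1 z1)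
    (hq2 : q2 ∈ M.labOf FF y2)
    (hin2 : M.Inner2 (M.labOf FF) (big (M.win FF p2 y2) U2) p2 y2 q2 z2) :
    M.H.Adj (M.μ p1) (M.μ p2) ∧
      ∃ S, M.μ p1 ∈ S ∧ M.IsCov ((univ \ M.nd p) \ M.nd p2) S ∅ := by
  classical
  have hRR := hR1.trans hR2.symm
  set X := big (M.win FF p1 y1) U1 ∩ C2.biUnion id with hX
  set X' := big (M.win FF p2 y2) U2 ∩ C1.biUnion id with hX'
  have hcrs : M.crs p1 p2 y1 y2 FF U1 C1 U2 C2 = X ∪ X' := rfl
  set A' := (univ \ M.nd p) \ M.crs p1 p2 y1 y2 FF U1 C1 U2 C2 with hA'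
  have hp1X : p1 ∈ X := mem_inter.2 ⟨t.p1big, t.s2.p2C⟩
  have hp2X' : p2 ∈ X' := mem_inter.2 ⟨t.symm.p1big, t.s1.p2C⟩
  have hXW : X ⊆ univ \ M.nd p := fun v hv => t.s1.bigW t.h1 (mem_inter.1 hv).1
  have hX'W : X' ⊆ univ \ M.nd p := fun v hv => t.s2.bigW t.h2 (mem_inter.1 hv).1
  have hXX' : Disjoint X X' := by
    rw [Finset.disjoint_left]
    intro v hv hv'
    exact t.s1.bigC (mem_inter.1 hv).1 (mem_inter.1 hv').2
  have hAm := t.bclA.mc t.h1.lab
  -- boundary of `A'`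
  have hd4 : 4 ≤ M.e A' A'ᶜ := by
    rw [← t.dA]
    have h1 := hAm.two_le_d ⟨y1, t.yA⟩ (by
      intro hu
      have : p1 ∈ A' := by rw [hA', hu]; exact mem_univ _
      exact (mem_sdiff.1 this).2 t.p1X)
    obtain ⟨k, hk⟩ := M.d_even ((univ \ M.nd p) \ M.crs p1 p2 y1 y2 FF U1 C1 U2 C2)
    by_contra hlt
    obtain ⟨A, hA, _⟩ := t.h1.fam.max _ ⟨t.bclA.cl t.h1.lab, ⟨y1, t.yA⟩, by omega⟩ sdiff_subset
      (fun h => (mem_sdiff.1 h).2 t.p1X) (fun h => (mem_sdiff.1 h).2 t.p2X)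
    rw [hFF] at hA
    exact notMem_empty _ hA
  have hAX : ∀ a ∈ A', ∀ b ∈ X, M.H.Adj a b → (a = y1 ∧ b = p1) ∨ (a = q1 ∧ b = z1) := by
    intro a ha b hb hab
    have hb' : b ∉ A' := fun h => (mem_sdiff.1 h).2 (by rw [hcrs]; exact mem_union_left _ hb)
    rcases t.leave hRR ha hb' hab with ⟨k1, k2, k3, k4, k5⟩ | ⟨k1, k2, k3, k4, k5⟩
    · exact t.inner2_cross hq1 hin1 k3 k1 k2 hab k5
    · exact absurd k2 (t.s1.bigC (mem_inter.1 hb).1)
  have hAX' : ∀ a ∈ A', ∀ b ∈ X', M.H.Adj a b → (a = y2 ∧ b = p2) ∨ (a = q2 ∧ b = z2) := by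
    intro a ha b hb hab
    have hb' : b ∉ A' := fun h => (mem_sdiff.1 h).2 (by rw [hcrs]; exact mem_union_right _ hb)
    rcases t.leave hRR ha hb' hab with ⟨k1, k2, k3, k4, k5⟩ | ⟨k1, k2, k3, k4, k5⟩
    · exact absurd k2 (t.s2.bigC (mem_inter.1 hb).1)
    · exact t.symm.inner2_cross hq2 hin2 k3 k1 k2 hab k5
  have hsplit : A'ᶜ = (X ∪ X') ∪ M.nd p := by
    ext v
    rw [mem_compl, hA', mem_sdiff, hcrs, mem_sdiff, mem_union (s := X ∪ X')]
    simp only [mem_univ, true_and]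
    tauto
  have hdW : ∀ Z ⊆ univ \ M.nd p, Disjoint Z (M.nd p) := by
    intro Z hZ
    rw [Finset.disjoint_left]
    intro v hv
    exact (mem_sdiff.1 (hZ hv)).2
  have e1 : M.e A' A'ᶜ = M.e A' X + M.e A' X' + M.e A' (M.nd p) := by
    rw [hsplit, M.e_union_right (hdW _ (union_subset hXW hX'W)), M.e_union_right hXX']
  have e2 : M.e A' (M.nd p) = 0 := by
    rw [M.e_eq_zero_iff]
    intro a ha b hb hab
    rcases t.h1.root.nbr_W (mem_sdiff.1 ha).1 hab with h | ⟨_, h | h⟩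
    · exact (mem_sdiff.1 h).2 hb
    · subst h; exact (mem_sdiff.1 ha).2 t.p1X
    · subst h; exact (mem_sdiff.1 ha).2 t.p2X
  have e3 : M.e A' X ≤ 2 := by
    refine (e_le_pairs {(y1, p1), (q1, z1)} ?_).trans card_le_two
    intro a ha b hb hab
    rw [mem_insert, mem_singleton, Prod.mk.injEq, Prod.mk.injEq]
    exact hAX a ha b hb hab
  have e4 : M.e A' X' ≤ 2 := by
    refine (e_le_pairs {(y2, p2), (q2, z2)} ?_).trans card_le_two
    intro a ha b hb hab
    rw [mem_insert, mem_singleton, Prod.mk.injEq, Prod.mk.injEq]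
    exact hAX' a ha b hb hab
  have e5 : M.e A' X = 2 := by omega
  have e6 : M.e A' X' = 2 := by omega
  -- `z1` lies in `X`
  have hz1X : z1 ∈ X := by
    by_contra hcon
    have : M.e A' X ≤ 1 := by
      refine (e_le_pairs {(y1, p1)} ?_).trans (card_singleton _).le
      intro a ha b hb hab
      rw [mem_singleton, Prod.mk.injEq]
      rcases hAX a ha b hb hab with h | ⟨_, h⟩
      · exact h
      · exact absurd (h ▸ hb) hcon
    omega
  -- sizes
  have hcount : ∀ (Z Z' : Finset V), Z ⊆ univ \ M.nd p → Z' ⊆ univ \ M.nd p → Disjoint Z Z' →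
      A' = (univ \ M.nd p) \ (Z ∪ Z') → (∀ a ∈ Z, ∀ b ∈ Z, ¬ M.H.Adj a b) →
      2 * Z.card = M.e Z A' + M.e Z Z' + M.e Z (M.nd p) := by
    intro Z Z' hZ hZ' hd hA h0
    have h1 : M.e Z univ = 2 * Z.card :=
      t.h1.root.e_full (fun h => (Root.mem_W.1 (hZ h)).2 rfl)
    have h2 : M.e Z univ = M.e Z (M.nd p) + M.e Z (univ \ M.nd p) := M.e_sdiff (subset_univ _) _
    have h3 : M.e Z (univ \ M.nd p) = M.e Z (Z ∪ Z') + M.e Z ((univ \ M.nd p) \ (Z ∪ Z')) :=
      M.e_sdiff (union_subset hZ hZ') _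
    have h4 : M.e Z (Z ∪ Z') = M.e Z Z + M.e Z Z' := M.e_union_right hd _
    have h5 : M.e Z Z = 0 := by rw [M.e_eq_zero_iff]; exact h0
    rw [← hA] at h3
    omega
  have k1 := hcount X X' hXW hX'W hXX' rfl (by
    intro a ha b hb hab
    have := t.s2.nbrC (mem_inter.1 ha).2 (hXW hb) hab
    exact t.s2.bigC this (mem_inter.1 hb).2)
  have k2 := hcount X' X hX'W hXW hXX'.symm (by rw [union_comm]; exact hA') (by
    intro a ha b hb hab
    have := t.s1.nbrC (mem_inter.1 ha).2 (hX'W hb) hab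
    exact t.s1.bigC this (mem_inter.1 hb).2)
  have k3 : 1 ≤ M.e X (M.nd p) := by
    rw [Nat.succ_le_iff, M.e_pos_iff]
    exact ⟨p1, hp1X, p, self_mem_nd p, t.h1.root.a1.symm⟩
  have k4 : M.e X' (M.nd p) ≤ 1 := by
    refine (e_le_pairs {(p2, p)} ?_).trans (card_singleton _).le
    intro a ha b hb hab
    rw [mem_singleton, Prod.mk.injEq]
    rcases t.h1.root.nbr_W (hX'W ha) hab with h | ⟨h, h' | h'⟩
    · exact absurd hb (mem_sdiff.1 h).2
    · subst h'
      exact absurd (mem_inter.1 ha).2 (t.s1.bigC t.p1big)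
    · exact ⟨h', h⟩
  have k5 := M.e_comm X X'
  have k6 := M.e_comm X A'
  have k7 := M.e_comm X' A'
  have hle : X'.card ≤ X.card := by omega
  obtain ⟨hXeq, hX'eq⟩ := t.noY hR1 hq1 hin1 hle
  rw [← hX] at hXeq
  rw [← hX'] at hX'eq
  -- `z1` is the partner of `p1`
  have hyA := t.yA
  have hq1W : q1 ∈ univ \ M.nd p := t.h1.bW y1 t.h1.yW hq1
  have hz1 : z1 = M.μ p1 := by
    rw [hXeq, mem_nd] at hz1X
    rcases hz1X with h | h
    · exfalso
      rw [h] at hqz1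
      rcases nbr_two t.h1.root.a1.symm t.h1.ay t.h1.yp.symm hqz1.symm with h2 | h2
      · rw [h2] at hq1W; exact Root.p_notW hq1W
      · exact hne1 ⟨h2, h⟩
    · exact h
  -- the other neighbour of the partner
  have hxX : M.μ p1 ∈ X := by rw [hXeq]; simp
  have hxW := hXW hxX
  have hqx : M.H.Adj (M.μ p1) q1 := by rw [← hz1]; exact hqz1.symm
  obtain ⟨w, _, hwq, hxw⟩ := exists_other (t.h1.root.full _ (Root.mem_W.1 hxW).2) q1
  obtain ⟨a1, b1, c1⟩ := t.nbrX hR1 hq1 hin1 (mem_inter.1 hxX).1 (mem_inter.1 hxX).2 (M.ne p1)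
    hxw (fun h => hwq h.2)
  have hw : w = M.μ p2 := by
    have : w ∈ X' := mem_inter.2 ⟨b1, a1⟩
    rw [hX'eq, mem_nd] at this
    exact this.resolve_left c1
  refine ⟨hw ▸ hxw, ?_⟩
  -- the cover
  have hL := t.h1.lab
  have hB1 := t.h1.B1
  have hdKy : Disjoint (M.nd p1) (M.labOf FF y1) := by rw [← hB1]; exact hL.disj t.h1.Bne
  have hK1 : M.CovF {M.μ p1} ∅ (M.win FF p1 y1) := by
    refine CovFX.cov_pair (Mc_nd p1) (hL.cl y1).1 hdKy (a := M.μ p1) (b := q1) ?_ ?_ hqx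
    · have h1 := isCov_node t.h1.t1.mu
      rw [nd_mu] at h1
      exact ⟨{M.μ p1}, mem_singleton_self _, inter_subset_left, h1.mono (by simp)⟩
    · have h1 : M.μ p1 ∉ M.labOf FF y1 := Finset.disjoint_left.1 hdKy (by simp)
      exact (hL.flex y1 q1 hq1 _ h1 hqx.symm).covFX (by rwa [disjoint_singleton_left])
  have hv := t.s1.vio
  have hUs := hv.UU_sub hL t.h1.bW t.h1.bK
  have hnp2 : M.nd p2 ∈ C1 := t.s1.memC t.s1.p2C
  have hflex : ∀ c ∈ C1, M.Flex c := by
    intro c hc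
    obtain ⟨x, rfl⟩ := t.s1.single c hc
    intro a ha b _ _
    exact (hv.hT _ hc x (self_mem_nd x)).1.covX_nd ha
  have dUc : ∀ A ∈ U1, ∀ c ∈ C1, Disjoint A c := by
    intro A hA c hc
    rw [Finset.disjoint_left]
    intro x hx hx'
    exact (Finset.disjoint_left.1 (hv.dU c hc) hx') (mem_biUnion.2 ⟨A, hA, hx⟩)
  have hfin := hall_glue (M := M) (Z := M.win FF p1 y1) (F := {M.μ p1}) (Ex := ∅) (I := U1)
    (D := C1.erase (M.nd p2)) (N := M.nbc C1) (t.h1.bK.mc hL)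
    (singleton_subset_iff.2 (mem_union_left _ (by simp)))
    (by
      intro A hA
      obtain ⟨v, _, rfl⟩ := hv.block_mem hA
      exact (hL.cl v).1)
    (fun c hc => hv.mc c (mem_erase.1 hc).2)
    (by
      intro A hA
      obtain ⟨v, _, rfl⟩ := hv.block_mem hA
      exact hL.flex v)
    (fun c hc => hflex c (mem_erase.1 hc).2)
    (hv.block_ne hL)
    (fun c hc c' hc' => hv.dis c (mem_erase.1 hc).2 c' (mem_erase.1 hc').2)
    (by
      intro A hA
      rw [Finset.disjoint_left]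
      intro x hx
      exact (mem_sdiff.1 (hUs (mem_biUnion.2 ⟨A, hA, hx⟩))).2)
    (by
      intro c hc
      rw [Finset.disjoint_left]
      intro x hx
      exact (mem_sdiff.1 (hv.sub c (mem_erase.1 hc).2 hx)).2)
    (fun A hA c hc => dUc A hA c (mem_erase.1 hc).2)
    (fun A _ c hc => (mem_nbc.1 hc).2)
    (by rw [card_erase_of_mem hnp2, t.s1.card]; omega)
    (by
      intro Z hZ
      refine (t.s1.sur.erase_one (M.nd p2) Z hZ).trans (card_le_card ?_)
      intro c hc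
      rw [mem_sdiff, mem_singleton] at hc
      rw [mem_inter, mem_erase]
      obtain ⟨A, _, hcA⟩ := mem_biUnion.1 hc.1
      exact ⟨hc.1, hc.2, (mem_nbc.1 hcA).1⟩)
    hK1
  have hset : (univ \ M.nd p) \ M.nd p2 =
      M.win FF p1 y1 ∪ (U1.biUnion id ∪ (C1.erase (M.nd p2)).biUnion id) := by
    have hCe : ∀ x, x ∈ C1.biUnion id ↔ x ∈ M.nd p2 ∨ x ∈ (C1.erase (M.nd p2)).biUnion id := by
      intro x
      conv_lhs => rw [← insert_erase hnp2]
      rw [biUnion_insert, mem_union, id]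
    ext x
    rw [mem_sdiff]
    constructor
    · rintro ⟨h1, h2⟩
      rcases t.s1.loc t.h1 h1 with h | h | h
      · rcases mem_union.1 h with h | h
        · exact mem_union_left _ h
        · exact mem_union_right _ (mem_union_left _ h)
      · rcases (hCe x).1 h with h | h
        · exact absurd h h2
        · exact mem_union_right _ (mem_union_right _ h)
      · rw [hR1] at h; exact absurd h (notMem_empty _)
    · intro h
      have hbig : x ∈ big (M.win FF p1 y1) U1 → x ∈ univ \ M.nd p ∧ x ∉ M.nd p2 := by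
        intro h1
        refine ⟨t.s1.bigW t.h1 h1, fun h2 => t.s1.bigC h1 ?_⟩
        exact mem_biUnion.2 ⟨_, hnp2, h2⟩
      rcases mem_union.1 h with h | h
      · exact hbig (mem_union_left _ h)
      · rcases mem_union.1 h with h | h
        · exact hbig (mem_union_right _ h)
        · refine ⟨t.s1.CCW ((hCe x).2 (Or.inr h)), fun h2 => ?_⟩
          obtain ⟨c, hc, hxc⟩ := mem_biUnion.1 h
          rw [mem_erase] at hc
          exact (Finset.disjoint_left.1 (hv.dis c hc.2 _ hnp2 hc.1) hxc) h2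
  rw [← hset] at hfin
  obtain ⟨S, hS1, hS2⟩ := hfin
  refine ⟨S, hS1 (mem_inter.2 ⟨mem_singleton_self _, ?_⟩), hS2⟩
  rw [mem_sdiff]
  refine ⟨hxW, fun h => ?_⟩
  have h2 : p1 ∈ M.nd p2 := (Mc_nd p2).mem_iff.1 h
  exact t.s1.bigC t.p1big (mem_biUnion.2 ⟨_, hnp2, h2⟩)

end Two

end Setup

end Pool.Agent.LTD
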