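import Pool.Agent.Lib.MP_a46439_co.VioMin

set_option autoImplicit false
set_option linter.unusedSectionVars false

/-! Splitting the components of a violator into single nodes. -/

namespace Pool.Agent.LTD

open Finset

namespace Setup

variable {V : Type} [Fintype V] [DecidableEq V] {M : Setup V} {B : V → Finset V} {T : V → Prop}
  {W K E0 : Finset V} {U C : Finset (Finset V)}

lemma nodes_card' {Z : Finset V} (hZ : M.Mc Z) : Z.card = 2 * (Z.image M.nd).card := by
  have := nodes_card (M := M) (subset_refl (Z.image M.nd))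
  rwa [nodes_biUnion hZ] at this

/-- Components with a bipartite structure can be split into single nodes. -/
theorem Vio.expand (hL : M.LabE E0 B T) (hv : M.Vio B T W K U C)
    (hb : ∀ c ∈ C, ∃ X ⊆ c, M.Mc X ∧ M.e (c \ X) (c \ X) = 0 ∧ (c \ X).card = X.card + 2) :
    ∃ U' C', M.Vio B T W K U' C' ∧ (∀ c ∈ C', ∃ v, c = M.nd v) ∧
      C'.biUnion id ⊆ C.biUnion id := by
  classical
  choose! f hf1 hf2 hf3 hf4 using hb
  set X := C.biUnion f with hX
  set Y := C.biUnion fun c => c \ f c with hY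
  have hXm : M.Mc X := Mc.biUnion _ _ hf2
  have hYm : M.Mc Y := Mc.biUnion _ _ fun c hc => (hv.mc c hc).sdiff (hf2 c hc)
  have hYC : Y ⊆ C.biUnion id := by
    intro x hx
    obtain ⟨c, hc, hxc⟩ := mem_biUnion.1 hx
    exact mem_biUnion.2 ⟨c, hc, (mem_sdiff.1 hxc).1⟩
  have hXC : X ⊆ C.biUnion id := by
    intro x hx
    obtain ⟨c, hc, hxc⟩ := mem_biUnion.1 hx
    exact mem_biUnion.2 ⟨c, hc, hf1 c hc hxc⟩
  have hXY : ∀ x ∈ Y, x ∉ X := by
    intro x hx hx'
    obtain ⟨c, hc, hxc⟩ := mem_biUnion.1 hx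
    obtain ⟨c', hc', hxc'⟩ := mem_biUnion.1 hx'
    rw [mem_sdiff] at hxc
    by_cases h : c = c'
    · subst h; exact hxc.2 hxc'
    · exact (Finset.disjoint_left.1 (hv.dis c hc c' hc' h) hxc.1) (hf1 c' hc' hxc')
  have hCT : ∀ x ∈ C.biUnion id, T x := by
    intro x hx
    obtain ⟨c, hc, hxc⟩ := mem_biUnion.1 hx
    exact hv.hT c hc x hxc
  have hCW := hv.CC_sub
  have hU' : (U ∪ X.image M.nd).biUnion id = U.biUnion id ∪ X := by
    rw [union_biUnion, nodes_biUnion hXm]
  have hC' : (Y.image M.nd).biUnion id = Y := nodes_biUnion hYm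
  refine ⟨U ∪ X.image M.nd, Y.image M.nd, ⟨?_, ?_, ?_, ?_, ?_, ?_, ?_, ?_, ?_⟩, ?_, ?_⟩
  · apply union_subset hv.hU
    intro A hA
    obtain ⟨v, hv', rfl⟩ := mem_image.1 hA
    rw [← hL.node v (hCT v (hXC hv'))]
    exact mem_image_of_mem _ (hCW (hXC hv'))
  · intro c hc
    obtain ⟨v, _, rfl⟩ := mem_image.1 hc
    exact Mc_nd v
  · intro c hc
    obtain ⟨v, hv', rfl⟩ := mem_image.1 hc
    exact (hYm.nd_subset hv').trans (hYC.trans hCW)
  · intro c hc
    obtain ⟨v, hv', rfl⟩ := mem_image.1 hc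
    rw [hU', Finset.disjoint_left]
    intro x hx hx'
    have hxY := hYm.nd_subset hv' hx
    rcases mem_union.1 hx' with h | h
    · exact hv.CC_disj (hYC hxY) h
    · exact hXY x hxY h
  · intro c hc x hx
    obtain ⟨v, hv', rfl⟩ := mem_image.1 hc
    exact hCT x (hYC (hYm.nd_subset hv' hx))
  · intro c hc
    obtain ⟨v, _, rfl⟩ := mem_image.1 hc
    rw [nd_card]
  · intro c hc a ha b hbW hbK hbc hbU hab
    obtain ⟨v, hv', rfl⟩ := mem_image.1 hc
    rw [hU', mem_union, not_or] at hbU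
    have haY := hYm.nd_subset hv' ha
    obtain ⟨c, hc, hac⟩ := mem_biUnion.1 haY
    have hac' := mem_sdiff.1 hac
    have hbc' : b ∈ c := by
      by_contra h
      exact hv.clo c hc a hac'.1 b hbW hbK h hbU.1 hab
    have hbf : b ∉ f c := fun h => hbU.2 (mem_biUnion.2 ⟨c, hc, h⟩)
    exact (M.e_eq_zero_iff.1 (hf3 c hc)) a hac b (mem_sdiff.2 ⟨hbc', hbf⟩) hab
  · intro c hc c' hc' hne
    exact nodes_disjoint hc hc' hne
  · have h1 := nodes_card' hXm
    have h2 := nodes_card' hYm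
    have h3 := card_union_le U (X.image M.nd)
    have h4 : Y.card = X.card + 2 * C.card := by
      rw [hX, hY, card_biUnion, card_biUnion, mul_comm, ← smul_eq_mul, ← sum_const,
        ← sum_add_distrib]
      · exact sum_congr rfl hf4
      · intro c hc c' hc' hne
        exact Disjoint.mono (hf1 c hc) (hf1 c' hc') (hv.dis c hc c' hc' hne)
      · intro c hc c' hc' hne
        exact Disjoint.mono sdiff_subset sdiff_subset (hv.dis c hc c' hc' hne)
    have h5 := hv.card
    omega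
  · intro c hc
    obtain ⟨v, _, rfl⟩ := mem_image.1 hc
    exact ⟨v, rfl⟩
  · rw [hC']; exact hYC

end Setup

end Pool.Agent.LTD
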