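import Mathlib

set_option autoImplicit false

/-! Abstract lemmas about families of neighbourhoods with surplus (Hall's theorem). -/

namespace Pool.Agent.LTD

open Finset

namespace Tight

variable {ι κ : Type} [DecidableEq ι] [DecidableEq κ] {I : Finset ι} {N : ι → Finset κ}

/-- every nonempty subfamily has at least one more neighbour than members -/
def Surplus (I : Finset ι) (N : ι → Finset κ) : Prop :=
  ∀ X ⊆ I, X.Nonempty → X.card + 1 ≤ (X.biUnion N).card

/-- tight sets -/
def IsTight (I : Finset ι) (N : ι → Finset κ) (X : Finset ι) : Prop :=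
  X ⊆ I ∧ X.Nonempty ∧ (X.biUnion N).card ≤ X.card + 1

lemma nb_union (X Y : Finset ι) : (X ∪ Y).biUnion N = X.biUnion N ∪ Y.biUnion N :=
  union_biUnion

lemma nb_inter_subset (X Y : Finset ι) :
    (X ∩ Y).biUnion N ⊆ X.biUnion N ∩ Y.biUnion N := by
  intro c hc
  obtain ⟨i, hi, hc⟩ := mem_biUnion.1 hc
  rw [mem_inter] at hi ⊢
  exact ⟨mem_biUnion.2 ⟨i, hi.1, hc⟩, mem_biUnion.2 ⟨i, hi.2, hc⟩⟩

/-- the union of two tight sets with a common neighbour is tight -/
lemma IsTight.union (hs : Surplus I N) {X Y : Finset ι} (hX : IsTight I N X)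
    (hY : IsTight I N Y) (h : (X.biUnion N ∩ Y.biUnion N).Nonempty) :
    IsTight I N (X ∪ Y) := by
  obtain ⟨h1, h2, h3⟩ := hX
  obtain ⟨h1', h2', h3'⟩ := hY
  refine ⟨union_subset h1 h1', h2.mono subset_union_left, ?_⟩
  rw [nb_union]
  have k1 := card_union_add_card_inter (X.biUnion N) (Y.biUnion N)
  have k2 := card_union_add_card_inter X Y
  have k3 : 0 < (X.biUnion N ∩ Y.biUnion N).card := card_pos.2 h
  by_cases hxy : (X ∩ Y).Nonempty
  · have k4 := hs (X ∩ Y) (inter_subset_left.trans h1) hxy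
    have k5 := card_le_card (nb_inter_subset (N := N) X Y)
    omega
  · rw [not_nonempty_iff_eq_empty] at hxy
    rw [hxy, card_empty] at k2
    omega

/-- The intersection of two tight sets with two common neighbours is tight. -/
lemma IsTight.inter (hs : Surplus I N) {X Y : Finset ι} (hX : IsTight I N X)
    (hY : IsTight I N Y) (h : 2 ≤ (X.biUnion N ∩ Y.biUnion N).card) :
    IsTight I N (X ∩ Y) := by
  obtain ⟨h1, h2, h3⟩ := hX
  obtain ⟨h1', h2', h3'⟩ := hY
  have k1 := card_union_add_card_inter (X.biUnion N) (Y.biUnion N)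
  have k2 := card_union_add_card_inter X Y
  have k6 := hs (X ∪ Y) (union_subset h1 h1') (h2.mono subset_union_left)
  rw [nb_union] at k6
  by_cases hxy : (X ∩ Y).Nonempty
  · have k5 := card_le_card (nb_inter_subset (N := N) X Y)
    exact ⟨inter_subset_left.trans h1, hxy, by omega⟩
  · rw [not_nonempty_iff_eq_empty] at hxy
    rw [hxy, card_empty] at k2
    omega

omit [DecidableEq ι] in
/-- a set violating Hall's condition after the removal of two neighbours is tight and both of
them are neighbours of it -/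
lemma tight_of_blocked (hs : Surplus I N) {X : Finset ι} (hX : X ⊆ I) {c1 c2 : κ}
    (h : ((X.biUnion N) \ {c1, c2}).card < X.card) :
    IsTight I N X ∧ c1 ∈ X.biUnion N ∧ c2 ∈ X.biUnion N ∧ c1 ≠ c2 := by
  have hne : X.Nonempty := card_pos.1 (by omega)
  have h1 := hs X hX hne
  have h2 := card_sdiff_add_card (X.biUnion N) {c1, c2}
  have h3 : ({c1, c2} : Finset κ).card ≤ 2 := card_le_two
  have h4 : ((X.biUnion N) ∪ {c1, c2}).card = (X.biUnion N).card := by
    have := card_le_card (subset_union_left (s₁ := X.biUnion N) (s₂ := {c1, c2}))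
    omega
  have h5 : (X.biUnion N) ∪ {c1, c2} = X.biUnion N :=
    (eq_of_subset_of_card_le subset_union_left h4.le).symm
  have h6 : ∀ c ∈ ({c1, c2} : Finset κ), c ∈ X.biUnion N := by
    intro c hc
    rw [← h5]; exact mem_union_right _ hc
  refine ⟨⟨hX, hne, by omega⟩, h6 c1 (by simp), h6 c2 (by simp), ?_⟩
  rintro rfl
  rw [insert_eq_of_mem (mem_singleton_self _), card_singleton] at h2
  rw [insert_eq_of_mem (mem_singleton_self _)] at h
  have h7 : ((X.biUnion N) ∪ {c1}).card = (X.biUnion N).card := by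
    rw [insert_eq_of_mem (mem_singleton_self _)] at h4; exact h4
  omega

/-- A tight set contains an element none of whose pairs of neighbours is blocked. -/
theorem exists_unblocked (hs : Surplus I N) {Y : Finset ι} (hY : IsTight I N Y) :
    ∃ i ∈ Y, ∀ c1 ∈ N i, ∀ c2 ∈ N i, c1 ≠ c2 →
      ∀ X ⊆ I.erase i, X.card ≤ ((X.biUnion N) \ {c1, c2}).card := by
  classical
  have hex : ((Y.powerset).filter fun A => IsTight I N A).Nonempty :=
    ⟨Y, by rw [mem_filter, mem_powerset]; exact ⟨subset_refl _, hY⟩⟩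
  obtain ⟨Z, hZ, hmin⟩ := exists_min_image _ (fun A => A.card) hex
  rw [mem_filter, mem_powerset] at hZ
  obtain ⟨hZY, hZt⟩ := hZ
  obtain ⟨i, hi⟩ := hZt.2.1
  refine ⟨i, hZY hi, ?_⟩
  intro c1 h1 c2 h2 hne X hX
  by_contra hlt
  push Not at hlt
  obtain ⟨hXt, k1, k2, _⟩ := tight_of_blocked hs (hX.trans (erase_subset _ _)) hlt
  have hiX : i ∉ X := fun h => (mem_erase.1 (hX h)).1 rfl
  have k3 : 2 ≤ (X.biUnion N ∩ Z.biUnion N).card := by
    have : ({c1, c2} : Finset κ) ⊆ X.biUnion N ∩ Z.biUnion N := by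
      intro c hc
      rw [mem_insert, mem_singleton] at hc
      rw [mem_inter]
      rcases hc with rfl | rfl
      · exact ⟨k1, mem_biUnion.2 ⟨i, hi, h1⟩⟩
      · exact ⟨k2, mem_biUnion.2 ⟨i, hi, h2⟩⟩
    have := card_le_card this
    rwa [card_pair hne] at this
  have k4 := hXt.inter hs hZt k3
  have k5 := hmin (X ∩ Z) (by
    rw [mem_filter, mem_powerset]
    exact ⟨inter_subset_right.trans hZY, k4⟩)
  have k6 : (X ∩ Z).card < Z.card := by
    apply card_lt_card
    refine ⟨inter_subset_right, fun h => hiX ?_⟩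
    exact (mem_inter.1 (h hi)).1
  omega

/-- empty, or tight and with the neighbour `c0` -/
def Tg (I : Finset ι) (N : ι → Finset κ) (c0 : κ) (X : Finset ι) : Prop :=
  X = ∅ ∨ (IsTight I N X ∧ c0 ∈ X.biUnion N)

lemma Tg.union (hs : Surplus I N) {c0 : κ} {X Y : Finset ι} (hX : Tg I N c0 X)
    (hY : Tg I N c0 Y) : Tg I N c0 (X ∪ Y) := by
  rcases hX with rfl | ⟨h1, h2⟩
  · rwa [empty_union]
  · rcases hY with rfl | ⟨h3, h4⟩
    · rw [union_empty]; exact Or.inr ⟨h1, h2⟩
    · right
      refine ⟨h1.union hs h3 ⟨c0, mem_inter.2 ⟨h2, h4⟩⟩, ?_⟩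
      rw [nb_union]; exact mem_union_left _ h2

lemma Tg.false (hs : Surplus I N) {c0 : κ} {X : Finset ι} (hX : Tg I N c0 X) {i : ι}
    (hi : i ∈ I) (hiX : i ∉ X) (hN : N i ⊆ insert c0 (X.biUnion N)) : False := by
  rcases hX with rfl | ⟨h1, h2⟩
  · have h3 := hs {i} (singleton_subset_iff.2 hi) (singleton_nonempty _)
    rw [singleton_biUnion, card_singleton] at h3
    have h4 := card_le_card hN
    rw [biUnion_empty] at h4
    have h5 : (insert c0 (∅ : Finset κ)).card = 1 := by simp
    omega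
  · have h3 := hs (insert i X) (insert_subset hi h1.1) (insert_nonempty _ _)
    rw [card_insert_of_notMem hiX, biUnion_insert] at h3
    have h4 : N i ∪ X.biUnion N = X.biUnion N := by
      apply union_eq_right.2
      intro c hc
      have := hN hc
      rw [mem_insert] at this
      rcases this with rfl | h
      · exact h2
      · exact h
    rw [h4] at h3
    have := h1.2.2
    omega

/-- A blocked pair gives a tight set. -/
lemma Tg.of_blocked (hs : Surplus I N) {i : ι} {c1 c2 : κ}
    (h : ¬ ∀ X ⊆ I.erase i, X.card ≤ ((X.biUnion N) \ {c1, c2}).card) :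
    ∃ X, i ∉ X ∧ Tg I N c1 X ∧ c2 ∈ X.biUnion N := by
  push Not at h
  obtain ⟨X, hX, hlt⟩ := h
  obtain ⟨h1, h2, h3, _⟩ := tight_of_blocked hs (hX.trans (erase_subset _ _)) hlt
  exact ⟨X, fun h => (mem_erase.1 (hX h)).1 rfl, Or.inr ⟨h1, h2⟩, h3⟩

omit [DecidableEq ι] in
/-- surplus implies Hall's condition after the removal of one neighbour -/
lemma Surplus.erase_one (hs : Surplus I N) (c0 : κ) :
    ∀ X ⊆ I, X.card ≤ ((X.biUnion N) \ {c0}).card := by
  intro X hX
  by_cases hne : X.Nonempty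
  · have h1 := hs X hX hne
    have h2 := card_sdiff_add_card (X.biUnion N) {c0}
    have h3 := card_le_card (subset_union_left (s₁ := X.biUnion N) (s₂ := {c0}))
    rw [card_singleton] at h2
    omega
  · rw [not_nonempty_iff_eq_empty] at hne
    rw [hne]; simp

/-- Hall's theorem for subsets -/
theorem hall [Inhabited κ] {J : Finset ι} {D : Finset κ}
    (h : ∀ X ⊆ J, X.card ≤ ((X.biUnion N) ∩ D).card) :
    ∃ f : ι → κ, (∀ i ∈ J, f i ∈ N i ∧ f i ∈ D) ∧ Set.InjOn f J := by
  classical
  have key := (Finset.all_card_le_biUnion_card_iff_exists_injective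
    (fun i : J => N i.1 ∩ D)).1 ?_
  · obtain ⟨f, hf1, hf2⟩ := key
    refine ⟨fun i => if h : i ∈ J then f ⟨i, h⟩ else default, ?_, ?_⟩
    · intro i hi
      simp only [hi, dif_pos]
      have := hf2 ⟨i, hi⟩
      rw [mem_inter] at this
      exact this
    · intro i hi j hj hij
      rw [mem_coe] at hi hj
      simp only [hi, hj, dif_pos] at hij
      have := hf1 hij
      exact congrArg Subtype.val this
  · intro s
    have h1 := h (s.image Subtype.val) (by
      intro x hx
      obtain ⟨y, _, rfl⟩ := mem_image.1 hx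
      exact y.2)
    rw [card_image_of_injective _ Subtype.val_injective] at h1
    refine h1.trans (card_le_card ?_)
    intro c hc
    rw [mem_inter, mem_biUnion] at hc
    obtain ⟨⟨i, hi, hc⟩, hD⟩ := hc
    obtain ⟨y, hy, rfl⟩ := mem_image.1 hi
    exact mem_biUnion.2 ⟨y, hy, mem_inter.2 ⟨hc, hD⟩⟩

end Tight

end Pool.Agent.LTD
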