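import Pool.Agent.Lib.MP_a46439_co.Ladder
import Pool.Agent.Lib.MP_a46439_co.Tight

set_option autoImplicit false

/-! Forced covers, flexible sets, the window lemma and gluing along matchings. -/

namespace Pool.Agent.LTD

open Finset

namespace Setup

variable {V : Type} [Fintype V] [DecidableEq V] {M : Setup V}

/-- general gluing of covers -/
lemma IsCov.glue {A B S S' X X' Ex : Finset V} (hA : M.Mc A) (hB : M.Mc B) (hd : Disjoint A B)
    (h : M.IsCov A S X) (h' : M.IsCov B S' X')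
    (hX : ∀ x ∈ X ∪ X', x ∈ S ∪ S' → x ∉ Ex → ∃ u ∈ S ∪ S', M.H.Adj x u) :
    M.IsCov (A ∪ B) (S ∪ S') Ex := by
  obtain ⟨h1, h2, h3, h4⟩ := h
  obtain ⟨h1', h2', h3', h4'⟩ := h'
  refine ⟨union_subset_union h1 h1', ?_, ?_, ?_⟩
  · intro v hv
    rw [mem_union] at hv
    rcases hv with hv | hv
    · have e1 : v ∉ S' := fun h => (Finset.disjoint_left.1 hd hv) (h1' h)
      have e2 : M.μ v ∉ S' := fun h => (Finset.disjoint_left.1 hd (hA v hv)) (h1' h)
      simp only [mem_union, e1, e2, or_false]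
      exact h2 v hv
    · have e1 : v ∉ S := fun h => (Finset.disjoint_right.1 hd hv) (h1 h)
      have e2 : M.μ v ∉ S := fun h => (Finset.disjoint_right.1 hd (hB v hv)) (h1 h)
      simp only [mem_union, e1, e2, false_or]
      exact h2' v hv
  · intro v hv hvx
    by_cases hx : v ∈ X ∪ X'
    · exact hX v hx hv hvx
    · rw [mem_union, not_or] at hx
      rw [mem_union] at hv
      rcases hv with hv | hv
      · obtain ⟨u, hu, h⟩ := h3 v hv hx.1
        exact ⟨u, mem_union_left _ hu, h⟩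
      · obtain ⟨u, hu, h⟩ := h3' v hv hx.2
        exact ⟨u, mem_union_right _ hu, h⟩
  · intro u hu v huv
    rw [mem_union] at hu ⊢
    rcases hu with hu | hu
    · exact Or.inl (h4 u hu v huv)
    · exact Or.inr (h4' u hu v huv)

lemma IsCov.mono {A S X X' : Finset V} (h : M.IsCov A S X) (hX : X ⊆ X') : M.IsCov A S X' :=
  ⟨h.1, h.2.1, fun v hv hv' => h.2.2.1 v hv fun h' => hv' (hX h'), h.2.2.2⟩

/-- cover with forced vertices `F` and exempt vertices `Ex` -/
def CovF (M : Setup V) (F Ex A : Finset V) : Prop := ∃ S, F ∩ A ⊆ S ∧ M.IsCov A S Ex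

/-- cover with forced vertices `F` and exempt vertices `Ex`, containing the additional exempt
vertex `a` -/
def CovFX (M : Setup V) (F Ex A : Finset V) (a : V) : Prop :=
  ∃ S, a ∈ S ∧ F ∩ A ⊆ S ∧ M.IsCov A S (insert a Ex)

/-- every attachment vertex can be taken -/
def Flex (M : Setup V) (A : Finset V) : Prop := ∀ a ∈ A, ∀ b, b ∉ A → M.H.Adj a b → M.CovX A a

lemma covF_empty_iff {A : Finset V} : M.CovF ∅ ∅ A ↔ M.Cov A := by
  constructor
  · rintro ⟨S, _, h⟩; exact ⟨S, h⟩
  · rintro ⟨S, h⟩; exact ⟨S, by simp, h⟩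

lemma Cov.covF {A : Finset V} (h : M.Cov A) {F Ex : Finset V} (hd : Disjoint F A) :
    M.CovF F Ex A := by
  obtain ⟨S, hS⟩ := h
  refine ⟨S, ?_, hS.mono (empty_subset _)⟩
  rw [disjoint_iff_inter_eq_empty.1 hd]; exact empty_subset _

lemma CovX.covFX {A : Finset V} {a : V} (h : M.CovX A a) {F Ex : Finset V}
    (hd : Disjoint F A) : M.CovFX F Ex A a := by
  obtain ⟨S, ha, hS⟩ := h
  refine ⟨S, ha, ?_, hS.mono (by intro x hx; rw [mem_singleton] at hx; simp [hx])⟩
  rw [disjoint_iff_inter_eq_empty.1 hd]; exact empty_subset _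

lemma CovF.empty (F Ex : Finset V) : M.CovF F Ex ∅ := ⟨∅, by simp [IsCov]⟩

lemma forced_union {F A B S S' : Finset V} (h : F ∩ A ⊆ S) (h' : F ∩ B ⊆ S') :
    F ∩ (A ∪ B) ⊆ S ∪ S' := by
  rw [inter_union_distrib_left]; exact union_subset_union h h'

lemma CovF.union {A B F Ex : Finset V} (hA : M.Mc A) (hB : M.Mc B) (hd : Disjoint A B)
    (h : M.CovF F Ex A) (h' : M.CovF F Ex B) : M.CovF F Ex (A ∪ B) := by
  obtain ⟨S, hF, hS⟩ := h
  obtain ⟨S', hF', hS'⟩ := h'
  refine ⟨S ∪ S', forced_union hF hF', hS.glue hA hB hd hS' ?_⟩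
  intro x hx _ hx'
  rw [union_self] at hx
  exact absurd hx hx'

lemma CovFX.pair {A B F Ex : Finset V} {a b : V} (hA : M.Mc A) (hB : M.Mc B)
    (hd : Disjoint A B) (h : M.CovFX F Ex A a) (h' : M.CovFX F Ex B b) (hab : M.H.Adj a b) :
    ∃ S, a ∈ S ∧ b ∈ S ∧ F ∩ (A ∪ B) ⊆ S ∧ M.IsCov (A ∪ B) S Ex := by
  obtain ⟨S, ha, hF, hS⟩ := h
  obtain ⟨S', hb, hF', hS'⟩ := h'
  refine ⟨S ∪ S', mem_union_left _ ha, mem_union_right _ hb, forced_union hF hF',
    hS.glue hA hB hd hS' ?_⟩
  intro x hx _ hx'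
  simp only [mem_union, mem_insert] at hx
  have : x = a ∨ x = b := by tauto
  rcases this with rfl | rfl
  · exact ⟨b, mem_union_right _ hb, hab⟩
  · exact ⟨a, mem_union_left _ ha, hab.symm⟩

lemma CovFX.cov_pair {A B F Ex : Finset V} {a b : V} (hA : M.Mc A) (hB : M.Mc B)
    (hd : Disjoint A B) (h : M.CovFX F Ex A a) (h' : M.CovFX F Ex B b) (hab : M.H.Adj a b) :
    M.CovF F Ex (A ∪ B) := by
  obtain ⟨S, _, _, hF, hS⟩ := h.pair hA hB hd h' hab
  exact ⟨S, hF, hS⟩

/-- three parts joined at the central vertex `a`. -/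
lemma CovFX.cov_triple {A B C F Ex : Finset V} {a b c : V} (hA : M.Mc A) (hB : M.Mc B)
    (hC : M.Mc C) (hd : Disjoint A B) (hd' : Disjoint A C) (hd'' : Disjoint B C)
    (h : M.CovFX F Ex A a) (h' : M.CovFX F Ex B b) (h'' : M.CovFX F Ex C c)
    (hab : M.H.Adj a b) (hac : M.H.Adj a c) : M.CovF F Ex (A ∪ B ∪ C) := by
  obtain ⟨S, ha, hb, hF, hS⟩ := h.pair hA hB hd h' hab
  obtain ⟨S', hc, hF', hS'⟩ := h''
  refine ⟨S ∪ S', forced_union hF hF', hS.glue (hA.union hB) hC
    (disjoint_union_left.2 ⟨hd', hd''⟩) hS' ?_⟩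
  intro x hx _ hx'
  simp only [mem_union, mem_insert] at hx
  have : x = c := by tauto
  subst this
  exact ⟨a, mem_union_left _ ha, hac.symm⟩

lemma CovF.biUnion {ι : Type} [DecidableEq ι] {F Ex : Finset V} (C : Finset ι)
    (f : ι → Finset V) (hmc : ∀ c ∈ C, M.Mc (f c))
    (hd : ∀ c ∈ C, ∀ c' ∈ C, c ≠ c' → Disjoint (f c) (f c')) (hc : ∀ c ∈ C, M.CovF F Ex (f c)) :
    M.CovF F Ex (C.biUnion f) := by
  induction C using Finset.induction_on with
  | empty => simpa using CovF.empty _ _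
  | insert a C ha ih =>
    rw [biUnion_insert]
    refine CovF.union (hmc _ (mem_insert_self _ _))
      (Mc.biUnion _ _ fun c hc => hmc c (mem_insert_of_mem hc)) ?_ (hc _ (mem_insert_self _ _)) ?_
    · rw [disjoint_biUnion_right]
      intro c hc
      exact hd a (mem_insert_self _ _) c (mem_insert_of_mem hc) (by rintro rfl; exact ha hc)
    · exact ih (fun c hc => hmc c (mem_insert_of_mem hc))
        (fun c hc c' hc' => hd c (mem_insert_of_mem hc) c' (mem_insert_of_mem hc'))
        (fun c h => hc c (mem_insert_of_mem h))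

/-- **Window lemma**: Tutte's theorem for a family `P` of blocks and a special window `K`. The
members of `T` are single nodes which have to be matched; edges to the window can only be used
at its usable vertices. -/
theorem window {P T : Finset (Finset V)} {K F Ex : Finset V} {Us : V → Prop}
    (hmc : ∀ A ∈ P, M.Mc A) (hK : M.Mc K)
    (hdis : ∀ A ∈ P, ∀ B ∈ P, A ≠ B → Disjoint A B) (hdK : ∀ A ∈ P, Disjoint A K)
    (hTP : T ⊆ P) (hTn : ∀ A ∈ T, ∃ v, M.TV v ∧ M.nd v = A)
    (hflex : ∀ A ∈ P, M.Flex A) (hcov : ∀ A ∈ P, A ∉ T → M.CovF F Ex A) (hFK : F ⊆ K)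
    (hKc : M.CovF F Ex K) (hKx : ∀ a ∈ K, Us a → M.CovFX F Ex K a) :
    M.CovF F Ex (K ∪ P.biUnion id) ∨ ∃ (U C : Finset (Finset V)), U ⊆ P ∧
      (U.card + 2 ≤ C.card ∨
        (U.card + 1 ≤ C.card ∧ ∀ c ∈ C, ∀ a ∈ c, ∀ b ∈ K, Us b → ¬ M.H.Adj a b)) ∧
      (∀ c ∈ C, M.Mc c ∧ (∀ v ∈ c, M.TV v ∧ M.nd v ∈ T) ∧ c.card % 4 = 2 ∧ Disjoint c K ∧
        Disjoint c (U.biUnion id) ∧
        ∀ a ∈ c, ∀ b ∈ P.biUnion id, b ∉ c → b ∉ U.biUnion id → ¬ M.H.Adj a b) ∧
      (∀ c ∈ C, ∀ c' ∈ C, c ≠ c' → Disjoint c c') := by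
  classical
  have hTne : ∀ A ∈ T, A.Nonempty := by
    intro A hA
    obtain ⟨v, _, rfl⟩ := hTn A hA
    exact ⟨v, self_mem_nd v⟩
  have hKT : K ∉ T := by
    intro h
    have h1 := hdK K (hTP h)
    rw [disjoint_self_iff_empty] at h1
    exact (hTne K h).ne_empty h1
  let Q := insert K P
  have hQmc : ∀ A ∈ Q, M.Mc A := by
    intro A hA
    rcases mem_insert.1 hA with rfl | hA
    · exact hK
    · exact hmc A hA
  have hQd : ∀ A ∈ Q, ∀ B ∈ Q, A ≠ B → Disjoint A B := by
    intro A hA B hB hne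
    rcases mem_insert.1 hA with h1 | h1 <;> rcases mem_insert.1 hB with h2 | h2
    · exact absurd (h1.trans h2.symm) hne
    · rw [h1]; exact (hdK B h2).symm
    · rw [h2]; exact hdK A h1
    · exact hdis A h1 B h2 hne
  let X := {A : Finset V // A ∈ Q}
  let R : SimpleGraph X :=
    { Adj := fun A B => A ≠ B ∧ ∃ a ∈ A.1, ∃ b ∈ B.1, M.H.Adj a b ∧
        (A.1 = K → Us a) ∧ (B.1 = K → Us b)
      symm := ⟨fun A B h => by
        obtain ⟨h1, a, ha, b, hb, h2, h3, h4⟩ := h
        exact ⟨h1.symm, b, hb, a, ha, h2.symm, h4, h3⟩⟩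
      loopless := ⟨fun A h => h.1 rfl⟩ }
  let T' : Finset X := univ.filter fun A => A.1 ∈ T
  have hfx : ∀ A : X, ∀ a ∈ A.1, ∀ b, b ∉ A.1 → M.H.Adj a b → (A.1 = K → Us a) →
      M.CovFX F Ex A.1 a := by
    intro A a ha b hb hab hus
    by_cases h : A.1 = K
    · rw [h] at ha ⊢
      exact hKx a ha (hus h)
    · have hAP : A.1 ∈ P := by
        rcases mem_insert.1 A.2 with h' | h'
        · exact absurd h' h
        · exact h'
      exact (hflex _ hAP a ha b hb hab).covFX (disjoint_of_subset_left hFK (hdK _ hAP).symm)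
  rcases T_tutte R T' with ⟨m, hm1, hm2, hm3⟩ | ⟨U, C, hUC, _, hC, hCd⟩
  · left
    have hcov' : ∀ A : X, M.CovF F Ex (A.1 ∪ (m A).1) := by
      intro A
      by_cases h : m A = A
      · rw [h, union_self]
        by_cases hAK : A.1 = K
        · rw [hAK]; exact hKc
        · have hAP : A.1 ∈ P := by
            rcases mem_insert.1 A.2 with h' | h'
            · exact absurd h' hAK
            · exact h'
          refine hcov _ hAP ?_
          intro hT
          exact hm3 A (by simp [T', hT]) h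
      · obtain ⟨h1, a, ha, b, hb, hab, h2, h3⟩ := hm2 A h
        have hd : Disjoint A.1 (m A).1 := hQd _ A.2 _ (m A).2 fun h' => h1 (Subtype.ext h')
        refine CovFX.cov_pair (hQmc _ A.2) (hQmc _ (m A).2) hd ?_ ?_ hab
        · exact hfx A a ha b (Finset.disjoint_right.1 hd hb) hab h2
        · exact hfx (m A) b hb a (Finset.disjoint_left.1 hd ha) hab.symm h3
    have hQ : K ∪ P.biUnion id =
        ((univ : Finset X).image fun A => A.1 ∪ (m A).1).biUnion id := by
      have : K ∪ P.biUnion id = Q.biUnion id := by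
        simp only [Q, biUnion_insert, id]
      rw [this]
      ext x
      simp only [mem_biUnion, id, mem_image, mem_univ, true_and]
      constructor
      · rintro ⟨A, hA, hx⟩
        exact ⟨A ∪ (m ⟨A, hA⟩).1, ⟨⟨A, hA⟩, rfl⟩, mem_union_left _ hx⟩
      · rintro ⟨B, ⟨A, rfl⟩, hx⟩
        rw [mem_union] at hx
        rcases hx with hx | hx
        · exact ⟨A.1, A.2, hx⟩
        · exact ⟨(m A).1, (m A).2, hx⟩
    rw [hQ]
    apply CovF.biUnion
    · intro c hc
      simp only [mem_image, mem_univ, true_and] at hc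
      obtain ⟨A, rfl⟩ := hc
      exact (hQmc _ A.2).union (hQmc _ (m A).2)
    · intro c hc c' hc' hne
      simp only [mem_image, mem_univ, true_and] at hc hc'
      obtain ⟨A, rfl⟩ := hc
      obtain ⟨B, rfl⟩ := hc'
      have h1 : A ≠ B := by rintro rfl; exact hne rfl
      have h2 : A ≠ m B := by
        rintro rfl
        apply hne; rw [hm1, union_comm]
      have h3 : m A ≠ B := by
        rintro rfl
        apply hne; rw [hm1, union_comm]
      have h4 : m A ≠ m B := by
        intro h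
        apply h1; rw [← hm1 A, h, hm1]
      have key : ∀ A B : X, A ≠ B → Disjoint A.1 B.1 := fun A B h =>
        hQd _ A.2 _ B.2 fun h' => h (Subtype.ext h')
      simp only [id, disjoint_union_left, disjoint_union_right]
      exact ⟨⟨key _ _ h1, key _ _ h3⟩, ⟨key _ _ h2, key _ _ h4⟩⟩
    · intro c hc
      simp only [mem_image, mem_univ, true_and] at hc
      obtain ⟨A, rfl⟩ := hc
      exact hcov' A
  · right
    let vE : X ↪ Finset V := ⟨Subtype.val, Subtype.val_injective⟩
    have hCT : ∀ c ∈ C, ∀ A ∈ c, A.1 ∈ T := by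
      intro c hc A hA
      have := (hC c hc).1 hA
      simpa [T'] using this
    have hmemx : ∀ c : Finset X, ∀ x, x ∈ (c.map vE).biUnion id ↔ ∃ A ∈ c, x ∈ A.1 := by
      intro c x
      simp only [mem_biUnion, mem_map, vE, Function.Embedding.coeFn_mk, id]
      constructor
      · rintro ⟨_, ⟨A, hA, rfl⟩, hx⟩; exact ⟨A, hA, hx⟩
      · rintro ⟨A, hA, hx⟩; exact ⟨A.1, ⟨A, hA, rfl⟩, hx⟩
    have hunq : ∀ A B : X, ∀ x, x ∈ A.1 → x ∈ B.1 → A = B := by
      intro A B x hA hB
      by_contra hne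
      exact (Finset.disjoint_left.1 (hQd _ A.2 _ B.2 fun h' => hne (Subtype.ext h')) hA) hB
    have hne : ∀ c ∈ C, ((c.map vE).biUnion id).Nonempty := by
      intro c hc
      have h2 := (hC c hc).2.1
      have : c.Nonempty := by
        rw [← card_pos]; obtain ⟨k, hk⟩ := h2; omega
      obtain ⟨A, hA⟩ := this
      obtain ⟨x, hx⟩ := hTne _ (hCT c hc A hA)
      exact ⟨x, (hmemx c x).2 ⟨A, hA, hx⟩⟩
    have hdd : ∀ c ∈ C, ∀ c' ∈ C, c ≠ c' →
        Disjoint ((c.map vE).biUnion id) ((c'.map vE).biUnion id) := by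
      intro c hc c' hc' hne
      rw [Finset.disjoint_left]
      intro x hx hx'
      obtain ⟨A, hA, hxA⟩ := (hmemx _ _).1 hx
      obtain ⟨B, hB, hxB⟩ := (hmemx _ _).1 hx'
      have := hunq A B x hxA hxB
      rw [this] at hA
      exact (Finset.disjoint_left.1 (hCd c hc c' hc' hne) hA) hB
    have hinj : Set.InjOn (fun c : Finset X => (c.map vE).biUnion id) C := by
      intro c hc c' hc' h
      by_contra hne'
      have h1 := hdd c hc c' hc' hne'
      simp only at h
      rw [← h, disjoint_self_iff_empty] at h1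
      exact (hne c hc).ne_empty h1
    let U' := (U.map vE).erase K
    have hU'mem : ∀ A, A ∈ U' ↔ A ≠ K ∧ ∃ h : A ∈ Q, (⟨A, h⟩ : X) ∈ U := by
      intro A
      simp only [U', mem_erase, mem_map, vE, Function.Embedding.coeFn_mk]
      constructor
      · rintro ⟨h1, B, hB, rfl⟩; exact ⟨h1, B.2, hB⟩
      · rintro ⟨h1, h2, h3⟩; exact ⟨h1, ⟨A, h2⟩, h3, rfl⟩
    refine ⟨U', C.image fun c => (c.map vE).biUnion id, ?_, ?_, ?_, ?_⟩
    · intro A hA
      obtain ⟨h1, h2, _⟩ := (hU'mem A).1 hA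
      exact mem_of_mem_insert_of_ne h2 h1
    · rw [card_image_of_injOn hinj]
      by_cases hKU : K ∈ U.map vE
      · left
        have : U'.card + 1 = U.card := by
          rw [← card_map vE, ← card_erase_add_one hKU]
        omega
      · right
        have : U'.card = U.card := by
          simp only [U']
          rw [erase_eq_of_notMem hKU, card_map]
        refine ⟨by omega, ?_⟩
        intro c' hc' a ha b hb hus hab
        obtain ⟨c, hc, rfl⟩ := mem_image.1 hc'
        obtain ⟨A, hA, haA⟩ := (hmemx _ _).1 ha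
        have hAT := hCT c hc A hA
        have hAK : A.1 ≠ K := fun h => hKT (h ▸ hAT)
        rcases (hC c hc).2.2.2 A hA ⟨K, mem_insert_self _ _⟩
          ⟨fun h => hAK (congrArg Subtype.val h), a, haA, b, hb, hab,
            fun h => absurd h hAK, fun _ => hus⟩ with h | h
        · exact hKT (hCT c hc _ h)
        · exact hKU (mem_map.2 ⟨_, h, rfl⟩)
    · intro c' hc'
      obtain ⟨c, hc, rfl⟩ := mem_image.1 hc'
      obtain ⟨h1, h2, h3, h4⟩ := hC c hc
      have hcT : ∀ v ∈ (c.map vE).biUnion id, M.TV v ∧ ∃ A ∈ c, A.1 = M.nd v := by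
        intro v hv
        obtain ⟨A, hA, hvA⟩ := (hmemx _ _).1 hv
        obtain ⟨w, hw, hwA⟩ := hTn _ (hCT c hc A hA)
        rw [← hwA] at hvA
        refine ⟨?_, A, hA, by rw [nd_eq_of_mem hvA, hwA]⟩
        rw [mem_nd] at hvA
        rcases hvA with rfl | rfl
        · exact hw
        · exact hw.mu
      refine ⟨?_, ?_, ?_, ?_, ?_, ?_⟩
      · intro v hv
        obtain ⟨_, A, hA, hAv⟩ := hcT v hv
        refine (hmemx _ _).2 ⟨A, hA, ?_⟩
        rw [hAv]; simp
      · intro v hv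
        obtain ⟨h5, A, hA, hAv⟩ := hcT v hv
        exact ⟨h5, hAv ▸ hCT c hc A hA⟩
      · have : ((c.map vE).biUnion id).card = 2 * c.card := by
          rw [card_biUnion]
          · rw [sum_map]
            rw [sum_congr rfl (g := fun _ => 2)]
            · rw [sum_const, smul_eq_mul, mul_comm]
            · intro A hA
              obtain ⟨w, _, hwA⟩ := hTn _ (hCT c hc A hA)
              simp only [vE, Function.Embedding.coeFn_mk, id]
              rw [← hwA, nd_card]
          · intro A hA B hB hne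
            simp only [coe_map, Set.mem_image, mem_coe, vE, Function.Embedding.coeFn_mk] at hA hB
            obtain ⟨A, _, rfl⟩ := hA
            obtain ⟨B, _, rfl⟩ := hB
            exact hQd _ A.2 _ B.2 hne
        rw [this]
        obtain ⟨k, hk⟩ := h2
        omega
      · rw [Finset.disjoint_left]
        intro x hx
        obtain ⟨A, hA, hxA⟩ := (hmemx _ _).1 hx
        exact Finset.disjoint_left.1 (hdK _ (hTP (hCT c hc A hA))) hxA
      · rw [Finset.disjoint_left]
        intro x hx hx'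
        obtain ⟨A, hA, hxA⟩ := (hmemx _ _).1 hx
        obtain ⟨B, hB, hxB⟩ := mem_biUnion.1 hx'
        obtain ⟨_, h5, h6⟩ := (hU'mem B).1 hB
        have := hunq A ⟨B, h5⟩ x hxA hxB
        rw [this] at hA
        exact (Finset.disjoint_left.1 h3 hA) h6
      · intro a ha b hb hbc hbU hab
        obtain ⟨A, hA, haA⟩ := (hmemx _ _).1 ha
        obtain ⟨B, hB, hbB⟩ := mem_biUnion.1 hb
        have hAK : A.1 ≠ K := fun h => hKT (h ▸ hCT c hc A hA)
        have hBK : B = K → b ∈ K := by rintro rfl; exact hbB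
        by_cases hBeq : B = K
        · -- then `b ∈ K` and `B ∈ P` so `B` is disjoint from itself
          have h5 := hdK B hB
          rw [hBeq] at h5 hbB
          exact (Finset.disjoint_left.1 h5 hbB) hbB
        · have hAB : A ≠ ⟨B, mem_insert_of_mem hB⟩ := by
            rintro rfl
            exact hbc ((hmemx _ _).2 ⟨_, hA, hbB⟩)
          rcases h4 A hA ⟨B, mem_insert_of_mem hB⟩
            ⟨hAB, a, haA, b, hbB, hab, fun h => absurd h hAK, fun h => absurd h hBeq⟩ with h | h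
          · exact hbc ((hmemx _ _).2 ⟨_, h, hbB⟩)
          · exact hbU (mem_biUnion.2 ⟨B, (hU'mem B).2 ⟨hBeq, _, h⟩, hbB⟩)
    · intro c h1 c' h1' hne'
      obtain ⟨c, hc, rfl⟩ := mem_image.1 h1
      obtain ⟨c', hc', rfl⟩ := mem_image.1 h1'
      exact hdd c hc c' hc' (by rintro rfl; exact hne' rfl)

end Setup

end Pool.Agent.LTD
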