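import Pool.Agent.Lib.MP_a46439_co.Flex

set_option autoImplicit false
set_option linter.unusedSectionVars false

/-! Counting with blocks, and gluing along a Hall matching. -/

namespace Pool.Agent.LTD

open Finset

namespace Setup

variable {V : Type} [Fintype V] [DecidableEq V] {M : Setup V}

/-- number of edge ends leaving `A` which also leave `W` -/
noncomputable def bd (M : Setup V) (W A : Finset V) : ℕ := 2 * A.card - M.e A W

lemma bd_add (W A : Finset V) : M.bd W A + M.e A W = 2 * A.card := by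
  unfold bd
  have := M.e_le A W
  omega

lemma bd_union {W A B : Finset V} (h : Disjoint A B) :
    M.bd W (A ∪ B) = M.bd W A + M.bd W B := by
  have h1 := M.bd_add W (A ∪ B)
  have h2 := M.bd_add W A
  have h3 := M.bd_add W B
  have h4 : M.e (A ∪ B) W = M.e A W + M.e B W := M.e_union_left h _
  have h5 := card_union_of_disjoint h
  omega

lemma bd_mono {W A B : Finset V} (h : A ⊆ B) : M.bd W A ≤ M.bd W B := by
  have := bd_union (M := M) (W := W) (disjoint_sdiff (s := A) (t := B))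
  rw [union_sdiff_of_subset h] at this
  omega

/-- a vertex with a neighbour outside `W` contributes to `bd` -/
lemma one_le_bd {W A : Finset V} {a b : V} (ha : a ∈ A) (hb : b ∉ W) (hab : M.H.Adj a b) :
    1 ≤ M.bd W A := by
  have h1 := M.bd_add W {a}
  have h2 := M.e_univ_le {a}
  have h3 : M.e {a} univ = M.e {a} W + M.e {a} (univ \ W) := M.e_sdiff (subset_univ _) _
  have h4 : 0 < M.e {a} (univ \ W) := by
    rw [M.e_pos_iff]
    exact ⟨a, mem_singleton_self _, b, by simpa using hb, hab⟩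
  have h5 := bd_mono (M := M) (W := W) (singleton_subset_iff.2 ha)
  rw [card_singleton] at *
  omega

/-- two vertices with neighbours outside `W` contribute two -/
lemma two_le_bd {W A : Finset V} {a b a' b' : V} (ha : a ∈ A) (hb : b ∉ W) (hab : M.H.Adj a b)
    (ha' : a' ∈ A) (hb' : b' ∉ W) (hab' : M.H.Adj a' b') (hne : a ≠ a' ∨ b ≠ b') :
    2 ≤ M.bd W A := by
  by_cases h : a = a'
  · subst h
    have hbb : b ≠ b' := by
      rcases hne with h | h
      · exact absurd rfl h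
      · exact h
    have h1 := M.bd_add W {a}
    have h2 := M.e_univ_le {a}
    have h3 : M.e {a} univ = M.e {a} W + M.e {a} (univ \ W) := M.e_sdiff (subset_univ _) _
    have h4 : 2 ≤ M.e {a} (univ \ W) := by
      have := le_e (M := M) (A := {a}) (B := univ \ W) {(a, b), (a, b')} ?_
      · rwa [card_pair (by simpa using hbb)] at this
      · intro p hp
        simp only [mem_insert, mem_singleton] at hp
        rcases hp with rfl | rfl
        · exact ⟨mem_singleton_self _, by simpa using hb, hab⟩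
        · exact ⟨mem_singleton_self _, by simpa using hb', hab'⟩
    have h5 := bd_mono (M := M) (W := W) (singleton_subset_iff.2 ha)
    rw [card_singleton] at *
    omega
  · have h1 := one_le_bd (M := M) (W := W) (A := {a}) (mem_singleton_self _) hb hab
    have h2 : 1 ≤ M.bd W (A \ {a}) :=
      one_le_bd (a := a') (mem_sdiff.2 ⟨ha', by simpa using fun h' => h h'.symm⟩) hb' hab'
    have h3 := bd_union (M := M) (W := W) (disjoint_sdiff (s := ({a} : Finset V)) (t := A))
    rw [union_sdiff_of_subset (singleton_subset_iff.2 ha)] at h3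
    omega

/-- the counting identity -/
lemma count2 {W U : Finset V} {C : Finset (Finset V)} (hUW : U ⊆ W)
    (hC : ∀ c ∈ C, c ⊆ W \ U ∧ M.e c ((W \ U) \ c) = 0)
    (hCd : ∀ c ∈ C, ∀ c' ∈ C, c ≠ c' → Disjoint c c') :
    ∑ c ∈ C, M.d c + M.d ((W \ U) \ C.biUnion id) + 2 * M.bd W U = M.d W + M.d U := by
  have h1 := count (M := M) hUW hC hCd
  have h2 := M.bd_add W U
  have h3 := M.d_add U
  omega

/-- the graph of the edges between vertices with different labels -/
def Hx (M : Setup V) (lab : V → Finset V) : SimpleGraph V where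
  Adj a b := M.H.Adj a b ∧ lab a ≠ lab b
  symm := ⟨fun _ _ h => ⟨h.1.symm, h.2.symm⟩⟩
  loopless := ⟨fun _ h => h.2 rfl⟩

lemma E_congr {H H' : SimpleGraph V} {A B : Finset V}
    (h : ∀ a ∈ A, ∀ b ∈ B, (H.Adj a b ↔ H'.Adj a b)) : E H A B = E H' A B := by
  unfold E
  refine sum_congr rfl fun a ha => sum_congr rfl fun b hb => ?_
  by_cases h1 : H.Adj a b
  · rw [if_pos h1, if_pos ((h a ha b hb).1 h1)]
  · rw [if_neg h1, if_neg fun h2 => h1 ((h a ha b hb).2 h2)]

lemma d_biUnion_hx (lab : V → Finset V) (Q : Finset (Finset V))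
    (hlab : ∀ A ∈ Q, ∀ a ∈ A, lab a = A) :
    M.d (Q.biUnion id) + E (M.Hx lab) (Q.biUnion id) (Q.biUnion id) = ∑ A ∈ Q, M.d A := by
  induction Q using Finset.induction_on with
  | empty => simp
  | insert A Q hA ih =>
    have ih := ih fun B hB => hlab B (mem_insert_of_mem hB)
    have hlA := hlab A (mem_insert_self _ _)
    have hlQ : ∀ b ∈ Q.biUnion id, lab b ≠ A := by
      intro b hb h
      obtain ⟨B, hB, hbB⟩ := mem_biUnion.1 hb
      rw [hlab B (mem_insert_of_mem hB) b hbB] at h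
      exact hA (h ▸ hB)
    have hdis : Disjoint A (Q.biUnion id) := by
      rw [Finset.disjoint_left]
      intro x hx hx'
      exact hlQ x hx' (hlA x hx)
    rw [biUnion_insert, id, sum_insert hA]
    have h1 := M.d_union hdis
    have h2 : E (M.Hx lab) (A ∪ Q.biUnion id) (A ∪ Q.biUnion id) =
        E (M.Hx lab) A A + E (M.Hx lab) A (Q.biUnion id) +
          (E (M.Hx lab) (Q.biUnion id) A + E (M.Hx lab) (Q.biUnion id) (Q.biUnion id)) := by
      rw [E_union_left _ hdis, E_union_right _ hdis, E_union_right _ hdis]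
    have h3 : E (M.Hx lab) A A = 0 := by
      rw [E_eq_zero_iff]
      intro a ha b hb h
      exact h.2 ((hlA a ha).trans (hlA b hb).symm)
    have h4 : E (M.Hx lab) A (Q.biUnion id) = M.e A (Q.biUnion id) := by
      apply E_congr
      intro a ha b hb
      refine ⟨fun h => h.1, fun h => ⟨h, ?_⟩⟩
      rw [hlA a ha]
      exact (hlQ b hb).symm
    have h5 := E_comm (M.Hx lab) A (Q.biUnion id)
    omega

/-- the counting identity in terms of blocks, excesses and defects -/
lemma count4 {W : Finset V} {Q C : Finset (Finset V)} {lab : V → Finset V}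
    (hlab : ∀ A ∈ Q, ∀ a ∈ A, lab a = A) (hQW : Q.biUnion id ⊆ W)
    (hC : ∀ c ∈ C, c ⊆ W \ Q.biUnion id ∧ M.e c ((W \ Q.biUnion id) \ c) = 0)
    (hCd : ∀ c ∈ C, ∀ c' ∈ C, c ≠ c' → Disjoint c c')
    (h4 : ∀ c ∈ C, 4 ≤ M.d c) (hd4 : ∀ A ∈ Q, M.d A ≤ 4) :
    4 * C.card + ∑ c ∈ C, (M.d c - 4) + M.d ((W \ Q.biUnion id) \ C.biUnion id) +
      2 * M.bd W (Q.biUnion id) + E (M.Hx lab) (Q.biUnion id) (Q.biUnion id) +
      ∑ A ∈ Q, (4 - M.d A) = M.d W + 4 * Q.card := by
  have h1 := count2 (M := M) hQW hC hCd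
  have h2 := d_biUnion_hx (M := M) lab Q hlab
  have h3 : ∑ c ∈ C, M.d c = 4 * C.card + ∑ c ∈ C, (M.d c - 4) := by
    rw [mul_comm, ← smul_eq_mul, ← sum_const, ← sum_add_distrib]
    refine sum_congr rfl fun c hc => ?_
    have := h4 c hc
    omega
  have h5 : ∑ A ∈ Q, M.d A + ∑ A ∈ Q, (4 - M.d A) = 4 * Q.card := by
    rw [mul_comm, ← smul_eq_mul, ← sum_const, ← sum_add_distrib]
    refine sum_congr rfl fun c hc => ?_
    have := hd4 c hc
    omega
  omega

lemma le_E {H : SimpleGraph V} {A B : Finset V} (F : Finset (V × V))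
    (hF : ∀ p ∈ F, p.1 ∈ A ∧ p.2 ∈ B ∧ H.Adj p.1 p.2) : F.card ≤ E H A B := by
  classical
  have : E H A B = ((A ×ˢ B).filter fun p => H.Adj p.1 p.2).card := by
    rw [card_filter, sum_product]; rfl
  rw [this]
  apply card_le_card
  intro p hp
  rw [mem_filter, mem_product]
  obtain ⟨h1, h2, h3⟩ := hF p hp
  exact ⟨⟨h1, h2⟩, h3⟩

/-- one edge inside gives two ordered pairs -/
lemma two_le_E {H : SimpleGraph V} {A : Finset V} {a b : V} (ha : a ∈ A) (hb : b ∈ A)
    (hab : H.Adj a b) : 2 ≤ E H A A := by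
  have := le_E (H := H) (A := A) (B := A) {(a, b), (b, a)} ?_
  · rwa [card_pair (by simp [hab.ne])] at this
  · intro p hp
    simp only [mem_insert, mem_singleton] at hp
    rcases hp with rfl | rfl
    · exact ⟨ha, hb, hab⟩
    · exact ⟨hb, ha, hab.symm⟩

/-- two edges inside give four ordered pairs -/
lemma four_le_E {H : SimpleGraph V} {A : Finset V} {a b c d : V} (ha : a ∈ A) (hb : b ∈ A)
    (hab : H.Adj a b) (hc : c ∈ A) (hd : d ∈ A) (hcd : H.Adj c d)
    (hne : ¬ ((a = c ∧ b = d) ∨ (a = d ∧ b = c))) : 4 ≤ E H A A := by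
  have h1 := hab.ne
  have h2 := hcd.ne
  have := le_E (H := H) (A := A) (B := A) {(a, b), (b, a), (c, d), (d, c)} ?_
  · have hc' : ({(a, b), (b, a), (c, d), (d, c)} : Finset (V × V)).card = 4 := by
      rw [card_insert_of_notMem, card_insert_of_notMem, card_insert_of_notMem, card_singleton]
      · simp only [mem_singleton, Prod.mk.injEq, not_and]
        intro e1 _; exact h2 e1
      · simp only [mem_insert, mem_singleton, Prod.mk.injEq, not_or, not_and]
        refine ⟨fun e1 e2 => hne (Or.inr ⟨e2, e1⟩), fun e1 e2 => hne (Or.inl ⟨e2, e1⟩)⟩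
      · simp only [mem_insert, mem_singleton, Prod.mk.injEq, not_or, not_and]
        refine ⟨fun e1 _ => h1 e1, fun e1 e2 => hne (Or.inl ⟨e1, e2⟩),
          fun e1 e2 => hne (Or.inr ⟨e1, e2⟩)⟩
    rw [hc'] at this; exact this
  · intro p hp
    simp only [mem_insert, mem_singleton] at hp
    rcases hp with rfl | rfl | rfl | rfl
    · exact ⟨ha, hb, hab⟩
    · exact ⟨hb, ha, hab.symm⟩
    · exact ⟨hc, hd, hcd⟩
    · exact ⟨hd, hc, hcd.symm⟩

/-- three edges inside give six ordered pairs -/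
lemma six_le_E {H : SimpleGraph V} {A : Finset V} {a b c d e f : V} (ha : a ∈ A) (hb : b ∈ A)
    (hab : H.Adj a b) (hc : c ∈ A) (hd : d ∈ A) (hcd : H.Adj c d)
    (he : e ∈ A) (hf : f ∈ A) (hef : H.Adj e f)
    (hne : ¬ ((a = c ∧ b = d) ∨ (a = d ∧ b = c))) (hne2 : ¬ ((a = e ∧ b = f) ∨ (a = f ∧ b = e)))
    (hne3 : ¬ ((c = e ∧ d = f) ∨ (c = f ∧ d = e))) : 6 ≤ E H A A := by
  have h1 := hab.ne
  have h2 := hcd.ne
  have h3 := hef.ne
  have := le_E (H := H) (A := A) (B := A) {(a, b), (b, a), (c, d), (d, c), (e, f), (f, e)} ?_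
  · have hc' : ({(a, b), (b, a), (c, d), (d, c), (e, f), (f, e)} :
        Finset (V × V)).card = 6 := by
      rw [card_insert_of_notMem, card_insert_of_notMem, card_insert_of_notMem,
        card_insert_of_notMem, card_insert_of_notMem, card_singleton]
      · simp only [mem_singleton, Prod.mk.injEq, not_and]
        intro e1 _; exact h3 e1
      · simp only [mem_insert, mem_singleton, Prod.mk.injEq, not_or, not_and]
        refine ⟨fun e1 e2 => hne3 (Or.inr ⟨e2, e1⟩), fun e1 e2 => hne3 (Or.inl ⟨e2, e1⟩)⟩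
      · simp only [mem_insert, mem_singleton, Prod.mk.injEq, not_or, not_and]
        refine ⟨fun e1 _ => h2 e1, fun e1 e2 => hne3 (Or.inl ⟨e1, e2⟩),
          fun e1 e2 => hne3 (Or.inr ⟨e1, e2⟩)⟩
      · simp only [mem_insert, mem_singleton, Prod.mk.injEq, not_or, not_and]
        refine ⟨fun e1 e2 => hne (Or.inr ⟨e2, e1⟩), fun e1 e2 => hne (Or.inl ⟨e2, e1⟩),
          fun e1 e2 => hne2 (Or.inr ⟨e2, e1⟩), fun e1 e2 => hne2 (Or.inl ⟨e2, e1⟩)⟩
      · simp only [mem_insert, mem_singleton, Prod.mk.injEq, not_or, not_and]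
        refine ⟨fun e1 _ => h1 e1, fun e1 e2 => hne (Or.inl ⟨e1, e2⟩),
          fun e1 e2 => hne (Or.inr ⟨e1, e2⟩), fun e1 e2 => hne2 (Or.inl ⟨e1, e2⟩),
          fun e1 e2 => hne2 (Or.inr ⟨e1, e2⟩)⟩
    rw [hc'] at this; exact this
  · intro p hp
    simp only [mem_insert, mem_singleton] at hp
    rcases hp with rfl | rfl | rfl | rfl | rfl | rfl
    · exact ⟨ha, hb, hab⟩
    · exact ⟨hb, ha, hab.symm⟩
    · exact ⟨hc, hd, hcd⟩
    · exact ⟨hd, hc, hcd.symm⟩
    · exact ⟨he, hf, hef⟩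
    · exact ⟨hf, he, hef.symm⟩

/-- the members of `C` adjacent to `A` -/
noncomputable def nbc (M : Setup V) (C : Finset (Finset V)) (A : Finset V) :
    Finset (Finset V) := C.filter fun c => 0 < M.e A c

lemma mem_nbc {C : Finset (Finset V)} {A c : Finset V} :
    c ∈ M.nbc C A ↔ c ∈ C ∧ ∃ a ∈ A, ∃ b ∈ c, M.H.Adj a b := by
  rw [nbc, mem_filter, M.e_pos_iff]

/-- Gluing along a Hall matching. -/
theorem hall_glue {Z F Ex : Finset V} {I D : Finset (Finset V)} {N : Finset V → Finset (Finset V)}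
    (hZ : M.Mc Z) (hFZ : F ⊆ Z) (hI : ∀ A ∈ I, M.Mc A) (hD : ∀ c ∈ D, M.Mc c)
    (hIf : ∀ A ∈ I, M.Flex A) (hDf : ∀ c ∈ D, M.Flex c)
    (hId : ∀ A ∈ I, ∀ B ∈ I, A ≠ B → Disjoint A B)
    (hDd : ∀ c ∈ D, ∀ c' ∈ D, c ≠ c' → Disjoint c c')
    (hIZ : ∀ A ∈ I, Disjoint A Z) (hDZ : ∀ c ∈ D, Disjoint c Z)
    (hID : ∀ A ∈ I, ∀ c ∈ D, Disjoint A c)
    (hN : ∀ A ∈ I, ∀ c ∈ N A, ∃ a ∈ A, ∃ b ∈ c, M.H.Adj a b)
    (hcard : D.card ≤ I.card) (hall : ∀ X ⊆ I, X.card ≤ ((X.biUnion N) ∩ D).card)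
    (hZc : M.CovF F Ex Z) : M.CovF F Ex (Z ∪ (I.biUnion id ∪ D.biUnion id)) := by
  obtain ⟨f, hf, hinj⟩ := Tight.hall hall
  have himage : I.image f = D := by
    apply eq_of_subset_of_card_le
    · intro c hc
      obtain ⟨A, hA, rfl⟩ := mem_image.1 hc
      exact (hf A hA).2
    · rw [card_image_of_injOn hinj]; exact hcard
  have hpiece : ∀ A ∈ I, M.CovF F Ex (A ∪ f A) := by
    intro A hA
    obtain ⟨h1, h2⟩ := hf A hA
    obtain ⟨a, ha, b, hb, hab⟩ := hN A hA _ h1
    have hd := hID A hA _ h2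
    refine CovFX.cov_pair (hI A hA) (hD _ h2) hd ?_ ?_ hab
    · exact (hIf A hA a ha b (Finset.disjoint_right.1 hd hb) hab).covFX
        (disjoint_of_subset_left hFZ (hIZ A hA).symm)
    · exact (hDf _ h2 b hb a (Finset.disjoint_left.1 hd ha) hab.symm).covFX
        (disjoint_of_subset_left hFZ (hDZ _ h2).symm)
  have hcovI : M.CovF F Ex (I.biUnion fun A => A ∪ f A) := by
    apply CovF.biUnion
    · intro A hA; exact (hI A hA).union (hD _ (hf A hA).2)
    · intro A hA B hB hne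
      have h1 : f A ≠ f B := fun h => hne (hinj hA hB h)
      simp only [disjoint_union_left, disjoint_union_right]
      exact ⟨⟨hId A hA B hB hne, (hID B hB _ (hf A hA).2).symm⟩, hID A hA _ (hf B hB).2,
        hDd _ (hf A hA).2 _ (hf B hB).2 h1⟩
    · exact hpiece
  have hmcI : M.Mc (I.biUnion fun A => A ∪ f A) :=
    Mc.biUnion _ _ fun A hA => (hI A hA).union (hD _ (hf A hA).2)
  have heq : (I.biUnion fun A => A ∪ f A) = I.biUnion id ∪ D.biUnion id := by
    ext x
    simp only [mem_biUnion, mem_union, id]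
    constructor
    · rintro ⟨A, hA, h | h⟩
      · exact Or.inl ⟨A, hA, h⟩
      · exact Or.inr ⟨f A, (hf A hA).2, h⟩
    · rintro (⟨A, hA, h⟩ | ⟨c, hc, h⟩)
      · exact ⟨A, hA, Or.inl h⟩
      · rw [← himage] at hc
        obtain ⟨A, hA, rfl⟩ := mem_image.1 hc
        exact ⟨A, hA, Or.inr h⟩
  rw [heq] at hcovI hmcI
  refine CovF.union hZ hmcI ?_ hZc hcovI
  rw [disjoint_union_right, disjoint_biUnion_right, disjoint_biUnion_right]
  exact ⟨fun A hA => (hIZ A hA).symm, fun c hc => (hDZ c hc).symm⟩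

end Setup

end Pool.Agent.LTD
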