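import Pool.Agent.Lib.MP_a46439_co.Base

set_option autoImplicit false

/-! Ladders. -/

namespace Pool.Agent.LTD

open Finset

/-- A connected vertex set of size `k` spans at least `k-1` edges. -/
lemma reach_count {V : Type} [DecidableEq V] (H : SimpleGraph V) (v : V) (R : Finset V)
    (hv : v ∈ R) (hR : ∀ w ∈ R, H.Reachable v w) (hcl : ∀ u ∈ R, ∀ w, H.Adj u w → w ∈ R) :
    2 * R.card ≤ E H R R + 2 := by
  classical
  -- choose a maximal good subset
  have hex : ((R.powerset).filter fun A => v ∈ A ∧ 2 * A.card ≤ E H A A + 2).Nonempty := by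
    refine ⟨{v}, ?_⟩
    rw [mem_filter, mem_powerset]
    exact ⟨singleton_subset_iff.2 hv, mem_singleton_self _, by simp⟩
  obtain ⟨A, hA, hmax⟩ := exists_max_image _ (fun A => A.card) hex
  rw [mem_filter, mem_powerset] at hA
  obtain ⟨hAR, hvA, hcard⟩ := hA
  by_cases h : A = R
  · rw [← h]; exact hcard
  · exfalso
    obtain ⟨w, hw, hwA⟩ : ∃ w ∈ R, w ∉ A := by
      by_contra hcon
      push Not at hcon
      exact h (subset_antisymm hAR hcon)
    obtain ⟨p⟩ := hR w hw
    obtain ⟨d, _, hd1, hd2⟩ := p.exists_boundary_dart (A : Set V) hvA hwA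
    have hdadj := d.adj
    have hd1' : d.fst ∈ A := hd1
    have hd2' : d.snd ∉ A := hd2
    have hsub : insert d.snd A = {d.snd} ∪ A := by ext; simp
    have hdisj : Disjoint {d.snd} A := by simpa using hd2'
    have h1 : E H (insert d.snd A) (insert d.snd A) =
        E H {d.snd} {d.snd} + E H {d.snd} A + (E H A {d.snd} + E H A A) := by
      rw [hsub, E_union_left H hdisj, E_union_right H hdisj, E_union_right H hdisj]
    have h2 : 0 < E H {d.snd} A := by
      rw [E_pos_iff]; exact ⟨d.snd, mem_singleton_self _, d.fst, hd1', hdadj.symm⟩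
    have h3 := E_comm H {d.snd} A
    have h4 : (insert d.snd A).card = A.card + 1 := card_insert_of_notMem hd2'
    have := hmax (insert d.snd A) (by
      rw [mem_filter, mem_powerset]
      refine ⟨insert_subset (hcl _ (hAR hd1') _ hdadj) hAR, mem_insert_of_mem hvA, ?_⟩
      rw [h4, h1]; omega)
    omega

lemma E_lt {V : Type} {H H' : SimpleGraph V} (hle : H' ≤ H) {A B : Finset V}
    {u w : V} (hu : u ∈ A) (hw : w ∈ B) (h1 : H.Adj u w) (h2 : ¬ H'.Adj u w) :
    E H' A B < E H A B := by
  classical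
  unfold E
  apply sum_lt_sum
  · intro a _
    apply sum_le_sum
    intro b _
    by_cases h : H'.Adj a b
    · rw [if_pos h, if_pos (hle h)]
    · rw [if_neg h]; positivity
  · refine ⟨u, hu, ?_⟩
    apply sum_lt_sum
    · intro b _
      by_cases h : H'.Adj u b
      · rw [if_pos h, if_pos (hle h)]
      · rw [if_neg h]; positivity
    · exact ⟨w, hw, by rw [if_neg h2, if_pos h1]; exact Nat.one_pos⟩

lemma E_le_of_le {V : Type} {H H' : SimpleGraph V} (hle : H' ≤ H) (A B : Finset V) :
    E H' A B ≤ E H A B := by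
  classical
  unfold E
  refine sum_le_sum fun a _ => sum_le_sum fun b _ => ?_
  by_cases h : H'.Adj a b
  · rw [if_pos h, if_pos (hle h)]
  · rw [if_neg h]; positivity

namespace Setup

variable {V : Type} [Fintype V] [DecidableEq V] (M : Setup V)

/-- the ladder relation as a graph -/
def PsiG : SimpleGraph V where
  Adj u v := M.Psi u v
  symm := ⟨fun _ _ h => Psi.symm M h⟩
  loopless := ⟨fun _ h => M.H.loopless.irrefl _ h.1⟩

lemma PsiG_adj {u v : V} : M.PsiG.Adj u v ↔ M.Psi u v := Iff.rfl

lemma PsiG_le : M.PsiG ≤ M.H := fun _ _ h => h.1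

open Classical in
/-- a rail of a ladder -/
noncomputable def rail (v : V) : Finset V := univ.filter fun w => M.PsiG.Reachable v w

variable {M}

lemma mem_rail {v w : V} : w ∈ M.rail v ↔ M.PsiG.Reachable v w := by
  simp [rail]

lemma self_mem_rail (v : V) : v ∈ M.rail v := mem_rail.2 (SimpleGraph.Reachable.refl v)

lemma rail_eq_of_mem {v w : V} (h : w ∈ M.rail v) : M.rail w = M.rail v := by
  ext x
  rw [mem_rail] at h
  rw [mem_rail, mem_rail]
  exact ⟨fun h' => h.trans h', fun h' => h.symm.trans h'⟩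

lemma rail_closed {v u w : V} (h : u ∈ M.rail v) (huw : M.Psi u w) : w ∈ M.rail v := by
  rw [mem_rail] at h ⊢
  exact h.trans (SimpleGraph.Adj.reachable huw)

lemma reach_mu {v w : V} (h : M.PsiG.Reachable v w) : M.PsiG.Reachable (M.μ v) (M.μ w) := by
  obtain ⟨p⟩ := h
  induction p with
  | nil => exact SimpleGraph.Reachable.refl _
  | cons hadj _ ih => exact (SimpleGraph.Adj.reachable (Psi.mu M hadj)).trans ih

lemma mu_mem_rail {v w : V} : M.μ w ∈ M.rail (M.μ v) ↔ w ∈ M.rail v := by
  rw [mem_rail, mem_rail]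
  refine ⟨fun h => ?_, reach_mu⟩
  have := reach_mu h
  rwa [M.inv, M.inv] at this

lemma mem_rail_mu {v w : V} : w ∈ M.rail (M.μ v) ↔ M.μ w ∈ M.rail v := by
  rw [← mu_mem_rail (v := v), M.inv]

/-- the block (ladder or node) of a vertex -/
noncomputable def blk (M : Setup V) (v : V) : Finset V := M.rail v ∪ M.rail (M.μ v)

lemma self_mem_blk (v : V) : v ∈ M.blk v := mem_union_left _ (self_mem_rail v)

lemma blk_mu (v : V) : M.blk (M.μ v) = M.blk v := by
  rw [blk, blk, M.inv, union_comm]

lemma blk_eq_of_mem {v w : V} (h : w ∈ M.blk v) : M.blk w = M.blk v := by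
  rw [blk, mem_union] at h
  rcases h with h | h
  · rw [blk, blk, rail_eq_of_mem h, rail_eq_of_mem (mu_mem_rail.2 h)]
  · rw [blk, blk, rail_eq_of_mem h]
    have h' := mem_rail_mu.1 h
    rw [rail_eq_of_mem h', union_comm]

lemma Mc_blk (v : V) : M.Mc (M.blk v) := by
  intro w hw
  rw [blk, mem_union] at hw ⊢
  rcases hw with h | h
  · right; exact mu_mem_rail.2 h
  · left; exact mem_rail_mu.1 h

lemma exists_psi_of_ne {v w : V} (h : M.PsiG.Reachable v w) (hne : v ≠ w) :
    ∃ x, M.Psi v x ∧ x ∈ M.rail v := by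
  obtain ⟨p⟩ := h
  cases p with
  | nil => exact absurd rfl hne
  | cons hadj _ => exact ⟨_, hadj, rail_closed (self_mem_rail v) hadj⟩

lemma TV.rail {v : V} (h : M.TV v) : M.rail v = {v} := by
  ext w
  rw [mem_rail, mem_singleton]
  constructor
  · intro hr
    by_contra hne
    obtain ⟨x, hx, _⟩ := exists_psi_of_ne hr (Ne.symm hne)
    exact h x hx
  · rintro rfl; exact SimpleGraph.Reachable.refl _

lemma TV.blk {v : V} (h : M.TV v) : M.blk v = M.nd v := by
  rw [Setup.blk, h.rail, h.mu.rail, nd_eq_union]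

lemma TV_mu_iff {v : V} : M.TV (M.μ v) ↔ M.TV v := by
  refine ⟨fun h => ?_, TV.mu M⟩
  have := h.mu
  rwa [M.inv] at this

lemma TV_of_mem_blk {v w : V} (hw : w ∈ M.blk v) (h : M.TV w) : M.TV v := by
  have h1 := blk_eq_of_mem hw
  have h2 : v ∈ M.blk w := by rw [h1]; exact self_mem_blk v
  rw [h.blk, mem_nd] at h2
  rcases h2 with rfl | rfl
  · exact h
  · exact h.mu

/-- every vertex of a ladder has a neighbour on its rail -/
lemma rail_supported {v w : V} (hv : ¬ M.TV v) (hw : w ∈ M.rail v) :
    ∃ u ∈ M.rail v, M.H.Adj w u := by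
  have hw' : ¬ M.TV w := fun h => hv (TV_of_mem_blk (mem_union_left _ hw) h)
  unfold TV at hw'
  push Not at hw'
  obtain ⟨x, hx⟩ := hw'
  exact ⟨x, rail_closed hw hx, hx.1⟩

lemma ladder_cov {v : V} (hgood : M.μ v ∉ M.rail v) (hv : ¬ M.TV v) :
    M.IsCov (M.blk v) (M.rail v) ∅ := by
  refine ⟨subset_union_left, ?_, ?_, ?_⟩
  · intro w hw
    rw [blk, mem_union] at hw
    constructor
    · intro h h'
      apply hgood
      have h1 := rail_eq_of_mem h
      have h2 := mu_mem_rail.2 h
      have h3 := rail_eq_of_mem h2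
      have h4 := rail_eq_of_mem h'
      rw [← h4, h3]; exact self_mem_rail _
    · intro h
      rcases hw with hw | hw
      · exact hw
      · exact absurd (mem_rail_mu.1 hw) h
  · intro w hw _; exact rail_supported hv hw
  · intro u hu w huw; exact rail_closed hu huw

lemma IsCov.covX {A S : Finset V} {x : V} (h : M.IsCov A S ∅) (hx : x ∈ S) : M.CovX A x :=
  ⟨S, hx, h.1, h.2.1, fun v hv _ => h.2.2.1 v hv (notMem_empty _), h.2.2.2⟩

/-- The number of edges leaving a ladder. -/
lemma d_blk_le {v : V} (hgood : M.μ v ∉ M.rail v) : M.d (M.blk v) ≤ 4 := by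
  have hd : Disjoint (M.rail v) (M.rail (M.μ v)) := by
    rw [Finset.disjoint_left]
    intro w hw hw'
    apply hgood
    rw [← rail_eq_of_mem hw, rail_eq_of_mem hw']
    exact self_mem_rail _
  have hcount : ∀ x, 2 * (M.rail x).card ≤ M.e (M.rail x) (M.rail x) + 2 := by
    intro x
    have h1 := reach_count M.PsiG x (M.rail x) (self_mem_rail x) (fun w hw => mem_rail.1 hw)
      (fun u hu w huw => rail_closed hu huw)
    have h2 : E M.PsiG (M.rail x) (M.rail x) ≤ M.e (M.rail x) (M.rail x) :=
      E_le_of_le M.PsiG_le _ _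
    omega
  have h1 := hcount v
  have h2 := hcount (M.μ v)
  have h3 := M.d_add (M.blk v)
  have h4 : (M.blk v).card = (M.rail v).card + (M.rail (M.μ v)).card := card_union_of_disjoint hd
  have h5 : M.e (M.blk v) (M.blk v) = M.e (M.rail v) (M.blk v) + M.e (M.rail (M.μ v)) (M.blk v) :=
    M.e_union_left hd _
  have h6 : M.e (M.rail v) (M.rail v) ≤ M.e (M.rail v) (M.blk v) :=
    M.e_mono (subset_refl _) subset_union_left
  have h7 : M.e (M.rail (M.μ v)) (M.rail (M.μ v)) ≤ M.e (M.rail (M.μ v)) (M.blk v) :=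
    M.e_mono (subset_refl _) subset_union_right
  omega

/-- divisibility by four of the number of ordered `Psi`-pairs -/
lemma psi_mod_four (A : Finset V) (hA : M.Mc A) : E M.PsiG A A % 4 = 0 := by
  classical
  induction hn : A.card using Nat.strong_induction_on generalizing A with
  | _ n ih =>
    by_cases he : A = ∅
    · subst he; simp
    · obtain ⟨x, hx⟩ := nonempty_iff_ne_empty.2 he
      have hxA : M.nd x ⊆ A := hA.nd_subset hx
      have h1 := card_sdiff_add_card_eq_card hxA
      rw [nd_card] at h1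
      have h2 := ih (A \ M.nd x).card (by omega) _ (hA.sdiff (Mc_nd x)) rfl
      have h3 : E M.PsiG A A = E M.PsiG (M.nd x) A + E M.PsiG (A \ M.nd x) A :=
        E_sdiff_left _ hxA _
      have h4 : E M.PsiG (M.nd x) A = E M.PsiG (M.nd x) (M.nd x) + E M.PsiG (M.nd x) (A \ M.nd x) :=
        E_sdiff _ hxA _
      have h5 : E M.PsiG (A \ M.nd x) A =
          E M.PsiG (A \ M.nd x) (M.nd x) + E M.PsiG (A \ M.nd x) (A \ M.nd x) :=
        E_sdiff _ hxA _
      have h6 := E_comm M.PsiG (A \ M.nd x) (M.nd x)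
      have h7 : E M.PsiG (M.nd x) (M.nd x) = 0 := by
        have h8 : E M.PsiG (M.nd x) (M.nd x) ≤ M.e (M.nd x) (M.nd x) := E_le_of_le M.PsiG_le _ _
        rw [e_nd_nd] at h8; omega
      have h8 : ∀ B : Finset V, M.Mc B → E M.PsiG (M.nd x) B = 2 * E M.PsiG {x} B := by
        intro B hB
        rw [nd_eq_union, E_union_left _ (by simpa using (M.ne x).symm)]
        have : E M.PsiG {M.μ x} B = E M.PsiG {x} B := by
          unfold E
          rw [sum_singleton, sum_singleton]
          refine sum_bij' (fun b _ => M.μ b) (fun b _ => M.μ b) ?_ ?_ ?_ ?_ ?_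
          · intro b hb; exact hB b hb
          · intro b hb; exact hB b hb
          · intro b _; exact M.inv b
          · intro b _; exact M.inv b
          · intro b _
            have : M.PsiG.Adj (M.μ x) b ↔ M.PsiG.Adj x (M.μ b) := by
              constructor
              · intro h; have := Psi.mu M h; rwa [M.inv] at this
              · intro h; have := Psi.mu M h; rwa [M.inv] at this
            simp [this]
        omega
      have h9 := h8 _ (hA.sdiff (Mc_nd x))
      omega

/-- If a rail is closed under the matching then all `H`-edges are ladder edges. -/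
theorem bad_all {v : V} (hbad : M.μ v ∈ M.rail v) :
    (∀ u w, M.H.Adj u w → M.Psi u w) ∧ M.d univ = 0 := by
  have hmc : M.Mc (M.rail v) := by
    intro w hw
    have h1 := mu_mem_rail.2 hw
    rwa [rail_eq_of_mem hbad] at h1
  have h1 := reach_count M.PsiG v (M.rail v) (self_mem_rail v) (fun w hw => mem_rail.1 hw)
      (fun u hu w huw => rail_closed hu huw)
  have h2 := psi_mod_four _ hmc
  obtain ⟨k, hk⟩ := hmc.even_card
  have h3 : 2 * (M.rail v).card ≤ E M.PsiG (M.rail v) (M.rail v) := by omega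
  have h4 : E M.PsiG (M.rail v) (M.rail v) ≤ M.e (M.rail v) (M.rail v) := E_le_of_le M.PsiG_le _ _
  have h5 := M.d_add (M.rail v)
  have h6 : M.rail v = univ := by
    by_contra hne
    have := hmc.two_le_d ⟨v, self_mem_rail v⟩ hne
    omega
  rw [h6] at h3 h4 h5
  refine ⟨?_, by omega⟩
  intro u w huw
  by_contra hn
  have h7 : E M.PsiG univ univ < M.e univ univ := E_lt M.PsiG_le (mem_univ u) (mem_univ w) huw hn
  have h8 := M.e_le univ univ
  omega

end Setup

end Pool.Agent.LTD
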