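import Pool.Agent.Lib.MP_a46439_co.Cubic

set_option autoImplicit false

/-! Rooted graphs: definitions. -/

namespace Pool.Agent.LTD

open Finset

variable {V : Type} [Fintype V] [DecidableEq V]

/-- `v` has a neighbour in `S`. -/
def Dom (G : SimpleGraph V) (S : Finset V) (v : V) : Prop := ∃ u ∈ S, G.Adj v u

/-- the neighbourhoods of `u` and `v` in `S` differ. -/
def Sep (G : SimpleGraph V) (S : Finset V) (u v : V) : Prop :=
  ∃ w ∈ S, ¬ (G.Adj u w ↔ G.Adj v w)

/-- a connected graph all of whose vertices have degree three, except the root `p`, which has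
degree two. -/
structure Rooted (G : SimpleGraph V) (p : V) : Prop where
  conn : G.Connected
  root : E G {p} univ = 2
  deg : ∀ v, v ≠ p → E G {v} univ = 3

/-- state `A*` -/
def AStar (G : SimpleGraph V) (p : V) : Prop :=
  ∃ S : Finset V, p ∈ S ∧ 2 * S.card ≤ Fintype.card V + 1 ∧ (∀ v, Dom G S v) ∧
    (∀ u v, u ∉ S → v ∉ S → u ≠ v → Sep G S u v) ∧ ∀ v, v ∉ S → ∃ w ∈ S, w ≠ p ∧ G.Adj v w

/-- state `γ` -/
def Ga (G : SimpleGraph V) (p : V) : Prop :=
  ∃ S : Finset V, 2 * S.card + 1 ≤ Fintype.card V ∧ (∀ v, v ≠ p → Dom G S v) ∧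
    (∀ u v, u ∉ S → v ∉ S → u ≠ p → v ≠ p → u ≠ v → Sep G S u v) ∧ (p ∈ S ∨ Dom G S p)

/-- no bridge (all cuts have at least two edges) -/
def Bridgeless (G : SimpleGraph V) : Prop :=
  ∀ A : Finset V, A.Nonempty → A ≠ univ → 2 ≤ E G A Aᶜ

end Pool.Agent.LTD
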