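import Pool.Agent.Lib.MP_a46439_co.Ring2
import Pool.Agent.Lib.MP_a46439_co.RootDefs

set_option autoImplicit false
set_option linter.unusedSectionVars false

/-! The set-up of a rooted graph with a matching of all vertices except the root. -/

namespace Pool.Agent.LTD

open Finset

variable {V : Type} [Fintype V] [DecidableEq V]

/-- a matching of all vertices except `p`, as an involution -/
structure PMat (G : SimpleGraph V) (p : V) (m : V → V) : Prop where
  inv : ∀ v, m (m v) = v
  mp : m p = p
  adj : ∀ v, v ≠ p → G.Adj v (m v)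

namespace PMat

variable {G : SimpleGraph V} {p : V} {m : V → V}

lemma ne (h : PMat G p m) {v : V} (hv : v ≠ p) : m v ≠ v := (h.adj v hv).ne'

lemma mne (h : PMat G p m) {v : V} (hv : v ≠ p) : m v ≠ p := by
  intro h1
  apply hv
  rw [← h.inv v, h1, h.mp]

lemma mne_iff (h : PMat G p m) {v : V} : m v = p ↔ v = p := by
  constructor
  · intro h1; rw [← h.inv v, h1, h.mp]
  · rintro rfl; exact h.mp

end PMat

/-- the remaining graph -/
def leafH (G : SimpleGraph V) (m : V → V) (hinv : ∀ v, m (m v) = v) :
    SimpleGraph (Option V) where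
  Adj a b := ∃ x y, a = some x ∧ b = some y ∧ G.Adj x y ∧ y ≠ m x
  symm := ⟨by
    rintro a b ⟨x, y, h1, h2, h3, h4⟩
    exact ⟨y, x, h2, h1, h3.symm, fun h => h4 (by rw [h, hinv])⟩⟩
  loopless := ⟨by
    rintro a ⟨x, y, h1, h2, h3, h4⟩
    rw [h1] at h2
    have := Option.some.inj h2
    subst this
    exact G.loopless.irrefl _ h3⟩

/-- the partner map -/
def leafMu (p : V) (m : V → V) : Option V → Option V
  | none => some p
  | some v => if v = p then none else some (m v)

lemma leafH_some {G : SimpleGraph V} {m : V → V} {hinv : ∀ v, m (m v) = v} {x y : V} :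
    (leafH G m hinv).Adj (some x) (some y) ↔ G.Adj x y ∧ y ≠ m x := by
  constructor
  · rintro ⟨x', y', h1, h2, h3⟩
    rw [Option.some.inj h1, Option.some.inj h2]; exact h3
  · intro h; exact ⟨x, y, rfl, rfl, h⟩

lemma leafH_none {G : SimpleGraph V} {m : V → V} {hinv : ∀ v, m (m v) = v} {a : Option V} :
    ¬ (leafH G m hinv).Adj none a := by
  rintro ⟨x, y, h1, _⟩
  simp at h1

lemma leafH_none' {G : SimpleGraph V} {m : V → V} {hinv : ∀ v, m (m v) = v} {a : Option V} :
    ¬ (leafH G m hinv).Adj a none := fun h => leafH_none h.symm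

lemma E_eq_card (H : SimpleGraph V) (v : V) (W : Finset V) [DecidablePred fun u => H.Adj v u] :
    E H {v} W = (W.filter fun u => H.Adj v u).card := by
  classical
  rw [card_filter]; unfold E; rw [sum_singleton]
  refine sum_congr rfl fun b _ => ?_
  by_cases h : H.Adj v b
  · rw [if_pos h, if_pos h]
  · rw [if_neg h, if_neg h]

lemma leafH_deg {G : SimpleGraph V} {p : V} {m : V → V} (hr : Rooted G p) (hm : PMat G p m)
    (x : V) : E (leafH G m hm.inv) {some x} univ = 2 := by
  classical
  rw [E_eq_card]
  have h1 : ((univ : Finset (Option V)).filter fun u => (leafH G m hm.inv).Adj (some x) u) =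
      ((univ.filter fun y => G.Adj x y).erase (m x)).map Function.Embedding.some := by
    ext a
    rw [mem_filter, mem_map]
    constructor
    · rintro ⟨_, h⟩
      rcases a with _ | y
      · exact absurd h leafH_none'
      · rw [leafH_some] at h
        exact ⟨y, mem_erase.2 ⟨h.2, mem_filter.2 ⟨mem_univ _, h.1⟩⟩, rfl⟩
    · rintro ⟨y, hy, rfl⟩
      rw [mem_erase, mem_filter] at hy
      exact ⟨mem_univ _, leafH_some.2 ⟨hy.2.2, hy.1⟩⟩
  rw [h1, card_map]
  by_cases hx : x = p
  · subst hx
    rw [hm.mp, erase_eq_of_notMem (by simp)]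
    rw [← E_eq_card]; exact hr.root
  · rw [card_erase_of_mem (by simpa using hm.adj x hx), ← E_eq_card, hr.deg x hx]

/-- the set-up -/
def leafSetup (G : SimpleGraph V) (p : V) (m : V → V) (hr : Rooted G p) (hm : PMat G p m) :
    Setup (Option V) where
  H := leafH G m hm.inv
  μ := leafMu p m
  inv := by
    rintro (_ | v)
    · simp [leafMu]
    · by_cases h : v = p
      · simp [leafMu, h]
      · simp [leafMu, h, hm.mne h, hm.inv]
  ne := by
    rintro (_ | v)
    · simp [leafMu]
    · by_cases h : v = p
      · simp [leafMu, h]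
      · simp [leafMu, h, hm.ne h]
  Hne := by
    rintro (_ | v) h1
    · exact leafH_none h1
    · by_cases h : v = p
      · rw [leafMu, if_pos h] at h1
        exact leafH_none' h1
      · rw [leafMu, if_neg h, leafH_some] at h1
        exact h1.2 rfl
  deg := by
    rintro (_ | v)
    · have : E (leafH G m hm.inv) {none} univ = 0 := by
        rw [E_eq_zero_iff]
        intro a ha b _
        rw [mem_singleton] at ha; subst ha
        exact leafH_none
      rw [this]; norm_num
    · rw [leafH_deg hr hm]
  conn := by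
    classical
    intro A hA hne hu
    obtain ⟨x, hx⟩ : ∃ x, some x ∈ A := by
      obtain ⟨a, ha⟩ := hne
      rcases a with _ | x
      · exact ⟨p, hA none ha⟩
      · exact ⟨x, ha⟩
    obtain ⟨y, hy⟩ : ∃ y, some y ∉ A := by
      obtain ⟨a, ha⟩ : ∃ a, a ∉ A := by
        by_contra hcon
        push Not at hcon
        exact hu (eq_univ_iff_forall.2 hcon)
      rcases a with _ | y
      · refine ⟨p, fun h => ha ?_⟩
        have := hA _ h
        simpa [leafMu] using this
      · exact ⟨y, ha⟩
    obtain ⟨q⟩ := hr.conn.preconnected x y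
    obtain ⟨d, _, hd1, hd2⟩ := q.exists_boundary_dart {v | some v ∈ A} hx hy
    have hd1' : some d.fst ∈ A := hd1
    have hd2' : some d.snd ∉ A := hd2
    rw [E_pos_iff]
    refine ⟨some d.fst, hd1', some d.snd, by simpa using hd2', leafH_some.2 ⟨d.adj, ?_⟩⟩
    intro h
    have hdp : d.fst ≠ p := by
      intro h'
      rw [h', hm.mp] at h
      have := d.adj
      rw [h, h'] at this
      exact G.loopless.irrefl _ this
    have := hA _ hd1'
    rw [leafMu, if_neg hdp, ← h] at this
    exact hd2' this

section

variable {G : SimpleGraph V} {p : V} {m : V → V} {hr : Rooted G p} {hm : PMat G p m}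

lemma leaf_adj {x y : V} : (leafSetup G p m hr hm).H.Adj (some x) (some y) ↔
    G.Adj x y ∧ y ≠ m x := leafH_some (hinv := hm.inv)

lemma leaf_none {a : Option V} : ¬ (leafSetup G p m hr hm).H.Adj none a :=
  leafH_none (hinv := hm.inv)

lemma leaf_none' {a : Option V} : ¬ (leafSetup G p m hr hm).H.Adj a none :=
  leafH_none' (hinv := hm.inv)

lemma leaf_mu_none : (leafSetup G p m hr hm).μ none = some p := rfl

lemma leaf_mu_p : (leafSetup G p m hr hm).μ (some p) = none := by
  change leafMu p m (some p) = none
  simp [leafMu]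

lemma leaf_mu {v : V} (hv : v ≠ p) : (leafSetup G p m hr hm).μ (some v) = some (m v) := by
  change leafMu p m (some v) = some (m v)
  simp [leafMu, hv]

lemma leaf_adj_p {x : V} : (leafSetup G p m hr hm).H.Adj (some p) (some x) ↔ G.Adj p x := by
  rw [leaf_adj, hm.mp]
  exact ⟨fun h => h.1, fun h => ⟨h, h.ne'⟩⟩

/-- the root -/
lemma leaf_root {p1 p2 : V} (h1 : G.Adj p p1) (h2 : G.Adj p p2) (hne : p1 ≠ p2) :
    (leafSetup G p m hr hm).Root (some p) (some p1) (some p2) where
  a1 := leaf_adj_p.2 h1
  a2 := leaf_adj_p.2 h2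
  ne := by simpa using hne
  iso := by
    intro v
    rw [leaf_mu_p]; exact leaf_none
  full := by
    intro v hv
    rw [leaf_mu_p] at hv
    rcases v with _ | x
    · exact absurd rfl hv
    · exact leafH_deg hr hm x

end

end Pool.Agent.LTD
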