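import Pool.Agent.Lib.MP_a46439_co.RootDefs

set_option autoImplicit false
set_option linter.unusedSectionVars false

/-! Rooted graphs on subsets of a vertex set. -/

namespace Pool.Agent.LTD

open Finset

variable {V : Type} [Fintype V] [DecidableEq V]

/-- `(H, L, p)` is a rooted graph on the vertex set `L`. -/
structure ROn (H : SimpleGraph V) (L : Finset V) (p : V) : Prop where
  mem : p ∈ L
  conn : ∀ A ⊆ L, A.Nonempty → A ≠ L → 0 < E H A (L \ A)
  root : E H {p} L = 2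
  deg : ∀ v ∈ L, v ≠ p → E H {v} L = 3

/-- `S` is locating and dominating in `L`, apart from the vertices of `Q`. -/
def Loc (H : SimpleGraph V) (L Q S : Finset V) : Prop :=
  S ⊆ L ∧ (∀ v ∈ L, v ∉ Q → Dom H S v) ∧
    ∀ u ∈ L, ∀ v ∈ L, u ∉ S → v ∉ S → u ∉ Q → v ∉ Q → u ≠ v → Sep H S u v

/-- extra condition of the state `A*` -/
def ExA (H : SimpleGraph V) (L : Finset V) (p : V) (S : Finset V) : Prop :=
  p ∈ S ∧ ∀ v ∈ L, v ∉ S → ∃ w ∈ S, w ≠ p ∧ H.Adj v w

/-- extra condition of the state `γ` -/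
def ExG (H : SimpleGraph V) (p : V) (S : Finset V) : Prop := p ∈ S ∨ Dom H S p

def AOn (H : SimpleGraph V) (L : Finset V) (p : V) : Prop :=
  ∃ S, Loc H L ∅ S ∧ ExA H L p S ∧ 2 * S.card ≤ L.card + 1

def GOn (H : SimpleGraph V) (L : Finset V) (p : V) : Prop :=
  ∃ S, Loc H L {p} S ∧ ExG H p S ∧ 2 * S.card + 1 ≤ L.card

lemma Dom.mono {H : SimpleGraph V} {S S' : Finset V} {v : V} (h : Dom H S v) (hS : S ⊆ S') :
    Dom H S' v := by
  obtain ⟨u, hu, h⟩ := h
  exact ⟨u, hS hu, h⟩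

lemma Sep.mono {H : SimpleGraph V} {S S' : Finset V} {u v : V} (h : Sep H S u v) (hS : S ⊆ S') :
    Sep H S' u v := by
  obtain ⟨w, hw, h⟩ := h
  exact ⟨w, hS hw, h⟩

lemma Sep.symm {H : SimpleGraph V} {S : Finset V} {u v : V} (h : Sep H S u v) :
    Sep H S v u := by
  obtain ⟨w, hw, h⟩ := h
  exact ⟨w, hw, fun h' => h h'.symm⟩

lemma sep_left {H : SimpleGraph V} {S : Finset V} {u v w : V} (hw : w ∈ S) (h : H.Adj u w)
    (h' : ¬ H.Adj v w) : Sep H S u v := ⟨w, hw, fun h'' => h' (h''.1 h)⟩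

lemma sep_right {H : SimpleGraph V} {S : Finset V} {u v w : V} (hw : w ∈ S) (h : H.Adj v w)
    (h' : ¬ H.Adj u w) : Sep H S u v := ⟨w, hw, fun h'' => h' (h''.2 h)⟩

lemma E_single (H : SimpleGraph V) (v : V) (L : Finset V) [DecidablePred fun u => H.Adj v u] :
    E H {v} L = (L.filter fun u => H.Adj v u).card := by
  rw [card_filter]; unfold E; rw [sum_singleton]
  refine sum_congr rfl fun u _ => ?_
  split_ifs <;> rfl

/-- the graph induced on `L` -/
def ind (H : SimpleGraph V) (L : Finset V) : SimpleGraph {x // x ∈ L} where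
  Adj u v := H.Adj u.1 v.1
  symm := ⟨fun _ _ h => h.symm⟩
  loopless := ⟨fun _ h => H.loopless.irrefl _ h⟩

/-- embedding -/
def emb (L : Finset V) : {x // x ∈ L} ↪ V := ⟨Subtype.val, Subtype.val_injective⟩

lemma mem_emb {L : Finset V} {A : Finset {x // x ∈ L}} {v : V} :
    v ∈ A.map (emb L) ↔ ∃ h : v ∈ L, (⟨v, h⟩ : {x // x ∈ L}) ∈ A := by
  simp only [mem_map, emb, Function.Embedding.coeFn_mk]
  constructor
  · rintro ⟨x, hx, rfl⟩; exact ⟨x.2, hx⟩
  · rintro ⟨h, h'⟩; exact ⟨_, h', rfl⟩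

lemma emb_sub {L : Finset V} (A : Finset {x // x ∈ L}) : A.map (emb L) ⊆ L := by
  intro v hv
  exact (mem_emb.1 hv).1

lemma E_ind {H : SimpleGraph V} {L : Finset V} (A B : Finset {x // x ∈ L}) :
    E (ind H L) A B = E H (A.map (emb L)) (B.map (emb L)) := by
  unfold E
  rw [sum_map]
  refine sum_congr rfl fun u _ => ?_
  rw [sum_map]
  refine sum_congr rfl fun v _ => ?_
  rfl

lemma emb_univ {L : Finset V} : (univ : Finset {x // x ∈ L}).map (emb L) = L := by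
  ext v
  rw [mem_emb]
  simp

lemma emb_compl {L : Finset V} (A : Finset {x // x ∈ L}) :
    (Aᶜ).map (emb L) = L \ A.map (emb L) := by
  ext v
  rw [mem_emb, mem_sdiff, mem_emb]
  simp only [mem_compl]
  constructor
  · rintro ⟨h, h'⟩
    exact ⟨h, fun ⟨_, h''⟩ => h' h''⟩
  · rintro ⟨h, h'⟩
    exact ⟨h, fun h'' => h' ⟨h, h''⟩⟩

lemma emb_single {L : Finset V} (v : {x // x ∈ L}) :
    ({v} : Finset {x // x ∈ L}).map (emb L) = {v.1} := by
  rw [map_singleton]; rfl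

/-- connectedness from cuts -/
lemma connected_of_cuts {W : Type} [Fintype W] [DecidableEq W] {G : SimpleGraph W} (x : W)
    (h : ∀ A : Finset W, A.Nonempty → A ≠ univ → 0 < E G A Aᶜ) : G.Connected := by
  classical
  have key : ∀ y, G.Reachable x y := by
    by_contra hcon
    push Not at hcon
    obtain ⟨y, hy⟩ := hcon
    have h1 := h (univ.filter fun z => G.Reachable x z) ⟨x, by simp⟩ (by
      intro h'
      have : y ∈ univ.filter fun z => G.Reachable x z := by rw [h']; exact mem_univ _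
      exact hy (mem_filter.1 this).2)
    obtain ⟨u, hu, v, hv, huv⟩ := (E_pos_iff G).1 h1
    rw [mem_filter] at hu
    rw [mem_compl, mem_filter] at hv
    exact hv ⟨mem_univ _, hu.2.trans huv.reachable⟩
  exact { preconnected := fun u v => (key u).symm.trans (key v), nonempty := ⟨x⟩ }

lemma cuts_of_connected {W : Type} [Fintype W] [DecidableEq W] {G : SimpleGraph W}
    (hconn : G.Connected) {A : Finset W} (hne : A.Nonempty) (hu : A ≠ univ) :
    0 < E G A Aᶜ := by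
  rw [E_pos_iff]
  obtain ⟨a, ha⟩ := hne
  obtain ⟨b, hb⟩ : ∃ b, b ∉ A := by
    by_contra hcon
    push Not at hcon
    exact hu (eq_univ_iff_forall.2 hcon)
  obtain ⟨p⟩ := hconn.preconnected a b
  obtain ⟨d, _, hd1, hd2⟩ := p.exists_boundary_dart (A : Set W) ha hb
  exact ⟨d.fst, hd1, d.snd, by simpa using hd2, d.adj⟩

/-- a rooted graph is a rooted graph on `univ` -/
lemma Rooted.rOn {G : SimpleGraph V} {p : V} (h : Rooted G p) : ROn G univ p := by
  refine ⟨mem_univ _, ?_, h.root, fun v _ hv => h.deg v hv⟩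
  intro A _ hne hu
  rw [← compl_eq_univ_sdiff]
  exact cuts_of_connected h.conn hne hu

lemma ROn.rooted {H : SimpleGraph V} {L : Finset V} {p : V} (h : ROn H L p) :
    Rooted (ind H L) ⟨p, h.mem⟩ := by
  refine ⟨?_, ?_, ?_⟩
  · apply connected_of_cuts ⟨p, h.mem⟩
    intro A hne hu
    rw [E_ind, emb_compl]
    apply h.conn _ (emb_sub A)
    · obtain ⟨a, ha⟩ := hne
      exact ⟨a.1, mem_emb.2 ⟨a.2, ha⟩⟩
    · intro h'
      apply hu
      rw [eq_univ_iff_forall]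
      intro x
      have : x.1 ∈ A.map (emb L) := by rw [h']; exact x.2
      exact (mem_emb.1 this).2
  · rw [E_ind, emb_single, emb_univ]; exact h.root
  · intro v hv
    rw [E_ind, emb_single, emb_univ]
    exact h.deg v.1 v.2 fun h' => hv (Subtype.ext h')

lemma dom_ind {H : SimpleGraph V} {L : Finset V} {S : Finset {x // x ∈ L}} {v : {x // x ∈ L}}
    (h : Dom (ind H L) S v) : Dom H (S.map (emb L)) v.1 := by
  obtain ⟨u, hu, h⟩ := h
  exact ⟨u.1, mem_emb.2 ⟨u.2, hu⟩, h⟩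

lemma sep_ind {H : SimpleGraph V} {L : Finset V} {S : Finset {x // x ∈ L}}
    {u v : {x // x ∈ L}} (h : Sep (ind H L) S u v) : Sep H (S.map (emb L)) u.1 v.1 := by
  obtain ⟨w, hw, h⟩ := h
  exact ⟨w.1, mem_emb.2 ⟨w.2, hw⟩, h⟩

lemma aOn_of_ind {H : SimpleGraph V} {L : Finset V} {p : V} (hp : p ∈ L)
    (h : AStar (ind H L) ⟨p, hp⟩) : AOn H L p := by
  obtain ⟨S, h1, h2, h3, h4, h5⟩ := h
  have hmem : ∀ v (hv : v ∈ L), v ∉ S.map (emb L) → (⟨v, hv⟩ : {x // x ∈ L}) ∉ S :=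
    fun v hv h h' => h (mem_emb.2 ⟨hv, h'⟩)
  refine ⟨S.map (emb L), ⟨emb_sub S, ?_, ?_⟩, ⟨mem_emb.2 ⟨hp, h1⟩, ?_⟩, ?_⟩
  · intro v hv _
    exact dom_ind (h3 ⟨v, hv⟩)
  · intro u hu v hv huS hvS _ _ hne
    exact sep_ind (h4 ⟨u, hu⟩ ⟨v, hv⟩ (hmem u hu huS) (hmem v hv hvS)
      fun h => hne (congrArg Subtype.val h))
  · intro v hv hvS
    obtain ⟨w, hw, hwp, hvw⟩ := h5 ⟨v, hv⟩ (hmem v hv hvS)
    exact ⟨w.1, mem_emb.2 ⟨w.2, hw⟩, fun h => hwp (Subtype.ext h), hvw⟩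
  · rw [card_map]
    rw [Fintype.card_coe] at h2
    exact h2

lemma gOn_of_ind {H : SimpleGraph V} {L : Finset V} {p : V} (hp : p ∈ L)
    (h : Ga (ind H L) ⟨p, hp⟩) : GOn H L p := by
  obtain ⟨S, h2, h3, h4, h5⟩ := h
  have hmem : ∀ v (hv : v ∈ L), v ∉ S.map (emb L) → (⟨v, hv⟩ : {x // x ∈ L}) ∉ S :=
    fun v hv h h' => h (mem_emb.2 ⟨hv, h'⟩)
  refine ⟨S.map (emb L), ⟨emb_sub S, ?_, ?_⟩, ?_, ?_⟩
  · intro v hv hvp
    rw [mem_singleton] at hvp
    exact dom_ind (h3 ⟨v, hv⟩ fun h => hvp (congrArg Subtype.val h))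
  · intro u hu v hv huS hvS hup hvp hne
    rw [mem_singleton] at hup hvp
    exact sep_ind (h4 ⟨u, hu⟩ ⟨v, hv⟩ (hmem u hu huS) (hmem v hv hvS)
      (fun h => hup (congrArg Subtype.val h)) (fun h => hvp (congrArg Subtype.val h))
      fun h => hne (congrArg Subtype.val h))
  · rcases h5 with h5 | h5
    · exact Or.inl (mem_emb.2 ⟨hp, h5⟩)
    · exact Or.inr (dom_ind h5)
  · rw [card_map]
    rw [Fintype.card_coe] at h2
    exact h2

/-- the leaf case on subsets -/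
lemma leaf_on
    (hleaf : ∀ (V : Type) [Fintype V] [DecidableEq V] (G : SimpleGraph V) (p : V),
      Rooted G p → Bridgeless G → AStar G p ∧ Ga G p)
    {H : SimpleGraph V} {L : Finset V} {p : V} (h : ROn H L p)
    (hb : ∀ A ⊆ L, A.Nonempty → A ≠ L → 2 ≤ E H A (L \ A)) : AOn H L p ∧ GOn H L p := by
  have h1 := hleaf _ (ind H L) ⟨p, h.mem⟩ h.rooted (by
    intro A hne hu
    rw [E_ind, emb_compl]
    apply hb _ (emb_sub A)
    · obtain ⟨a, ha⟩ := hne
      exact ⟨a.1, mem_emb.2 ⟨a.2, ha⟩⟩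
    · intro h'
      apply hu
      rw [eq_univ_iff_forall]
      intro x
      have : x.1 ∈ A.map (emb L) := by rw [h']; exact x.2
      exact (mem_emb.1 this).2)
  exact ⟨aOn_of_ind h.mem h1.1, gOn_of_ind h.mem h1.2⟩

lemma AOn.aStar {G : SimpleGraph V} {p : V} (h : AOn G univ p) : AStar G p := by
  obtain ⟨S, ⟨_, h1, h2⟩, ⟨h3, h4⟩, h5⟩ := h
  refine ⟨S, h3, by rw [card_univ] at h5; exact h5, fun v => h1 v (mem_univ _) (notMem_empty _),
    fun u v hu hv hne => h2 u (mem_univ _) v (mem_univ _) hu hv (notMem_empty _)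
      (notMem_empty _) hne, fun v hv => h4 v (mem_univ _) hv⟩

lemma GOn.ga {G : SimpleGraph V} {p : V} (h : GOn G univ p) : Ga G p := by
  obtain ⟨S, ⟨_, h1, h2⟩, h4, h5⟩ := h
  refine ⟨S, by rw [card_univ] at h5; exact h5, fun v hv => h1 v (mem_univ _) (by simpa using hv),
    fun u v hu hv hup hvp hne => h2 u (mem_univ _) v (mem_univ _) hu hv (by simpa using hup)
      (by simpa using hvp) hne, h4⟩

end Pool.Agent.LTD
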