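import Pool.Agent.Lib.MP_a46439_co.LeafPM
import Pool.Agent.Lib.MP_a46439_co.LeafSetup
import Pool.Agent.Lib.MP_a46439_co.RootBase

set_option autoImplicit false
set_option linter.unusedSectionVars false

/-! Translations from the set-up of a rooted graph to the states `A*` and `γ`. -/

namespace Pool.Agent.LTD

open Finset

variable {V : Type} [Fintype V] [DecidableEq V]

section

variable {G : SimpleGraph V} {p : V} {m : V → V} (hR : Rooted G p) (hm : PMat G p m)

lemma mem_optW {v : V} : some v ∈ univ \ (leafSetup G p m hR hm).nd (some p) ↔ v ≠ p := by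
  rw [mem_sdiff, Setup.mem_nd, leaf_mu_p]
  simp

/-- the set of real vertices -/
def real (S : Finset (Option V)) : Finset V := univ.filter fun v => some v ∈ S

lemma mem_real {S : Finset (Option V)} {v : V} : v ∈ real S ↔ some v ∈ S := by
  simp [real]

lemma card_real {S : Finset (Option V)} (h : none ∉ S) : (real S).card = S.card := by
  have : S = (real S).map ⟨some, Option.some_injective _⟩ := by
    ext x
    simp only [mem_map, Function.Embedding.coeFn_mk]
    rcases x with _ | v
    · simp [h]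
    · simp [mem_real]
  conv_rhs => rw [this]
  rw [card_map]

/-- transversals have half of the vertices -/
lemma card_cov {M : Setup (Option V)} {A S X : Finset (Option V)} (hA : M.Mc A)
    (h : M.IsCov A S X) : 2 * S.card = A.card := by
  classical
  obtain ⟨h1, h2, _, _⟩ := h
  have h3 : (A \ S).card = S.card := by
    apply card_bij (fun v _ => M.μ v)
    · intro v hv
      rw [mem_sdiff] at hv
      by_contra h'
      exact hv.2 ((h2 v hv.1).2 h')
    · intro v _ w _ h'
      have := congrArg M.μ h'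
      rwa [M.inv, M.inv] at this
    · intro v hv
      refine ⟨M.μ v, ?_, M.inv v⟩
      rw [mem_sdiff]
      exact ⟨hA v (h1 hv), (h2 v (h1 hv)).1 hv⟩
  have h4 := card_sdiff_add_card_eq_card h1
  omega

/-- the common separation argument -/
lemma sep_cov {A S X : Finset (Option V)} (h : (leafSetup G p m hR hm).IsCov A S X) {T : Finset V}
    (hT : ∀ v, some v ∈ S → v ∈ T) {u v : V} (hu : u ≠ p) (hv : v ≠ p)
    (huA : some u ∈ A) (hvA : some v ∈ A) (huS : some u ∉ S) (hvS : some v ∉ S) (hne : u ≠ v) :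
    Sep G T u v := by
  obtain ⟨h1, h2, _, h4⟩ := h
  have hmu : some (m u) ∈ S := by
    by_contra h'
    apply huS
    rw [h2 _ huA, leaf_mu hu]; exact h'
  have hmv : some (m v) ∈ S := by
    by_contra h'
    apply hvS
    rw [h2 _ hvA, leaf_mu hv]; exact h'
  by_contra hcon
  unfold Sep at hcon
  push Not at hcon
  have k1 : G.Adj v (m u) := (hcon _ (hT _ hmu)).1 (hm.adj u hu)
  have k2 : G.Adj u (m v) := (hcon _ (hT _ hmv)).2 (hm.adj v hv)
  have k3 : (leafSetup G p m hR hm).Psi (some (m v)) (some u) := by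
    refine ⟨?_, ?_⟩
    · rw [leaf_adj, hm.inv]; exact ⟨k2.symm, hne⟩
    · rw [leaf_mu (hm.mne hv), leaf_mu hu, hm.inv, leaf_adj]
      refine ⟨k1, fun h' => hne ?_⟩
      have := congrArg m h'
      rwa [hm.inv, hm.inv] at this
  exact huS (h4 _ hmv _ k3)

/-- **Translation of covers of everything.** -/
theorem aStar_of_cov (h : (leafSetup G p m hR hm).Cov univ) : AStar G p := by
  classical
  obtain ⟨S, hS⟩ := h
  have hc := card_cov (M := leafSetup G p m hR hm) Setup.Mc_univ hS
  have hS' := hS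
  obtain ⟨_, h2, h3, h4⟩ := hS'
  have hnone : none ∉ S := by
    intro h'
    obtain ⟨u, _, hu⟩ := h3 _ h' (notMem_empty _)
    exact leaf_none hu
  have hp : some p ∈ S := by
    rw [h2 _ (mem_univ _), leaf_mu_p]; exact hnone
  have hmem : ∀ v, v ≠ p → some v ∉ S → some (m v) ∈ S := by
    intro v hv hvS
    by_contra h'
    apply hvS
    rw [h2 _ (mem_univ _), leaf_mu hv]; exact h'
  have hdom : ∀ v, v ≠ p → some v ∉ S → m v ∈ real S ∧ m v ≠ p ∧ G.Adj v (m v) :=
    fun v hv hvS => ⟨mem_real.2 (hmem v hv hvS), hm.mne hv, hm.adj v hv⟩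
  refine ⟨real S, mem_real.2 hp, ?_, ?_, ?_, ?_⟩
  · rw [card_real hnone]
    rw [card_univ, Fintype.card_option] at hc
    omega
  · intro v
    by_cases hvS : some v ∈ S
    · obtain ⟨x, hx, hvx⟩ := h3 _ hvS (notMem_empty _)
      rcases x with _ | u
      · exact absurd hvx (leaf_none')
      · exact ⟨u, mem_real.2 hx, ((leaf_adj).1 hvx).1⟩
    · have hv : v ≠ p := by rintro rfl; exact hvS hp
      obtain ⟨k1, _, k3⟩ := hdom v hv hvS
      exact ⟨_, k1, k3⟩
  · intro u v hu hv hne
    rw [mem_real] at hu hv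
    have hup : u ≠ p := by rintro rfl; exact hu hp
    have hvp : v ≠ p := by rintro rfl; exact hv hp
    exact sep_cov hR hm hS (fun v hv => mem_real.2 hv) hup hvp (mem_univ _) (mem_univ _) hu hv hne
  · intro v hv
    rw [mem_real] at hv
    have hvp : v ≠ p := by rintro rfl; exact hv hp
    obtain ⟨k1, k2, k3⟩ := hdom v hvp hv
    exact ⟨_, k1, k2, k3⟩

/-- **Translation of covers of the region that contain a neighbour of the root** (type F). -/
theorem ga_of_F {S : Finset (Option V)} {q : V}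
    (hS : (leafSetup G p m hR hm).IsCov (univ \ (leafSetup G p m hR hm).nd (some p)) S ∅) (hq : G.Adj p q)
    (hqS : some q ∈ S) : Ga G p := by
  classical
  set M := leafSetup G p m hR hm with hM
  have hMc : M.Mc (univ \ M.nd (some p)) := Setup.Mc_univ.sdiff (Setup.Mc_nd _)
  have hc := card_cov hMc hS
  have hc2 : (univ \ M.nd (some p)).card + 2 = Fintype.card V + 1 := by
    have h1 := card_sdiff_add_card_eq_card (subset_univ (M.nd (some p)))
    rw [Setup.nd_card, card_univ, Fintype.card_option] at h1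
    exact h1
  have hS' := hS
  obtain ⟨h1, h2, h3, h4⟩ := hS'
  have hnone : none ∉ S := by
    intro h'
    have := (mem_sdiff.1 (h1 h')).2
    rw [Setup.mem_nd, hM, leaf_mu_p] at this
    simp at this
  have hpS : some p ∉ S := fun h' => (mem_optW hR hm).1 (h1 h') rfl
  have hmem : ∀ v, v ≠ p → some v ∉ S → some (m v) ∈ S := by
    intro v hv hvS
    by_contra h'
    apply hvS
    rw [h2 _ ((mem_optW hR hm).2 hv), hM, leaf_mu hv]; exact h'
  refine ⟨real S, ?_, ?_, ?_, Or.inr ⟨q, mem_real.2 hqS, hq⟩⟩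
  · rw [card_real hnone]; omega
  · intro v hv
    by_cases hvS : some v ∈ S
    · obtain ⟨x, hx, hvx⟩ := h3 _ hvS (notMem_empty _)
      rcases x with _ | u
      · exact absurd hvx (leaf_none')
      · exact ⟨u, mem_real.2 hx, ((leaf_adj).1 hvx).1⟩
    · exact ⟨_, mem_real.2 (hmem v hv hvS), hm.adj v hv⟩
  · intro u v hu hv hup hvp hne
    rw [mem_real] at hu hv
    exact sep_cov hR hm hS (fun v hv => mem_real.2 hv) hup hvp ((mem_optW hR hm).2 hup)
      ((mem_optW hR hm).2 hvp) hu hv hne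

/-- **Translation of type C.** `S` covers the region without the node of `p2`, contains
`x1 = m p1`, and `x1` is adjacent to `x2 = m p2`. -/
theorem ga_of_C {S : Finset (Option V)} {p1 p2 : V} (h1p : G.Adj p p1) (h2p : G.Adj p p2)
    (hne12 : p1 ≠ p2)
    (hS : (leafSetup G p m hR hm).IsCov ((univ \ (leafSetup G p m hR hm).nd (some p)) \
      (leafSetup G p m hR hm).nd (some p2)) S ∅)
    (hx1 : some (m p1) ∈ S) (hx : (leafSetup G p m hR hm).H.Adj (some (m p1)) (some (m p2))) : Ga G p := by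
  classical
  set M := leafSetup G p m hR hm with hM
  have hR' : M.Root (some p) (some p1) (some p2) := leaf_root h1p h2p hne12
  have hp1 : p1 ≠ p := h1p.ne'
  have hp2 : p2 ≠ p := h2p.ne'
  have hMcW : M.Mc (univ \ M.nd (some p)) := Setup.Mc_univ.sdiff (Setup.Mc_nd _)
  have hMc : M.Mc ((univ \ M.nd (some p)) \ M.nd (some p2)) := hMcW.sdiff (Setup.Mc_nd _)
  have hc := card_cov hMc hS
  have hc2 : ((univ \ M.nd (some p)) \ M.nd (some p2)).card + 4 = Fintype.card V + 1 := by
    have h1 := card_sdiff_add_card_eq_card (subset_univ (M.nd (some p)))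
    rw [Setup.nd_card, card_univ, Fintype.card_option] at h1
    have h2 := card_sdiff_add_card_eq_card (hMcW.nd_subset ((mem_optW hR hm).2 hp2))
    rw [Setup.nd_card] at h2
    omega
  have hS' := hS
  obtain ⟨h1, h2, h3, h4⟩ := hS'
  have hmemR : ∀ v, some v ∈ (univ \ M.nd (some p)) \ M.nd (some p2) ↔
      v ≠ p ∧ v ≠ p2 ∧ v ≠ m p2 := by
    intro v
    rw [mem_sdiff, mem_optW hR hm, Setup.mem_nd, hM, leaf_mu hp2]
    simp only [Option.some.injEq, not_or]
  have hnone : none ∉ S := by
    intro h'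
    have := (mem_sdiff.1 (mem_sdiff.1 (h1 h')).1).2
    rw [Setup.mem_nd, hM, leaf_mu_p] at this
    simp at this
  have hSv : ∀ v, some v ∈ S → v ≠ p ∧ v ≠ p2 ∧ v ≠ m p2 := fun v hv => (hmemR v).1 (h1 hv)
  have hmem : ∀ v, v ≠ p → v ≠ p2 → v ≠ m p2 → some v ∉ S → some (m v) ∈ S := by
    intro v hv hv2 hv3 hvS
    by_contra h'
    apply hvS
    rw [h2 _ ((hmemR v).2 ⟨hv, hv2, hv3⟩), hM, leaf_mu hv]; exact h'
  have hx' := (leaf_adj).1 hx
  have hx1' := hSv _ hx1
  have hp1x2 : p1 ≠ m p2 := by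
    intro h'
    apply hx'.2
    rw [hm.inv, h']
  have hp1S : some p1 ∉ S := by
    intro h'
    have := (h2 _ (h1 h')).1 h'
    rw [hM, leaf_mu hp1] at this
    exact this hx1
  -- the supporting neighbour of `x1`
  obtain ⟨y, hy, hx1y⟩ : ∃ y, some y ∈ S ∧ M.H.Adj (some (m p1)) (some y) := by
    obtain ⟨x, hx, hvx⟩ := h3 _ hx1 (notMem_empty _)
    rcases x with _ | u
    · exact absurd hvx (leaf_none')
    · exact ⟨u, hx, hvx⟩
  have hyx2 : y ≠ m p2 := (hSv y hy).2.2
  -- neighbours of `x1` in `G`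
  have hnx1 : ∀ z, G.Adj z (m p1) → z = p1 ∨ z = m p2 ∨ z = y := by
    intro z hz
    by_cases hzp : z = p1
    · exact Or.inl hzp
    · right
      have h5 : M.H.Adj (some (m p1)) (some z) := by
        rw [hM, leaf_adj, hm.inv]; exact ⟨hz.symm, hzp⟩
      rcases Setup.nbr_two hx hx1y (fun h' => hyx2 (Option.some.inj h').symm) h5 with h6 | h6
      · exact Or.inl (Option.some.inj h6)
      · exact Or.inr (Option.some.inj h6)
  have hnp : ∀ z, G.Adj z p → z = p1 ∨ z = p2 := by
    intro z hz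
    have h5 : M.H.Adj (some p) (some z) := by
      rw [hM, leaf_adj, hm.mp]; exact ⟨hz.symm, hz.ne⟩
    rcases hR'.nbr h5 with h6 | h6
    · exact Or.inl (Option.some.inj h6)
    · exact Or.inr (Option.some.inj h6)
  have hpr : p ∉ real S := by
    rw [mem_real]; intro h'; exact (hSv p h').1 rfl
  set T := insert p (real S) with hT
  have hTS : ∀ v, some v ∈ S → v ∈ T := fun v hv => mem_insert_of_mem (mem_real.2 hv)
  have hTp : p ∈ T := mem_insert_self _ _
  have hT' : ∀ v, v ∉ T → v ≠ p ∧ some v ∉ S := by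
    intro v hv
    refine ⟨fun h' => hv (h' ▸ hTp), fun h' => hv (hTS v h')⟩
  -- the code of `p2`
  have sep2 : ∀ v, v ∉ T → v ≠ p2 → Sep G T p2 v := by
    intro v hv hv2
    by_cases hv1 : v = p1
    · subst hv1
      refine sep_right (hTS _ hx1) (hm.adj v hp1) ?_
      intro h'
      rcases hnx1 p2 h' with h5 | h5 | h5
      · exact hne12 h5.symm
      · exact hm.ne hp2 h5.symm
      · exact (hSv y hy).2.1 h5.symm
    · refine sep_left hTp h2p.symm ?_
      intro h'
      rcases hnp v h' with h5 | h5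
      · exact hv1 h5
      · exact hv2 h5
  -- the code of `x2`
  have sepx : ∀ v, v ∉ T → v ≠ p2 → v ≠ m p2 → Sep G T (m p2) v := by
    intro v hv hv2 hv3
    by_cases hv1 : v = p1
    · subst hv1
      refine sep_right hTp h1p.symm ?_
      intro h'
      rcases hnp _ h' with h5 | h5
      · exact hp1x2 h5.symm
      · exact hm.ne hp2 h5
    · refine sep_left (hTS _ hx1) hx'.1.symm ?_
      intro h'
      rcases hnx1 v h' with h5 | h5 | h5
      · exact hv1 h5
      · exact hv3 h5
      · exact (hT' v hv).2 (h5 ▸ hy)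
  refine ⟨T, ?_, ?_, ?_, Or.inl hTp⟩
  · rw [hT, card_insert_of_notMem hpr, card_real hnone]; omega
  · intro v hv
    by_cases hvS : some v ∈ S
    · obtain ⟨x, hx, hvx⟩ := h3 _ hvS (notMem_empty _)
      rcases x with _ | u
      · exact absurd hvx (leaf_none')
      · exact ⟨u, hTS _ hx, ((leaf_adj).1 hvx).1⟩
    · by_cases hv2 : v = p2
      · subst hv2; exact ⟨p, hTp, h2p.symm⟩
      · by_cases hv3 : v = m p2
        · subst hv3; exact ⟨_, hTS _ hx1, hx'.1.symm⟩
        · exact ⟨_, hTS _ (hmem v hv hv2 hv3 hvS), hm.adj v hv⟩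
  · intro u v hu hv hup hvp hne
    obtain ⟨_, huS⟩ := hT' u hu
    obtain ⟨_, hvS⟩ := hT' v hv
    by_cases hu2 : u = p2
    · subst hu2; exact sep2 v hv hne.symm
    · by_cases hv2 : v = p2
      · subst hv2; exact (sep2 u hu hne).symm
      · by_cases hu3 : u = m p2
        · subst hu3; exact sepx v hv hv2 hne.symm
        · by_cases hv3 : v = m p2
          · subst hv3; exact (sepx u hu hu2 hne).symm
          · exact sep_cov hR hm hS hTS hup hvp ((hmemR u).2 ⟨hup, hu2, hu3⟩)
              ((hmemR v).2 ⟨hvp, hv2, hv3⟩) huS hvS hne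

end

/-- a matching of one side of a small cut, as an involution -/
theorem pm_part {G : SimpleGraph V} {p : V} (hr : Rooted G p) (hb : Bridgeless G)
    {L : Finset V} (hp : p ∉ L) (hcut : E G L Lᶜ ≤ 2) :
    ∃ m : V → V, (∀ v, m (m v) = v) ∧ (∀ v ∈ L, G.Adj v (m v) ∧ m v ∈ L) ∧
      ∀ v, v ∉ L → m v = v := by
  classical
  obtain ⟨m, hm⟩ := pm_side hr hb hp hcut
  refine ⟨fun v => if v ∈ L then m v else v, ?_, ?_, ?_⟩
  · intro v
    by_cases hv : v ∈ L
    · simp only [hv, if_true, (hm v hv).1]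
      exact (hm v hv).2.2
    · simp [hv]
  · intro v hv
    simp only [hv, if_true]
    exact ⟨(hm v hv).2.1, (hm v hv).1⟩
  · intro v hv
    simp [hv]

/-- a rooted bridgeless graph has a perfect matching of `G - p` -/
theorem exists_pmat {G : SimpleGraph V} {p : V} (hr : Rooted G p) (hb : Bridgeless G) :
    ∃ m, PMat G p m := by
  have hcut : E G {p}ᶜ ({p}ᶜ)ᶜ ≤ 2 := by
    rw [compl_compl, E_comm]
    have := hr.root
    have h1 : E G {p} {p}ᶜ ≤ E G {p} univ := E_mono G (subset_refl _) (subset_univ _)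
    omega
  obtain ⟨m, h1, h2, h3⟩ := pm_part hr hb (by simp : p ∉ ({p} : Finset V)ᶜ) hcut
  exact ⟨m, h1, h3 p (by simp), fun v hv => (h2 v (by simpa using hv)).1⟩

/-- the two neighbours of the root -/
lemma Rooted.nbrs {G : SimpleGraph V} {p : V} (hr : Rooted G p) :
    ∃ p1 p2, p1 ≠ p2 ∧ G.Adj p p1 ∧ G.Adj p p2 ∧ ∀ v, G.Adj p v → v = p1 ∨ v = p2 := by
  classical
  have h1 := hr.root
  have h2 : E G {p} univ = (univ.filter fun y => G.Adj p y).card := by
    unfold E
    rw [sum_singleton, card_filter]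
  rw [h2] at h1
  obtain ⟨p1, p2, hne, hF⟩ := card_eq_two.1 h1
  have hm : ∀ v, G.Adj p v ↔ v = p1 ∨ v = p2 := by
    intro v
    have : v ∈ univ.filter (fun y => G.Adj p y) ↔ v ∈ ({p1, p2} : Finset V) := by rw [hF]
    simpa using this
  exact ⟨p1, p2, hne, (hm _).2 (Or.inl rfl), (hm _).2 (Or.inr rfl), fun v hv => (hm v).1 hv⟩

/-- the state `A*` of bridgeless rooted graphs -/
theorem astar_of_pmat {G : SimpleGraph V} {p : V} {m : V → V} (hr : Rooted G p)
    (hm : PMat G p m) : AStar G p := by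
  obtain ⟨p1, p2, hne, hp1, hp2, _⟩ := hr.nbrs
  have hroot := leaf_root (hr := hr) (hm := hm) hp1 hp2 hne
  exact aStar_of_cov hr hm (Setup.cov_univ hroot.d_univ.le hroot.good)

/-- the state `γ` from the outcome of the analysis of the set-up -/
theorem ga_of_out {G : SimpleGraph V} {p : V} {m : V → V} {hr : Rooted G p} {hm : PMat G p m}
    {p1 p2 : V} (h1 : G.Adj p p1) (h2 : G.Adj p p2) (hne : p1 ≠ p2)
    (h : (leafSetup G p m hr hm).Out (some p) (some p1) (some p2)) : Ga G p := by
  rcases h with ⟨S, hS | hS, hcov⟩ | ⟨hadj, S, hS, hcov⟩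
  · exact ga_of_F hr hm hcov h1 hS
  · exact ga_of_F hr hm hcov h2 hS
  · rw [leaf_mu h1.ne'] at hadj hS
    rw [leaf_mu h2.ne'] at hadj
    exact ga_of_C hr hm h1 h2 hne hcov hS hadj

end Pool.Agent.LTD
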