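import Pool.Agent.Lib.MP_a46439_co.Cubic

set_option autoImplicit false

/-! Petersen's theorem: bridgeless cubic graphs have perfect matchings. -/

namespace Pool.Agent.LTD

open Finset

variable {V : Type} [Fintype V] [DecidableEq V]

lemma E_univ_cubic {G : SimpleGraph V} (hdeg : ∀ v, E G {v} univ = 3) (A : Finset V) :
    E G A univ = 3 * A.card := by
  induction A using Finset.induction_on with
  | empty => simp
  | insert a A ha ih =>
    have h3 : insert a A = {a} ∪ A := by ext; simp
    rw [card_insert_of_notMem ha, h3, E_union_left _ (by simpa using ha), ih, hdeg]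
    ring

theorem petersen {G : SimpleGraph V} (hdeg : ∀ v, E G {v} univ = 3)
    (hbr : ∀ u v, G.Adj u v → ¬ G.IsBridge s(u, v)) :
    ∃ μ : V → V, (∀ v, μ (μ v) = v) ∧ ∀ v, G.Adj v (μ v) := by
  classical
  have hev : Even (Fintype.card V) := by
    have h1 := E_univ_cubic hdeg (univ : Finset V)
    obtain ⟨k, hk⟩ := E_even G (univ : Finset V)
    rw [card_univ] at h1
    rw [Nat.even_iff]; omega
  rcases friendly_tutte G hev with ⟨m, h1, h2⟩ | ⟨U, C, hUC, hC, hCd⟩
  · exact ⟨m, h2, h1⟩
  exfalso
  have hcU : ∀ c ∈ C, 3 ≤ E G U c := by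
    intro c hc
    obtain ⟨hodd, hdis, hcl⟩ := hC c hc
    have h1 := E_univ_cubic hdeg c
    have h2 : E G c univ = E G c c + E G c (univ \ c) := E_sdiff G (subset_univ _) _
    obtain ⟨k, hk⟩ := E_even G c
    obtain ⟨k', hk'⟩ := hodd
    have h3 : E G c (univ \ c) = E G c U := by
      have h4 : U ⊆ univ \ c := by
        intro x hx
        exact mem_sdiff.2 ⟨mem_univ _, Finset.disjoint_right.1 hdis hx⟩
      rw [E_sdiff G h4 c]
      have : E G c ((univ \ c) \ U) = 0 := by
        rw [E_eq_zero_iff]
        intro x hx y hy hxy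
        rw [mem_sdiff, mem_sdiff] at hy
        rcases hcl x hx y hxy with h | h
        · exact hy.1.2 h
        · exact hy.2 h
      omega
    rw [E_comm]
    by_contra hlt
    have h5 : E G c (univ \ c) = 1 := by omega
    have h6 : 0 < E G c (univ \ c) := by omega
    obtain ⟨u, hu, v, hv, huv⟩ := (E_pos_iff G).1 h6
    apply hbr u v huv
    rw [SimpleGraph.isBridge_iff]
    rintro ⟨p⟩
    have hv' : v ∉ c := (mem_sdiff.1 hv).2
    obtain ⟨d, _, hd1, hd2⟩ := p.exists_boundary_dart (c : Set V) hu hv'
    have hadj := d.adj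
    rw [SimpleGraph.deleteEdges_adj] at hadj
    obtain ⟨hadj1, hadj2⟩ := hadj
    have hd1' : d.fst ∈ c := hd1
    have hd2' : d.snd ∈ univ \ c := mem_sdiff.2 ⟨mem_univ _, hd2⟩
    -- two distinct crossing pairs
    have h7 : E G c (univ \ c) = ((c ×ˢ (univ \ c)).filter fun p => G.Adj p.1 p.2).card := by
      rw [card_filter, sum_product]; rfl
    rw [h7, card_eq_one] at h5
    obtain ⟨q, hq⟩ := h5
    have h8 : (u, v) ∈ (c ×ˢ (univ \ c)).filter fun p => G.Adj p.1 p.2 := by
      rw [mem_filter, mem_product]; exact ⟨⟨hu, hv⟩, huv⟩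
    have h9 : (d.fst, d.snd) ∈ (c ×ˢ (univ \ c)).filter fun p => G.Adj p.1 p.2 := by
      rw [mem_filter, mem_product]; exact ⟨⟨hd1', hd2'⟩, hadj1⟩
    rw [hq, mem_singleton] at h8 h9
    rw [← h8] at h9
    rw [Prod.ext_iff] at h9
    apply hadj2
    rw [h9.1, h9.2]
    exact Set.mem_singleton _
  have hsum : ∑ c ∈ C, E G U c ≤ E G U univ := by
    have h1 : E G U (C.biUnion id) = ∑ c ∈ C, E G U c := by
      clear hUC hcU
      induction C using Finset.induction_on with
      | empty => simp
      | insert a C ha ih =>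
        rw [biUnion_insert, id, E_union_right, sum_insert ha, ih]
        · intro c hc; exact hC c (mem_insert_of_mem hc)
        · intro c hc c' hc'; exact hCd c (mem_insert_of_mem hc) c' (mem_insert_of_mem hc')
        · rw [disjoint_biUnion_right]
          intro c hc
          exact hCd a (mem_insert_self _ _) c (mem_insert_of_mem hc) (by rintro rfl; exact ha hc)
    rw [← h1]
    exact E_mono G (subset_refl _) (subset_univ _)
  have h2 : 3 * C.card ≤ ∑ c ∈ C, E G U c := by
    rw [mul_comm, ← smul_eq_mul, ← sum_const]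
    exact sum_le_sum hcU
  have h3 := E_univ_cubic hdeg U
  omega

end Pool.Agent.LTD
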