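import Pool.Agent.Lib.MP_a46439_co.RootSurg2
import Pool.Agent.Lib.MP_a46439_co.Petersen

set_option autoImplicit false
set_option linter.unusedSectionVars false

/-! All rooted graphs from the bridgeless ones, and the theorem for all cubic graphs. -/

namespace Pool.Agent.LTD

open Finset

/-- the leaf hypothesis -/
def Leaf : Prop := ∀ (V : Type) [Fintype V] [DecidableEq V] (G : SimpleGraph V) (p : V),
  Rooted G p → Bridgeless G → AStar G p ∧ Ga G p

variable {V : Type} [Fintype V] [DecidableEq V]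

namespace Cfg

variable {H : SimpleGraph V} {L : Finset V} {p : V} {C : Finset V} {u w b : V}

/-- The case that the root, `u` and `b` form a triangle. -/
theorem case2 (hR : ROn H L p) (h : Cfg H L p C u w p b) (hpb : H.Adj p b)
    (IH : ∀ (H' : SimpleGraph V) (L' : Finset V), L'.card < L.card → ∀ p', ROn H' L' p' →
      AOn H' L' p' ∧ GOn H' L' p') :
    AOn H L p ∧ GOn H L p := by
  classical
  have hpC := h.pC
  -- neighbours of `p`
  have hnp : ∀ y ∈ L, H.Adj p y → y = u ∨ y = b := by
    have h1 := hR.root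
    rw [E_single] at h1
    have h2 : ({u, b} : Finset V) = L.filter fun y => H.Adj p y := by
      apply eq_of_subset_of_card_le
      · intro y hy
        rw [mem_insert, mem_singleton] at hy
        rw [mem_filter]
        rcases hy with rfl | rfl
        · exact ⟨h.uL, h.ua.symm⟩
        · exact ⟨h.bL, hpb⟩
      · rw [h1, card_pair h.bu.symm]
    intro y hy hpy
    have h3 : y ∈ L.filter fun y => H.Adj p y := mem_filter.2 ⟨hy, hpy⟩
    rw [← h2, mem_insert, mem_singleton] at h3
    exact h3
  -- neighbours of `b`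
  obtain ⟨b', hb'L, hb'p, hb'u, hbb', hnb⟩ : ∃ b' ∈ L, b' ≠ p ∧ b' ≠ u ∧ H.Adj b b' ∧
      ∀ y ∈ L, H.Adj b y → y = p ∨ y = u ∨ y = b' := by
    have h1 := hR.deg b h.bL h.ab.symm
    rw [E_single] at h1
    set F := L.filter fun y => H.Adj b y with hF
    have hpF : p ∈ F := mem_filter.2 ⟨hR.mem, hpb.symm⟩
    have huF : u ∈ F.erase p := mem_erase.2 ⟨h.up, mem_filter.2 ⟨h.uL, h.ub.symm⟩⟩
    have h2 : ((F.erase p).erase u).card = 1 := by
      rw [card_erase_of_mem huF, card_erase_of_mem hpF, h1]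
    obtain ⟨b', hb'⟩ := card_eq_one.1 h2
    have h3 : b' ∈ (F.erase p).erase u := by rw [hb']; exact mem_singleton_self _
    rw [mem_erase, mem_erase, hF, mem_filter] at h3
    refine ⟨b', h3.2.2.1, h3.2.1, h3.1, h3.2.2.2, ?_⟩
    intro y hy hby
    by_cases hyp : y = p
    · exact Or.inl hyp
    · by_cases hyu : y = u
      · exact Or.inr (Or.inl hyu)
      · have h4 : y ∈ (F.erase p).erase u :=
          mem_erase.2 ⟨hyu, mem_erase.2 ⟨hyp, mem_filter.2 ⟨hy, hby⟩⟩⟩
        rw [hb', mem_singleton] at h4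
        exact Or.inr (Or.inr h4)
  have hb'b : b' ≠ b := hbb'.ne'
  have hb'C : b' ∉ C := fun h' => h.bu (h.only b' h' b h.bL h.bC hbb'.symm).2
  set D := L \ insert p (insert u (insert b C)) with hD
  have hmemD : ∀ x, x ∈ D ↔ x ∈ L ∧ x ≠ p ∧ x ≠ u ∧ x ≠ b ∧ x ∉ C := by
    intro x
    rw [hD, mem_sdiff, mem_insert, mem_insert, mem_insert, not_or, not_or, not_or]
  have hB : Br H L p D b b' := by
    refine ⟨sdiff_subset, fun h' => ((hmemD p).1 h').2.1 rfl,
      (hmemD b').2 ⟨hb'L, hb'p, hb'u, hb'b, hb'C⟩, h.bL,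
      fun h' => ((hmemD b).1 h').2.2.2.1 rfl, hbb'.symm, ?_⟩
    intro x hx y hy hyD hxy
    obtain ⟨hxL, hxp, hxu, hxb, hxC⟩ := (hmemD x).1 hx
    by_cases hyp : y = p
    · rw [hyp] at hxy
      rcases hnp x hxL hxy.symm with h1 | h1
      · exact absurd h1 hxu
      · exact absurd h1 hxb
    · by_cases hyu : y = u
      · rw [hyu] at hxy
        exact absurd hxy (h.not_u hxL hxC hxp hxb)
      · by_cases hyb : y = b
        · rw [hyb] at hxy
          rcases hnb x hxL hxy.symm with h1 | h1 | h1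
          · exact absurd h1 hxp
          · exact absurd h1 hxu
          · exact ⟨h1, hyb⟩
        · by_cases hyC : y ∈ C
          · exact absurd (h.only y hyC x hxL hxC hxy.symm).2 hxu
          · exact absurd ((hmemD y).2 ⟨hy, hyp, hyu, hyb, hyC⟩) hyD
  have hcard : L.card = C.card + D.card + 3 := by
    have h1 : insert p (insert u (insert b C)) ⊆ L :=
      insert_subset hR.mem (insert_subset h.uL (insert_subset h.bL h.CL))
    have h2 := card_sdiff_add_card_eq_card h1
    rw [card_insert_of_notMem, card_insert_of_notMem, card_insert_of_notMem h.bC, ← hD] at h2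
    · omega
    · rw [mem_insert, not_or]; exact ⟨h.bu.symm, h.uC⟩
    · rw [mem_insert, mem_insert, not_or, not_or]; exact ⟨h.up.symm, h.ab, hpC⟩
  obtain ⟨_, hG1⟩ := IH H C (by omega) w (h.toBr.rOn hR)
  obtain ⟨_, hG2⟩ := IH H D (by omega) b' (hB.rOn hR)
  obtain ⟨T, a1, a2, a3⟩ := hG1
  obtain ⟨T', b1, b2, b3⟩ := hG2
  have hcases : ∀ x ∈ L, x = p ∨ x = u ∨ x = b ∨ x ∈ C ∨ x ∈ D := by
    intro x hx
    by_cases h1 : x = p
    · exact Or.inl h1
    · by_cases h2 : x = u
      · exact Or.inr (Or.inl h2)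
      · by_cases h3 : x = b
        · exact Or.inr (Or.inr (Or.inl h3))
        · by_cases h4 : x ∈ C
          · exact Or.inr (Or.inr (Or.inr (Or.inl h4)))
          · exact Or.inr (Or.inr (Or.inr (Or.inr ((hmemD x).2 ⟨hx, h1, h2, h3, h4⟩))))
  have main : ∀ Q S : Finset V, S ⊆ L → T ⊆ S → T' ⊆ S → u ∈ S → b ∈ S → (p ∈ S ∨ p ∈ Q) →
      Loc H L Q S := by
    intro Q S hSL s1 s2 su sb hp
    refine ⟨hSL, ?_, ?_⟩
    · intro x hx hxQ
      rcases hcases x hx with rfl | rfl | rfl | hx | hx
      · exact ⟨u, su, h.ua.symm⟩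
      · exact ⟨b, sb, h.ub⟩
      · exact ⟨u, su, h.ub.symm⟩
      · exact h.toBr.gdom a1 s1 su x hx
      · exact hB.gdom b1 s2 sb x hx
    · intro x hx y hy hxS hyS hxQ hyQ hne
      have hno : ∀ z, z ∉ S → z ∉ Q → z ≠ p ∧ z ≠ u ∧ z ≠ b := by
        intro z hz hzQ
        refine ⟨?_, ?_, ?_⟩
        · rintro rfl
          rcases hp with h1 | h1
          · exact hz h1
          · exact hzQ h1
        · rintro rfl; exact hz su
        · rintro rfl; exact hz sb
      obtain ⟨x1, x2, x3⟩ := hno x hxS hxQ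
      obtain ⟨y1, y2, y3⟩ := hno y hyS hyQ
      rcases hcases x hx with h1 | h1 | h1 | h1 | h1
      · exact absurd h1 x1
      · exact absurd h1 x2
      · exact absurd h1 x3
      · by_cases hyC : y ∈ C
        · exact h.toBr.gsep a1 s1 su x h1 y hyC hxS hyS hne
        · exact h.toBr.gout a1 a2 s1 x h1 hxS y hy hyC y2
      · have h1' := (hmemD x).1 h1
        by_cases hyC : y ∈ C
        · exact (h.toBr.gout a1 a2 s1 y hyC hyS x hx h1'.2.2.2.2 x2).symm
        · have hyD := (hmemD y).2 ⟨hy, y1, y2, y3, hyC⟩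
          exact hB.gsep b1 s2 sb x h1 y hyD hxS hyS hne
  have hTL : T ⊆ L := a1.1.trans h.CL
  have hTL' : T' ⊆ L := b1.1.trans hB.CL
  have hSL : insert u (insert b (T ∪ T')) ⊆ L :=
    insert_subset h.uL (insert_subset h.bL (union_subset hTL hTL'))
  have s1 : T ⊆ insert u (insert b (T ∪ T')) :=
    (subset_union_left.trans (subset_insert _ _)).trans (subset_insert _ _)
  have s2 : T' ⊆ insert u (insert b (T ∪ T')) :=
    (subset_union_right.trans (subset_insert _ _)).trans (subset_insert _ _)
  have su : u ∈ insert u (insert b (T ∪ T')) := mem_insert_self _ _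
  have sb : b ∈ insert u (insert b (T ∪ T')) := mem_insert_of_mem (mem_insert_self _ _)
  have k1 := card_insert_le u (insert b (T ∪ T'))
  have k2 := card_insert_le b (T ∪ T')
  have k3 := card_union_le T T'
  constructor
  · have si := subset_insert p (insert u (insert b (T ∪ T')))
    refine ⟨insert p (insert u (insert b (T ∪ T'))), main ∅ _ (insert_subset hR.mem hSL)
      (s1.trans si) (s2.trans si) (si su) (si sb) (Or.inl (mem_insert_self _ _)),
      ⟨mem_insert_self _ _, ?_⟩, ?_⟩
    · intro x hx hxS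
      rcases hcases x hx with rfl | rfl | rfl | hx | hx
      · exact absurd (mem_insert_self _ _) hxS
      · exact absurd (si su) hxS
      · exact absurd (si sb) hxS
      · obtain ⟨z, hz, hxz⟩ := Br.gin a1 a2 (s1.trans si) x hx hxS
        exact ⟨z, si (s1 hz), fun h' => hpC (h' ▸ a1.1 hz), hxz⟩
      · obtain ⟨z, hz, hxz⟩ := Br.gin b1 b2 (s2.trans si) x hx hxS
        exact ⟨z, si (s2 hz), fun h' => hB.pC (h' ▸ b1.1 hz), hxz⟩
    · have k4 := card_insert_le p (insert u (insert b (T ∪ T')))
      omega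
  · refine ⟨insert u (insert b (T ∪ T')), main {p} _ hSL s1 s2 su sb
      (Or.inr (mem_singleton_self _)), Or.inr ⟨u, su, h.ua.symm⟩, ?_⟩
    omega

end Cfg

/-- the induction -/
theorem rooted_on (hleaf : Leaf) : ∀ (n : ℕ) (H : SimpleGraph V) (L : Finset V), L.card = n →
    ∀ p, ROn H L p → AOn H L p ∧ GOn H L p := by
  intro n
  induction n using Nat.strong_induction_on with
  | _ n ih =>
  intro H L hn p hR
  have IH : ∀ (H' : SimpleGraph V) (L' : Finset V), L'.card < L.card → ∀ p', ROn H' L' p' →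
      AOn H' L' p' ∧ GOn H' L' p' := fun H' L' hlt p' hR' =>
    ih L'.card (by omega) H' L' rfl p' hR'
  by_cases hb : ∀ A ⊆ L, A.Nonempty → A ≠ L → 2 ≤ E H A (L \ A)
  · exact leaf_on hleaf hR hb
  · obtain ⟨C, u, w, h⟩ := exists_br hR hb
    by_cases hu : u = p
    · subst hu
      exact h.caseY hR (IH H)
    · obtain ⟨a, b, hc⟩ := h.cfg hR hu
      by_cases hab : H.Adj a b
      · by_cases hpa : p = a
        · subst hpa
          exact hc.case2 hR hab IH
        · by_cases hpb : p = b
          · subst hpb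
            exact hc.swap.case2 hR hab.symm IH
          · exact hc.case3 hR hab hpa hpb IH
      · exact hc.case1 hR hab IH

/-- **All rooted graphs.** -/
theorem rooted_all (hleaf : Leaf) {G : SimpleGraph V} {p : V} (h : Rooted G p) :
    AStar G p ∧ Ga G p := by
  obtain ⟨h1, h2⟩ := rooted_on hleaf (univ : Finset V).card G univ rfl p h.rOn
  exact ⟨h1.aStar, h2.ga⟩

/-- sides of a bridge of a cubic graph -/
lemma rOn_side {G : SimpleGraph V} (hconn : G.Connected) (hdeg : ∀ v, E G {v} univ = 3)
    {A : Finset V} {a b : V} (ha : a ∈ A) (hb : b ∉ A) (hab : G.Adj a b)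
    (honly : ∀ x ∈ A, ∀ y, y ∉ A → G.Adj x y → x = a ∧ y = b) : ROn G A a := by
  classical
  have hzero : ∀ v ∈ A, v ≠ a → E G {v} (univ \ A) = 0 := by
    intro v hv hva
    rw [E_eq_zero_iff]
    intro x hx y hy hxy
    rw [mem_singleton] at hx
    subst hx
    rw [mem_sdiff] at hy
    exact hva (honly x hv y hy.2 hxy).1
  have hsplit : ∀ v, E G {v} univ = E G {v} A + E G {v} (univ \ A) :=
    fun v => E_sdiff G (subset_univ _) _
  refine ⟨ha, ?_, ?_, ?_⟩
  · intro B hB hne hne'
    by_contra h0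
    have h0' : E G B (A \ B) = 0 := by omega
    have h0'' : E G (A \ B) B = 0 := by rw [E_comm]; exact h0'
    have key : ∀ X ⊆ A, X.Nonempty → X ≠ A → E G X (A \ X) = 0 → a ∈ X := by
      intro X hX hXne hXne' hX0
      have h2 := cuts_of_connected hconn hXne (by
        rintro rfl
        exact hb (hX (mem_univ _)))
      obtain ⟨x, hx, y, hy, hxy⟩ := (E_pos_iff G).1 h2
      rw [mem_compl] at hy
      by_cases hyA : y ∈ A
      · rw [E_eq_zero_iff] at hX0
        exact absurd hxy (hX0 x hx y (mem_sdiff.2 ⟨hyA, hy⟩))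
      · have := (honly x (hX hx) y hyA hxy).1
        rw [← this]; exact hx
    have k1 := key B hB hne hne' h0'
    have k2 := key (A \ B) sdiff_subset (by
      rw [sdiff_nonempty]
      intro h'; exact hne' (subset_antisymm hB h')) (by
      intro h'
      obtain ⟨z, hz⟩ := hne
      have : z ∈ A \ B := by rw [h']; exact hB hz
      exact (mem_sdiff.1 this).2 hz) (by rw [Finset.sdiff_sdiff_eq_self hB]; exact h0'')
    exact (mem_sdiff.1 k2).2 k1
  · have h1 : E G {a} (univ \ A) = 1 := by
      rw [E_single, card_eq_one]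
      refine ⟨b, ?_⟩
      ext y
      rw [mem_filter, mem_singleton, mem_sdiff]
      constructor
      · rintro ⟨h1, h2⟩; exact (honly a ha y h1.2 h2).2
      · rintro rfl; exact ⟨⟨mem_univ _, hb⟩, hab⟩
    have h2 := hsplit a
    have h3 := hdeg a
    omega
  · intro v hv hva
    have h2 := hsplit v
    have h3 := hdeg v
    have h4 := hzero v hv hva
    omega

/-- **Cubic graphs with a bridge.** -/
theorem ltd_of_cut (hleaf : Leaf) {G : SimpleGraph V} (hconn : G.Connected)
    (hdeg : ∀ v, E G {v} univ = 3) {A : Finset V} (hA : E G A (univ \ A) = 1) :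
    ∃ S : Finset V, (∀ v : V, ∃ u ∈ S, G.Adj v u) ∧
      (∀ u v : V, u ∉ S → v ∉ S → u ≠ v → ∃ w ∈ S, ¬ (G.Adj u w ↔ G.Adj v w)) ∧
      2 * S.card ≤ Fintype.card V := by
  classical
  obtain ⟨a, ha, b, hb, hab, honly⟩ := unique_of_E_one hA
  rw [mem_sdiff] at hb
  have hb' := hb.2
  have honly' : ∀ x ∈ A, ∀ y, y ∉ A → G.Adj x y → x = a ∧ y = b := fun x hx y hy hxy =>
    honly x hx y (mem_sdiff.2 ⟨mem_univ _, hy⟩) hxy
  have hR1 := rOn_side hconn hdeg ha hb' hab honly'
  have hR2 : ROn G Aᶜ b := rOn_side hconn hdeg (mem_compl.2 hb') (by simpa using ha) hab.symm (by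
    intro x hx y hy hxy
    rw [mem_compl] at hx hy
    rw [not_not] at hy
    have := honly' y hy x hx hxy.symm
    exact ⟨this.2, this.1⟩)
  obtain ⟨⟨S, ⟨a1, a2, a3⟩, ⟨a4, _⟩, a6⟩, _⟩ := rooted_on hleaf A.card G A rfl a hR1
  obtain ⟨_, ⟨T, ⟨b1, b2, b3⟩, b4, b6⟩⟩ := rooted_on hleaf (Aᶜ).card G Aᶜ rfl b hR2
  have hno : ∀ x ∈ A, ∀ z ∈ T, G.Adj x z → x = a ∧ z = b := fun x hx z hz h =>
    honly' x hx z (by simpa using b1 hz) h
  have s1 : S ⊆ S ∪ T := subset_union_left
  have s2 : T ⊆ S ∪ T := subset_union_right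
  have hc : A.card + (Aᶜ).card = Fintype.card V := card_add_card_compl A
  refine ⟨S ∪ T, ?_, ?_, ?_⟩
  · intro v
    by_cases hv : v ∈ A
    · exact (a2 v hv (notMem_empty _)).mono s1
    · by_cases hvb : v = b
      · rw [hvb]; exact ⟨a, s1 a4, hab.symm⟩
      · exact (b2 v (mem_compl.2 hv) (by simpa using hvb)).mono s2
  · have hAB : ∀ x ∈ A, ∀ y ∉ A, x ∉ S ∪ T → y ∉ S ∪ T → Sep G (S ∪ T) x y := by
      intro x hx y hy hxS hyS
      have hxa : x ≠ a := by rintro rfl; exact hxS (s1 a4)
      obtain ⟨z, hz, hxz⟩ := a2 x hx (notMem_empty _)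
      by_cases hyz : G.Adj y z
      · have hyb := (honly' z (a1 hz) y hy hyz.symm).2
        rcases b4 with h2 | ⟨t, ht, hbt⟩
        · exact absurd (s2 (hyb ▸ h2)) hyS
        · rw [hyb]
          exact sep_right (s2 ht) hbt fun h' => hxa (hno x hx t ht h').1
      · exact sep_left (s1 hz) hxz hyz
    have hBB : ∀ y ∉ A, y ≠ b → Sep G (S ∪ T) b y := by
      intro y hy hyb
      exact sep_left (s1 a4) hab.symm fun h' => hyb (honly' a ha y hy h'.symm).2
    intro x y hx hy hne
    by_cases hxA : x ∈ A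
    · by_cases hyA : y ∈ A
      · exact (a3 x hxA y hyA (fun h' => hx (s1 h')) (fun h' => hy (s1 h')) (notMem_empty _)
          (notMem_empty _) hne).mono s1
      · exact hAB x hxA y hyA hx hy
    · by_cases hyA : y ∈ A
      · exact (hAB y hyA x hxA hy hx).symm
      · by_cases hxb : x = b
        · rw [hxb]
          exact hBB y hyA fun h' => hne (hxb.trans h'.symm)
        · by_cases hyb : y = b
          · rw [hyb]
            exact (hBB x hxA hxb).symm
          · exact (b3 x (mem_compl.2 hxA) y (mem_compl.2 hyA) (fun h' => hx (s2 h'))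
              (fun h' => hy (s2 h')) (by simpa using hxb) (by simpa using hyb) hne).mono s2
  · have := card_union_le S T
    omega

/-- **The theorem for all connected cubic graphs**, from the leaf hypothesis. -/
theorem ltd_all (hleaf : Leaf) (G : SimpleGraph V) (hconn : G.Connected)
    (hdeg : ∀ v, E G {v} univ = 3)
    (h4 : IsEmpty (G ≃g (⊤ : SimpleGraph (Fin 4))))
    (h33 : IsEmpty (G ≃g completeBipartiteGraph (Fin 3) (Fin 3))) :
    ∃ S : Finset V, (∀ v : V, ∃ u ∈ S, G.Adj v u) ∧
      (∀ u v : V, u ∉ S → v ∉ S → u ≠ v → ∃ w ∈ S, ¬ (G.Adj u w ↔ G.Adj v w)) ∧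
      2 * S.card ≤ Fintype.card V := by
  classical
  by_cases hcut : ∃ A : Finset V, E G A (univ \ A) = 1
  · obtain ⟨A, hA⟩ := hcut
    exact ltd_of_cut hleaf hconn hdeg hA
  · push Not at hcut
    have hbr : ∀ u v, G.Adj u v → ¬ G.IsBridge s(u, v) := by
      intro u v huv hbr
      rw [SimpleGraph.isBridge_iff] at hbr
      apply hcut (univ.filter fun z => (G.deleteEdges {s(u, v)}).Reachable u z)
      set A := univ.filter fun z => (G.deleteEdges {s(u, v)}).Reachable u z with hA
      have hu : u ∈ A := mem_filter.2 ⟨mem_univ _, SimpleGraph.Reachable.refl _⟩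
      have hv : v ∉ A := fun h => hbr (mem_filter.1 h).2
      have h1 : E G A (univ \ A) = E G {u} {v} := by
        unfold E
        rw [sum_singleton, sum_singleton]
        have key : ∀ x ∈ A, ∀ y ∈ univ \ A, G.Adj x y → x = u ∧ y = v := by
          intro x hx y hy hxy
          rw [mem_sdiff] at hy
          by_contra hne
          apply hy.2
          rw [hA, mem_filter] at hx ⊢
          refine ⟨mem_univ _, hx.2.trans ?_⟩
          by_cases hxy' : s(x, y) = s(u, v)
          · exfalso
            rw [Sym2.eq_iff] at hxy'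
            rcases hxy' with h | h
            · exact hne h
            · rw [h.2] at hy
              exact hy.2 hu
          · apply SimpleGraph.Adj.reachable
            rw [SimpleGraph.deleteEdges_adj]
            exact ⟨hxy, fun h => hxy' h⟩
        rw [sum_eq_single u]
        · rw [sum_eq_single v]
          · intro y hy hyv
            rw [if_neg]
            intro hadj
            exact hyv (key u hu y hy hadj).2
          · intro h'; exact absurd (mem_sdiff.2 ⟨mem_univ _, hv⟩) h'
        · intro x hx hxu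
          apply sum_eq_zero
          intro y hy
          rw [if_neg]
          intro hadj
          exact hxu (key x hx y hy hadj).1
        · intro h'; exact absurd hu h'
      rw [h1, E_singleton_singleton G huv]
    obtain ⟨μ, hinv, hadj⟩ := petersen hdeg hbr
    exact ltd_of_matching G hconn hdeg μ hinv hadj h4 h33

end Pool.Agent.LTD
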