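import Pool.Agent.Lib.MP_a46439_co.LeafOut
import Pool.Agent.Lib.MP_a46439_co.LeafTrans
import Pool.Agent.Lib.MP_a46439_co.RootAll

set_option autoImplicit false

/-! The leaf hypothesis holds, and the theorem for all connected cubic graphs. -/

namespace Pool.Agent.LTD

open Finset

/-- **Bridgeless rooted graphs have both states.** -/
theorem leaf_holds : Leaf := by
  intro V _ _ G p hr hb
  constructor
  · obtain ⟨m, hm⟩ := exists_pmat hr hb
    exact astar_of_pmat hr hm
  · obtain ⟨p1, p2, hne, h1, h2, _⟩ := hr.nbrs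
    obtain ⟨m, hr', hm, h, _⟩ := out_all hr hb h1 h2 hne
    exact ga_of_out h1 h2 hne h

/-- **The theorem for all connected cubic graphs.** -/
theorem ltd_cubic {V : Type} [Fintype V] [DecidableEq V] (G : SimpleGraph V) (hconn : G.Connected)
    (hdeg : ∀ v, E G {v} univ = 3)
    (h4 : IsEmpty (G ≃g (⊤ : SimpleGraph (Fin 4))))
    (h33 : IsEmpty (G ≃g completeBipartiteGraph (Fin 3) (Fin 3))) :
    ∃ S : Finset V, (∀ v : V, ∃ u ∈ S, G.Adj v u) ∧
      (∀ u v : V, u ∉ S → v ∉ S → u ≠ v → ∃ w ∈ S, ¬ (G.Adj u w ↔ G.Adj v w)) ∧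
      2 * S.card ≤ Fintype.card V :=
  ltd_all leaf_holds G hconn hdeg h4 h33

end Pool.Agent.LTD
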