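import Pool.Agent.Lib.MP_a46439_co.LeafRing
import Pool.Agent.Lib.MP_a46439_co.LeafTrans

set_option autoImplicit false
set_option linter.unusedSectionVars false
set_option maxHeartbeats 1000000

/-! Every bridgeless rooted graph has a matching with a good outcome at the root. -/

namespace Pool.Agent.LTD

open Finset

variable {V : Type} [Fintype V] [DecidableEq V] {G : SimpleGraph V} {p p1 p2 : V}

/-- the conclusion -/
def OutE (G : SimpleGraph V) (p p1 p2 : V) : Prop :=
  ∃ (m : V → V) (hr : Rooted G p) (hm : PMat G p m),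
    (leafSetup G p m hr hm).Out (some p) (some p1) (some p2) ∧ (¬ G.Adj p1 p2 ∨ m p1 = p2)

/-- a matching from the parts -/
lemma pmat_of_parts {L : Finset V} {m0 m1 : V → V} (h0 : ∀ v ∈ L, m0 v ∈ L ∧ G.Adj v (m0 v) ∧
    m0 (m0 v) = v) (h1 : ∀ v, v ∉ L → m1 v ∉ L ∧ m1 (m1 v) = v) (hp : p ∉ L) (hmp : m1 p = p)
    (hadj : ∀ v, v ∉ L → v ≠ p → G.Adj v (m1 v)) :
    PMat G p fun v => if v ∈ L then m0 v else m1 v := by
  refine ⟨?_, ?_, ?_⟩
  · intro v
    by_cases hv : v ∈ L
    · simp only [hv, if_true, (h0 v hv).1, (h0 v hv).2.2]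
    · simp only [hv, if_false, (h1 v hv).1, (h1 v hv).2]
  · simp only [hp, if_false, hmp]
  · intro v hvp
    by_cases hv : v ∈ L
    · simp only [hv, if_true]; exact (h0 v hv).2.1
    · simp only [hv, if_false]; exact hadj v hv hvp

/-- the neighbours of the root -/
lemma nbr_root (hr : Rooted G p) (h1 : G.Adj p p1) (h2 : G.Adj p p2) (hne : p1 ≠ p2) {v : V}
    (hv : G.Adj p v) : v = p1 ∨ v = p2 := by
  classical
  have h3 := hr.root
  rw [E_eq_card] at h3
  have h4 : ({p1, p2} : Finset V) = univ.filter fun u => G.Adj p u := by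
    apply eq_of_subset_of_card_le
    · intro x hx
      rw [mem_insert, mem_singleton] at hx
      rw [mem_filter]
      rcases hx with rfl | rfl
      · exact ⟨mem_univ _, h1⟩
      · exact ⟨mem_univ _, h2⟩
    · rw [h3, card_pair hne]
  have h5 : v ∈ ({p1, p2} : Finset V) := by rw [h4, mem_filter]; exact ⟨mem_univ _, hv⟩
  rw [mem_insert, mem_singleton] at h5
  exact h5

/-- a vertex with two neighbours outside of `L` has at most one neighbour in `L` -/
lemma E_le_one (hr : Rooted G p) {v a b : V} {L : Finset V} (hvp : v ≠ p) (ha : G.Adj v a)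
    (hb : G.Adj v b) (hab : a ≠ b) (haL : a ∉ L) (hbL : b ∉ L) : E G {v} L ≤ 1 := by
  have h1 := hr.deg v hvp
  have h2 : E G {v} univ = E G {v} L + E G {v} (univ \ L) := E_sdiff G (subset_univ _) _
  have h3 : 2 ≤ E G {v} (univ \ L) := by
    have := Setup.le_E (H := G) (A := {v}) (B := univ \ L) {(v, a), (v, b)} (by
      intro q hq
      simp only [mem_insert, mem_singleton] at hq
      rcases hq with rfl | rfl
      · exact ⟨mem_singleton_self _, by simpa using haL, ha⟩
      · exact ⟨mem_singleton_self _, by simpa using hbL, hb⟩)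
    rwa [card_pair (by rw [Ne, Prod.mk.injEq]; exact fun h => hab h.2)] at this
  omega

/-- the case of adjacent root neighbours -/
lemma out_adj (hr : Rooted G p) (hb : Bridgeless G) (h1 : G.Adj p p1) (h2 : G.Adj p p2)
    (hne : p1 ≠ p2) (h12 : G.Adj p1 p2) : OutE G p p1 p2 := by
  classical
  set L : Finset V := univ \ {p, p1, p2} with hL
  have hmemL : ∀ v, v ∈ L ↔ v ≠ p ∧ v ≠ p1 ∧ v ≠ p2 := by
    intro v; simp [hL]
  have hLc : Lᶜ = {p} ∪ ({p1} ∪ {p2}) := by
    ext v
    rw [mem_compl, hmemL, mem_union, mem_union, mem_singleton, mem_singleton, mem_singleton]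
    tauto
  have hcut : E G L Lᶜ ≤ 2 := by
    rw [E_comm]
    conv_lhs => arg 2; rw [hLc]
    rw [E_union_left _ (by
      rw [disjoint_singleton_left, mem_union, mem_singleton, mem_singleton, not_or]
      exact ⟨h1.ne, h2.ne⟩), E_union_left _ (by rwa [disjoint_singleton])]
    have e1 : E G {p} L = 0 := by
      rw [E_eq_zero_iff]
      intro a ha b hb' hab
      rw [mem_singleton] at ha; subst ha
      rw [hmemL] at hb'
      rcases nbr_root hr h1 h2 hne hab with h | h
      · exact hb'.2.1 h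
      · exact hb'.2.2 h
    have e2 : E G {p1} L ≤ 1 := E_le_one hr h1.ne' h1.symm h12 h2.ne
      (fun h => ((hmemL _).1 h).1 rfl) (fun h => ((hmemL _).1 h).2.2 rfl)
    have e3 : E G {p2} L ≤ 1 := E_le_one hr h2.ne' h2.symm h12.symm h1.ne
      (fun h => ((hmemL _).1 h).1 rfl) (fun h => ((hmemL _).1 h).2.1 rfl)
    omega
  obtain ⟨m0, hm0⟩ := pm_side hr hb (L := L) (fun h => ((hmemL _).1 h).1 rfl) hcut
  set m1 : V → V := fun v => if v = p1 then p2 else if v = p2 then p1 else v with hm1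
  have hm1p1 : m1 p1 = p2 := by simp [hm1]
  have hm1p2 : m1 p2 = p1 := by simp [hm1, hne.symm]
  have hm1p : m1 p = p := by simp [hm1, h1.ne, h2.ne]
  have hcases : ∀ v, v ∉ L → v = p ∨ v = p1 ∨ v = p2 := by
    intro v hv
    rw [hmemL] at hv; tauto
  have hm : PMat G p fun v => if v ∈ L then m0 v else m1 v := by
    apply pmat_of_parts hm0
    · intro v hv
      rcases hcases v hv with rfl | rfl | rfl
      · rw [hm1p, hm1p]; exact ⟨hv, rfl⟩
      · rw [hm1p1, hm1p2]; exact ⟨fun h => ((hmemL _).1 h).2.2 rfl, rfl⟩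
      · rw [hm1p2, hm1p1]; exact ⟨fun h => ((hmemL _).1 h).2.1 rfl, rfl⟩
    · exact fun h => ((hmemL _).1 h).1 rfl
    · exact hm1p
    · intro v hv hvp
      rcases hcases v hv with rfl | rfl | rfl
      · exact absurd rfl hvp
      · rw [hm1p1]; exact h12
      · rw [hm1p2]; exact h12.symm
  have hp1L : p1 ∉ L := fun h => ((hmemL _).1 h).2.1 rfl
  refine ⟨_, hr, hm, Or.inl ?_, Or.inr ?_⟩
  · have hroot := leaf_root (hr := hr) (hm := hm) h1 h2 hne
    obtain ⟨S, hS⟩ := (Setup.light_good hroot.d_univ.le hroot.good _ hroot.light_W).1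
    refine ⟨S, ?_, hS⟩
    by_contra hcon
    rw [not_or] at hcon
    apply hcon.1
    rw [hS.2.1 _ hroot.p1_W, leaf_mu h1.ne']
    simp only [hp1L, if_false, hm1p1]
    exact hcon.2
  · simp only [hp1L, if_false, hm1p1]

/-- the case without rings -/
lemma out_noring (hr : Rooted G p) (hb : Bridgeless G) (h1 : G.Adj p p1) (h2 : G.Adj p p2)
    (hne : p1 ≠ p2) (h12 : ¬ G.Adj p1 p2) (hR : ¬ ∃ A, GRing G p p1 p2 A) : OutE G p p1 p2 := by
  obtain ⟨m, hm⟩ := exists_pmat hr hb
  refine ⟨m, hr, hm, ?_, Or.inl h12⟩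
  apply Setup.nonring (leaf_root h1 h2 hne) (nr_of_no_ring h1 h2 hne hR)
  · rw [leaf_adj]; exact fun h => h12 h.1
  · rw [leaf_mu h1.ne']
    intro h
    apply h12
    rw [← Option.some.inj h]
    exact hm.adj p1 h1.ne'

/-- the ring case with a given matching -/
lemma out_ring (hr : Rooted G p) (h1 : G.Adj p p1) (h2 : G.Adj p p2)
    (hne : p1 ≠ p2) (h12 : ¬ G.Adj p1 p2) {y z : V} {A : Finset V}
    (hA : MRing G p p1 p2 y z A) {m : V → V} (hm : PMat G p m) (hn : ¬ OutE G p p1 p2) :
    (leafSetup G p m hr hm).TV (some p1) ∧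
      some y ∉ (leafSetup G p m hr hm).nd (some p1) ∧
      ∃ y1, (leafSetup G p m hr hm).H.Adj (some p1) y1 ∧ y1 ≠ some p ∧
        some y ∈ (leafSetup G p m hr hm).rail y1 := by
  have h3 := rg_of_ring (hr := hr) (hm := hm) h1 h2 hne hA
  rcases h3.main with ⟨S, hS1, hS2⟩ | h4
  · exfalso
    exact hn ⟨m, hr, hm, Or.inl ⟨S, Or.inl hS1, hS2⟩, Or.inl h12⟩
  · exact h4

/-- rebuilding the matching when the far end is adjacent to the root neighbour -/
lemma ring_rebuild (hr : Rooted G p) (hb : Bridgeless G) (h1 : G.Adj p p1)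
    {y z : V} {A : Finset V} (hA : MRing G p p1 p2 y z A) {m : V → V} (hm : PMat G p m)
    (hy : y ≠ p1) (hmy : m p1 ≠ y) (hadj : G.Adj p1 y) :
    ∃ m', PMat G p m' ∧ m' p1 = y := by
  classical
  have hcl := closed_of_ring hr hm hA
  have hp1p : p1 ≠ p := h1.ne'
  have hyp : y ≠ p := by rintro rfl; exact hA.pA hA.yA
  set L := (A.erase p1).erase y with hL
  have hmemL : ∀ v, v ∈ L ↔ v ≠ y ∧ v ≠ p1 ∧ v ∈ A := by
    intro v; rw [hL, mem_erase, mem_erase]
  have hzp1 : z ≠ p1 := by rintro rfl; exact hA.zA hA.i1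
  have hLc : Lᶜ = Aᶜ ∪ ({p1} ∪ {y}) := by
    ext v
    rw [mem_compl, hmemL, mem_union, mem_union, mem_singleton, mem_singleton, mem_compl]
    tauto
  have hcut : E G L Lᶜ ≤ 2 := by
    rw [E_comm]
    conv_lhs => arg 2; rw [hLc]
    rw [E_union_left _ (by
      rw [disjoint_union_right, disjoint_singleton_right, disjoint_singleton_right, mem_compl,
        mem_compl, not_not, not_not]
      exact ⟨hA.i1, hA.yA⟩), E_union_left _ (by rw [disjoint_singleton]; exact hy.symm)]
    have e1 : E G Aᶜ L = 0 := by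
      rw [E_eq_zero_iff]
      intro a ha b hb' hab
      rw [mem_compl] at ha
      rw [hmemL] at hb'
      rcases hA.lv b hb'.2.2 a ha hab.symm with h | h
      · exact hb'.2.1 h.1
      · exact hb'.1 h.1
    have e2 : E G {p1} L ≤ 1 := E_le_one hr hp1p h1.symm hadj hyp.symm
      (fun h => hA.pA ((hmemL _).1 h).2.2) (fun h => ((hmemL _).1 h).1 rfl)
    have e3 : E G {y} L ≤ 1 := E_le_one hr hyp hA.yz hadj.symm hzp1
      (fun h => hA.zA ((hmemL _).1 h).2.2) (fun h => ((hmemL _).1 h).2.1 rfl)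
    omega
  obtain ⟨m0, hm0⟩ := pm_side hr hb (L := L) (fun h => hA.pA ((hmemL _).1 h).2.2) hcut
  set m1 : V → V := fun v => if v = p1 then y else if v = y then p1 else m v with hm1
  have hm1p1 : m1 p1 = y := by simp [hm1]
  have hm1y : m1 y = p1 := by simp [hm1, hy]
  have hm1o : ∀ v, v ≠ p1 → v ≠ y → m1 v = m v := by
    intro v h3 h4; simp [hm1, h3, h4]
  have hcases : ∀ v, v ∉ L → v = p1 ∨ v = y ∨ v ∉ A := by
    intro v hv
    rw [hmemL] at hv; tauto
  have hout : ∀ v, v ∉ A → m v ∉ A := by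
    intro v hv h3
    apply hv
    have := hcl _ h3
    rwa [hm.inv] at this
  have hnA : ∀ v, v ∉ A → v ≠ p1 ∧ v ≠ y :=
    fun v hv => ⟨fun h => hv (h ▸ hA.i1), fun h => hv (h ▸ hA.yA)⟩
  have hp1L : p1 ∉ L := fun h => ((hmemL _).1 h).2.1 rfl
  refine ⟨fun v => if v ∈ L then m0 v else m1 v, pmat_of_parts hm0 ?_ ?_ ?_ ?_, ?_⟩
  · intro v hv
    rcases hcases v hv with rfl | rfl | h3
    · rw [hm1p1, hm1y]; exact ⟨fun h => ((hmemL _).1 h).1 rfl, rfl⟩
    · rw [hm1y, hm1p1]; exact ⟨fun h => ((hmemL _).1 h).2.1 rfl, rfl⟩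
    · rw [hm1o v (hnA v h3).1 (hnA v h3).2]
      have h4 := hout v h3
      rw [hm1o _ (hnA _ h4).1 (hnA _ h4).2, hm.inv]
      exact ⟨fun h => h4 ((hmemL _).1 h).2.2, rfl⟩
  · exact fun h => hA.pA ((hmemL _).1 h).2.2
  · rw [hm1o p hp1p.symm hyp.symm, hm.mp]
  · intro v hv hvp
    rcases hcases v hv with rfl | rfl | h3
    · rw [hm1p1]; exact hadj
    · rw [hm1y]; exact hadj.symm
    · rw [hm1o v (hnA v h3).1 (hnA v h3).2]
      exact hm.adj v hvp
  · simp only [hp1L, if_false, hm1p1]

/-- the switched matching -/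
def sw (m : V → V) (y v : V) : V → V := fun w =>
  if w = y then v else if w = v then y else if w = m y then m v else if w = m v then m y else m w

lemma pmat_sw {m : V → V} (hm : PMat G p m) {y v : V} (hy : y ≠ p) (hv : v ≠ p)
    (hvy : v ≠ y) (hmv : v ≠ m y) (h1 : G.Adj y v) (h2 : G.Adj (m y) (m v)) :
    PMat G p (sw m y v) ∧ sw m y v y = v ∧ sw m y v v = y ∧ sw m y v (m y) = m v ∧
      sw m y v (m v) = m y ∧
      ∀ w, w ≠ y → w ≠ v → w ≠ m y → w ≠ m v → sw m y v w = m w := by
  have a1 : m y ≠ y := hm.ne hy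
  have a2 : m v ≠ v := hm.ne hv
  have a3 : m y ≠ v := hmv.symm
  have a4 : m v ≠ y := by
    intro h; apply hmv; rw [← h, hm.inv]
  have a5 : m v ≠ m y := by
    intro h; apply hvy; rw [← hm.inv v, h, hm.inv]
  have e1 : sw m y v y = v := by simp [sw]
  have e2 : sw m y v v = y := by simp [sw, hvy]
  have e3 : sw m y v (m y) = m v := by simp [sw, a1, a3]
  have e4 : sw m y v (m v) = m y := by simp [sw, a2, a4, a5]
  have e5 : ∀ w, w ≠ y → w ≠ v → w ≠ m y → w ≠ m v → sw m y v w = m w := by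
    intro w b1 b2 b3 b4; simp [sw, b1, b2, b3, b4]
  refine ⟨⟨?_, ?_, ?_⟩, e1, e2, e3, e4, e5⟩
  · intro w
    by_cases b1 : w = y
    · subst b1; rw [e1, e2]
    by_cases b2 : w = v
    · subst b2; rw [e2, e1]
    by_cases b3 : w = m y
    · subst b3; rw [e3, e4]
    by_cases b4 : w = m v
    · subst b4; rw [e4, e3]
    rw [e5 w b1 b2 b3 b4, e5, hm.inv]
    · intro h; apply b3; rw [← h, hm.inv]
    · intro h; apply b4; rw [← h, hm.inv]
    · intro h; apply b1; rw [← hm.inv w, h, hm.inv]
    · intro h; apply b2; rw [← hm.inv w, h, hm.inv]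
  · rw [e5, hm.mp]
    · exact hy.symm
    · exact hv.symm
    · exact (hm.mne hy).symm
    · exact (hm.mne hv).symm
  · intro w hw
    by_cases b1 : w = y
    · subst b1; rw [e1]; exact h1
    by_cases b2 : w = v
    · subst b2; rw [e2]; exact h1.symm
    by_cases b3 : w = m y
    · subst b3; rw [e3]; exact h2
    by_cases b4 : w = m v
    · subst b4; rw [e4]; exact h2.symm
    rw [e5 w b1 b2 b3 b4]
    exact hm.adj w hw

/-- **The ring case.** -/
theorem out_ring_all (hr : Rooted G p) (hb : Bridgeless G) (h1 : G.Adj p p1) (h2 : G.Adj p p2)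
    (hne : p1 ≠ p2) (h12 : ¬ G.Adj p1 p2) (hR : ∃ A, GRing G p p1 p2 A) : OutE G p p1 p2 := by
  classical
  by_contra hn
  obtain ⟨y, z, A, hA⟩ := exists_mring hb h1 hR
  have hyp : y ≠ p := by rintro rfl; exact hA.pA hA.yA
  obtain ⟨m, hm⟩ := exists_pmat hr hb
  obtain ⟨ht, hyn, y1, hy1, hy1p, hyr⟩ := out_ring hr h1 h2 hne h12 hA hm hn
  set M := leafSetup G p m hr hm with hM
  have hRg : M.Rg (some p) (some p1) (some p2) (some y) (some z) (oset A) :=
    rg_of_ring h1 h2 hne hA
  have hyp1 : y ≠ p1 := by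
    rintro rfl
    exact hyn (Setup.self_mem_nd _)
  have hmy : m p1 ≠ y := by
    intro h
    apply hyn
    rw [Setup.mem_nd, hM, leaf_mu h1.ne', h]
    exact Or.inr rfl
  by_cases hy1y : y1 = some y
  · rw [hy1y, hM, leaf_adj] at hy1
    obtain ⟨m', hm', hm'p⟩ := ring_rebuild hr hb h1 hA hm hyp1 hmy hy1.1
    obtain ⟨_, hyn', _⟩ := out_ring hr h1 h2 hne h12 hA hm' hn
    apply hyn'
    rw [Setup.mem_nd, leaf_mu h1.ne', hm'p]
    exact Or.inr rfl
  · -- switch
    obtain ⟨v', hPsi, _⟩ : ∃ x, M.Psi (some y) x ∧ x ∈ M.rail (some y) := by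
      apply Setup.exists_psi_of_ne (w := y1)
      · rw [← Setup.mem_rail, Setup.rail_eq_of_mem hyr]
        exact Setup.self_mem_rail y1
      · exact fun h => hy1y h.symm
    obtain ⟨v, rfl⟩ : ∃ v, v' = some v := by
      rcases v' with _ | v
      · exact absurd hPsi.1 leaf_none'
      · exact ⟨v, rfl⟩
    have hPs1 : G.Adj y v ∧ v ≠ m y := leaf_adj.1 hPsi.1
    have hvp : v ≠ p := by
      rintro rfl
      have := hPsi.2
      rw [hM, leaf_mu_p] at this
      exact leaf_none' this
    have hPs2 : G.Adj (m y) (m v) := by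
      have := hPsi.2
      rw [hM, leaf_mu hyp, leaf_mu hvp, leaf_adj] at this
      exact this.1
    obtain ⟨hm', e1, e2, e3, e4, e5⟩ := pmat_sw hm hyp hvp hPs1.1.ne' hPs1.2 hPs1.1 hPs2
    obtain ⟨ht', hyn', y1', hy1', hy1p', hyr'⟩ := out_ring hr h1 h2 hne h12 hA hm' hn
    set M' := leafSetup G p (sw m y v) hr hm' with hM'
    have hRg' : M'.Rg (some p) (some p1) (some p2) (some y) (some z) (oset A) :=
      rg_of_ring h1 h2 hne hA
    have hmuy : M.μ (some y) = some (m y) := leaf_mu hyp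
    have hmuv : M.μ (some v) = some (m v) := leaf_mu hvp
    have hsw : M.Sw M' (some y) (some v) := by
      refine ⟨?_, ?_, ?_, ?_, ?_, ?_⟩
      · rw [hM', leaf_mu hyp, e1]
      · rw [hM', leaf_mu hvp, e2]
      · rw [hmuy, hmuv, hM', leaf_mu (hm.mne hyp), e3]
      · rw [hmuy, hmuv, hM', leaf_mu (hm.mne hvp), e4]
      · intro w b1 b2 b3 b4
        rw [hmuy] at b3
        rw [hmuv] at b4
        rcases w with _ | w
        · rw [hM', hM, leaf_mu_none, leaf_mu_none]
        · by_cases hwp : w = p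
          · subst hwp
            rw [hM', hM, leaf_mu_p, leaf_mu_p]
          · rw [hM', hM, leaf_mu hwp, leaf_mu hwp, e5]
            · exact fun h => b1 (by rw [h])
            · exact fun h => b2 (by rw [h])
            · exact fun h => b3 (by rw [h])
            · exact fun h => b4 (by rw [h])
      · intro a b hab
        rcases a with _ | a
        · exact absurd hab leaf_none
        rcases b with _ | b
        · exact absurd hab leaf_none'
        refine ⟨?_, fun h => ?_⟩
        · rw [hM', leaf_adj] at hab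
          by_cases hba : b = m a
          · right
            have hap : a ≠ p := by
              rintro rfl
              rw [hm.mp] at hba
              exact hab.1.ne hba.symm
            rw [hM, leaf_mu hap, hba]
          · left
            rw [hM, leaf_adj]
            exact ⟨hab.1, hba⟩
        · rw [h] at hab
          exact M'.Hne _ hab
    have hy1eq : y1' = y1 := by
      obtain ⟨h3, h4⟩ := hsw.adj _ _ hy1'
      have hmo : M'.μ (some p1) = M.μ (some p1) := by
        apply hsw.mo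
        · exact fun h => hyp1 (Option.some.inj h).symm
        · intro h
          rw [h] at ht
          exact ht _ (Setup.Psi.symm M hPsi)
        · intro h
          rw [h] at ht
          exact ht _ (Setup.Psi.mu M hPsi)
        · intro h
          rw [h] at ht
          exact ht _ (Setup.Psi.mu M (Setup.Psi.symm M hPsi))
      rcases h3 with h3 | h3
      · have hpp : M.H.Adj (some p1) (some p) := (leaf_adj_p.2 h1).symm
        rcases Setup.nbr_two hpp hy1 hy1p.symm h3 with h5 | h5
        · exact absurd h5 hy1p'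
        · exact h5
      · rw [hmo] at h4
        exact absurd h3 h4
    rw [hy1eq] at hyr'
    have hno := hRg.no_switch hRg' hsw hPsi ht hy1 hy1y hyr
    apply hno
    rw [Setup.rail_eq_of_mem hyr']
    exact Setup.self_mem_rail y1

/-- **Every bridgeless rooted graph has a matching with a good outcome.** -/
theorem out_all (hr : Rooted G p) (hb : Bridgeless G) (h1 : G.Adj p p1) (h2 : G.Adj p p2)
    (hne : p1 ≠ p2) : OutE G p p1 p2 := by
  by_cases h12 : G.Adj p1 p2
  · exact out_adj hr hb h1 h2 hne h12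
  by_cases hR : ∃ A, GRing G p p1 p2 A
  · exact out_ring_all hr hb h1 h2 hne h12 hR
  · exact out_noring hr hb h1 h2 hne h12 hR

end Pool.Agent.LTD
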