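import Pool.Agent.Lib.MP_a46439_co.RootDefs

set_option autoImplicit false
set_option linter.unusedSectionVars false

/-! Perfect matchings of the sides of small cuts of bridgeless rooted graphs. -/

namespace Pool.Agent.LTD

open Finset

variable {V : Type} [Fintype V] [DecidableEq V]

lemma E_univ_rooted {G : SimpleGraph V} {p : V} (h : Rooted G p) {A : Finset V} (hA : p ∉ A) :
    E G A univ = 3 * A.card := by
  induction A using Finset.induction_on with
  | empty => simp
  | insert a A ha ih =>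
    rw [mem_insert, not_or] at hA
    have h3 : insert a A = {a} ∪ A := by ext; simp
    rw [card_insert_of_notMem ha, h3, E_union_left _ (by simpa using ha), ih hA.2,
      h.deg a (Ne.symm hA.1)]
    ring

/-- the parity of a cut -/
lemma cut_parity {G : SimpleGraph V} {p : V} (h : Rooted G p) {A : Finset V} (hA : p ∉ A) :
    E G A Aᶜ % 2 = A.card % 2 := by
  have h1 := E_univ_rooted h hA
  have h2 : E G A univ = E G A A + E G A (univ \ A) := E_sdiff G (subset_univ _) _
  rw [← compl_eq_univ_sdiff] at h2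
  obtain ⟨k, hk⟩ := E_even G A
  omega

/-- **Perfect matchings of the sides of small cuts.** -/
theorem pm_side {G : SimpleGraph V} {p : V} (h : Rooted G p) (hb : Bridgeless G) {L : Finset V}
    (hp : p ∉ L) (hcut : E G L Lᶜ ≤ 2) :
    ∃ m : V → V, ∀ v ∈ L, m v ∈ L ∧ G.Adj v (m v) ∧ m (m v) = v := by
  classical
  by_cases hLe : L = ∅
  · exact ⟨id, fun v hv => absurd (hLe ▸ hv) (notMem_empty _)⟩
  have hLu : L ≠ univ := by rintro rfl; exact hp (mem_univ _)
  have h2 := hb L (nonempty_iff_ne_empty.2 hLe) hLu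
  have hpar := cut_parity h hp
  have hev : Even (Fintype.card {x // x ∈ L}) := by
    rw [Fintype.card_coe, Nat.even_iff]; omega
  let R : SimpleGraph {x // x ∈ L} :=
    { Adj := fun u v => G.Adj u.1 v.1
      symm := ⟨fun _ _ h => h.symm⟩
      loopless := ⟨fun _ h => G.loopless.irrefl _ h⟩ }
  rcases friendly_tutte R hev with ⟨m, h1, h2⟩ | ⟨U, C, hUC, hC, hCd⟩
  · refine ⟨fun v => if hv : v ∈ L then (m ⟨v, hv⟩).1 else v, ?_⟩
    intro v hv
    have e1 : (if hv : v ∈ L then (m ⟨v, hv⟩).1 else v) = (m ⟨v, hv⟩).1 := dif_pos hv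
    simp only [e1]
    refine ⟨(m ⟨v, hv⟩).2, h1 ⟨v, hv⟩, ?_⟩
    rw [dif_pos (m ⟨v, hv⟩).2]
    have := h2 ⟨v, hv⟩
    exact congrArg Subtype.val this
  · exfalso
    let i : {x // x ∈ L} ↪ V := ⟨Subtype.val, Subtype.val_injective⟩
    set U' := U.map i with hU'
    have hmem : ∀ (A : Finset {x // x ∈ L}) (v : V), v ∈ A.map i ↔
        ∃ h : v ∈ L, (⟨v, h⟩ : {x // x ∈ L}) ∈ A := by
      intro A v
      simp only [mem_map, i, Function.Embedding.coeFn_mk]
      constructor
      · rintro ⟨x, hx, rfl⟩; exact ⟨x.2, hx⟩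
      · rintro ⟨h, h'⟩; exact ⟨_, h', rfl⟩
    have hUL : U' ⊆ L := fun v hv => ((hmem U v).1 hv).1
    have hcL : ∀ c ∈ C, c.map i ⊆ L := fun c _ v hv => ((hmem c v).1 hv).1
    have hpc : ∀ c ∈ C, p ∉ c.map i := fun c hc h' => hp (hcL c hc h')
    -- all components
    set D := C.biUnion fun c => c.map i with hD
    have hdis : ∀ c ∈ C, ∀ c' ∈ C, c ≠ c' → Disjoint (c.map i) (c'.map i) := by
      intro c hc c' hc' hne
      rw [disjoint_map]; exact hCd c hc c' hc' hne
    have hDL : D ⊆ L := by rw [hD, biUnion_subset]; exact hcL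
    have hout : ∀ c ∈ C, E G (c.map i) (c.map i)ᶜ = E G (c.map i) (U' ∪ Lᶜ) := by
      intro c hc
      obtain ⟨hodd, hdc, hcl⟩ := hC c hc
      have hsub : U' ∪ Lᶜ ⊆ (c.map i)ᶜ := by
        intro v hv
        rw [mem_compl]
        intro hvc
        rcases mem_union.1 hv with h3 | h3
        · obtain ⟨h4, h5⟩ := (hmem U v).1 h3
          obtain ⟨h6, h7⟩ := (hmem c v).1 hvc
          exact Finset.disjoint_left.1 hdc h7 h5
        · exact (mem_compl.1 h3) (hcL c hc hvc)
      rw [E_sdiff G hsub]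
      have : E G (c.map i) ((c.map i)ᶜ \ (U' ∪ Lᶜ)) = 0 := by
        rw [E_eq_zero_iff]
        intro x hx y hy hxy
        rw [mem_sdiff, mem_compl, mem_union, mem_compl, not_or, not_not] at hy
        obtain ⟨hyc, hyU, hyL⟩ := hy
        obtain ⟨hxL, hxc⟩ := (hmem c x).1 hx
        rcases hcl ⟨x, hxL⟩ hxc ⟨y, hyL⟩ hxy with h3 | h3
        · exact hyc ((hmem c y).2 ⟨hyL, h3⟩)
        · exact hyU ((hmem U y).2 ⟨hyL, h3⟩)
      omega
    have h3 : ∀ c ∈ C, 3 ≤ E G (c.map i) (U' ∪ Lᶜ) := by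
      intro c hc
      rw [← hout c hc]
      obtain ⟨hodd, _, _⟩ := hC c hc
      have h4 := cut_parity h (hpc c hc)
      have h5 := hb (c.map i) (by
        obtain ⟨k, hk⟩ := hodd
        rw [← card_pos, card_map]; omega) (by
        intro h'
        apply hpc c hc
        rw [h']; exact mem_univ _)
      rw [card_map] at h4
      obtain ⟨k, hk⟩ := hodd
      omega
    have h4 : E G D (U' ∪ Lᶜ) = ∑ c ∈ C, E G (c.map i) (U' ∪ Lᶜ) := by
      unfold E
      rw [hD, sum_biUnion]
      intro c hc c' hc' hne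
      exact hdis c hc c' hc' hne
    have h5 : 3 * C.card ≤ E G D (U' ∪ Lᶜ) := by
      rw [h4, mul_comm, ← smul_eq_mul, ← sum_const]
      exact sum_le_sum h3
    have h6 : E G D (U' ∪ Lᶜ) = E G D U' + E G D Lᶜ := by
      apply E_union_right
      rw [Finset.disjoint_left]
      intro v hv; rw [mem_compl, not_not]; exact hUL hv
    have h7 : E G D Lᶜ ≤ E G L Lᶜ := E_mono G hDL (subset_refl _)
    have h8 : E G D U' ≤ E G U' univ := by
      rw [E_comm]; exact E_mono G (subset_refl _) (subset_univ _)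
    have h9 := E_univ_rooted h (fun h' => hp (hUL h') : p ∉ U')
    have h10 : U'.card = U.card := card_map _
    omega

/-- a perfect matching of `G - p` -/
theorem pm_root {G : SimpleGraph V} {p : V} (h : Rooted G p) (hb : Bridgeless G) :
    ∃ m : V → V, ∀ v, v ≠ p → m v ≠ p ∧ G.Adj v (m v) ∧ m (m v) = v := by
  have hcut : E G {p}ᶜ ({p}ᶜ)ᶜ ≤ 2 := by
    rw [compl_compl, E_comm]
    have := h.root
    have h1 : E G {p} {p}ᶜ ≤ E G {p} univ := E_mono G (subset_refl _) (subset_univ _)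
    omega
  obtain ⟨m, hm⟩ := pm_side h hb (by simp : p ∉ ({p} : Finset V)ᶜ) hcut
  refine ⟨m, fun v hv => ?_⟩
  obtain ⟨h1, h2, h3⟩ := hm v (by simpa using hv)
  exact ⟨by simpa using h1, h2, h3⟩

end Pool.Agent.LTD
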