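import Pool.Agent.Lib.MP_a46439_co.Ring2

set_option autoImplicit false
set_option linter.unusedSectionVars false

/-! Switching the matching at the end of a ladder. -/

namespace Pool.Agent.LTD

open Finset

namespace Setup

variable {V : Type} [Fintype V] [DecidableEq V] {M M' : Setup V}

/-- `M'` arises from `M` by switching the matching on the four-cycle of `y` and `v`. -/
structure Sw (M M' : Setup V) (y v : V) : Prop where
  my : M'.μ y = v
  mv : M'.μ v = y
  mmy : M'.μ (M.μ y) = M.μ v
  mmv : M'.μ (M.μ v) = M.μ y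
  mo : ∀ w, w ≠ y → w ≠ v → w ≠ M.μ y → w ≠ M.μ v → M'.μ w = M.μ w
  adj : ∀ a b, M'.H.Adj a b → (M.H.Adj a b ∨ b = M.μ a) ∧ b ≠ M'.μ a

lemma psi_le_one {u c : V} {ρ : Finset V} (h1 : M.H.Adj u c) (h2 : ¬ M.Psi u c) :
    E M.PsiG {u} ρ ≤ 1 := by
  have h3 : E M.PsiG {u} ρ ≤ E M.PsiG {u} univ := E_mono _ (subset_refl _) (subset_univ _)
  have h4 : E M.PsiG {u} univ < M.e {u} univ :=
    E_lt M.PsiG_le (mem_singleton_self u) (mem_univ c) h1 h2
  have h5 := M.e_deg u
  omega

lemma psi_le_two (A ρ : Finset V) : E M.PsiG A ρ ≤ 2 * A.card :=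
  (E_le_of_le M.PsiG_le _ _).trans (M.e_le _ _)

namespace Rg

variable {p p1 p2 y z : V} {A : Finset V}

/-- inner vertices of the exceptional rail have all their neighbours on the rail -/
lemma psi_inner (h : M.Rg p p1 p2 y z A) (ht : M.TV p1) {y1 : V} (ha : M.H.Adj p1 y1)
    (hy1y : y1 ≠ y) (hr : y ∈ M.rail y1) {w c : V} (hw : w ∈ M.rail y1) (hw1 : w ≠ y1)
    (hw2 : w ≠ y) (hwc : M.H.Adj w c) : M.Psi w c := by
  by_contra hcon
  have h0 := reach_count M.PsiG y1 (M.rail y1) (self_mem_rail y1) (fun w hw => mem_rail.1 hw)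
    (fun u hu w huw => rail_closed hu huw)
  have e1 : E M.PsiG {y1} (M.rail y1) ≤ 1 :=
    psi_le_one ha.symm (fun hp => ht _ (Psi.symm M hp))
  have e2 : E M.PsiG {y} (M.rail y1) ≤ 1 :=
    psi_le_one h.yz (fun hp => h.zA (h.cl.2 y h.yA z hp))
  have e3 : E M.PsiG {w} (M.rail y1) ≤ 1 := psi_le_one hwc hcon
  have s1 : ({y1} : Finset V) ⊆ M.rail y1 := singleton_subset_iff.2 (self_mem_rail y1)
  have s2 : ({y} : Finset V) ⊆ M.rail y1 \ {y1} := by
    rw [singleton_subset_iff, mem_sdiff, mem_singleton]; exact ⟨hr, hy1y.symm⟩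
  have s3 : ({w} : Finset V) ⊆ (M.rail y1 \ {y1}) \ {y} := by
    rw [singleton_subset_iff, mem_sdiff, mem_sdiff, mem_singleton, mem_singleton]
    exact ⟨⟨hw, hw1⟩, hw2⟩
  have f1 : E M.PsiG (M.rail y1) (M.rail y1) = E M.PsiG {y1} (M.rail y1) +
      E M.PsiG (M.rail y1 \ {y1}) (M.rail y1) := E_sdiff_left _ s1 _
  have f2 : E M.PsiG (M.rail y1 \ {y1}) (M.rail y1) = E M.PsiG {y} (M.rail y1) +
      E M.PsiG ((M.rail y1 \ {y1}) \ {y}) (M.rail y1) := E_sdiff_left _ s2 _
  have f3 : E M.PsiG ((M.rail y1 \ {y1}) \ {y}) (M.rail y1) = E M.PsiG {w} (M.rail y1) +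
      E M.PsiG (((M.rail y1 \ {y1}) \ {y}) \ {w}) (M.rail y1) := E_sdiff_left _ s3 _
  have g1 := card_sdiff_add_card_eq_card s1
  have g2 := card_sdiff_add_card_eq_card s2
  have g3 := card_sdiff_add_card_eq_card s3
  have g4 := psi_le_two (M := M) (((M.rail y1 \ {y1}) \ {y}) \ {w}) (M.rail y1)
  simp only [card_singleton] at g1 g2 g3
  omega

/-- After switching the exceptional case does not occur. -/
theorem no_switch (h : M.Rg p p1 p2 y z A) (h' : M'.Rg p p1 p2 y z A) {v y1 : V}
    (s : M.Sw M' y v) (hP : M.Psi y v) (ht : M.TV p1) (ha : M.H.Adj p1 y1)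
    (hy1y : y1 ≠ y) (hr : y ∈ M.rail y1) : y1 ∉ M'.rail y := by
  have hgood := h.root.good
  have hgood' := h'.root.good
  by_cases hv1 : v = y1
  · rw [← hv1, ← s.my]; exact hgood' y
  have hρ : M.rail y = M.rail y1 := rail_eq_of_mem hr
  have hmy : M.μ y ∉ M.rail y1 := by rw [← hρ]; exact hgood y
  have hmρ : ∀ w ∈ M.rail y1, M.μ w ∉ M.rail y1 := by
    intro w hw
    rw [← rail_eq_of_mem hw]; exact hgood w
  have hvρ : v ∈ M.rail y1 := rail_closed hr hP
  have hvy : v ≠ y := hP.1.ne'
  -- the neighbours of `y`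
  have hyv := hP.1
  have hvz : v ≠ z := by
    rintro rfl
    exact h.zA (h.cl.2 y h.yA v hP)
  -- the rail in `M'`
  have key : ∀ w, M'.PsiG.Reachable y w → w = y ∨ w = M.μ y := by
    have step : ∀ a w, (a = y ∨ a = M.μ y) → M'.Psi a w → (w = y ∨ w = M.μ y) := by
      intro a w ha' hPs
      rcases ha' with rfl | rfl
      · -- neighbours of `y`
        obtain ⟨h1, h2⟩ := s.adj a w hPs.1
        rcases h1 with h1 | h1
        · rcases nbr_two hyv h.yz hvz h1 with h3 | h3
          · rw [s.my] at h2
            exact absurd h3 h2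
          · exfalso
            rw [h3] at hPs
            exact h.zA (h'.cl.2 a h.yA z hPs)
        · exact Or.inr h1
      · obtain ⟨h1, h2⟩ := s.adj _ w hPs.1
        rcases h1 with h1 | h1
        swap
        · rw [M.inv] at h1; exact Or.inl h1
        exfalso
        -- `w` is a neighbour of `μ y` in `M`
        rw [s.mmy] at h2
        have hwy : w ≠ y := by
          rintro rfl
          exact M.Hne _ h1.symm
        have hPs2 := hPs.2
        rw [s.mmy] at hPs2
        obtain ⟨h3, h4⟩ := s.adj _ _ hPs2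
        rw [s.mmv] at h4
        -- the other neighbour of `v`
        have hvA : v ∈ A := h.cl.2 y h.yA v hP
        have hvfull := h.root.full v (Root.mem_W.1 (h.sub hvA)).2
        obtain ⟨v', _, hv'y, hvv'⟩ := exists_other hvfull y
        have hPv := h.psi_inner ht ha hy1y hr hvρ hv1 hvy hvv'
        have hv'ρ : v' ∈ M.rail y1 := rail_closed hvρ hPv
        have hv'v : v' ≠ v := hvv'.ne'
        have hmw : M'.μ w = v ∨ M'.μ w = M.μ v' := by
          rcases h3 with h3 | h3
          · rcases nbr_two (Psi.symm M hP).2 hPv.2 (by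
              intro h5
              apply hv'y
              have h6 := congrArg M.μ h5
              rw [M.inv, M.inv] at h6
              exact h6.symm) h3 with h5 | h5
            · exact absurd h5 h4
            · exact Or.inr h5
          · rw [M.inv] at h3; exact Or.inl h3
        rcases hmw with h5 | h5
        · apply hwy
          rw [← M'.inv w, h5, s.mv]
        · have h6 : w = M'.μ (M.μ v') := by rw [← h5, M'.inv]
          have h7 : M'.μ (M.μ v') = v' := by
            rw [s.mo, M.inv]
            · intro h8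
              exact hmρ v' hv'ρ (h8 ▸ hr)
            · intro h8
              exact hmρ v' hv'ρ (h8 ▸ hvρ)
            · intro h8
              apply hv'y
              have := congrArg M.μ h8
              rwa [M.inv, M.inv] at this
            · intro h8
              apply hv'v
              have := congrArg M.μ h8
              rwa [M.inv, M.inv] at this
          rw [h7] at h6
          subst h6
          by_cases hv'1 : w = y1
          · rw [hv'1] at h1 hvv'
            rcases nbr_two ha.symm hvv'.symm (by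
              rintro rfl
              exact ht _ (Psi.symm M hP)) h1.symm with h8 | h8
            · apply ht (M.μ v)
              have := Psi.mu M hP
              rw [h8] at this
              exact this
            · exact M.Hne y (h8 ▸ hyv)
          · have h8 := h.psi_inner ht ha hy1y hr hv'ρ hv'1 hv'y h1.symm
            exact hmy (rail_closed hv'ρ h8)
    intro w hw
    obtain ⟨q⟩ := hw
    have gen : ∀ a b, (q : M'.PsiG.Walk a b) → (a = y ∨ a = M.μ y) → (b = y ∨ b = M.μ y) := by
      intro a b q
      induction q with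
      | nil => exact id
      | cons hadj _ ih => exact fun h5 => ih (step _ _ h5 hadj)
    exact gen y w q (Or.inl rfl)
  intro hcon
  rw [mem_rail] at hcon
  rcases key y1 hcon with h1 | h1
  · exact hy1y h1
  · apply hmy
    rw [← h1]; exact self_mem_rail y1

end Rg

end Setup

end Pool.Agent.LTD
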