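import Pool.Agent.Lib.MP_a46439_co.LeafSetup
import Pool.Agent.Lib.MP_a46439_co.Switch

set_option autoImplicit false
set_option linter.unusedSectionVars false

/-! Rings at the level of graphs. -/

namespace Pool.Agent.LTD

open Finset

variable {V : Type} [Fintype V] [DecidableEq V] {G : SimpleGraph V} {p p1 p2 : V} {m : V → V}

/-- a cut of size two separating the two neighbours of the root -/
structure GRing (G : SimpleGraph V) (p p1 p2 : V) (A : Finset V) : Prop where
  pA : p ∉ A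
  i1 : p1 ∈ A
  i2 : p2 ∉ A
  cut : E G A Aᶜ ≤ 2

/-- a ring with its second edge, minimal -/
structure MRing (G : SimpleGraph V) (p p1 p2 y z : V) (A : Finset V) : Prop where
  pA : p ∉ A
  i1 : p1 ∈ A
  i2 : p2 ∉ A
  cut : E G A Aᶜ = 2
  yA : y ∈ A
  zA : z ∉ A
  yz : G.Adj y z
  ne : ¬ (y = p1 ∧ z = p)
  lv : ∀ a ∈ A, ∀ b, b ∉ A → G.Adj a b → (a = p1 ∧ b = p) ∨ (a = y ∧ b = z)
  min : ∀ A' ⊆ A, p1 ∈ A' → E G A' A'ᶜ ≤ 2 → A' = A

lemma E_eq_filter (H : SimpleGraph V) (A A' : Finset V)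
    [DecidablePred fun q : V × V => H.Adj q.1 q.2] :
    E H A A' = ((A ×ˢ A').filter fun q => H.Adj q.1 q.2).card := by
  rw [card_filter, sum_product]
  unfold E
  refine sum_congr rfl fun a _ => sum_congr rfl fun b _ => ?_
  by_cases h : H.Adj a b
  · rw [if_pos h, if_pos h]
  · rw [if_neg h, if_neg h]

lemma exists_mring (hb : Bridgeless G) (h1 : G.Adj p p1) (h : ∃ A, GRing G p p1 p2 A) :
    ∃ y z A, MRing G p p1 p2 y z A := by
  classical
  have hex : ((univ : Finset (Finset V)).filter fun A => GRing G p p1 p2 A).Nonempty := by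
    obtain ⟨A, hA⟩ := h
    exact ⟨A, mem_filter.2 ⟨mem_univ _, hA⟩⟩
  obtain ⟨A, hA, hmin⟩ := exists_min_image _ (fun A => A.card) hex
  have hA := (mem_filter.1 hA).2
  have h2 := hb A ⟨p1, hA.i1⟩ (by
    rintro rfl
    exact hA.pA (mem_univ _))
  have hcut : E G A Aᶜ = 2 := le_antisymm hA.cut h2
  have hpc : p ∈ Aᶜ := mem_compl.2 hA.pA
  have hcard := hcut
  rw [E_eq_filter, card_eq_two] at hcard
  obtain ⟨q1, q2, hne, hq⟩ := hcard
  have hmem : ∀ a b, (a ∈ A ∧ b ∉ A ∧ G.Adj a b) ↔ ((a, b) = q1 ∨ (a, b) = q2) := by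
    intro a b
    have : (a, b) ∈ ((A ×ˢ Aᶜ).filter fun q => G.Adj q.1 q.2) ↔ (a, b) ∈ ({q1, q2} : Finset _) := by
      rw [hq]
    rw [mem_filter, mem_product, mem_compl, mem_insert, mem_singleton] at this
    rw [← this]; tauto
  have hp : (p1, p) = q1 ∨ (p1, p) = q2 := (hmem p1 p).1 ⟨hA.i1, hA.pA, h1.symm⟩
  obtain ⟨q, hq1, hq2⟩ : ∃ q : V × V, q ≠ (p1, p) ∧ ∀ a b, (a ∈ A ∧ b ∉ A ∧ G.Adj a b) ↔
      ((a, b) = (p1, p) ∨ (a, b) = q) := by
    rcases hp with h3 | h3
    · refine ⟨q2, fun h => hne (h3.symm.trans h.symm), fun a b => ?_⟩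
      rw [hmem, h3]
    · refine ⟨q1, fun h => hne (h.trans h3), fun a b => ?_⟩
      rw [hmem, h3, or_comm]
  obtain ⟨y, z⟩ := q
  have hyz := (hq2 y z).2 (Or.inr rfl)
  refine ⟨y, z, A, hA.pA, hA.i1, hA.i2, hcut, hyz.1, hyz.2.1, hyz.2.2, ?_, ?_, ?_⟩
  · rintro ⟨rfl, rfl⟩; exact hq1 rfl
  · intro a ha b hb hab
    rcases (hq2 a b).1 ⟨ha, hb, hab⟩ with h3 | h3
    · rw [Prod.mk.injEq] at h3; exact Or.inl h3
    · rw [Prod.mk.injEq] at h3; exact Or.inr h3
  · intro A' hA' hp1 hc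
    have h3 := hmin A' (mem_filter.2 ⟨mem_univ _, fun h => hA.pA (hA' h), hp1,
      fun h => hA.i2 (hA' h), hc⟩)
    exact eq_of_subset_of_card_le hA' h3

lemma E_univ_rooted (hr : Rooted G p) {A : Finset V} (hp : p ∉ A) :
    E G A univ = 3 * A.card := by
  induction A using Finset.induction_on with
  | empty => simp
  | insert a A ha ih =>
    rw [mem_insert, not_or] at hp
    have h3 : insert a A = {a} ∪ A := by ext; simp
    rw [card_insert_of_notMem ha, h3, E_union_left _ (by simpa using ha), ih hp.2,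
      hr.deg a (Ne.symm hp.1)]
    ring

/-- the embedding of finite sets -/
def oset (A : Finset V) : Finset (Option V) := A.map Function.Embedding.some

lemma mem_oset {A : Finset V} {x : V} : some x ∈ oset A ↔ x ∈ A := by
  simp [oset]

lemma none_oset {A : Finset V} : (none : Option V) ∉ oset A := by
  simp [oset]

lemma mem_oset' {A : Finset V} {a : Option V} : a ∈ oset A ↔ ∃ x ∈ A, a = some x := by
  simp only [oset, mem_map, Function.Embedding.some_apply]
  constructor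
  · rintro ⟨x, hx, rfl⟩; exact ⟨x, hx, rfl⟩
  · rintro ⟨x, hx, rfl⟩; exact ⟨x, hx, rfl⟩

section

variable {hr : Rooted G p} {hm : PMat G p m}

lemma E_leaf {A A' : Finset V} (h : ∀ x ∈ A, ∀ y ∈ A', y ≠ m x) :
    (leafSetup G p m hr hm).e (oset A) (oset A') = E G A A' := by
  unfold Setup.e E oset
  rw [sum_map]
  refine sum_congr rfl fun x hx => ?_
  rw [sum_map]
  refine sum_congr rfl fun y hy => ?_
  have : (leafSetup G p m hr hm).H.Adj (Function.Embedding.some x) (Function.Embedding.some y) ↔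
      G.Adj x y := by
    change (leafSetup G p m hr hm).H.Adj (some x) (some y) ↔ G.Adj x y
    rw [leaf_adj]
    exact ⟨fun h' => h'.1, fun h' => ⟨h', h x hx y hy⟩⟩
  by_cases h1 : G.Adj x y
  · rw [if_pos h1, if_pos (this.2 h1)]
  · rw [if_neg h1, if_neg fun h2 => h1 (this.1 h2)]

lemma mc_oset {A : Finset V} (hp : p ∉ A) (hA : ∀ v ∈ A, m v ∈ A) :
    (leafSetup G p m hr hm).Mc (oset A) := by
  intro a ha
  obtain ⟨x, hx, rfl⟩ := mem_oset'.1 ha
  rw [leaf_mu (by rintro rfl; exact hp hx)]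
  exact mem_oset.2 (hA x hx)

lemma mem_nd_p {a : Option V} : a ∈ (leafSetup G p m hr hm).nd (some p) ↔
    a = some p ∨ a = none := by
  rw [Setup.mem_nd, leaf_mu_p]

lemma oset_sub {A : Finset V} (hp : p ∉ A) :
    oset A ⊆ univ \ (leafSetup G p m hr hm).nd (some p) := by
  intro a ha
  obtain ⟨x, hx, rfl⟩ := mem_oset'.1 ha
  rw [mem_sdiff, mem_nd_p, not_or]
  refine ⟨mem_univ _, ?_, by simp⟩
  intro h
  rw [Option.some.inj h] at hx
  exact hp hx

lemma d_leaf (h1 : G.Adj p p1) (h2 : G.Adj p p2) (hne : p1 ≠ p2) {A : Finset V} (hp : p ∉ A)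
    (hA : ∀ v ∈ A, m v ∈ A) : (leafSetup G p m hr hm).d (oset A) = E G A Aᶜ := by
  have hroot := leaf_root (hr := hr) (hm := hm) h1 h2 hne
  rw [hroot.d_eq (by rw [leaf_mu_p]; exact none_oset)]
  have h3 : (oset A)ᶜ = oset Aᶜ ∪ {none} := by
    ext a
    rw [mem_compl, mem_union, mem_singleton]
    rcases a with _ | x
    · simp [none_oset]
    · rw [mem_oset, mem_oset, mem_compl]; simp
  have h4 : Disjoint (oset Aᶜ) {(none : Option V)} := by
    rw [disjoint_singleton_right]; exact none_oset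
  rw [h3, Setup.e_union_right _ h4, E_leaf]
  · have : (leafSetup G p m hr hm).e (oset A) {none} = 0 := by
      rw [Setup.e_eq_zero_iff]
      intro a _ b hb
      rw [mem_singleton] at hb; subst hb
      exact leaf_none'
    omega
  · intro x hx y hy h
    rw [mem_compl] at hy
    exact hy (h ▸ hA x hx)

lemma exists_oset {A' : Finset (Option V)}
    (h : A' ⊆ univ \ (leafSetup G p m hr hm).nd (some p)) :
    ∃ A : Finset V, A' = oset A ∧ p ∉ A := by
  refine ⟨univ.filter fun x => some x ∈ A', ?_, ?_⟩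
  · ext a
    rcases a with _ | x
    · constructor
      · intro h1
        have := h h1
        rw [mem_sdiff, mem_nd_p] at this
        exact absurd (Or.inr rfl) this.2
      · intro h1; exact absurd h1 none_oset
    · rw [mem_oset, mem_filter]; simp
  · intro h1
    rw [mem_filter] at h1
    have := h h1.2
    rw [mem_sdiff, mem_nd_p] at this
    exact this.2 (Or.inl rfl)

lemma closed_of_mc {A : Finset V} (hp : p ∉ A) (h : (leafSetup G p m hr hm).Mc (oset A)) :
    ∀ v ∈ A, m v ∈ A := by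
  intro v hv
  have h1 := h (some v) (mem_oset.2 hv)
  rw [leaf_mu (by rintro rfl; exact hp hv), mem_oset] at h1
  exact h1

/-- rings are closed under every matching -/
lemma closed_of_ring (hr : Rooted G p) (hm : PMat G p m) {y z : V} {A : Finset V}
    (h : MRing G p p1 p2 y z A) : ∀ v ∈ A, m v ∈ A := by
  by_contra hcon
  push Not at hcon
  obtain ⟨v, hv, hmv⟩ := hcon
  have hvp : v ≠ p := by rintro rfl; exact h.pA hv
  have hvy : v = y := by
    rcases h.lv v hv _ hmv (hm.adj v hvp) with h1 | h1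
    · exact absurd h1.2 (hm.mne hvp)
    · exact h1.1
  have hclosed : ∀ w ∈ A.erase v, m w ∈ A.erase v := by
    intro w hw
    rw [mem_erase] at hw ⊢
    have hwp : w ≠ p := by rintro rfl; exact h.pA hw.2
    refine ⟨?_, ?_⟩
    · intro h1
      apply hmv
      rw [← h1, hm.inv]; exact hw.2
    · by_contra hmw
      rcases h.lv w hw.2 _ hmw (hm.adj w hwp) with h1 | h1
      · exact absurd h1.2 (hm.mne hwp)
      · exact hw.1 (h1.1.trans hvy.symm)
  have h1 := (mc_oset (hr := hr) (hm := hm) (A := A.erase v)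
    (fun h' => h.pA (mem_erase.1 h').2) hclosed).even_card
  rw [oset, card_map, card_erase_of_mem hv] at h1
  have h2 := E_univ_rooted hr h.pA
  have h3 : E G A univ = E G A A + E G A (univ \ A) := E_sdiff G (subset_univ _) _
  rw [← compl_eq_univ_sdiff, h.cut] at h3
  obtain ⟨k, hk⟩ := E_even G A
  obtain ⟨k', hk'⟩ := h1
  have h4 : 0 < A.card := card_pos.2 ⟨v, hv⟩
  omega

/-- rings are rings of the set-up -/
theorem rg_of_ring (h1 : G.Adj p p1) (h2 : G.Adj p p2) (hne : p1 ≠ p2) {y z : V} {A : Finset V}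
    (h : MRing G p p1 p2 y z A) :
    (leafSetup G p m hr hm).Rg (some p) (some p1) (some p2) (some y) (some z) (oset A) := by
  have hcl := closed_of_ring hr hm h
  refine ⟨leaf_root h1 h2 hne, oset_sub h.pA, mc_oset h.pA hcl, mem_oset.2 h.i1,
    fun h' => h.i2 (mem_oset.1 h'), ?_, mem_oset.2 h.yA, fun h' => h.zA (mem_oset.1 h'), ?_, ?_,
    ?_, ?_⟩
  · rw [d_leaf h1 h2 hne h.pA hcl, h.cut]
  · rw [leaf_adj]
    refine ⟨h.yz, fun h' => h.zA ?_⟩
    rw [h']; exact hcl y h.yA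
  · rintro ⟨h3, h4⟩
    exact h.ne ⟨Option.some.inj h3, Option.some.inj h4⟩
  · intro a ha b hb hab
    obtain ⟨x, hx, rfl⟩ := mem_oset'.1 ha
    rcases b with _ | w
    · exact absurd hab leaf_none'
    · rw [leaf_adj] at hab
      rw [mem_oset] at hb
      rcases h.lv x hx w hb hab.1 with ⟨h3, h4⟩ | ⟨h3, h4⟩
      · left; rw [h3, h4]; exact ⟨rfl, rfl⟩
      · right; rw [h3, h4]; exact ⟨rfl, rfl⟩
  · intro A' hA' hmc hp1 hd
    obtain ⟨A0, rfl, hp0⟩ := exists_oset (hA'.trans (oset_sub (hr := hr) (hm := hm) h.pA))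
    rw [d_leaf h1 h2 hne hp0 (closed_of_mc hp0 hmc)] at hd
    rw [h.min A0 (fun x hx => mem_oset.1 (hA' (mem_oset.2 hx))) (mem_oset.1 hp1) hd]

/-- no rings -/
theorem nr_of_no_ring (h1 : G.Adj p p1) (h2 : G.Adj p p2) (hne : p1 ≠ p2)
    (h : ¬ ∃ A, GRing G p p1 p2 A) :
    (leafSetup G p m hr hm).NR (some p) (some p1) (some p2) := by
  intro A' hA' hmc hp1 hp2
  obtain ⟨A, rfl, hp⟩ := exists_oset hA'
  have h3 := d_leaf (hr := hr) (hm := hm) h1 h2 hne hp (closed_of_mc hp hmc)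
  obtain ⟨k, hk⟩ := (leafSetup G p m hr hm).d_even (oset A)
  by_contra hlt
  exact h ⟨A, hp, mem_oset.1 hp1, fun h' => hp2 (mem_oset.2 h'), by omega⟩

end

end Pool.Agent.LTD
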