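import Pool.Agent.Lib.MP_a46439_co.Vio

set_option autoImplicit false
set_option linter.unusedSectionVars false

/-! Light closed sets are flexible. -/

namespace Pool.Agent.LTD

open Finset

namespace Setup

variable {V : Type} [Fintype V] [DecidableEq V] {M : Setup V}

open Classical in
/-- labelling by the members of a family of disjoint sets and by blocks outside of it -/
noncomputable def labOf (M : Setup V) (FF : Finset (Finset V)) (v : V) : Finset V :=
  if h : ∃ A ∈ FF, v ∈ A then Classical.choose h else M.blk v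

/-- vertices outside the family and outside the ladders -/
def TOf (M : Setup V) (FF : Finset (Finset V)) (v : V) : Prop := M.TV v ∧ ∀ A ∈ FF, v ∉ A

lemma labOf_mem {FF : Finset (Finset V)} (hd : ∀ A ∈ FF, ∀ A' ∈ FF, A ≠ A' → Disjoint A A')
    {A : Finset V} (hA : A ∈ FF) {v : V} (hv : v ∈ A) : M.labOf FF v = A := by
  have h : ∃ A ∈ FF, v ∈ A := ⟨A, hA, hv⟩
  rw [labOf, dif_pos h]
  obtain ⟨h1, h2⟩ := Classical.choose_spec h
  by_contra hne
  exact (Finset.disjoint_left.1 (hd _ h1 A hA hne) h2) hv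

lemma labOf_not {FF : Finset (Finset V)} {v : V} (hv : ∀ A ∈ FF, v ∉ A) :
    M.labOf FF v = M.blk v := by
  rw [labOf, dif_neg]
  rintro ⟨A, hA, h⟩
  exact hv A hA h

lemma blk_flex {v : V} (hgood : ∀ v, M.μ v ∉ M.rail v) : M.Flex (M.blk v) := by
  intro u hu b _ _
  rw [← blk_eq_of_mem hu]
  by_cases hTu : M.TV u
  · rw [hTu.blk]; exact hTu.covX
  · exact (ladder_cov (hgood u) hTu).covX (self_mem_rail u)

theorem lab_of {FF : Finset (Finset V)} (hgood : ∀ v, M.μ v ∉ M.rail v)
    (hd : ∀ A ∈ FF, ∀ A' ∈ FF, A ≠ A' → Disjoint A A')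
    (hF : ∀ A ∈ FF, M.Cl A ∧ M.d A ≤ 4 ∧ M.Cov A ∧ M.Flex A) :
    M.Lab (M.labOf FF) (M.TOf FF) := by
  have hcase : ∀ v, (∃ A ∈ FF, v ∈ A ∧ M.labOf FF v = A) ∨
      ((∀ A ∈ FF, v ∉ A) ∧ M.labOf FF v = M.blk v) := by
    intro v
    by_cases h : ∃ A ∈ FF, v ∈ A
    · obtain ⟨A, hA, hv⟩ := h
      exact Or.inl ⟨A, hA, hv, labOf_mem hd hA hv⟩
    · push Not at h
      exact Or.inr ⟨h, labOf_not h⟩
  refine ⟨?_, ?_, ?_, ?_, ?_, ?_, ?_, ?_, ?_⟩
  · intro v
    rcases hcase v with ⟨A, hA, hv, h⟩ | ⟨hv, h⟩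
    · rw [h]; exact hv
    · rw [h]; exact self_mem_blk v
  · intro v w hw
    rcases hcase v with ⟨A, hA, hv, h⟩ | ⟨hv, h⟩
    · rw [h] at hw ⊢
      exact labOf_mem hd hA hw
    · rw [h] at hw ⊢
      rw [labOf_not, blk_eq_of_mem hw]
      intro A hA hwA
      apply hv A hA
      apply (hF A hA).1.blk_subset hwA
      rw [blk_eq_of_mem hw]
      exact self_mem_blk v
  · intro v
    rcases hcase v with ⟨A, hA, hv, h⟩ | ⟨hv, h⟩
    · rw [h]; exact (hF A hA).1
    · rw [h]; exact Cl_blk v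
  · intro v
    rcases hcase v with ⟨A, hA, hv, h⟩ | ⟨hv, h⟩
    · rw [h]; exact (hF A hA).2.2.2
    · rw [h]; exact blk_flex hgood
  · intro v
    rcases hcase v with ⟨A, hA, hv, h⟩ | ⟨hv, h⟩
    · rw [h]; exact (hF A hA).2.1
    · rw [h]; exact d_blk_le (hgood v)
  · intro v hT
    rw [covF_empty_iff]
    rcases hcase v with ⟨A, hA, hv, h⟩ | ⟨hv, h⟩
    · rw [h]; exact (hF A hA).2.2.1
    · rw [h]
      exact ⟨_, ladder_cov (hgood v) fun h' => hT ⟨h', hv⟩⟩
  · intro v hT; exact hT.1
  · intro v hT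
    rw [labOf_not hT.2, hT.1.blk]
  · intro v hT
    refine ⟨hT.1.mu, fun A hA h => hT.2 A hA ?_⟩
    exact (hF A hA).1.1.mem_iff.1 h

lemma image_block {B : V → Finset V} {T : V → Prop} (hL : M.Lab B T) (x : V) :
    (B x).image B = {B x} := by
  ext A
  rw [mem_image, mem_singleton]
  constructor
  · rintro ⟨w, hw, rfl⟩; exact hL.eq x w hw
  · rintro rfl; exact ⟨x, hL.self x, rfl⟩

lemma exists_cross {W K ρ : Finset V} (hKW : K ⊆ W)
    (h1 : M.e ρ K < M.e ρ W) : ∃ a ∈ ρ, ∃ w ∈ W, w ∉ K ∧ M.H.Adj a w := by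
  have h2 : M.e ρ W = M.e ρ K + M.e ρ (W \ K) := M.e_sdiff hKW _
  have h3 : 0 < M.e ρ (W \ K) := by omega
  obtain ⟨a, ha, w, hw, haw⟩ := M.e_pos_iff.1 h3
  rw [mem_sdiff] at hw
  exact ⟨a, ha, w, hw.1, hw.2, haw⟩

/-- A boundary vertex of a region with boundary two can be forced into a cover. -/
theorem attach {B : V → Finset V} {T : V → Prop} (hL : M.Lab B T) {W ρ Ex : Finset V} {x b : V}
    (hW : BCl B W) (hdW : M.d W ≤ 2) (hx : x ∈ W) (hb : b ∉ W) (hxb : M.H.Adj x b)
    (h4 : ∀ c ⊆ W \ B x, M.Mc c → (∀ v ∈ c, T v) → c.card % 4 = 2 → 4 ≤ M.d c)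
    (hρ : ρ ⊆ B x) (hK : M.CovF {x} Ex (B x)) (hKx : ∀ a ∈ ρ, M.CovFX {x} Ex (B x) a)
    (hout : M.d (B x) = 4 → M.e ρ (B x) + 2 ≤ 2 * ρ.card) : M.CovF {x} Ex W := by
  have hKc : BCl B (B x) := BCl_self hL x
  have hKW : B x ⊆ W := hW x hx
  rcases window_lab hL (W := W) (K := B x) (F := {x}) (Ex := Ex) (Us := fun a => a ∈ ρ)
    (empty_subset _) hW hKc hKW
    (singleton_subset_iff.2 (hL.self x)) hK (fun a _ ha => hKx a ha) with
    h | ⟨U, C, hv, hty⟩
  · exact h
  · exfalso
    have hd4 : ∀ c ∈ C, 4 ≤ M.d c := fun c hc =>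
      h4 c (hv.sub c hc) (hv.mc c hc) (hv.hT c hc) (hv.odd c hc)
    have hcount := hv.count hL hW hKc hKW hd4
    rw [image_block hL, card_singleton] at hcount
    have hxU : x ∈ B x ∪ U.biUnion id := mem_union_left _ (hL.self x)
    have hbd := one_le_bd (M := M) hxU hb hxb
    have hcard := hv.card
    rcases hty with hty | hty
    · omega
    · have hdef : ∑ A ∈ U ∪ {B x}, (4 - M.d A) = 0 := by omega
      rw [sum_eq_zero_iff] at hdef
      have h5 := hdef (B x) (mem_union_right _ (mem_singleton_self _))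
      have h6 := hout (by have := hL.d4 x; omega)
      have h7 := bd_mono (M := M) (W := W) (hρ.trans (subset_union_left (s₂ := U.biUnion id)))
      have h8 := M.bd_add W ρ
      obtain ⟨a, ha, w, hw, hwK, haw⟩ := exists_cross (M := M) (ρ := ρ) hKW (by omega)
      have haU : a ∈ B x ∪ U.biUnion id := mem_union_left _ (hρ ha)
      by_cases hwU : w ∈ U.biUnion id
      · have hadj : (M.Hx B).Adj a w := by
          refine ⟨haw, fun h => hwK ?_⟩
          rw [← hL.eq x a (hρ ha), h]
          exact hL.self w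
        have := two_le_E haU (mem_union_right _ hwU) hadj
        omega
      · by_cases hwC : w ∈ C.biUnion id
        · obtain ⟨c, hc, hwc⟩ := mem_biUnion.1 hwC
          exact hty c hc w hwc a (hρ ha) ha haw.symm
        · have hwR : w ∈ rest W (B x) U C := mem_rest.2 ⟨hw, hwK, hwU, hwC⟩
          have hR := ((hv.rest_bcl hL hW hKc).mc hL).two_le_d ⟨w, hwR⟩ (by
            intro h
            have : x ∈ rest W (B x) U C := by rw [h]; exact mem_univ _
            exact (mem_rest.1 this).2.1 (hL.self x))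
          omega

/-- in a ladder or node with four attachments each rail has two of them -/
lemma rail_out {x : V} (hgood : M.μ x ∉ M.rail x) (h4 : M.d (M.blk x) = 4) :
    M.e (M.rail x) (M.blk x) + 2 ≤ 2 * (M.rail x).card := by
  have hd : Disjoint (M.rail x) (M.rail (M.μ x)) := by
    rw [Finset.disjoint_left]
    intro w hw hw'
    apply hgood
    rw [← rail_eq_of_mem hw, rail_eq_of_mem hw']
    exact self_mem_rail _
  have hcount : 2 * (M.rail (M.μ x)).card ≤ M.e (M.rail (M.μ x)) (M.rail (M.μ x)) + 2 := by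
    have h1 := reach_count M.PsiG (M.μ x) (M.rail (M.μ x)) (self_mem_rail _)
      (fun w hw => mem_rail.1 hw) (fun u hu w huw => rail_closed hu huw)
    have h2 : E M.PsiG (M.rail (M.μ x)) (M.rail (M.μ x)) ≤
        M.e (M.rail (M.μ x)) (M.rail (M.μ x)) := E_le_of_le M.PsiG_le _ _
    omega
  have h3 := M.d_add (M.blk x)
  have h4' : (M.blk x).card = (M.rail x).card + (M.rail (M.μ x)).card := card_union_of_disjoint hd
  have h5 : M.e (M.blk x) (M.blk x) = M.e (M.rail x) (M.blk x) + M.e (M.rail (M.μ x)) (M.blk x) :=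
    M.e_union_left hd _
  have h7 : M.e (M.rail (M.μ x)) (M.rail (M.μ x)) ≤ M.e (M.rail (M.μ x)) (M.blk x) :=
    M.e_mono (subset_refl _) subset_union_right
  omega

lemma isCov_node {x : V} (h : M.TV x) : M.IsCov (M.nd x) {x} {x} := by
  refine ⟨?_, ?_, ?_, ?_⟩
  · intro u hu; rw [mem_singleton] at hu; subst hu; exact self_mem_nd _
  · intro u hu
    rw [mem_nd] at hu
    rcases hu with rfl | rfl
    · simpa using M.ne u
    · simp [M.ne, M.inv]
  · intro u hu hu'; exact absurd hu hu'
  · intro u hu w huw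
    rw [mem_singleton] at hu; subst hu
    exact absurd huw (h w)

/-- the attachment lemma for blocks outside the family -/
theorem attach_blk {B : V → Finset V} {T : V → Prop} (hL : M.Lab B T) {W : Finset V}
    {x b : V} (hgood : ∀ v, M.μ v ∉ M.rail v)
    (hW : BCl B W) (hdW : M.d W ≤ 2) (hx : x ∈ W) (hb : b ∉ W) (hxb : M.H.Adj x b)
    (h4 : ∀ c ⊆ W \ B x, M.Mc c → (∀ v ∈ c, T v) → c.card % 4 = 2 → 4 ≤ M.d c)
    (hBx : B x = M.blk x) : M.CovF {x} {x} W ∧ (¬ M.TV x → M.CovF {x} ∅ W) := by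
  have h2 : ¬ M.TV x → M.CovF {x} ∅ W := by
    intro hT
    have hc := ladder_cov (hgood x) hT
    refine attach hL hW hdW hx hb hxb h4 (ρ := M.rail x) ?_ ?_ ?_ ?_
    · rw [hBx]; exact subset_union_left
    · rw [hBx]
      exact ⟨M.rail x, fun y hy => by
        rw [mem_inter, mem_singleton] at hy; rw [hy.1]; exact self_mem_rail x, hc⟩
    · intro a ha
      rw [hBx]
      exact ⟨M.rail x, ha, fun y hy => by
        rw [mem_inter, mem_singleton] at hy; rw [hy.1]; exact self_mem_rail x,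
        hc.mono (empty_subset _)⟩
    · rw [hBx]; exact rail_out (hgood x)
  refine ⟨?_, h2⟩
  by_cases hT : M.TV x
  · have hr : M.rail x = {x} := hT.rail
    refine attach hL hW hdW hx hb hxb h4 (ρ := M.rail x) ?_ ?_ ?_ ?_
    · rw [hBx]; exact subset_union_left
    · rw [hBx, hT.blk]
      exact ⟨{x}, fun y hy => (mem_inter.1 hy).1, isCov_node hT⟩
    · intro a ha
      rw [hBx, hT.blk]
      rw [hr, mem_singleton] at ha
      subst ha
      exact ⟨{a}, mem_singleton_self _, fun y hy => (mem_inter.1 hy).1,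
        (isCov_node hT).mono (subset_insert _ _)⟩
    · rw [hBx]; exact rail_out (hgood x)
  · obtain ⟨S, hS1, hS2⟩ := h2 hT
    exact ⟨S, hS1, hS2.mono (empty_subset _)⟩

/-- everything known about a light closed set -/
def Good (M : Setup V) (W : Finset V) : Prop :=
  M.Cov W ∧ M.Flex W ∧
    ∀ x ∈ W, ∀ b, b ∉ W → M.H.Adj x b → ¬ M.TV x → ∃ S, x ∈ S ∧ M.IsCov W S ∅

lemma covX_of_covF {x : V} {W : Finset V} (hx : x ∈ W) (h : M.CovF {x} {x} W) :
    M.CovX W x := by
  obtain ⟨S, h1, h2⟩ := h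
  exact ⟨S, h1 (mem_inter.2 ⟨mem_singleton_self _, hx⟩), h2⟩

/-- a maximum family of disjoint light sets with a given property -/
lemma exists_max_family (p : Finset V → Prop) :
    ∃ FF : Finset (Finset V), (∀ A ∈ FF, M.Light A ∧ p A) ∧
      (∀ A ∈ FF, ∀ A' ∈ FF, A ≠ A' → Disjoint A A') ∧
      ∀ c, M.Light c → p c → (∀ A ∈ FF, Disjoint c A) → False := by
  classical
  have hex : ((univ : Finset (Finset (Finset V))).filter fun FF => (∀ A ∈ FF, M.Light A ∧ p A) ∧
      (∀ A ∈ FF, ∀ A' ∈ FF, A ≠ A' → Disjoint A A')).Nonempty :=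
    ⟨∅, by rw [mem_filter]; simp⟩
  obtain ⟨FF, hF, hmax⟩ := exists_max_image _ (fun F => F.card) hex
  rw [mem_filter] at hF
  refine ⟨FF, hF.2.1, hF.2.2, ?_⟩
  intro c hc hp hd
  have hcF : c ∉ FF := by
    intro h
    have := hd c h
    rw [disjoint_self_iff_empty] at this
    exact hc.2.1.ne_empty this
  have := hmax (insert c FF) (by
    rw [mem_filter]
    refine ⟨mem_univ _, ?_, ?_⟩
    · intro A hA
      rcases mem_insert.1 hA with rfl | hA
      · exact ⟨hc, hp⟩
      · exact hF.2.1 A hA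
    · intro A hA A' hA' hne
      rcases mem_insert.1 hA with h1 | h1 <;> rcases mem_insert.1 hA' with h2 | h2
      · exact absurd (h1.trans h2.symm) hne
      · rw [h1]; exact hd A' h2
      · rw [h2]; exact (hd A h1).symm
      · exact hF.2.2 A h1 A' h2 hne)
  rw [card_insert_of_notMem hcF] at this
  omega

/-- **Light closed sets are flexible.** -/
theorem light_good (hd2 : M.d univ ≤ 2) (hgood : ∀ v, M.μ v ∉ M.rail v) :
    ∀ W, M.Light W → M.Good W := by
  intro W
  induction hn : W.card using Nat.strong_induction_on generalizing W with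
  | _ n ih =>
    intro hW
    by_cases hWu : W = univ
    · subst hWu
      refine ⟨cov_univ hd2 hgood, ?_, ?_⟩
      · intro a _ b hb; exact absurd (mem_univ _) hb
      · intro a _ b hb; exact absurd (mem_univ _) hb
    have hdW2 := hW.1.1.two_le_d hW.2.1 hWu
    have hdW : M.d W = 2 := le_antisymm hW.2.2 hdW2
    obtain ⟨FF, hF1, hF2, hF3⟩ := exists_max_family (M := M) fun A => A ⊆ W ∧ A ≠ W
    have hgF : ∀ A ∈ FF, M.Good A := by
      intro A hA
      obtain ⟨h1, h2, h3⟩ := hF1 A hA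
      exact ih A.card (by rw [← hn]; exact card_lt_card (h2.ssubset_of_ne h3)) A rfl h1
    have hL := lab_of (FF := FF) hgood hF2 (fun A hA => ⟨(hF1 A hA).1.1,
      (hF1 A hA).1.2.2.trans (by norm_num), (hgF A hA).1, (hgF A hA).2.1⟩)
    have hWB : BCl (M.labOf FF) W := by
      intro v hv
      by_cases h : ∃ A ∈ FF, v ∈ A
      · obtain ⟨A, hA, hvA⟩ := h
        rw [labOf_mem hF2 hA hvA]; exact (hF1 A hA).2.1
      · push Not at h
        rw [labOf_not h]; exact hW.1.blk_subset hv
    have h4 : ∀ c ⊆ W, c ≠ W → M.Mc c → (∀ v ∈ c, M.TOf FF v) → c.card % 4 = 2 →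
        4 ≤ M.d c := by
      intro c hcW hne hmc hT hcard
      have hcne : c.Nonempty := by rw [← card_pos]; omega
      have h1 := hmc.two_le_d hcne (LO.ne_univ_of_ssubset hcW hne)
      obtain ⟨k, hk⟩ := M.d_even c
      by_contra hlt
      refine hF3 c ⟨hmc.cl fun v hv => (hT v hv).1, hcne, by omega⟩ ⟨hcW, hne⟩ ?_
      intro A hA
      rw [Finset.disjoint_left]
      intro v hv; exact (hT v hv).2 A hA
    -- the cover
    have hcov : M.Cov W := by
      rcases window_lab hL (W := W) (K := ∅) (F := ∅) (Ex := ∅) (Us := fun _ => False)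
        (empty_subset _) hWB
        (fun v hv => absurd hv (notMem_empty _)) (empty_subset _) (empty_subset _)
        (CovF.empty _ _) (fun a ha => absurd ha (notMem_empty _)) with h | ⟨U, C, hv, _⟩
      · exact covF_empty_iff.1 h
      · by_cases hall : ∃ c ∈ C, c = W
        · obtain ⟨c, hc, rfl⟩ := hall
          have hTc := hv.hT c hc
          have hFe : FF = ∅ := by
            rw [eq_empty_iff_forall_notMem]
            intro A hA
            obtain ⟨h1, h2, _⟩ := hF1 A hA
            obtain ⟨a, ha⟩ := h1.2.1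
            exact (hTc a (h2 ha)).2 A hA ha
          refine base1 ⟨hW.1.1, fun v hv' => (hTc v hv').1, hv.odd c hc, hdW⟩ ?_
          intro c' hc' hmc' hcard' hne'
          exact h4 c' hc' hne' hmc' (fun v hv' => hTc v (hc' hv')) hcard'
        · exfalso
          push Not at hall
          have hd4 : ∀ c ∈ C, 4 ≤ M.d c := fun c hc =>
            h4 c ((hv.sub c hc).trans sdiff_subset) (hall c hc) (hv.mc c hc) (hv.hT c hc)
              (hv.odd c hc)
          have hcount := hv.count hL hWB (fun v hv => absurd hv (notMem_empty _))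
            (empty_subset _) hd4
          have hcard := hv.card
          rw [image_empty, card_empty] at hcount
          omega
    refine ⟨hcov, ?_⟩
    have key : ∀ x ∈ W, ∀ b, b ∉ W → M.H.Adj x b →
        M.CovF {x} {x} W ∧ (¬ M.TV x → M.CovF {x} ∅ W) := by
      intro x hx b hb hxb
      have h4' : ∀ c ⊆ W \ M.labOf FF x, M.Mc c → (∀ v ∈ c, M.TOf FF v) → c.card % 4 = 2 →
          4 ≤ M.d c := by
        intro c hc
        refine h4 c (hc.trans sdiff_subset) ?_
        rintro rfl
        exact (mem_sdiff.1 (hc hx)).2 (hL.self x)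
      by_cases h : ∃ A ∈ FF, x ∈ A
      · obtain ⟨A, hA, hxA⟩ := h
        have hlab : M.labOf FF x = A := labOf_mem hF2 hA hxA
        have hbA : b ∉ A := fun h => hb ((hF1 A hA).2.1 h)
        have hdA := (hF1 A hA).1.2.2
        constructor
        · obtain ⟨S, hxS, hS⟩ := (hgF A hA).2.1 x hxA b hbA hxb
          refine attach hL hWB hW.2.2 hx hb hxb h4' (ρ := ∅) (empty_subset _) ?_ ?_ ?_
          · rw [hlab]
            exact ⟨S, fun y hy => by
              rw [mem_inter, mem_singleton] at hy; rw [hy.1]; exact hxS, hS⟩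
          · intro a ha; exact absurd ha (notMem_empty _)
          · rw [hlab]; intro h; omega
        · intro hT
          obtain ⟨S, hxS, hS⟩ := (hgF A hA).2.2 x hxA b hbA hxb hT
          refine attach hL hWB hW.2.2 hx hb hxb h4' (ρ := ∅) (empty_subset _) ?_ ?_ ?_
          · rw [hlab]
            exact ⟨S, fun y hy => by
              rw [mem_inter, mem_singleton] at hy; rw [hy.1]; exact hxS, hS⟩
          · intro a ha; exact absurd ha (notMem_empty _)
          · rw [hlab]; intro h; omega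
      · push Not at h
        exact attach_blk hL hgood hWB hW.2.2 hx hb hxb h4' (labOf_not h)
    refine ⟨?_, ?_⟩
    · intro x hx b hb hxb
      exact covX_of_covF hx (key x hx b hb hxb).1
    · intro x hx b hb hxb hT
      obtain ⟨S, h1, h2⟩ := (key x hx b hb hxb).2 hT
      exact ⟨S, h1 (mem_inter.2 ⟨mem_singleton_self _, hx⟩), h2⟩

end Setup

end Pool.Agent.LTD
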