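import Pool.Agent.Lib.MP_a46439_co.End2
import Pool.Agent.Lib.MP_a46439_co.Bip

set_option autoImplicit false
set_option linter.unusedSectionVars false

/-! The root theorem without ring edges. -/

namespace Pool.Agent.LTD

open Finset

namespace Setup

variable {V : Type} [Fintype V] [DecidableEq V] {M : Setup V}

lemma qLemma : M.QLemma := by
  intro c hc hT h2 hd hlight hn
  obtain ⟨X, h1, h3, _, _, h4, h5⟩ := bip_of_not_cov hc hT h2 hd hlight hn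
  exact ⟨X, h1, h3, h4, h5⟩

/-- The possible outcomes at the root: a cover of the region containing one of the two root
neighbours, or the exceptional type. -/
def Out (M : Setup V) (p p1 p2 : V) : Prop :=
  (∃ S, (p1 ∈ S ∨ p2 ∈ S) ∧ M.IsCov (univ \ M.nd p) S ∅) ∨
  (M.H.Adj (M.μ p1) (M.μ p2) ∧ ∃ S, M.μ p1 ∈ S ∧ M.IsCov ((univ \ M.nd p) \ M.nd p2) S ∅)

theorem nonring {p p1 p2 : V} (hr : M.Root p p1 p2) (hNR : M.NR p p1 p2)
    (hadj : ¬ M.H.Adj p1 p2) (hmu : M.μ p1 ≠ p2) : M.Out p p1 p2 := by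
  by_cases t1 : M.TV p1
  swap
  · obtain ⟨S, h1, h2⟩ := hr.ladder t1
    exact Or.inl ⟨S, Or.inl h1, h2⟩
  by_cases t2 : M.TV p2
  swap
  · obtain ⟨S, h1, h2⟩ := hr.symm.ladder t2
    exact Or.inl ⟨S, Or.inr h1, h2⟩
  obtain ⟨FF, hFF⟩ := exists_fam hr
  obtain ⟨y1, _, hy1, ha1⟩ := exists_other (hr.full p1 (Root.mem_W.1 hr.p1_W).2) p
  obtain ⟨y2, _, hy2, ha2⟩ := exists_other (hr.full p2 (Root.mem_W.1 hr.p2_W).2) p
  have hmu' : M.μ p2 ≠ p1 := by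
    intro h; apply hmu; rw [← h, M.inv]
  have c1 : M.RCtx p p1 p2 y1 FF :=
    ⟨hr, hFF, hNR, t1, t2, ha1, hy1, fun h => hadj (h ▸ ha1), hmu⟩
  have c2 : M.RCtx p p2 p1 y2 FF :=
    ⟨hr.symm, hFF.symm, hNR.symm hr, t2, t1, ha2, hy2, fun h => hadj (h ▸ ha2).symm, hmu'⟩
  by_cases b1 : M.CovF {p1} ∅ (univ \ M.nd p)
  · obtain ⟨S, h1, h2⟩ := b1
    exact Or.inl ⟨S, Or.inl (h1 (mem_inter.2 ⟨mem_singleton_self _, hr.p1_W⟩)), h2⟩
  by_cases b2 : M.CovF {p2} ∅ (univ \ M.nd p)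
  · obtain ⟨S, h1, h2⟩ := b2
    exact Or.inl ⟨S, Or.inr (h1 (mem_inter.2 ⟨mem_singleton_self _, hr.p2_W⟩)), h2⟩
  obtain ⟨U1, C1, s1⟩ := c1.exists_str qLemma b1
  obtain ⟨U2, C2, s2⟩ := c2.exists_str qLemma b2
  have t : M.Two p p1 p2 y1 y2 FF U1 C1 U2 C2 := ⟨c1, c2, s1, s2⟩
  rcases s1.tri with ⟨f1, r1, q1, hq1, z1, hz1, hqz1, _, hne1, hin1⟩ | ⟨L1, hL1, u1, r1, hin1⟩ |
    ⟨L1, hL1, u1, hy1L, r1, hin1⟩ <;>
  rcases s2.tri with ⟨f2, r2, q2, hq2, z2, hz2, hqz2, _, hne2, hin2⟩ | ⟨L2, hL2, u2, r2, hin2⟩ |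
    ⟨L2, hL2, u2, hy2L, r2, hin2⟩
  · exact Or.inr (t.typeC f1 r1 r2 hq1 hz1 hqz1 hne1 hin1 hq2 hin2)
  · rw [f1] at hL2; exact absurd hL2 (notMem_empty _)
  · rw [f1] at hL2; exact absurd hL2 (notMem_empty _)
  · rw [f2] at hL1; exact absurd hL1 (notMem_empty _)
  · exfalso
    refine t.no_gg u1 r1 ?_ hin1 hin2
    rw [r2]; exact u1 L2 hL2
  · exfalso
    refine t.symm.no_gd hy2L ?_
    rw [r1]; exact u2 L1 hL1
  · rw [f2] at hL1; exact absurd hL1 (notMem_empty _)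
  · exfalso
    refine t.no_gd hy1L ?_
    rw [r2]; exact u1 L2 hL2
  · exfalso
    refine t.no_dd hL1 u1 hy1L ?_ r1 r2 hin1 hin2
    rw [← u1 L2 hL2]; exact hy2L

end Setup

end Pool.Agent.LTD
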