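import Pool.Agent.Lib.MP_a46439_co.NonRing

set_option autoImplicit false
set_option linter.unusedSectionVars false
set_option maxHeartbeats 1000000

/-! The root theorem for ring edges, fixed matching. -/

namespace Pool.Agent.LTD

open Finset

namespace Setup

variable {V : Type} [Fintype V] [DecidableEq V] {M : Setup V}

/-- exactly two leaving pairs -/
lemma pairs_of_two {A A' : Finset V} (h : M.e A A' = 2) {a0 b0 : V} (ha0 : a0 ∈ A)
    (hb0 : b0 ∈ A') (hab0 : M.H.Adj a0 b0) :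
    ∃ y ∈ A, ∃ z ∈ A', M.H.Adj y z ∧ ¬ (y = a0 ∧ z = b0) ∧
      ∀ a ∈ A, ∀ b ∈ A', M.H.Adj a b → (a = a0 ∧ b = b0) ∨ (a = y ∧ b = z) := by
  classical
  obtain ⟨y, hy, z, hz, hyz, hne⟩ := two_pairs (M := M) (A := A) (A' := A') h.ge a0 b0
  refine ⟨y, hy, z, hz, hyz, hne, ?_⟩
  intro a ha b hb hab
  by_contra hcon
  rw [not_or] at hcon
  have h1 := le_e (M := M) (A := A) (B := A') {(a0, b0), (y, z), (a, b)} (by
    intro q hq
    simp only [mem_insert, mem_singleton] at hq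
    rcases hq with rfl | rfl | rfl
    · exact ⟨ha0, hb0, hab0⟩
    · exact ⟨hy, hz, hyz⟩
    · exact ⟨ha, hb, hab⟩)
  rw [card_insert_of_notMem, card_insert_of_notMem, card_singleton, h] at h1
  · omega
  · rw [mem_singleton, Prod.mk.injEq]
    exact fun h' => hcon.2 ⟨h'.1.symm, h'.2.symm⟩
  · rw [mem_insert, mem_singleton, Prod.mk.injEq, Prod.mk.injEq, not_or]
    exact ⟨fun h' => hne ⟨h'.1.symm, h'.2.symm⟩, fun h' => hcon.1 ⟨h'.1.symm, h'.2.symm⟩⟩

/-- a ring: a set with two leaving edges, one of them at the root -/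
structure Rg (M : Setup V) (p p1 p2 y z : V) (A : Finset V) : Prop where
  root : M.Root p p1 p2
  sub : A ⊆ univ \ M.nd p
  mc : M.Mc A
  i1 : p1 ∈ A
  i2 : p2 ∉ A
  dA : M.d A = 2
  yA : y ∈ A
  zA : z ∉ A
  yz : M.H.Adj y z
  ne : ¬ (y = p1 ∧ z = p)
  lv : ∀ a ∈ A, ∀ b, b ∉ A → M.H.Adj a b → (a = p1 ∧ b = p) ∨ (a = y ∧ b = z)
  min : ∀ A' ⊆ A, M.Mc A' → p1 ∈ A' → M.d A' ≤ 2 → A' = A

lemma exists_rg {p p1 p2 : V} {A : Finset V} (hr : M.Root p p1 p2) (hAW : A ⊆ univ \ M.nd p)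
    (hA : M.Mc A) (h1 : p1 ∈ A) (h2 : p2 ∉ A) (hd : M.d A = 2)
    (hmin : ∀ A' ⊆ A, M.Mc A' → p1 ∈ A' → M.d A' ≤ 2 → A' = A) :
    ∃ y z, M.Rg p p1 p2 y z A := by
  have hmp : M.μ p ∉ A := fun h => (Root.mem_W.1 (hAW h)).2 rfl
  have hp : p ∉ A := fun h => Root.p_notW (hAW h)
  have h3 := hr.d_eq hmp
  rw [hd] at h3
  obtain ⟨y, hy, z, hz, hyz, hne, hlv⟩ := pairs_of_two h3.symm h1 (b0 := p) (by simpa using hp)
    hr.a1.symm
  refine ⟨y, z, hr, hAW, hA, h1, h2, hd, hy, by simpa using hz, hyz, hne, ?_, hmin⟩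
  intro a ha b hb
  exact hlv a ha b (by simpa using hb)

namespace Rg

variable {p p1 p2 y z : V} {A : Finset V}

lemma zp (h : M.Rg p p1 p2 y z A) : z ≠ p := by
  rintro rfl
  rcases h.root.nbr h.yz.symm with h1 | h1
  · exact h.ne ⟨h1, rfl⟩
  · exact h.i2 (h1 ▸ h.yA)

lemma zW (h : M.Rg p p1 p2 y z A) : z ∈ univ \ M.nd p := by
  rcases h.root.nbr_W (h.sub h.yA) h.yz with h1 | h1
  · exact h1
  · exact absurd h1.1 h.zp

lemma cl (h : M.Rg p p1 p2 y z A) : M.Cl A := by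
  refine ⟨h.mc, ?_⟩
  intro a ha b hab
  by_contra hb
  have hp : ∀ c, ¬ M.Psi p1 c ∨ c ≠ p := by
    intro c
    by_cases hc : c = p
    · left; rintro h1; subst hc; exact h.root.tv _ (Psi.symm M h1)
    · exact Or.inr hc
  rcases h.lv a ha b hb hab.1 with ⟨h1, h2⟩ | ⟨h1, h2⟩
  · subst h1; subst h2
    exact h.root.tv _ (Psi.symm M hab)
  · rcases h.lv (M.μ a) (h.mc a ha) (M.μ b) (h.mc.notMem hb) hab.2 with ⟨h3, h4⟩ | ⟨h3, h4⟩
    · have h5 := Psi.mu M hab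
      rw [h3, h4] at h5
      exact h.root.tv _ (Psi.symm M h5)
    · rw [← h1] at h3
      exact M.ne a h3

lemma lightC (h : M.Rg p p1 p2 y z A) : M.Light ((univ \ M.nd p) \ A) := by
  refine ⟨h.root.cl_W.sdiff h.cl, ⟨p2, mem_sdiff.2 ⟨h.root.p2_W, h.i2⟩⟩, ?_⟩
  rw [h.root.d_compl h.sub h.i1 h.i2, h.dA]

/-- assembling a cover of the region from a cover of the ring part -/
lemma assemble (h : M.Rg p p1 p2 y z A) (hc : M.CovF {p1} {y} A) :
    ∃ S, p1 ∈ S ∧ M.IsCov (univ \ M.nd p) S ∅ := by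
  obtain ⟨S, hF, hS⟩ := hc
  have hp1 : p1 ∈ S := hF (mem_inter.2 ⟨mem_singleton_self _, h.i1⟩)
  have hg := light_good h.root.d_univ.le h.root.good _ h.lightC
  have hmc := h.lightC.1.1
  have hd : Disjoint A ((univ \ M.nd p) \ A) := disjoint_sdiff
  have hu : A ∪ ((univ \ M.nd p) \ A) = univ \ M.nd p := union_sdiff_of_subset h.sub
  by_cases hy : y ∈ S
  · obtain ⟨S', hz, hS'⟩ := hg.2.1 z (mem_sdiff.2 ⟨h.zW, h.zA⟩) y
      (fun h' => (mem_sdiff.1 h').2 h.yA) h.yz.symm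
    refine ⟨S ∪ S', mem_union_left _ hp1, ?_⟩
    rw [← hu]
    refine hS.glue h.mc hmc hd hS' ?_
    intro x hx _ _
    rw [mem_union, mem_singleton, mem_singleton] at hx
    rcases hx with rfl | rfl
    · exact ⟨z, mem_union_right _ hz, h.yz⟩
    · exact ⟨y, mem_union_left _ hy, h.yz.symm⟩
  · obtain ⟨S', hS'⟩ := hg.1
    refine ⟨S ∪ S', mem_union_left _ hp1, ?_⟩
    rw [← hu]
    have hS0 : M.IsCov A S ∅ := by
      refine ⟨hS.1, hS.2.1, ?_, hS.2.2.2⟩
      intro v hv _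
      refine hS.2.2.1 v hv ?_
      rw [mem_singleton]; rintro rfl; exact hy hv
    refine hS0.glue h.mc hmc hd hS' ?_
    intro x hx
    rw [union_empty] at hx
    exact absurd hx (notMem_empty _)

/-- covers of the ring part without the root node -/
lemma d_L0 (h : M.Rg p p1 p2 y z A) (ht : M.TV p1) (hy : y ∈ M.nd p1) :
    M.Cl (A \ M.nd p1) ∧ M.d (A \ M.nd p1) ≤ 2 := by
  have hcl : M.Cl (M.nd p1) := by rw [← ht.blk]; exact Cl_blk p1
  refine ⟨h.cl.sdiff hcl, ?_⟩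
  have hsub : M.nd p1 ⊆ A := h.mc.nd_subset h.i1
  have h1 := M.d_sdiff hsub
  have h2 : M.e (M.nd p1) univ = M.e (M.nd p1) A + M.e (M.nd p1) (univ \ A) :=
    M.e_sdiff (subset_univ _) _
  have h3 := M.e_univ_le (M.nd p1)
  have h4 : 2 ≤ M.e (M.nd p1) (univ \ A) := by
    have := le_e (M := M) (A := M.nd p1) (B := univ \ A) {(p1, p), (y, z)} (by
      intro q hq
      simp only [mem_insert, mem_singleton] at hq
      rcases hq with rfl | rfl
      · refine ⟨self_mem_nd _, ?_, h.root.a1.symm⟩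
        simp only [mem_sdiff, mem_univ, true_and]
        exact fun h' => Root.p_notW (h.sub h')
      · refine ⟨hy, ?_, h.yz⟩
        simp only [mem_sdiff, mem_univ, true_and]
        exact h.zA)
    rwa [card_pair (by rw [Ne, Prod.mk.injEq]; exact fun h' => h.ne ⟨h'.1.symm, h'.2.symm⟩)]
      at this
  rw [e_nd_nd, nd_card, h.dA] at h1
  rw [nd_card] at h3
  omega

lemma yy (h : M.Rg p p1 p2 y z A) {y1 : V} (ha : M.H.Adj p1 y1) (hp : y1 ≠ p)
    (hy : y ≠ p1) : y1 ∈ A := by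
  by_contra hcon
  rcases h.lv p1 h.i1 y1 hcon ha with h1 | h1
  · exact hp h1.2
  · exact hy h1.1.symm

/-- the far end lies in the root node -/
lemma case1 (h : M.Rg p p1 p2 y z A) (ht : M.TV p1) (hy : y ∈ M.nd p1) :
    M.CovF {p1} {y} A := by
  obtain ⟨hcl, hd⟩ := h.d_L0 ht hy
  have hsub : M.nd p1 ⊆ A := h.mc.nd_subset h.i1
  have hu : M.nd p1 ∪ (A \ M.nd p1) = A := union_sdiff_of_subset hsub
  have hdis : Disjoint (M.nd p1) (A \ M.nd p1) := disjoint_sdiff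
  by_cases hyp : y = p1
  · have hcov : M.Cov (A \ M.nd p1) := by
      by_cases hne : (A \ M.nd p1).Nonempty
      · exact (light_good h.root.d_univ.le h.root.good _ ⟨hcl, hne, hd⟩).1
      · rw [not_nonempty_iff_eq_empty] at hne
        rw [hne]; exact Cov.empty
    have h1 := CovF.union (F := {p1}) (Ex := {y}) (Mc_nd p1) hcl.1 hdis
      ⟨{p1}, inter_subset_left, by rw [hyp]; exact isCov_node ht⟩
      (hcov.covF (by
        rw [disjoint_singleton_left]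
        exact fun h' => (mem_sdiff.1 h').2 (self_mem_nd _)))
    rwa [hu] at h1
  · obtain ⟨y1, _, hy1, ha1⟩ := exists_other
      (h.root.full p1 (Root.mem_W.1 h.root.p1_W).2) p
    have hy1A := h.yy ha1 hy1 hyp
    have hy1n : y1 ∉ M.nd p1 := by
      rw [mem_nd]; rintro (h1 | h1)
      · exact ha1.ne h1.symm
      · exact M.Hne _ (h1 ▸ ha1)
    have hy1L : y1 ∈ A \ M.nd p1 := mem_sdiff.2 ⟨hy1A, hy1n⟩
    have hg := light_good h.root.d_univ.le h.root.good _ ⟨hcl, ⟨y1, hy1L⟩, hd⟩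
    have hp1L : p1 ∉ A \ M.nd p1 := fun h' => (mem_sdiff.1 h').2 (self_mem_nd _)
    have h1 := CovFX.cov_pair (F := {p1}) (Ex := {y}) (Mc_nd p1) hcl.1 hdis (a := p1) (b := y1)
      ⟨{p1}, mem_singleton_self _, inter_subset_left, (isCov_node ht).mono (by simp)⟩
      ((hg.2.1 y1 hy1L p1 hp1L ha1.symm).covFX (by rwa [disjoint_singleton_left])) ha1
    rwa [hu] at h1

end Rg

end Setup

end Pool.Agent.LTD
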