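import Pool.Agent.Lib.MP_a46439_co.Ring

set_option autoImplicit false
set_option linter.unusedSectionVars false
set_option maxHeartbeats 1000000

/-! The root theorem for ring edges, main case. -/

namespace Pool.Agent.LTD

open Finset

namespace Setup

variable {V : Type} [Fintype V] [DecidableEq V] {M : Setup V}

namespace Rg

variable {p p1 p2 y z : V} {A : Finset V}

theorem case2 (h : M.Rg p p1 p2 y z A) (ht : M.TV p1) (hy : y ∉ M.nd p1) {y1 : V}
    (ha1 : M.H.Adj p1 y1) (hy1p : y1 ≠ p) (hex : y ∉ M.rail y1) : M.CovF {p1} {y} A := by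
  classical
  have hgood := h.root.good
  have hyp1 : y ≠ p1 := fun h' => hy (by rw [h']; exact self_mem_nd _)
  have hy1A := h.yy ha1 hy1p hyp1
  obtain ⟨FF, hF1, hF2, hF3⟩ := exists_max_family (M := M) fun c => c ⊆ A ∧ p1 ∉ c ∧ y ∉ c
  have hgF : ∀ c ∈ FF, M.Good c := fun c hc => light_good h.root.d_univ.le hgood c (hF1 c hc).1
  have hL0 := lab_of (FF := FF) hgood hF2 (fun c hc => ⟨(hF1 c hc).1.1,
    (hF1 c hc).1.2.2.trans (by norm_num), (hgF c hc).1, (hgF c hc).2.1⟩)
  set B := M.labOf FF with hB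
  set T : V → Prop := fun v => M.TOf FF v ∧ v ∉ M.nd y with hT
  have hL : M.LabE {y} B T := by
    refine ⟨hL0.self, hL0.eq, hL0.cl, hL0.flex, hL0.d4, ?_, fun v hv => hL0.tv v hv.1,
      fun v hv => hL0.node v hv.1, ?_⟩
    · intro v hv
      by_cases hTv : M.TOf FF v
      · have hvy : v ∈ M.nd y := by
          by_contra h'
          exact hv ⟨hTv, h'⟩
        have hTy : M.TV y := by
          rw [mem_nd] at hvy
          rcases hvy with rfl | rfl
          · exact hTv.1
          · exact TV_mu_iff.1 hTv.1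
        rw [hL0.node v hTv, nd_eq_of_mem hvy]
        exact ⟨{y}, by simp, isCov_node hTy⟩
      · obtain ⟨S, h1, h2⟩ := hL0.cov v hTv
        exact ⟨S, h1, h2.mono (empty_subset _)⟩
    · intro v hv
      exact ⟨hL0.tmu v hv.1, (Mc_nd y).notMem hv.2⟩
  have hAB : BCl B A := by
    intro v hv
    by_cases h' : ∃ c ∈ FF, v ∈ c
    · obtain ⟨c, hc, hvc⟩ := h'
      rw [hB, labOf_mem hF2 hc hvc]; exact (hF1 c hc).2.1
    · push Not at h'
      rw [hB, labOf_not h']; exact h.cl.blk_subset hv
  have hT1 : M.TOf FF p1 := ⟨ht, fun c hc => (hF1 c hc).2.2.1⟩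
  have hyF : ∀ c ∈ FF, y ∉ c := fun c hc => (hF1 c hc).2.2.2
  have hB1 : B p1 = M.nd p1 := hL0.node p1 hT1
  have hy1n : y1 ∉ M.nd p1 := by
    rw [mem_nd]; rintro (h1 | h1)
    · exact ha1.ne h1.symm
    · exact M.Hne _ (h1 ▸ ha1)
  have hBne : B p1 ≠ B y1 := by
    intro h1
    have := hL0.self y1
    rw [← h1, hB1] at this
    exact hy1n this
  have hdKy : Disjoint (M.nd p1) (B y1) := by rw [← hB1]; exact hL.disj hBne
  set K := M.nd p1 ∪ B y1 with hKdef
  have hK : BCl B K := by
    refine BCl.union ?_ (BCl_self hL y1)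
    rw [← hB1]; exact BCl_self hL p1
  have hKA : K ⊆ A := by
    apply union_subset (h.mc.nd_subset h.i1) (hAB y1 hy1A)
  have hKi : K.image B = {M.nd p1, B y1} := by
    rw [hKdef, image_union, image_block hL0 y1]
    conv_lhs => rw [← hB1]
    rw [image_block hL0 p1, hB1]
    rfl
  have hKc : (K.image B).card = 2 := by
    rw [hKi, card_pair]
    rw [← hB1]; exact hBne
  have hp1K : p1 ∈ K := mem_union_left _ (self_mem_nd p1)
  have hyK : y1 ∈ K := mem_union_right _ (hL.self y1)
  have hp1B : p1 ∉ B y1 := Finset.disjoint_left.1 hdKy (self_mem_nd p1)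
  have hKcov : M.CovF {p1} {y} K := by
    refine CovFX.cov_pair (Mc_nd p1) (hL.cl y1).1 hdKy (a := p1) (b := y1) ?_ ?_ ha1
    · exact ⟨{p1}, mem_singleton_self _, inter_subset_left, (isCov_node ht).mono (by simp)⟩
    · apply CovX.covFX
      · exact hL.flex y1 y1 (hL.self y1) p1 hp1B ha1.symm
      · rw [disjoint_singleton_left]; exact hp1B
  have hKx : ∀ a ∈ K, ((∀ c ∈ FF, y1 ∉ c) ∧ a ∈ M.rail y1) → M.CovFX {p1} {y} K a := by
    rintro a _ ⟨hyn, ha⟩
    have hBy : B y1 = M.blk y1 := labOf_not hyn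
    have h1 : M.IsCov K ({p1} ∪ M.rail y1) ∅ := by
      have h2 := isCov_node ht
      have h3 := isCov_rail y1 (hgood y1)
      rw [← hBy] at h3
      refine h2.glue (Mc_nd p1) (hL.cl y1).1 hdKy h3 ?_
      intro x hx _ _
      rw [mem_union, mem_singleton, mem_singleton] at hx
      rcases hx with rfl | rfl
      · exact ⟨y1, mem_union_right _ (self_mem_rail y1), ha1⟩
      · exact ⟨p1, mem_union_left _ (mem_singleton_self _), ha1.symm⟩
    exact ⟨_, mem_union_right _ ha, inter_subset_left.trans subset_union_left,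
      h1.mono (empty_subset _)⟩
  rcases window_lab hL (W := A) (K := K) (F := {p1}) (Ex := {y})
    (Us := fun b => (∀ c ∈ FF, y1 ∉ c) ∧ b ∈ M.rail y1) (subset_refl _) hAB hK hKA
    (singleton_subset_iff.2 hp1K) hKcov hKx with hc | ⟨U, C, hv, hty⟩
  · exact hc
  exfalso
  -- components
  have hd4 : ∀ c ∈ C, 4 ≤ M.d c := by
    intro c hc
    have hne := hv.comp_ne hc
    have hmc := hv.mc c hc
    have hp1c : p1 ∉ c := fun h' => (mem_sdiff.1 (hv.sub c hc h')).2 hp1K
    have h1 := hmc.two_le_d hne (by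
      intro hu
      exact hp1c (by rw [hu]; exact mem_univ _))
    obtain ⟨k, hk⟩ := M.d_even c
    by_contra hlt
    refine hF3 c ⟨hmc.cl fun v hv' => (hv.hT c hc v hv').1.1, hne, by omega⟩
      ⟨(hv.sub c hc).trans sdiff_subset, hp1c, ?_⟩ ?_
    · intro h'
      exact (hv.hT c hc y h').2 (self_mem_nd y)
    · intro c' hc'
      rw [Finset.disjoint_left]
      intro v hv'; exact (hv.hT c hc v hv').1.2 c' hc'
  have hcount := hv.count hL hAB hK hKA hd4
  have hbig : K ∪ U.biUnion id = big K U := rfl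
  rw [hKc, hbig, h.dA] at hcount
  have hp1U : p1 ∈ big K U := mem_union_left _ hp1K
  have hyU : y1 ∈ big K U := mem_union_left _ hyK
  have hpA : p ∉ A := fun h' => Root.p_notW (h.sub h')
  have hbd := one_le_bd (M := M) (W := A) hp1U hpA h.root.a1.symm
  have hadj1 : (M.Hx B).Adj p1 y1 := ⟨ha1, hBne⟩
  have hE := two_le_E hp1U hyU hadj1
  have hcard := hv.card
  have hRb := hv.rest_bcl hL hAB hK
  have hRm := hRb.mc hL
  have hp1R : p1 ∉ rest A K U C := fun h' => (mem_rest.1 h').2.1 hp1K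
  have hR2 : (rest A K U C).Nonempty → 2 ≤ M.d (rest A K U C) := by
    intro hne
    apply hRm.two_le_d hne
    intro hu
    exact hp1R (by rw [hu]; exact mem_univ _)
  have hnr : ∀ c ∈ C, (∀ c' ∈ FF, y1 ∉ c') → ∀ a ∈ c, ∀ b ∈ M.rail y1, ¬ M.H.Adj a b := by
    rcases hty with hty | hty
    · omega
    · intro c hc hyn a ha b hb
      have hbK : b ∈ K := by
        refine mem_union_right _ ?_
        rw [hB, labOf_not hyn]; exact mem_union_left _ hb
      exact hty c hc a ha b hbK ⟨hyn, hb⟩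
  have hByQ : B y1 ∈ U ∪ K.image B := by rw [hKi]; simp
  have hdefy : ∀ c ∈ U ∪ K.image B, 4 - M.d c ≤ ∑ c ∈ U ∪ K.image B, (4 - M.d c) := by
    intro c hc
    exact single_le_sum (f := fun c => 4 - M.d c) (fun _ _ => Nat.zero_le _) hc
  -- where is `y`?
  have hyA := h.yA
  rw [hv.W_eq hL hAB hK hKA] at hyA
  have hcase : y ∈ big K U ∨ y ∈ rest A K U C := by
    rcases mem_union.1 hyA with h1 | h1
    · rcases mem_union.1 h1 with h2 | h2
      · exact Or.inl (mem_union_left _ h2)
      · exact Or.inr h2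
    · rcases mem_union.1 h1 with h2 | h2
      · exact Or.inl (mem_union_right _ h2)
      · obtain ⟨c, hc, hyc⟩ := mem_biUnion.1 h2
        exact absurd (self_mem_nd y) (hv.hT c hc y hyc).2
  rcases hcase with hyb | hyr
  · have hbd2 : 2 ≤ M.bd A (big K U) :=
      two_le_bd hp1U hpA h.root.a1.symm hyb h.zA h.yz (Or.inl hyp1.symm)
    have hdef : ∑ c ∈ U ∪ K.image B, (4 - M.d c) = 0 := by omega
    by_cases hyn : ∃ c ∈ FF, y1 ∈ c
    · obtain ⟨c, hc, hy1c⟩ := hyn
      have h1 := hdefy (B y1) hByQ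
      have h2 : B y1 = c := labOf_mem hF2 hc hy1c
      have h3 := (hF1 c hc).1.2.2
      rw [h2] at h1
      omega
    · push Not at hyn
      have hBy : B y1 = M.blk y1 := labOf_not hyn
      have hdy : M.d (M.blk y1) = 4 := by
        have h1 := d_blk_le (hgood y1)
        have h2 := hdefy (B y1) hByQ
        rw [hBy] at h2
        omega
      have hp1r : p1 ∉ M.rail y1 := fun h' => hp1B (by rw [hBy]; exact mem_union_left _ h')
      have hrA : M.rail y1 ⊆ A := by
        intro x hx
        apply hAB y1 hy1A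
        rw [hBy]; exact mem_union_left _ hx
      have hout := rail_out (hgood y1) hdy
      have hfull : M.e (M.rail y1) A = 2 * (M.rail y1).card := by
        have hmp : M.μ p ∉ M.rail y1 := by
          intro h'
          exact (Root.mem_W.1 (h.sub (hrA h'))).2 rfl
        have h1 := h.root.e_full hmp
        have h2 : M.e (M.rail y1) univ = M.e (M.rail y1) A + M.e (M.rail y1) (univ \ A) :=
          M.e_sdiff (subset_univ _) _
        have h3 : M.e (M.rail y1) (univ \ A) = 0 := by
          rw [M.e_eq_zero_iff]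
          intro a ha b hb hab
          rcases h.lv a (hrA ha) b (mem_sdiff.1 hb).2 hab with h4 | h4
          · exact hp1r (h4.1 ▸ ha)
          · exact hex (h4.1 ▸ ha)
        omega
      have hblkA : M.blk y1 ⊆ A := by rw [← hBy]; exact hAB y1 hy1A
      have h1 : M.e (M.rail y1) A = M.e (M.rail y1) (M.blk y1) +
          M.e (M.rail y1) (A \ M.blk y1) := M.e_sdiff hblkA _
      obtain ⟨q, hqr, w, hw, hqw, hne⟩ := two_pairs (M := M) (A := M.rail y1)
        (A' := A \ M.blk y1) (by omega) y1 p1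
      rw [mem_sdiff] at hw
      have hqb : q ∈ M.blk y1 := mem_union_left _ hqr
      have hqB : B q = M.blk y1 := by rw [← hBy]; exact hL.eq y1 q (by rw [hBy]; exact hqb)
      have hqU : q ∈ big K U := mem_union_left _ (mem_union_right _ (by rw [hBy]; exact hqb))
      have hBqw : B q ≠ B w := by
        intro h'
        apply hw.2
        rw [← hqB, h']
        exact hL.self w
      have hwC : w ∉ C.biUnion id := by
        intro h'
        obtain ⟨c, hc, hwc⟩ := mem_biUnion.1 h'
        exact hnr c hc hyn w hwc q hqr hqw.symm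
      by_cases hwU : w ∈ big K U
      · have := four_le_E hp1U hyU hadj1 hqU hwU ⟨hqw, hBqw⟩ (by
          rintro (⟨h2, _⟩ | ⟨h2, h3⟩)
          · exact hp1r (h2 ▸ hqr)
          · exact hne ⟨h3.symm, h2.symm⟩)
        omega
      · have hwR : w ∈ rest A K U C := by
          rw [mem_rest]
          exact ⟨hw.1, fun h' => hwU (mem_union_left _ h'), fun h' => hwU (mem_union_right _ h'),
            hwC⟩
        have := hR2 ⟨w, hwR⟩
        omega
  · have hR := hR2 ⟨y, hyr⟩
    have hdR : M.d (rest A K U C) = 2 := by omega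
    have hRA : rest A K U C ⊆ A := fun x hx => (mem_rest.1 hx).1
    have h1 := M.d_sdiff hRA
    have h2 := M.d_add (rest A K U C)
    have h3 := M.bd_add A (rest A K U C)
    have h4 := one_le_bd (M := M) (W := A) hyr h.zA h.yz
    have h5 := h.min (A \ rest A K U C) sdiff_subset (h.mc.sdiff hRm)
      (mem_sdiff.2 ⟨h.i1, hp1R⟩) (by have := h.dA; omega)
    have h6 : y ∈ A \ rest A K U C := by rw [h5]; exact h.yA
    exact (mem_sdiff.1 h6).2 hyr

/-- **The root theorem for ring edges with a fixed matching.** -/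
theorem main (h : M.Rg p p1 p2 y z A) :
    (∃ S, p1 ∈ S ∧ M.IsCov (univ \ M.nd p) S ∅) ∨
    (M.TV p1 ∧ y ∉ M.nd p1 ∧ ∃ y1, M.H.Adj p1 y1 ∧ y1 ≠ p ∧ y ∈ M.rail y1) := by
  by_cases ht : M.TV p1
  swap
  · exact Or.inl (h.root.ladder ht)
  by_cases hy : y ∈ M.nd p1
  · exact Or.inl (h.assemble (h.case1 ht hy))
  obtain ⟨y1, _, hy1, ha1⟩ := exists_other (h.root.full p1 (Root.mem_W.1 h.root.p1_W).2) p
  by_cases hex : y ∈ M.rail y1
  · exact Or.inr ⟨ht, hy, y1, ha1, hy1, hex⟩
  · exact Or.inl (h.assemble (h.case2 ht hy ha1 hy1 hex))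

end Rg

end Setup

end Pool.Agent.LTD
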