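import Pool.Agent.Lib.MP_a46439_co.RootBase

set_option autoImplicit false
set_option linter.unusedSectionVars false

/-! Bridges of rooted graphs, the case of a bridge at the root. -/

namespace Pool.Agent.LTD

open Finset

variable {V : Type} [Fintype V] [DecidableEq V]

/-- `wu` is a bridge of `(H, L, p)`, `C` is the side of `w` and does not contain the root. -/
structure Br (H : SimpleGraph V) (L : Finset V) (p : V) (C : Finset V) (u w : V) : Prop where
  CL : C ⊆ L
  pC : p ∉ C
  wC : w ∈ C
  uL : u ∈ L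
  uC : u ∉ C
  adj : H.Adj w u
  only : ∀ x ∈ C, ∀ y ∈ L, y ∉ C → H.Adj x y → x = w ∧ y = u

lemma pair_le_E {H : SimpleGraph V} {A B : Finset V} {a b a' b' : V} (ha : a ∈ A) (hb : b ∈ B)
    (hab : H.Adj a b) (ha' : a' ∈ A) (hb' : b' ∈ B) (hab' : H.Adj a' b')
    (hne : ¬ (a' = a ∧ b' = b)) : 2 ≤ E H A B := by
  classical
  have h1 : E H A B = ((A ×ˢ B).filter fun p => H.Adj p.1 p.2).card := by
    rw [card_filter, sum_product]; unfold E
    refine sum_congr rfl fun u _ => sum_congr rfl fun v _ => ?_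
    split_ifs <;> rfl
  have h2 : ({(a, b), (a', b')} : Finset (V × V)) ⊆ (A ×ˢ B).filter fun p => H.Adj p.1 p.2 := by
    intro q hq
    rw [mem_insert, mem_singleton] at hq
    rw [mem_filter, mem_product]
    rcases hq with rfl | rfl
    · exact ⟨⟨ha, hb⟩, hab⟩
    · exact ⟨⟨ha', hb'⟩, hab'⟩
  have h3 := card_le_card h2
  rw [card_pair] at h3
  · rw [h1]; exact h3
  · intro h4
    apply hne
    rw [Prod.mk.injEq] at h4
    exact ⟨h4.1.symm, h4.2.symm⟩

lemma unique_of_E_one {H : SimpleGraph V} {A B : Finset V} (h : E H A B = 1) :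
    ∃ a ∈ A, ∃ b ∈ B, H.Adj a b ∧ ∀ a' ∈ A, ∀ b' ∈ B, H.Adj a' b' → a' = a ∧ b' = b := by
  obtain ⟨a, ha, b, hb, hab⟩ := (E_pos_iff H).1 (show 0 < E H A B by omega)
  refine ⟨a, ha, b, hb, hab, ?_⟩
  intro a' ha' b' hb' hab'
  by_contra hne
  have := pair_le_E ha hb hab ha' hb' hab' hne
  omega

lemma br_of_E {H : SimpleGraph V} {L : Finset V} {p : V} {C : Finset V} (hCL : C ⊆ L)
    (hpC : p ∉ C) (h : E H C (L \ C) = 1) : ∃ u w, Br H L p C u w := by
  obtain ⟨w, hw, u, hu, hwu, honly⟩ := unique_of_E_one h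
  rw [mem_sdiff] at hu
  exact ⟨u, w, hCL, hpC, hw, hu.1, hu.2, hwu, fun x hx y hy hyC hxy =>
    honly x hx y (mem_sdiff.2 ⟨hy, hyC⟩) hxy⟩

lemma exists_br {H : SimpleGraph V} {L : Finset V} {p : V} (hR : ROn H L p)
    (hnb : ¬ ∀ A ⊆ L, A.Nonempty → A ≠ L → 2 ≤ E H A (L \ A)) : ∃ C u w, Br H L p C u w := by
  push Not at hnb
  obtain ⟨A, hAL, hne, hne', hlt⟩ := hnb
  have h1 := hR.conn A hAL hne hne'
  by_cases hp : p ∈ A
  · refine ⟨L \ A, ?_⟩
    apply br_of_E sdiff_subset (fun h => (mem_sdiff.1 h).2 hp)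
    rw [Finset.sdiff_sdiff_eq_self hAL, E_comm]
    omega
  · exact ⟨A, br_of_E hAL hp (by omega)⟩

namespace Br

variable {H : SimpleGraph V} {L : Finset V} {p : V} {C : Finset V} {u w : V}

lemma E_out (h : Br H L p C u w) : E H C (L \ C) = 1 := by
  classical
  have h1 : E H C (L \ C) = E H {w} {u} := by
    unfold E
    rw [sum_singleton, sum_singleton]
    rw [sum_eq_single w]
    · rw [sum_eq_single u]
      · intro y hy hyu
        rw [if_neg]
        intro hadj
        rw [mem_sdiff] at hy
        exact hyu (h.only w h.wC y hy.1 hy.2 hadj).2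
      · intro h'; exact absurd (mem_sdiff.2 ⟨h.uL, h.uC⟩) h'
    · intro x hx hxw
      apply sum_eq_zero
      intro y hy
      rw [if_neg]
      intro hadj
      rw [mem_sdiff] at hy
      exact hxw (h.only x hx y hy.1 hy.2 hadj).1
    · intro h'; exact absurd h.wC h'
  rw [h1, E_singleton_singleton H h.adj]

/-- the far side of a bridge is a rooted graph -/
lemma rOn (hR : ROn H L p) (h : Br H L p C u w) : ROn H C w := by
  have hzero : ∀ v ∈ C, v ≠ w → E H {v} (L \ C) = 0 := by
    intro v hv hvw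
    rw [E_eq_zero_iff]
    intro x hx y hy hxy
    rw [mem_singleton] at hx
    subst hx
    rw [mem_sdiff] at hy
    exact hvw (h.only x hv y hy.1 hy.2 hxy).1
  have hsplit : ∀ v, E H {v} L = E H {v} C + E H {v} (L \ C) := fun v => E_sdiff H h.CL _
  refine ⟨h.wC, ?_, ?_, ?_⟩
  · intro A hA hne hne'
    by_contra h0
    have h0' : E H A (C \ A) = 0 := by omega
    have h0'' : E H (C \ A) A = 0 := by rw [E_comm]; exact h0'
    have key : ∀ B ⊆ C, B.Nonempty → B ≠ C → E H B (C \ B) = 0 → w ∈ B := by
      intro B hB hBne hBne' hB0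
      have h2 := hR.conn B (hB.trans h.CL) hBne (by
        rintro rfl
        exact h.uC (hB h.uL))
      obtain ⟨x, hx, y, hy, hxy⟩ := (E_pos_iff H).1 h2
      rw [mem_sdiff] at hy
      by_cases hyC : y ∈ C
      · rw [E_eq_zero_iff] at hB0
        exact absurd hxy (hB0 x hx y (mem_sdiff.2 ⟨hyC, hy.2⟩))
      · have := (h.only x (hB hx) y hy.1 hyC hxy).1
        rw [← this]; exact hx
    have k1 := key A hA hne hne' h0'
    have k2 := key (C \ A) sdiff_subset (by
      rw [sdiff_nonempty]
      intro h'; exact hne' (subset_antisymm hA h')) (by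
      intro h'
      obtain ⟨a, ha⟩ := hne
      have : a ∈ C \ A := by rw [h']; exact hA ha
      exact (mem_sdiff.1 this).2 ha) (by rw [Finset.sdiff_sdiff_eq_self hA]; exact h0'')
    exact (mem_sdiff.1 k2).2 k1
  · have h1 : E H {w} (L \ C) = 1 := by
      have h2 : E H {w} (L \ C) ≤ E H C (L \ C) :=
        E_mono H (singleton_subset_iff.2 h.wC) (subset_refl _)
      have h3 : 0 < E H {w} (L \ C) := by
        rw [E_pos_iff]
        exact ⟨w, mem_singleton_self _, u, mem_sdiff.2 ⟨h.uL, h.uC⟩, h.adj⟩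
      have h4 := h.E_out
      omega
    have h2 := hsplit w
    have h3 := hR.deg w (h.CL h.wC) (by rintro rfl; exact h.pC h.wC)
    omega
  · intro v hv hvw
    have h2 := hsplit v
    have h3 := hR.deg v (h.CL hv) (by rintro rfl; exact h.pC hv)
    have h4 := hzero v hv hvw
    omega

lemma not_adj (h : Br H L p C u w) {x y : V} (hx : x ∈ C) (hy : y ∈ L) (hyC : y ∉ C)
    (hyu : y ≠ u) : ¬ H.Adj x y := fun h' => hyu (h.only x hx y hy hyC h').2

lemma not_adj' (h : Br H L p C u w) {x y : V} (hx : x ∈ C) (hxw : x ≠ w) (hy : y ∈ L)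
    (hyC : y ∉ C) : ¬ H.Adj x y := fun h' => hxw (h.only x hx y hy hyC h').1

/-- a bridge at the root: the other side is a branch as well -/
lemma other (hR : ROn H L p) (h : Br H L p C p w) :
    ∃ w', Br H L p (L \ insert p C) p w' := by
  have hne : p ∉ C := h.pC
  set A := L \ insert p C with hA
  have hpA : p ∉ A := fun h' => (mem_sdiff.1 h').2 (mem_insert_self _ _)
  have hLA : L \ A = insert p C := by
    rw [hA]; exact Finset.sdiff_sdiff_eq_self (insert_subset h.uL h.CL)
  have h1 : E H A (L \ A) = 1 := by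
    rw [hLA]
    have h2 : insert p C = {p} ∪ C := by ext; simp
    have h3 : E H A C = 0 := by
      rw [E_eq_zero_iff]
      intro x hx y hy hxy
      rw [hA, mem_sdiff, mem_insert, not_or] at hx
      exact h.not_adj hy hx.1 hx.2.2 hx.2.1 hxy.symm
    have h4 : E H {p} L = E H {p} (insert p C) + E H {p} A := E_sdiff H (insert_subset h.uL h.CL) _
    have h5 : E H {p} (insert p C) = E H {p} {p} + E H {p} C := by
      rw [h2, E_union_right H (by simpa using hne)]
    have h6 : E H {p} {p} = 0 := by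
      rw [E_eq_zero_iff]
      intro x hx y hy hxy
      rw [mem_singleton] at hx hy
      subst hx; subst hy
      exact H.loopless.irrefl _ hxy
    have h7 : E H {p} C = 1 := by
      have h8 := h.E_out
      have h9 : E H {p} C ≤ E H (L \ C) C :=
        E_mono H (singleton_subset_iff.2 (mem_sdiff.2 ⟨h.uL, h.uC⟩)) (subset_refl _)
      have h10 : 0 < E H {p} C := by
        rw [E_pos_iff]; exact ⟨p, mem_singleton_self _, w, h.wC, h.adj.symm⟩
      rw [E_comm H (L \ C) C] at h9
      omega
    have h8 := hR.root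
    rw [h2, E_union_right H (by simpa using hne), h3, E_comm]
    omega
  obtain ⟨u', w', h'⟩ := br_of_E sdiff_subset hpA h1
  have hu' : u' = p := by
    have h2 : u' ∈ L \ A := mem_sdiff.2 ⟨h'.uL, h'.uC⟩
    rw [hLA, mem_insert] at h2
    rcases h2 with h2 | h2
    · exact h2
    · exfalso
      have h3 := mem_sdiff.1 h'.wC
      rw [mem_insert, not_or] at h3
      exact h.not_adj h2 h3.1 h3.2.2 h3.2.1 h'.adj.symm
  subst hu'
  exact ⟨w', h'⟩

/-- Two branches at the root. -/
theorem caseY (hR : ROn H L p) (h : Br H L p C p w)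
    (IH : ∀ L' : Finset V, L'.card < L.card → ∀ p', ROn H L' p' → AOn H L' p' ∧ GOn H L' p') :
    AOn H L p ∧ GOn H L p := by
  classical
  obtain ⟨w', h'⟩ := h.other hR
  set D := L \ insert p C with hD
  have hCD : Disjoint C D := by
    rw [Finset.disjoint_right]; intro x hx hx'
    exact (mem_sdiff.1 hx).2 (mem_insert_of_mem hx')
  have hcard : L.card = C.card + D.card + 1 := by
    have h1 := card_sdiff_add_card_eq_card (insert_subset h.uL h.CL)
    rw [card_insert_of_notMem h.pC, ← hD] at h1
    omega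
  have hcase : ∀ x ∈ L, x = p ∨ x ∈ C ∨ x ∈ D := by
    intro x hx
    by_cases h1 : x ∈ insert p C
    · rcases mem_insert.1 h1 with h1 | h1
      · exact Or.inl h1
      · exact Or.inr (Or.inl h1)
    · exact Or.inr (Or.inr (mem_sdiff.2 ⟨hx, h1⟩))
  have hCp : ∀ x ∈ C, x ≠ w → ¬ H.Adj x p := fun x hx hxw => h.not_adj' hx hxw h.uL h.uC
  have hDp : ∀ x ∈ D, x ≠ w' → ¬ H.Adj x p := fun x hx hxw => h'.not_adj' hx hxw h'.uL h'.uC
  have hCDn : ∀ x ∈ C, ∀ y ∈ D, ¬ H.Adj x y := fun x hx y hy =>
    h.not_adj hx (mem_sdiff.1 hy).1 (Finset.disjoint_right.1 hCD hy) (by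
      rintro rfl; exact h'.uC hy)
  have hDCn : ∀ x ∈ D, ∀ y ∈ C, ¬ H.Adj x y := fun x hx y hy h'' => hCDn y hy x hx h''.symm
  obtain ⟨hA1, hG1⟩ := IH C (by omega) w (h.rOn hR)
  obtain ⟨_, hG2⟩ := IH D (by
    have := card_pos.2 ⟨w, h.wC⟩
    omega) w' (h'.rOn hR)
  obtain ⟨S1, ⟨a1, a2, a3⟩, ⟨a4, a5⟩, a6⟩ := hA1
  obtain ⟨T1, ⟨b1, b2, b3⟩, b4, b6⟩ := hG1
  obtain ⟨T2, ⟨c1, c2, c3⟩, c4, c6⟩ := hG2
  have hpD : p ∉ D := fun h1 => (mem_sdiff.1 h1).2 (mem_insert_self _ _)
  constructor
  · -- state A*
    set S := insert p (S1 ∪ T2) with hS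
    have sp : p ∈ S := mem_insert_self _ _
    have s1 : S1 ⊆ S := subset_union_left.trans (subset_insert _ _)
    have s2 : T2 ⊆ S := subset_union_right.trans (subset_insert _ _)
    have hw' : w' ∉ S → Dom H T2 w' := fun hw => c4.resolve_left fun h1 => hw (s2 h1)
    have hDdom : ∀ x ∈ D, x ∉ S → Dom H T2 x := by
      intro x hx hxS
      by_cases hxw : x = w'
      · rw [hxw]; exact hw' (hxw ▸ hxS)
      · exact c2 x hx (by simpa using hxw)
    have hsepCD : ∀ x ∈ C, ∀ y ∈ D, Sep H S x y := by
      intro x hx y hy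
      obtain ⟨z, hz, hxz⟩ := a2 x hx (notMem_empty _)
      exact sep_left (s1 hz) hxz (hDCn y hy z (a1 hz))
    refine ⟨S, ⟨?_, ?_, ?_⟩, ⟨sp, ?_⟩, ?_⟩
    · intro x hx
      rcases mem_insert.1 hx with rfl | hx
      · exact h.uL
      · rcases mem_union.1 hx with hx | hx
        · exact h.CL (a1 hx)
        · exact (mem_sdiff.1 (c1 hx)).1
    · intro x hx _
      rcases hcase x hx with rfl | hx | hx
      · exact ⟨w, s1 a4, h.adj.symm⟩
      · exact (a2 x hx (notMem_empty _)).mono s1
      · by_cases hxw : x = w'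
        · rw [hxw]; exact ⟨p, sp, h'.adj⟩
        · exact (c2 x hx (by simpa using hxw)).mono s2
    · intro x hx y hy hxS hyS _ _ hne
      rcases hcase x hx with rfl | hx | hx
      · exact absurd sp hxS
      · rcases hcase y hy with rfl | hy | hy
        · exact absurd sp hyS
        · exact (a3 x hx y hy (fun h1 => hxS (s1 h1)) (fun h1 => hyS (s1 h1)) (notMem_empty _)
            (notMem_empty _) hne).mono s1
        · exact hsepCD x hx y hy
      · rcases hcase y hy with rfl | hy | hy
        · exact absurd sp hyS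
        · exact (hsepCD y hy x hx).symm
        · by_cases hxw : x = w'
          · have hyw : y ≠ w' := fun h1 => hne (hxw.trans h1.symm)
            rw [hxw]
            exact sep_left sp h'.adj (hDp y hy hyw)
          · by_cases hyw : y = w'
            · rw [hyw]
              exact sep_right sp h'.adj (hDp x hx hxw)
            · exact (c3 x hx y hy (fun h1 => hxS (s2 h1)) (fun h1 => hyS (s2 h1))
                (by simpa using hxw) (by simpa using hyw) hne).mono s2
    · intro x hx hxS
      rcases hcase x hx with rfl | hx | hx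
      · exact absurd sp hxS
      · obtain ⟨z, hz, hxz⟩ := a2 x hx (notMem_empty _)
        exact ⟨z, s1 hz, fun h1 => h.pC (h1 ▸ a1 hz), hxz⟩
      · obtain ⟨z, hz, hxz⟩ := hDdom x hx hxS
        exact ⟨z, s2 hz, fun h1 => hpD (h1 ▸ c1 hz), hxz⟩
    · have k1 := card_insert_le p (S1 ∪ T2)
      rw [← hS] at k1
      have k2 := card_union_le S1 T2
      omega
  · -- state γ
    set S := insert p (T1 ∪ T2) with hS
    have sp : p ∈ S := mem_insert_self _ _
    have s1 : T1 ⊆ S := subset_union_left.trans (subset_insert _ _)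
    have s2 : T2 ⊆ S := subset_union_right.trans (subset_insert _ _)
    have hDdom : ∀ x ∈ D, x ∉ S → Dom H T2 x := by
      intro x hx hxS
      by_cases hxw : x = w'
      · rw [hxw]; exact c4.resolve_left fun h1 => hxS (hxw ▸ s2 h1)
      · exact c2 x hx (by simpa using hxw)
    have hCdom : ∀ x ∈ C, x ∉ S → Dom H T1 x := by
      intro x hx hxS
      by_cases hxw : x = w
      · rw [hxw]; exact b4.resolve_left fun h1 => hxS (hxw ▸ s1 h1)
      · exact b2 x hx (by simpa using hxw)
    have hsepCD : ∀ x ∈ C, ∀ y ∈ D, x ∉ S → Sep H S x y := by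
      intro x hx y hy hxS
      obtain ⟨z, hz, hxz⟩ := hCdom x hx hxS
      exact sep_left (s1 hz) hxz (hDCn y hy z (b1 hz))
    refine ⟨S, ⟨?_, ?_, ?_⟩, Or.inl sp, ?_⟩
    · intro x hx
      rcases mem_insert.1 hx with rfl | hx
      · exact h.uL
      · rcases mem_union.1 hx with hx | hx
        · exact h.CL (b1 hx)
        · exact (mem_sdiff.1 (c1 hx)).1
    · intro x hx hxp
      rcases hcase x hx with rfl | hx | hx
      · exact absurd (mem_singleton_self _) hxp
      · by_cases hxw : x = w
        · rw [hxw]; exact ⟨p, sp, h.adj⟩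
        · exact (b2 x hx (by simpa using hxw)).mono s1
      · by_cases hxw : x = w'
        · rw [hxw]; exact ⟨p, sp, h'.adj⟩
        · exact (c2 x hx (by simpa using hxw)).mono s2
    · intro x hx y hy hxS hyS _ _ hne
      rcases hcase x hx with rfl | hx | hx
      · exact absurd sp hxS
      · rcases hcase y hy with rfl | hy | hy
        · exact absurd sp hyS
        · by_cases hxw : x = w
          · have hyw : y ≠ w := fun h1 => hne (hxw.trans h1.symm)
            rw [hxw]
            exact sep_left sp h.adj (hCp y hy hyw)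
          · by_cases hyw : y = w
            · rw [hyw]
              exact sep_right sp h.adj (hCp x hx hxw)
            · exact (b3 x hx y hy (fun h1 => hxS (s1 h1)) (fun h1 => hyS (s1 h1))
                (by simpa using hxw) (by simpa using hyw) hne).mono s1
        · exact hsepCD x hx y hy hxS
      · rcases hcase y hy with rfl | hy | hy
        · exact absurd sp hyS
        · exact (hsepCD y hy x hx hyS).symm
        · by_cases hxw : x = w'
          · have hyw : y ≠ w' := fun h1 => hne (hxw.trans h1.symm)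
            rw [hxw]
            exact sep_left sp h'.adj (hDp y hy hyw)
          · by_cases hyw : y = w'
            · rw [hyw]
              exact sep_right sp h'.adj (hDp x hx hxw)
            · exact (c3 x hx y hy (fun h1 => hxS (s2 h1)) (fun h1 => hyS (s2 h1))
                (by simpa using hxw) (by simpa using hyw) hne).mono s2
    · have k1 := card_insert_le p (T1 ∪ T2)
      rw [← hS] at k1
      have k2 := card_union_le T1 T2
      omega

end Br

end Pool.Agent.LTD
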