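import Pool.Agent.Lib.MP_a46439_co.RootBridge

set_option autoImplicit false
set_option linter.unusedSectionVars false

/-! Graph surgery at a bridge: the two other neighbours of `u` are not adjacent. -/

namespace Pool.Agent.LTD

open Finset

variable {V : Type} [Fintype V] [DecidableEq V]

namespace Br

variable {H : SimpleGraph V} {L : Finset V} {p : V} {C : Finset V} {u w : V} {T S' : Finset V}

lemma gdom (h : Br H L p C u w) (hT : Loc H C {w} T) (hTS : T ⊆ S') (hu : u ∈ S') :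
    ∀ x ∈ C, Dom H S' x := by
  intro x hx
  by_cases hxw : x = w
  · rw [hxw]; exact ⟨u, hu, h.adj⟩
  · exact (hT.2.1 x hx (by simpa using hxw)).mono hTS

lemma gin (hT : Loc H C {w} T) (hE : ExG H w T) (hTS : T ⊆ S') :
    ∀ x ∈ C, x ∉ S' → ∃ z ∈ T, H.Adj x z := by
  intro x hx hxS
  by_cases hxw : x = w
  · rw [hxw]; exact hE.resolve_left fun h1 => hxS (hxw ▸ hTS h1)
  · exact hT.2.1 x hx (by simpa using hxw)

lemma gout (h : Br H L p C u w) (hT : Loc H C {w} T) (hE : ExG H w T) (hTS : T ⊆ S') :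
    ∀ x ∈ C, x ∉ S' → ∀ y ∈ L, y ∉ C → y ≠ u → Sep H S' x y := by
  intro x hx hxS y hy hyC hyu
  obtain ⟨z, hz, hxz⟩ := gin hT hE hTS x hx hxS
  exact sep_left (hTS hz) hxz fun h' => h.not_adj (hT.1 hz) hy hyC hyu h'.symm

lemma gsep (h : Br H L p C u w) (hT : Loc H C {w} T) (hTS : T ⊆ S') (hu : u ∈ S') :
    ∀ x ∈ C, ∀ y ∈ C, x ∉ S' → y ∉ S' → x ≠ y → Sep H S' x y := by
  intro x hx y hy hxS hyS hne
  by_cases hxw : x = w
  · have hyw : y ≠ w := fun h1 => hne (hxw.trans h1.symm)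
    rw [hxw]
    exact sep_left hu h.adj (h.not_adj' hy hyw h.uL h.uC)
  · by_cases hyw : y = w
    · rw [hyw]
      exact sep_right hu h.adj (h.not_adj' hx hxw h.uL h.uC)
    · exact (hT.2.2 x hx y hy (fun h1 => hxS (hTS h1)) (fun h1 => hyS (hTS h1))
        (by simpa using hxw) (by simpa using hyw) hne).mono hTS

lemma adom (hT : Loc H C ∅ T) (hTS : T ⊆ S') : ∀ x ∈ C, Dom H S' x :=
  fun x hx => (hT.2.1 x hx (notMem_empty _)).mono hTS

lemma aout (h : Br H L p C u w) (hT : Loc H C ∅ T) (hTS : T ⊆ S') :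
    ∀ x ∈ C, ∀ y ∈ L, y ∉ C → y ≠ u → Sep H S' x y := by
  intro x hx y hy hyC hyu
  obtain ⟨z, hz, hxz⟩ := hT.2.1 x hx (notMem_empty _)
  exact sep_left (hTS hz) hxz fun h' => h.not_adj (hT.1 hz) hy hyC hyu h'.symm

lemma aoutu (h : Br H L p C u w) (hT : Loc H C ∅ T) (hE : ExA H C w T) (hTS : T ⊆ S') :
    ∀ x ∈ C, x ∉ S' → Sep H S' x u := by
  intro x hx hxS
  obtain ⟨z, hz, hzw, hxz⟩ := hE.2 x hx fun h1 => hxS (hTS h1)
  exact sep_left (hTS hz) hxz fun h' => h.not_adj' (hT.1 hz) hzw h.uL h.uC h'.symm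

lemma asep (hT : Loc H C ∅ T) (hTS : T ⊆ S') :
    ∀ x ∈ C, ∀ y ∈ C, x ∉ S' → y ∉ S' → x ≠ y → Sep H S' x y := by
  intro x hx y hy hxS hyS hne
  exact (hT.2.2 x hx y hy (fun h1 => hxS (hTS h1)) (fun h1 => hyS (hTS h1)) (notMem_empty _)
    (notMem_empty _) hne).mono hTS

end Br

/-- The configuration at a bridge `wu` with `u ≠ p`. -/
structure Cfg (H : SimpleGraph V) (L : Finset V) (p : V) (C : Finset V) (u w a b : V) : Prop
    extends Br H L p C u w where
  up : u ≠ p
  aL : a ∈ L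
  bL : b ∈ L
  aC : a ∉ C
  bC : b ∉ C
  ab : a ≠ b
  au : a ≠ u
  bu : b ≠ u
  ua : H.Adj u a
  ub : H.Adj u b
  nb : ∀ y ∈ L, H.Adj u y → y = w ∨ y = a ∨ y = b

lemma Br.cfg {H : SimpleGraph V} {L : Finset V} {p : V} {C : Finset V} {u w : V}
    (hR : ROn H L p) (h : Br H L p C u w) (hu : u ≠ p) : ∃ a b, Cfg H L p C u w a b := by
  classical
  have h1 := hR.deg u h.uL hu
  rw [E_single] at h1
  set F := L.filter fun y => H.Adj u y with hF
  have hw : w ∈ F := mem_filter.2 ⟨h.CL h.wC, h.adj.symm⟩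
  have h2 : (F.erase w).card = 2 := by rw [card_erase_of_mem hw, h1]
  obtain ⟨a, b, hab, hFe⟩ := card_eq_two.1 h2
  have hmem : ∀ y, y ∈ F.erase w ↔ y = a ∨ y = b := by
    intro y; rw [hFe, mem_insert, mem_singleton]
  have ha := (hmem a).2 (Or.inl rfl)
  have hb := (hmem b).2 (Or.inr rfl)
  rw [mem_erase, hF, mem_filter] at ha hb
  obtain ⟨haw, haL, hua⟩ := ha
  obtain ⟨hbw, hbL, hub⟩ := hb
  refine ⟨a, b, h, hu, haL, hbL, ?_, ?_, hab, hua.ne', hub.ne', hua, hub, ?_⟩
  · intro haC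
    exact haw (h.only a haC u h.uL h.uC hua.symm).1
  · intro hbC
    exact hbw (h.only b hbC u h.uL h.uC hub.symm).1
  · intro y hy huy
    by_cases hyw : y = w
    · exact Or.inl hyw
    · exact Or.inr ((hmem y).1 (mem_erase.2 ⟨hyw, mem_filter.2 ⟨hy, huy⟩⟩))

namespace Cfg

variable {H : SimpleGraph V} {L : Finset V} {p : V} {C : Finset V} {u w a b : V}

lemma swap (h : Cfg H L p C u w a b) : Cfg H L p C u w b a :=
  ⟨h.toBr, h.up, h.bL, h.aL, h.bC, h.aC, h.ab.symm, h.bu, h.au, h.ub, h.ua, fun y hy h' => by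
    rcases h.nb y hy h' with h1 | h1 | h1
    · exact Or.inl h1
    · exact Or.inr (Or.inr h1)
    · exact Or.inr (Or.inl h1)⟩

lemma pL (_hR : ROn H L p) : p ∈ L := _hR.mem

lemma aw (h : Cfg H L p C u w a b) : a ≠ w := fun h' => h.aC (h' ▸ h.wC)

lemma bw (h : Cfg H L p C u w a b) : b ≠ w := fun h' => h.bC (h' ▸ h.wC)

/-- vertices outside the branch and different from `a, b` are not adjacent to `u` -/
lemma not_u (h : Cfg H L p C u w a b) {y : V} (hy : y ∈ L) (hyC : y ∉ C) (hya : y ≠ a)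
    (hyb : y ≠ b) : ¬ H.Adj y u := by
  intro h'
  rcases h.nb y hy h'.symm with h1 | h1 | h1
  · rw [h1] at hyC; exact hyC h.wC
  · exact hya h1
  · exact hyb h1

end Cfg

/-- `H` with the edge `ab` added -/
def addE (H : SimpleGraph V) (a b : V) (hab : a ≠ b) : SimpleGraph V where
  Adj x y := H.Adj x y ∨ (x = a ∧ y = b) ∨ (x = b ∧ y = a)
  symm := ⟨fun x y h => by
    rcases h with h | ⟨h1, h2⟩ | ⟨h1, h2⟩
    · exact Or.inl h.symm
    · exact Or.inr (Or.inr ⟨h2, h1⟩)
    · exact Or.inr (Or.inl ⟨h2, h1⟩)⟩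
  loopless := ⟨fun x h => by
    rcases h with h | ⟨h1, h2⟩ | ⟨h1, h2⟩
    · exact H.loopless.irrefl _ h
    · exact hab (h1.symm.trans h2)
    · exact hab (h2.symm.trans h1)⟩

lemma addE_iff {H : SimpleGraph V} {a b : V} {hab : a ≠ b} {x y : V} :
    (addE H a b hab).Adj x y ↔ H.Adj x y ∨ (x = a ∧ y = b) ∨ (x = b ∧ y = a) := Iff.rfl

lemma addE_of_right {H : SimpleGraph V} {a b : V} {hab : a ≠ b} {x y : V} (ha : y ≠ a)
    (hb : y ≠ b) : (addE H a b hab).Adj x y ↔ H.Adj x y := by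
  rw [addE_iff]; simp [ha, hb]

lemma addE_of_left {H : SimpleGraph V} {a b : V} {hab : a ≠ b} {x y : V} (ha : x ≠ a)
    (hb : x ≠ b) : (addE H a b hab).Adj x y ↔ H.Adj x y := by
  rw [addE_iff]; simp [ha, hb]

namespace Cfg

variable {H : SimpleGraph V} {L : Finset V} {p : V} {C : Finset V} {u w a b : V}

lemma mem_L1 {x : V} : x ∈ L \ insert u C ↔ x ∈ L ∧ x ≠ u ∧ x ∉ C := by
  rw [mem_sdiff, mem_insert, not_or]

lemma deg1a (h : Cfg H L p C u w a b) (hn : ¬ H.Adj a b) :
    E (addE H a b h.ab) {a} (L \ insert u C) = E H {a} L := by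
  classical
  rw [E_single, E_single]
  have h1 : ((L \ insert u C).filter fun y => (addE H a b h.ab).Adj a y) =
      insert b ((L.filter fun y => H.Adj a y).erase u) := by
    ext y
    rw [mem_filter, mem_L1, mem_insert, mem_erase, mem_filter, addE_iff]
    constructor
    · rintro ⟨⟨h1, h2, h3⟩, h4 | h4 | h4⟩
      · exact Or.inr ⟨h2, h1, h4⟩
      · exact Or.inl h4.2
      · exact absurd h4.1 h.ab
    · rintro (h1 | ⟨h1, h2, h3⟩)
      · subst h1
        exact ⟨⟨h.bL, h.bu, h.bC⟩, Or.inr (Or.inl ⟨rfl, rfl⟩)⟩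
      · refine ⟨⟨h2, h1, fun hyC => ?_⟩, Or.inl h3⟩
        exact h.au (h.only y hyC a h.aL h.aC h3.symm).2
  have h2 : b ∉ (L.filter fun y => H.Adj a y).erase u := by
    intro h'
    exact hn (mem_filter.1 (mem_erase.1 h').2).2
  have h3 : u ∈ L.filter fun y => H.Adj a y := mem_filter.2 ⟨h.uL, h.ua.symm⟩
  rw [h1, card_insert_of_notMem h2, card_erase_of_mem h3]
  have := card_pos.2 ⟨u, h3⟩
  omega

lemma addE_swap {x y : V} (hab : a ≠ b) :
    (addE H b a hab.symm).Adj x y ↔ (addE H a b hab).Adj x y := by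
  rw [addE_iff, addE_iff]
  tauto

lemma addE_comm (hab : a ≠ b) : addE H b a hab.symm = addE H a b hab := by
  ext x y; exact addE_swap hab

lemma deg1 (h : Cfg H L p C u w a b) (hn : ¬ H.Adj a b) {v : V} (hv : v ∈ L \ insert u C) :
    E (addE H a b h.ab) {v} (L \ insert u C) = E H {v} L := by
  classical
  by_cases hva : v = a
  · rw [hva]; exact h.deg1a hn
  by_cases hvb : v = b
  · rw [hvb, ← addE_comm h.ab]; exact h.swap.deg1a fun h' => hn h'.symm
  rw [E_single, E_single]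
  congr 1
  ext y
  rw [mem_filter, mem_L1, mem_filter, addE_of_left hva hvb]
  rw [mem_L1] at hv
  constructor
  · rintro ⟨⟨h1, _, _⟩, h4⟩; exact ⟨h1, h4⟩
  · rintro ⟨h1, h4⟩
    refine ⟨⟨h1, ?_, ?_⟩, h4⟩
    · rintro rfl
      exact h.not_u hv.1 hv.2.2 hva hvb h4
    · intro hyC
      exact hv.2.1 (h.only y hyC v hv.1 hv.2.2 h4.symm).2

/-- the reduced graph is rooted -/
lemma rOn1 (hR : ROn H L p) (h : Cfg H L p C u w a b) (hn : ¬ H.Adj a b) :
    ROn (addE H a b h.ab) (L \ insert u C) p := by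
  have hp : p ∈ L \ insert u C := mem_L1.2 ⟨hR.mem, h.up.symm, h.pC⟩
  refine ⟨hp, ?_, ?_, ?_⟩
  · intro A hA hne hne'
    by_contra h0
    have h0' : E (addE H a b h.ab) A ((L \ insert u C) \ A) = 0 := by omega
    set B := (L \ insert u C) \ A with hB
    have key : ∀ X Y : Finset V, X ⊆ L \ insert u C → Y ⊆ L \ insert u C →
        (∀ z ∈ L \ insert u C, z ∈ X ∨ z ∈ Y) → Y.Nonempty → a ∈ X → b ∈ X → Disjoint X Y →
        (∀ x ∈ X, ∀ y ∈ Y, ¬ (addE H a b h.ab).Adj x y) → False := by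
      intro X Y hX hY hXY hYne haX hbX hd hno
      have h1 := hR.conn Y (hY.trans sdiff_subset) hYne (by
        rintro rfl
        exact (mem_L1.1 (hY h.uL)).2.1 rfl)
      obtain ⟨y, hy, z, hz, hyz⟩ := (E_pos_iff H).1 h1
      rw [mem_sdiff] at hz
      have hy' := mem_L1.1 (hY hy)
      have hya : y ≠ a := by rintro rfl; exact Finset.disjoint_left.1 hd haX hy
      have hyb : y ≠ b := by rintro rfl; exact Finset.disjoint_left.1 hd hbX hy
      by_cases hzu : z = u
      · rw [hzu] at hyz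
        exact h.not_u hy'.1 hy'.2.2 hya hyb hyz
      · by_cases hzC : z ∈ C
        · exact hy'.2.1 (h.only z hzC y hy'.1 hy'.2.2 hyz.symm).2
        · rcases hXY z (mem_L1.2 ⟨hz.1, hzu, hzC⟩) with h3 | h3
          · exact hno z h3 y hy (Or.inl hyz.symm)
          · exact hz.2 h3
    rw [E_eq_zero_iff] at h0'
    have hmem : ∀ z ∈ L \ insert u C, z ∈ A ∨ z ∈ B := by
      intro z hz
      by_cases hzA : z ∈ A
      · exact Or.inl hzA
      · exact Or.inr (mem_sdiff.2 ⟨hz, hzA⟩)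
    have haL1 : a ∈ L \ insert u C := mem_L1.2 ⟨h.aL, h.au, h.aC⟩
    have hbL1 : b ∈ L \ insert u C := mem_L1.2 ⟨h.bL, h.bu, h.bC⟩
    have hd : Disjoint A B := disjoint_sdiff
    rcases hmem a haL1 with ha | ha
    · rcases hmem b hbL1 with hb | hb
      · refine key A B hA sdiff_subset hmem ?_ ha hb hd h0'
        rw [hB, sdiff_nonempty]
        intro h'; exact hne' (subset_antisymm hA h')
      · exact h0' a ha b hb (Or.inr (Or.inl ⟨rfl, rfl⟩))
    · rcases hmem b hbL1 with hb | hb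
      · exact h0' b hb a ha (Or.inr (Or.inr ⟨rfl, rfl⟩))
      · exact key B A sdiff_subset hA (fun z hz => (hmem z hz).symm) hne ha hb hd.symm
          fun x hx y hy h' => h0' y hy x hx h'.symm
  · rw [h.deg1 hn hp]; exact hR.root
  · intro v hv hvp
    rw [h.deg1 hn hv]; exact hR.deg v (mem_L1.1 hv).1 hvp

lemma cases1 {x : V} (hx : x ∈ L) : x ∈ C ∨ x = u ∨ (x ∈ L \ insert u C) := by
  by_cases h1 : x ∈ C
  · exact Or.inl h1
  · by_cases h2 : x = u
    · exact Or.inr (Or.inl h2)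
    · exact Or.inr (Or.inr (mem_L1.2 ⟨hx, h2, h1⟩))

lemma loc1_meet (h : Cfg H L p C u w a b) {Q S T : Finset V}
    (hS : Loc (addE H a b h.ab) (L \ insert u C) Q S) (hm : a ∈ S ∨ b ∈ S)
    (hT : Loc H C {w} T) (hE : ExG H w T) : Loc H L Q (insert u (S ∪ T)) := by
  set S' := insert u (S ∪ T) with hS'
  have su : u ∈ S' := mem_insert_self _ _
  have s1 : S ⊆ S' := subset_union_left.trans (subset_insert _ _)
  have s2 : T ⊆ S' := subset_union_right.trans (subset_insert _ _)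
  have hLL : ∀ x ∈ L \ insert u C, ∀ y ∈ L \ insert u C, x ∉ S' → y ∉ S' → x ≠ y →
      x = a ∨ x = b → Sep H S' x y := by
    intro x hx y hy hxS hyS hne hxab
    have hy' := mem_L1.1 hy
    rcases hxab with rfl | rfl
    · have hbS : b ∈ S := hm.resolve_left fun h' => hxS (s1 h')
      exact sep_left su h.ua.symm (h.not_u hy'.1 hy'.2.2 hne.symm
        (by rintro rfl; exact hyS (s1 hbS)))
    · have haS : a ∈ S := hm.resolve_right fun h' => hxS (s1 h')
      exact sep_left su h.ub.symm (h.not_u hy'.1 hy'.2.2 (by rintro rfl; exact hyS (s1 haS))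
        hne.symm)
  refine ⟨?_, ?_, ?_⟩
  · intro x hx
    rcases mem_insert.1 hx with rfl | hx
    · exact h.uL
    · rcases mem_union.1 hx with hx | hx
      · exact (mem_L1.1 (hS.1 hx)).1
      · exact h.CL (hT.1 hx)
  · intro x hx hxQ
    rcases cases1 (u := u) (C := C) hx with hxC | rfl | hx1
    · exact h.toBr.gdom hT s2 su x hxC
    · rcases hm with hm | hm
      · exact ⟨a, s1 hm, h.ua⟩
      · exact ⟨b, s1 hm, h.ub⟩
    · by_cases hxa : x = a
      · rw [hxa]; exact ⟨u, su, h.ua.symm⟩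
      · by_cases hxb : x = b
        · rw [hxb]; exact ⟨u, su, h.ub.symm⟩
        · obtain ⟨z, hz, hxz⟩ := hS.2.1 x hx1 hxQ
          rw [addE_of_left hxa hxb] at hxz
          exact ⟨z, s1 hz, hxz⟩
  · intro x hx y hy hxS hyS hxQ hyQ hne
    rcases cases1 (u := u) (C := C) hx with hxC | rfl | hx1
    · rcases cases1 (u := u) (C := C) hy with hyC | rfl | hy1
      · exact h.toBr.gsep hT s2 su x hxC y hyC hxS hyS hne
      · exact absurd su hyS
      · have hy' := mem_L1.1 hy1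
        exact h.toBr.gout hT hE s2 x hxC hxS y hy'.1 hy'.2.2 hy'.2.1
    · exact absurd su hxS
    · rcases cases1 (u := u) (C := C) hy with hyC | rfl | hy1
      · have hx' := mem_L1.1 hx1
        exact (h.toBr.gout hT hE s2 y hyC hyS x hx'.1 hx'.2.2 hx'.2.1).symm
      · exact absurd su hyS
      · by_cases hxa : x = a ∨ x = b
        · exact hLL x hx1 y hy1 hxS hyS hne hxa
        · by_cases hya : y = a ∨ y = b
          · exact (hLL y hy1 x hx1 hyS hxS hne.symm hya).symm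
          · push Not at hxa hya
            obtain ⟨z, hz, hsep⟩ := hS.2.2 x hx1 y hy1 (fun h' => hxS (s1 h'))
              (fun h' => hyS (s1 h')) hxQ hyQ hne
            rw [addE_of_left hxa.1 hxa.2, addE_of_left hya.1 hya.2] at hsep
            exact ⟨z, s1 hz, hsep⟩

lemma loc1_miss (h : Cfg H L p C u w a b) {Q S T : Finset V}
    (hS : Loc (addE H a b h.ab) (L \ insert u C) Q S) (ha : a ∉ S) (hb : b ∉ S)
    (hT : Loc H C ∅ T) (hE : ExA H C w T) : Loc H L Q (S ∪ T) := by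
  have s1 : S ⊆ S ∪ T := subset_union_left
  have s2 : T ⊆ S ∪ T := subset_union_right
  have hz' : ∀ z ∈ S, ∀ x, (addE H a b h.ab).Adj x z ↔ H.Adj x z := by
    intro z hz x
    exact addE_of_right (by rintro rfl; exact ha hz) (by rintro rfl; exact hb hz)
  have hu1 : ∀ y ∈ L \ insert u C, Sep H (S ∪ T) u y := by
    intro y hy
    have hy' := mem_L1.1 hy
    exact sep_left (s2 hE.1) h.adj.symm fun h' => h.not_adj h.wC hy'.1 hy'.2.2 hy'.2.1 h'.symm
  refine ⟨?_, ?_, ?_⟩
  · intro x hx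
    rcases mem_union.1 hx with hx | hx
    · exact (mem_L1.1 (hS.1 hx)).1
    · exact h.CL (hT.1 hx)
  · intro x hx hxQ
    rcases cases1 (u := u) (C := C) hx with hxC | rfl | hx1
    · exact Br.adom hT s2 x hxC
    · exact ⟨w, s2 hE.1, h.adj.symm⟩
    · obtain ⟨z, hz, hxz⟩ := hS.2.1 x hx1 hxQ
      exact ⟨z, s1 hz, (hz' z hz x).1 hxz⟩
  · intro x hx y hy hxS hyS hxQ hyQ hne
    rcases cases1 (u := u) (C := C) hx with hxC | rfl | hx1
    · rcases cases1 (u := u) (C := C) hy with hyC | rfl | hy1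
      · exact Br.asep hT s2 x hxC y hyC hxS hyS hne
      · exact h.toBr.aoutu hT hE s2 x hxC hxS
      · have hy' := mem_L1.1 hy1
        exact h.toBr.aout hT s2 x hxC y hy'.1 hy'.2.2 hy'.2.1
    · rcases cases1 (u := x) (C := C) hy with hyC | rfl | hy1
      · exact (h.toBr.aoutu hT hE s2 y hyC hyS).symm
      · exact absurd rfl hne
      · exact hu1 y hy1
    · rcases cases1 (u := u) (C := C) hy with hyC | rfl | hy1
      · have hx' := mem_L1.1 hx1
        exact (h.toBr.aout hT s2 y hyC x hx'.1 hx'.2.2 hx'.2.1).symm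
      · exact (hu1 x hx1).symm
      · obtain ⟨z, hz, hsep⟩ := hS.2.2 x hx1 y hy1 (fun h' => hxS (s1 h'))
          (fun h' => hyS (s1 h')) hxQ hyQ hne
        rw [hz' z hz, hz' z hz] at hsep
        exact ⟨z, s1 hz, hsep⟩

lemma card1 (h : Cfg H L p C u w a b) : L.card = (L \ insert u C).card + C.card + 1 := by
  have h1 := card_sdiff_add_card_eq_card (insert_subset h.uL h.CL)
  rw [card_insert_of_notMem h.uC] at h1
  omega

/-- The case of non-adjacent neighbours `a, b`. -/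
theorem case1 (hR : ROn H L p) (h : Cfg H L p C u w a b) (hn : ¬ H.Adj a b)
    (IH : ∀ (H' : SimpleGraph V) (L' : Finset V), L'.card < L.card → ∀ p', ROn H' L' p' →
      AOn H' L' p' ∧ GOn H' L' p') :
    AOn H L p ∧ GOn H L p := by
  classical
  have hc := h.card1
  have hCpos := card_pos.2 ⟨w, h.wC⟩
  have hL1pos : 0 < (L \ insert u C).card :=
    card_pos.2 ⟨p, mem_L1.2 ⟨hR.mem, h.up.symm, h.pC⟩⟩
  obtain ⟨hA1, hG1⟩ := IH H C (by omega) w (h.toBr.rOn hR)
  obtain ⟨hA2, hG2⟩ := IH _ (L \ insert u C) (by omega) p (h.rOn1 hR hn)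
  obtain ⟨TA, a1, a2, a3⟩ := hA1
  obtain ⟨TG, b1, b2, b3⟩ := hG1
  have hpC := h.pC
  constructor
  · obtain ⟨S, c1, c2, c3⟩ := hA2
    by_cases hm : a ∈ S ∨ b ∈ S
    · refine ⟨insert u (S ∪ TG), h.loc1_meet c1 hm b1 b2, ⟨?_, ?_⟩, ?_⟩
      · exact mem_insert_of_mem (mem_union_left _ c2.1)
      · intro x hx hxS
        have su : u ∈ insert u (S ∪ TG) := mem_insert_self _ _
        rcases cases1 (u := u) (C := C) hx with hxC | rfl | hx1
        · obtain ⟨z, hz, hxz⟩ := Br.gin b1 b2 (subset_union_right.trans (subset_insert _ _))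
            x hxC hxS
          exact ⟨z, mem_insert_of_mem (mem_union_right _ hz), fun h' => hpC (h' ▸ b1.1 hz), hxz⟩
        · exact absurd su hxS
        · by_cases hxa : x = a
          · rw [hxa]; exact ⟨u, su, h.up, h.ua.symm⟩
          · by_cases hxb : x = b
            · rw [hxb]; exact ⟨u, su, h.up, h.ub.symm⟩
            · obtain ⟨z, hz, hzp, hxz⟩ := c2.2 x hx1 fun h' =>
                hxS (mem_insert_of_mem (mem_union_left _ h'))
              rw [addE_of_left hxa hxb] at hxz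
              exact ⟨z, mem_insert_of_mem (mem_union_left _ hz), hzp, hxz⟩
      · have k1 := card_insert_le u (S ∪ TG)
        have k2 := card_union_le S TG
        omega
    · push Not at hm
      refine ⟨S ∪ TA, h.loc1_miss c1 hm.1 hm.2 a1 a2, ⟨mem_union_left _ c2.1, ?_⟩, ?_⟩
      · intro x hx hxS
        rcases cases1 (u := u) (C := C) hx with hxC | rfl | hx1
        · obtain ⟨z, hz, hxz⟩ := a1.2.1 x hxC (notMem_empty _)
          exact ⟨z, mem_union_right _ hz, fun h' => hpC (h' ▸ a1.1 hz), hxz⟩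
        · exact ⟨w, mem_union_right _ a2.1, fun h' => hpC (h' ▸ h.wC), h.adj.symm⟩
        · obtain ⟨z, hz, hzp, hxz⟩ := c2.2 x hx1 fun h' => hxS (mem_union_left _ h')
          rw [addE_of_right (by rintro rfl; exact hm.1 hz) (by rintro rfl; exact hm.2 hz)] at hxz
          exact ⟨z, mem_union_left _ hz, hzp, hxz⟩
      · have k2 := card_union_le S TA
        omega
  · obtain ⟨S, c1, c2, c3⟩ := hG2
    by_cases hm : a ∈ S ∨ b ∈ S
    · refine ⟨insert u (S ∪ TG), h.loc1_meet c1 hm b1 b2, ?_, ?_⟩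
      · rcases c2 with c2 | ⟨z, hz, hpz⟩
        · exact Or.inl (mem_insert_of_mem (mem_union_left _ c2))
        · right
          by_cases hpa : p = a
          · exact ⟨u, mem_insert_self _ _, by rw [hpa]; exact h.ua.symm⟩
          · by_cases hpb : p = b
            · exact ⟨u, mem_insert_self _ _, by rw [hpb]; exact h.ub.symm⟩
            · rw [addE_of_left hpa hpb] at hpz
              exact ⟨z, mem_insert_of_mem (mem_union_left _ hz), hpz⟩
      · have k1 := card_insert_le u (S ∪ TG)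
        have k2 := card_union_le S TG
        omega
    · push Not at hm
      refine ⟨S ∪ TA, h.loc1_miss c1 hm.1 hm.2 a1 a2, ?_, ?_⟩
      · rcases c2 with c2 | ⟨z, hz, hpz⟩
        · exact Or.inl (mem_union_left _ c2)
        · right
          rw [addE_of_right (by rintro rfl; exact hm.1 hz) (by rintro rfl; exact hm.2 hz)] at hpz
          exact ⟨z, mem_union_left _ hz, hpz⟩
      · have k2 := card_union_le S TA
        omega

end Cfg

end Pool.Agent.LTD
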