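import Pool.Agent.Lib.MP_a46439_co.RootSurg1

set_option autoImplicit false
set_option linter.unusedSectionVars false

/-! Graph surgery at a bridge: the two other neighbours of `u` are adjacent. -/

namespace Pool.Agent.LTD

open Finset

variable {V : Type} [Fintype V] [DecidableEq V]

/-- `H` without the edge `ab`, with the edges `wa` and `wb` -/
def dia (H : SimpleGraph V) (a b w : V) (ha : a ≠ w) (hb : b ≠ w) : SimpleGraph V where
  Adj x y := (H.Adj x y ∧ ¬ (x = a ∧ y = b) ∧ ¬ (x = b ∧ y = a)) ∨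
    (x = w ∧ (y = a ∨ y = b)) ∨ (y = w ∧ (x = a ∨ x = b))
  symm := ⟨fun x y h => by
    rcases h with ⟨h1, h2, h3⟩ | h | h
    · exact Or.inl ⟨h1.symm, fun h' => h3 ⟨h'.2, h'.1⟩, fun h' => h2 ⟨h'.2, h'.1⟩⟩
    · exact Or.inr (Or.inr h)
    · exact Or.inr (Or.inl h)⟩
  loopless := ⟨fun x h => by
    rcases h with h | ⟨h1, h2 | h2⟩ | ⟨h1, h2 | h2⟩
    · exact H.loopless.irrefl _ h.1
    · exact ha (h2.symm.trans h1)
    · exact hb (h2.symm.trans h1)
    · exact ha (h2.symm.trans h1)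
    · exact hb (h2.symm.trans h1)⟩

section dia

variable {H : SimpleGraph V} {a b w : V} {ha : a ≠ w} {hb : b ≠ w}

lemma dia_iff {x y : V} : (dia H a b w ha hb).Adj x y ↔
    (H.Adj x y ∧ ¬ (x = a ∧ y = b) ∧ ¬ (x = b ∧ y = a)) ∨
    (x = w ∧ (y = a ∨ y = b)) ∨ (y = w ∧ (x = a ∨ x = b)) := Iff.rfl

lemma dia_other {x y : V} (hxa : x ≠ a) (hxb : x ≠ b) (hxw : x ≠ w) :
    (dia H a b w ha hb).Adj x y ↔ H.Adj x y := by
  rw [dia_iff]; simp [hxa, hxb, hxw]

lemma dia_other' {x y : V} (hya : y ≠ a) (hyb : y ≠ b) (hyw : y ≠ w) :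
    (dia H a b w ha hb).Adj x y ↔ H.Adj x y := by
  rw [dia_iff]; simp [hya, hyb, hyw]

lemma dia_comm : dia H b a w hb ha = dia H a b w ha hb := by
  ext x y
  rw [dia_iff, dia_iff]
  tauto

end dia

namespace Cfg

variable {H : SimpleGraph V} {L : Finset V} {p : V} {C : Finset V} {u w a b : V}

/-- the diamond graph of a configuration -/
def dg (h : Cfg H L p C u w a b) : SimpleGraph V := dia H a b w h.aw h.bw

lemma mem_L3 {x : V} : x ∈ insert w (L \ C) ↔ x = w ∨ (x ∈ L ∧ x ∉ C) := by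
  rw [mem_insert, mem_sdiff]

lemma uw (h : Cfg H L p C u w a b) : u ≠ w := fun h' => h.uC (h' ▸ h.wC)

lemma deg3a (h : Cfg H L p C u w a b) (hab : H.Adj a b) :
    E h.dg {a} (insert w (L \ C)) = E H {a} L := by
  classical
  rw [E_single, E_single]
  have h1 : ((insert w (L \ C)).filter fun y => h.dg.Adj a y) =
      insert w ((L.filter fun y => H.Adj a y).erase b) := by
    ext y
    unfold dg
    rw [mem_filter, mem_L3, mem_insert, mem_erase, mem_filter, dia_iff]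
    constructor
    · rintro ⟨h1, h2⟩
      rcases h1 with h1 | h1
      · exact Or.inl h1
      · rcases h2 with h2 | h2 | h2
        · exact Or.inr ⟨fun h' => h2.2.1 ⟨rfl, h'⟩, h1.1, h2.1⟩
        · exact absurd h2.1 h.aw
        · exact Or.inl h2.1
    · rintro (h1 | ⟨h1, h2, h3⟩)
      · exact ⟨Or.inl h1, Or.inr (Or.inr ⟨h1, Or.inl rfl⟩)⟩
      · refine ⟨Or.inr ⟨h2, fun hyC => ?_⟩, Or.inl ⟨h3, fun h' => h1 h'.2, fun h' => h.ab h'.1⟩⟩
        exact h.au (h.only y hyC a h.aL h.aC h3.symm).2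
  have h2 : w ∉ (L.filter fun y => H.Adj a y).erase b := by
    intro h'
    have h3 := (mem_filter.1 (mem_erase.1 h').2).2
    exact h.au (h.only w h.wC a h.aL h.aC h3.symm).2
  have h3 : b ∈ L.filter fun y => H.Adj a y := mem_filter.2 ⟨h.bL, hab⟩
  rw [h1, card_insert_of_notMem h2, card_erase_of_mem h3]
  have := card_pos.2 ⟨b, h3⟩
  omega

lemma dg_swap (h : Cfg H L p C u w a b) : h.swap.dg = h.dg := dia_comm

lemma deg3w (h : Cfg H L p C u w a b) : E h.dg {w} (insert w (L \ C)) = 3 := by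
  classical
  rw [E_single]
  have h1 : ((insert w (L \ C)).filter fun y => h.dg.Adj w y) = {u, a, b} := by
    ext y
    unfold dg
    rw [mem_filter, mem_L3, mem_insert, mem_insert, mem_singleton, dia_iff]
    constructor
    · rintro ⟨h1, h2⟩
      rcases h2 with h2 | h2 | h2
      · rcases h1 with h1 | h1
        · exact absurd (h1 ▸ h2.1) (H.loopless.irrefl _)
        · exact Or.inl (h.only w h.wC y h1.1 h1.2 h2.1).2
      · exact Or.inr h2.2
      · rcases h2.2 with h3 | h3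
        · exact absurd h3.symm h.aw
        · exact absurd h3.symm h.bw
    · rintro (h1 | h1 | h1)
      · refine ⟨Or.inr ⟨h1 ▸ h.uL, h1 ▸ h.uC⟩, Or.inl ⟨h1 ▸ h.adj, fun h' => h.aw h'.1.symm,
          fun h' => h.bw h'.1.symm⟩⟩
      · exact ⟨Or.inr ⟨h1 ▸ h.aL, h1 ▸ h.aC⟩, Or.inr (Or.inl ⟨rfl, Or.inl h1⟩)⟩
      · exact ⟨Or.inr ⟨h1 ▸ h.bL, h1 ▸ h.bC⟩, Or.inr (Or.inl ⟨rfl, Or.inr h1⟩)⟩
  rw [h1, card_insert_of_notMem, card_insert_of_notMem, card_singleton]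
  · simp [h.ab]
  · simp [h.au.symm, h.bu.symm]

lemma deg3 (h : Cfg H L p C u w a b) (hab : H.Adj a b) {v : V} (hv : v ∈ L) (hvC : v ∉ C) :
    E h.dg {v} (insert w (L \ C)) = E H {v} L := by
  classical
  by_cases hva : v = a
  · rw [hva]; exact h.deg3a hab
  by_cases hvb : v = b
  · rw [hvb, ← dg_swap]; exact h.swap.deg3a hab.symm
  have hvw : v ≠ w := by rintro rfl; exact hvC h.wC
  rw [E_single, E_single]
  congr 1
  ext y
  unfold dg
  rw [mem_filter, mem_L3, mem_filter, dia_other hva hvb hvw]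
  constructor
  · rintro ⟨h1 | h1, h4⟩
    · exact ⟨h1 ▸ h.CL h.wC, h4⟩
    · exact ⟨h1.1, h4⟩
  · rintro ⟨h1, h4⟩
    refine ⟨?_, h4⟩
    by_cases hyC : y ∈ C
    · exact Or.inl (h.only y hyC v hv hvC h4.symm).1
    · exact Or.inr ⟨h1, hyC⟩

/-- the diamond graph is rooted -/
lemma rOn3 (hR : ROn H L p) (h : Cfg H L p C u w a b) (hab : H.Adj a b) :
    ROn h.dg (insert w (L \ C)) p := by
  have hp : p ∈ insert w (L \ C) := mem_L3.2 (Or.inr ⟨hR.mem, h.pC⟩)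
  refine ⟨hp, ?_, ?_, ?_⟩
  · intro A hA hne hne'
    by_contra h0
    have h0' : E h.dg A ((insert w (L \ C)) \ A) = 0 := by omega
    set B := (insert w (L \ C)) \ A with hB
    rw [E_eq_zero_iff] at h0'
    have hd : Disjoint A B := disjoint_sdiff
    have hmem : ∀ z ∈ insert w (L \ C), z ∈ A ∨ z ∈ B := by
      intro z hz
      by_cases hzA : z ∈ A
      · exact Or.inl hzA
      · exact Or.inr (mem_sdiff.2 ⟨hz, hzA⟩)
    have hno : ∀ x y, (x ∈ A ∧ y ∈ B) ∨ (x ∈ B ∧ y ∈ A) → ¬ h.dg.Adj x y := by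
      rintro x y (⟨h1, h2⟩ | ⟨h1, h2⟩) h3
      · exact h0' x h1 y h2 h3
      · exact h0' y h2 x h1 h3.symm
    -- adjacent vertices are on the same side
    have hsame : ∀ X Y : Finset V, ((X = A ∧ Y = B) ∨ (X = B ∧ Y = A)) → ∀ x ∈ X,
        ∀ y ∈ insert w (L \ C), h.dg.Adj x y → y ∈ X := by
      intro X Y hXY x hx y hy hxy
      rcases hXY with ⟨rfl, rfl⟩ | ⟨rfl, rfl⟩
      · rcases hmem y hy with h1 | h1
        · exact h1
        · exact absurd hxy (hno x y (Or.inl ⟨hx, h1⟩))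
      · rcases hmem y hy with h1 | h1
        · exact absurd hxy (hno x y (Or.inr ⟨hx, h1⟩))
        · exact h1
    have hwL : w ∈ insert w (L \ C) := mem_L3.2 (Or.inl rfl)
    have huL : u ∈ insert w (L \ C) := mem_L3.2 (Or.inr ⟨h.uL, h.uC⟩)
    have haL : a ∈ insert w (L \ C) := mem_L3.2 (Or.inr ⟨h.aL, h.aC⟩)
    have hbL : b ∈ insert w (L \ C) := mem_L3.2 (Or.inr ⟨h.bL, h.bC⟩)
    have wu : h.dg.Adj w u := Or.inl ⟨h.adj, fun h' => h.aw h'.1.symm, fun h' => h.bw h'.1.symm⟩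
    have wa : h.dg.Adj w a := Or.inr (Or.inl ⟨rfl, Or.inl rfl⟩)
    have wb : h.dg.Adj w b := Or.inr (Or.inl ⟨rfl, Or.inr rfl⟩)
    have key : ∀ X Y : Finset V, ((X = A ∧ Y = B) ∨ (X = B ∧ Y = A)) → w ∈ X → Y.Nonempty →
        False := by
      intro X Y hXY hwX hYne
      have huX := hsame X Y hXY w hwX u huL wu
      have haX := hsame X Y hXY w hwX a haL wa
      have hbX := hsame X Y hXY w hwX b hbL wb
      have hdXY : Disjoint X Y := by
        rcases hXY with ⟨rfl, rfl⟩ | ⟨rfl, rfl⟩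
        · exact hd
        · exact hd.symm
      have hYs : Y ⊆ insert w (L \ C) := by
        rcases hXY with ⟨rfl, rfl⟩ | ⟨rfl, rfl⟩
        · exact sdiff_subset
        · exact hA
      have hYX : ∀ z ∈ insert w (L \ C), z ∉ Y → z ∈ X := by
        intro z hz hzY
        rcases hXY with ⟨rfl, rfl⟩ | ⟨rfl, rfl⟩
        · exact (hmem z hz).resolve_right hzY
        · exact (hmem z hz).resolve_left hzY
      have hYw : ∀ y ∈ Y, y ∈ L ∧ y ∉ C := by
        intro y hy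
        rcases mem_L3.1 (hYs hy) with h1 | h1
        · exact absurd hy (h1 ▸ Finset.disjoint_left.1 hdXY hwX)
        · exact h1
      have h1 := hR.conn Y (fun y hy => (hYw y hy).1) hYne (by
        rintro rfl
        exact (Finset.disjoint_left.1 hdXY huX) h.uL)
      obtain ⟨y, hy, z, hz, hyz⟩ := (E_pos_iff H).1 h1
      rw [mem_sdiff] at hz
      obtain ⟨hyL, hyC⟩ := hYw y hy
      have hyu : y ≠ u := by rintro rfl; exact Finset.disjoint_left.1 hdXY huX hy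
      have hya : y ≠ a := by rintro rfl; exact Finset.disjoint_left.1 hdXY haX hy
      have hyb : y ≠ b := by rintro rfl; exact Finset.disjoint_left.1 hdXY hbX hy
      have hyw : y ≠ w := by rintro rfl; exact Finset.disjoint_left.1 hdXY hwX hy
      have hzC : z ∉ C := by
        intro hzC
        exact hyu (h.only z hzC y hyL hyC hyz.symm).2
      have hzX : z ∈ X := hYX z (mem_L3.2 (Or.inr ⟨hz.1, hzC⟩)) hz.2
      have hyz' : h.dg.Adj y z := (dia_other hya hyb hyw).2 hyz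
      refine hno y z ?_ hyz'
      rcases hXY with ⟨rfl, rfl⟩ | ⟨rfl, rfl⟩
      · exact Or.inr ⟨hy, hzX⟩
      · exact Or.inl ⟨hy, hzX⟩
    rcases hmem w hwL with hw | hw
    · refine key A B (Or.inl ⟨rfl, rfl⟩) hw ?_
      rw [hB, sdiff_nonempty]
      intro h'; exact hne' (subset_antisymm hA h')
    · exact key B A (Or.inr ⟨rfl, rfl⟩) hw hne
  · rw [h.deg3 hab hR.mem h.pC]; exact hR.root
  · intro v hv hvp
    rcases mem_L3.1 hv with rfl | ⟨h1, h2⟩
    · exact h.deg3w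
    · rw [h.deg3 hab h1 h2]; exact hR.deg v h1 hvp

lemma cases3 {x : V} (hx : x ∈ L) : x ∈ C ∨ x = u ∨ x = a ∨ x = b ∨
    (x ∈ L ∧ x ∉ C ∧ x ≠ u ∧ x ≠ a ∧ x ≠ b) := by
  by_cases h1 : x ∈ C
  · exact Or.inl h1
  · by_cases h2 : x = u
    · exact Or.inr (Or.inl h2)
    · by_cases h3 : x = a
      · exact Or.inr (Or.inr (Or.inl h3))
      · by_cases h4 : x = b
        · exact Or.inr (Or.inr (Or.inr (Or.inl h4)))
        · exact Or.inr (Or.inr (Or.inr (Or.inr ⟨hx, h1, h2, h3, h4⟩)))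

/-- adjacency of the other vertices in the diamond graph -/
lemma dg_adj (h : Cfg H L p C u w a b) {x z : V} (hx : x ∈ L ∧ x ∉ C ∧ x ≠ u ∧ x ≠ a ∧ x ≠ b)
    (h' : h.dg.Adj x z) : H.Adj x z ∧ z ≠ u ∧ z ≠ w := by
  obtain ⟨hxL, hxC, hxu, hxa, hxb⟩ := hx
  have hxw : x ≠ w := by rintro rfl; exact hxC h.wC
  have h1 := (dia_other hxa hxb hxw).1 h'
  refine ⟨h1, ?_, ?_⟩
  · rintro rfl; exact h.not_u hxL hxC hxa hxb h1
  · rintro rfl
    exact hxu (h.only z h.wC x hxL hxC h1.symm).2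

lemma dg_adj_iff (h : Cfg H L p C u w a b) {x z : V}
    (hx : x ∈ L ∧ x ∉ C ∧ x ≠ u ∧ x ≠ a ∧ x ≠ b) : h.dg.Adj x z ↔ H.Adj x z := by
  obtain ⟨hxL, hxC, hxu, hxa, hxb⟩ := hx
  have hxw : x ≠ w := by rintro rfl; exact hxC h.wC
  exact dia_other hxa hxb hxw

/-- new set -/
lemma mem_new {S T : Finset V} {x : V} :
    x ∈ insert u ((S \ {u, w}) ∪ T) ↔ x = u ∨ (x ∈ S ∧ x ≠ u ∧ x ≠ w) ∨ x ∈ T := by
  rw [mem_insert, mem_union, mem_sdiff, mem_insert, mem_singleton, not_or]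

/-- common part of the two cases -/
lemma loc3 (h : Cfg H L p C u w a b) {Q S T : Finset V}
    (hS : Loc h.dg (insert w (L \ C)) Q S) (hTC : T ⊆ C)
    (hdom : ∀ x ∈ C, Dom H (insert u ((S \ {u, w}) ∪ T)) x)
    (hdomu : Dom H (insert u ((S \ {u, w}) ∪ T)) u)
    (hsepC : ∀ x ∈ C, ∀ y ∈ C, x ∉ insert u ((S \ {u, w}) ∪ T) →
      y ∉ insert u ((S \ {u, w}) ∪ T) → x ≠ y → Sep H (insert u ((S \ {u, w}) ∪ T)) x y)
    (hout : ∀ x ∈ C, x ∉ insert u ((S \ {u, w}) ∪ T) → ∀ y ∈ L, y ∉ C → y ≠ u →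
      Sep H (insert u ((S \ {u, w}) ∪ T)) x y)
    (hsab : a ∉ S → b ∉ S → a ∉ Q → b ∉ Q → Sep H (insert u ((S \ {u, w}) ∪ T)) a b) :
    Loc H L Q (insert u ((S \ {u, w}) ∪ T)) := by
  set S' := insert u ((S \ {u, w}) ∪ T) with hS'
  have su : u ∈ S' := mem_insert_self _ _
  have hmem : ∀ z ∈ S, z ≠ u → z ≠ w → z ∈ S' := fun z hz h1 h2 =>
    mem_new.2 (Or.inr (Or.inl ⟨hz, h1, h2⟩))
  have hSa : a ∉ S' → a ∉ S := fun h1 h2 => h1 (hmem a h2 h.au h.aw)
  have hSb : b ∉ S' → b ∉ S := fun h1 h2 => h1 (hmem b h2 h.bu h.bw)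
  have hO : ∀ x, (x ∈ L ∧ x ∉ C ∧ x ≠ u ∧ x ≠ a ∧ x ≠ b) → ¬ H.Adj x u := fun x hx =>
    h.not_u hx.1 hx.2.1 hx.2.2.2.1 hx.2.2.2.2
  refine ⟨?_, ?_, ?_⟩
  · intro x hx
    rcases mem_new.1 hx with rfl | hx | hx
    · exact h.uL
    · rcases mem_L3.1 (hS.1 hx.1) with h1 | h1
      · exact absurd h1 hx.2.2
      · exact h1.1
    · exact h.CL (hTC hx)
  · intro x hx hxQ
    rcases cases3 (u := u) (C := C) (a := a) (b := b) hx with hx1 | rfl | rfl | rfl | hx1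
    · exact hdom x hx1
    · exact hdomu
    · exact ⟨u, su, h.ua.symm⟩
    · exact ⟨u, su, h.ub.symm⟩
    · obtain ⟨z, hz, hxz⟩ := hS.2.1 x (mem_L3.2 (Or.inr ⟨hx1.1, hx1.2.1⟩)) hxQ
      obtain ⟨h1, h2, h3⟩ := h.dg_adj hx1 hxz
      exact ⟨z, hmem z hz h2 h3, h1⟩
  · -- ordered cases
    have key : ∀ x ∈ L, ∀ y ∈ L, x ∉ S' → y ∉ S' → x ∉ Q → y ∉ Q → x ≠ y →
        (x ∈ C ∨ x = a ∨ (x = b ∧ y ≠ a) ∨ ((x ∈ L ∧ x ∉ C ∧ x ≠ u ∧ x ≠ a ∧ x ≠ b) ∧
          (y ∈ L ∧ y ∉ C ∧ y ≠ u ∧ y ≠ a ∧ y ≠ b))) → y ∉ C ∨ x ∈ C → Sep H S' x y := by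
      intro x hx y hy hxS hyS hxQ hyQ hne hcase hyC
      have hyu : y ≠ u := by rintro rfl; exact hyS su
      rcases hcase with hxC | rfl | ⟨rfl, hya⟩ | ⟨hx1, hy1⟩
      · by_cases hyC' : y ∈ C
        · exact hsepC x hxC y hyC' hxS hyS hne
        · exact hout x hxC hxS y hy hyC' hyu
      · have hyC' : y ∉ C := hyC.resolve_right h.aC
        by_cases hyb : y = b
        · rw [hyb] at hyS hyQ ⊢
          exact hsab (hSa hxS) (hSb hyS) hxQ hyQ
        · exact sep_left su h.ua.symm (hO y ⟨hy, hyC', hyu, hne.symm, hyb⟩)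
      · have hyC' : y ∉ C := hyC.resolve_right h.bC
        exact sep_left su h.ub.symm (hO y ⟨hy, hyC', hyu, hya, hne.symm⟩)
      · have hxS' : x ∉ S := fun h1 => hxS (hmem x h1 hx1.2.2.1
          (by rintro rfl; exact hx1.2.1 h.wC))
        have hyS' : y ∉ S := fun h1 => hyS (hmem y h1 hy1.2.2.1
          (by rintro rfl; exact hy1.2.1 h.wC))
        obtain ⟨z, hz, hsep⟩ := hS.2.2 x (mem_L3.2 (Or.inr ⟨hx1.1, hx1.2.1⟩)) y
          (mem_L3.2 (Or.inr ⟨hy1.1, hy1.2.1⟩)) hxS' hyS' hxQ hyQ hne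
        have hzz : z ≠ u ∧ z ≠ w := by
          by_contra hcon
          apply hsep
          constructor
          · intro h1; exact absurd (h.dg_adj hx1 h1).2 hcon
          · intro h1; exact absurd (h.dg_adj hy1 h1).2 hcon
        rw [h.dg_adj_iff hx1, h.dg_adj_iff hy1] at hsep
        exact ⟨z, hmem z hz hzz.1 hzz.2, hsep⟩
    intro x hx y hy hxS hyS hxQ hyQ hne
    have hxu : x ≠ u := by rintro rfl; exact hxS su
    have hyu : y ≠ u := by rintro rfl; exact hyS su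
    rcases cases3 (u := u) (C := C) (a := a) (b := b) hx with hx1 | hx1 | hx1 | hx1 | hx1
    · exact key x hx y hy hxS hyS hxQ hyQ hne (Or.inl hx1) (Or.inr hx1)
    · exact absurd hx1 hxu
    · by_cases hyC : y ∈ C
      · exact (key y hy x hx hyS hxS hyQ hxQ hne.symm (Or.inl hyC) (Or.inr hyC)).symm
      · exact key x hx y hy hxS hyS hxQ hyQ hne (Or.inr (Or.inl hx1)) (Or.inl hyC)
    · by_cases hyC : y ∈ C
      · exact (key y hy x hx hyS hxS hyQ hxQ hne.symm (Or.inl hyC) (Or.inr hyC)).symm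
      · by_cases hya : y = a
        · exact (key y hy x hx hyS hxS hyQ hxQ hne.symm (Or.inr (Or.inl hya))
            (Or.inl (hx1 ▸ h.bC))).symm
        · exact key x hx y hy hxS hyS hxQ hyQ hne (Or.inr (Or.inr (Or.inl ⟨hx1, hya⟩)))
            (Or.inl hyC)
    · rcases cases3 (u := u) (C := C) (a := a) (b := b) hy with hy1 | hy1 | hy1 | hy1 | hy1
      · exact (key y hy x hx hyS hxS hyQ hxQ hne.symm (Or.inl hy1) (Or.inr hy1)).symm
      · exact absurd hy1 hyu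
      · exact (key y hy x hx hyS hxS hyQ hxQ hne.symm (Or.inr (Or.inl hy1))
          (Or.inl hx1.2.1)).symm
      · exact (key y hy x hx hyS hxS hyQ hxQ hne.symm
          (Or.inr (Or.inr (Or.inl ⟨hy1, hx1.2.2.2.1⟩))) (Or.inl hx1.2.1)).symm
      · exact key x hx y hy hxS hyS hxQ hyQ hne (Or.inr (Or.inr (Or.inr ⟨hx1, hy1⟩)))
          (Or.inl hy1.2.1)

/-- neighbours of `u` and `w` in the diamond graph -/
lemma dg_u (h : Cfg H L p C u w a b) {z : V} (hz : z ∈ insert w (L \ C)) (h' : h.dg.Adj u z) :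
    z = w ∨ z = a ∨ z = b := by
  have h1 := (dia_other (ha := h.aw) (hb := h.bw) h.au.symm h.bu.symm h.uw).1 h'
  rcases mem_L3.1 hz with h2 | h2
  · exact Or.inl h2
  · exact h.nb z h2.1 h1

lemma dg_w (h : Cfg H L p C u w a b) {z : V} (hz : z ∈ insert w (L \ C)) (h' : h.dg.Adj w z) :
    z = u ∨ z = a ∨ z = b := by
  unfold dg at h'
  rw [dia_iff] at h'
  rcases h' with h1 | h1 | h1
  · rcases mem_L3.1 hz with h2 | h2
    · exact absurd (h2 ▸ h1.1) (H.loopless.irrefl _)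
    · exact Or.inl (h.only w h.wC z h2.1 h2.2 h1.1).2
  · exact Or.inr h1.2
  · rcases h1.2 with h2 | h2
    · exact absurd h2.symm h.aw
    · exact absurd h2.symm h.bw

/-- at least one of the centres of the diamond is used -/
lemma centre (h : Cfg H L p C u w a b) {Q S : Finset V}
    (hS : Loc h.dg (insert w (L \ C)) Q S) (huQ : u ∉ Q) (hwQ : w ∉ Q) : u ∈ S ∨ w ∈ S := by
  by_contra hcon
  push Not at hcon
  obtain ⟨hu, hw⟩ := hcon
  obtain ⟨z, hz, hsep⟩ := hS.2.2 u (mem_L3.2 (Or.inr ⟨h.uL, h.uC⟩)) w (mem_L3.2 (Or.inl rfl))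
    hu hw huQ hwQ h.uw
  apply hsep
  have hzL := hS.1 hz
  constructor
  · intro h1
    rcases h.dg_u hzL h1 with h2 | h2 | h2
    · exact absurd (h2 ▸ hz) hw
    · exact Or.inr (Or.inl ⟨rfl, Or.inl h2⟩)
    · exact Or.inr (Or.inl ⟨rfl, Or.inr h2⟩)
  · intro h1
    rcases h.dg_w hzL h1 with h2 | h2 | h2
    · exact absurd (h2 ▸ hz) hu
    · refine Or.inl ⟨h2 ▸ h.ua, fun h' => h.au h'.1.symm, fun h' => h.bu h'.1.symm⟩
    · refine Or.inl ⟨h2 ▸ h.ub, fun h' => h.au h'.1.symm, fun h' => h.bu h'.1.symm⟩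

lemma centre_both (h : Cfg H L p C u w a b) {Q S : Finset V}
    (hS : Loc h.dg (insert w (L \ C)) Q S) (huQ : u ∉ Q) (hwQ : w ∉ Q) (ha : a ∉ S)
    (hb : b ∉ S) : u ∈ S ∧ w ∈ S := by
  constructor
  · obtain ⟨z, hz, hwz⟩ := hS.2.1 w (mem_L3.2 (Or.inl rfl)) hwQ
    rcases h.dg_w (hS.1 hz) hwz with h2 | h2 | h2
    · exact h2 ▸ hz
    · exact absurd (h2 ▸ hz) ha
    · exact absurd (h2 ▸ hz) hb
  · obtain ⟨z, hz, huz⟩ := hS.2.1 u (mem_L3.2 (Or.inr ⟨h.uL, h.uC⟩)) huQ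
    rcases h.dg_u (hS.1 hz) huz with h2 | h2 | h2
    · exact h2 ▸ hz
    · exact absurd (h2 ▸ hz) ha
    · exact absurd (h2 ▸ hz) hb

lemma loc3_meet (h : Cfg H L p C u w a b) {Q S T : Finset V}
    (hS : Loc h.dg (insert w (L \ C)) Q S) (hm : a ∈ S ∨ b ∈ S)
    (hT : Loc H C {w} T) (hE : ExG H w T) : Loc H L Q (insert u ((S \ {u, w}) ∪ T)) := by
  have s2 : T ⊆ insert u ((S \ {u, w}) ∪ T) := subset_union_right.trans (subset_insert _ _)
  have su : u ∈ insert u ((S \ {u, w}) ∪ T) := mem_insert_self _ _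
  refine h.loc3 hS hT.1 (h.toBr.gdom hT s2 su) ?_ (h.toBr.gsep hT s2 su)
    (h.toBr.gout hT hE s2) ?_
  · rcases hm with hm | hm
    · exact ⟨a, mem_new.2 (Or.inr (Or.inl ⟨hm, h.au, h.aw⟩)), h.ua⟩
    · exact ⟨b, mem_new.2 (Or.inr (Or.inl ⟨hm, h.bu, h.bw⟩)), h.ub⟩
  · intro h1 h2
    rcases hm with hm | hm
    · exact absurd hm h1
    · exact absurd hm h2

lemma loc3_miss (h : Cfg H L p C u w a b) {Q S T : Finset V}
    (hS : Loc h.dg (insert w (L \ C)) Q S) (ha : a ∉ S) (hb : b ∉ S)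
    (hT : Loc H C ∅ T) (hE : ExA H C w T) : Loc H L Q (insert u ((S \ {u, w}) ∪ T)) := by
  have s2 : T ⊆ insert u ((S \ {u, w}) ∪ T) := subset_union_right.trans (subset_insert _ _)
  refine h.loc3 hS hT.1 (Br.adom hT s2) ⟨w, s2 hE.1, h.adj.symm⟩ (Br.asep hT s2)
    (fun x hx _ => h.toBr.aout hT s2 x hx) ?_
  intro _ _ haQ hbQ
  obtain ⟨z, hz, hsep⟩ := hS.2.2 a (mem_L3.2 (Or.inr ⟨h.aL, h.aC⟩)) b
    (mem_L3.2 (Or.inr ⟨h.bL, h.bC⟩)) ha hb haQ hbQ h.ab
  have hzw : z ≠ w := by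
    rintro rfl
    apply hsep
    exact ⟨fun _ => Or.inr (Or.inr ⟨rfl, Or.inr rfl⟩), fun _ => Or.inr (Or.inr ⟨rfl, Or.inl rfl⟩)⟩
  have hzu : z ≠ u := by
    rintro rfl
    apply hsep
    exact ⟨fun _ => Or.inl ⟨h.ub.symm, fun h' => h.bu h'.2.symm, fun h' => h.au h'.2.symm⟩,
      fun _ => Or.inl ⟨h.ua.symm, fun h' => h.bu h'.2.symm, fun h' => h.au h'.2.symm⟩⟩
  have hza : z ≠ a := by rintro rfl; exact ha hz
  have hzb : z ≠ b := by rintro rfl; exact hb hz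
  have e1 : ∀ x, h.dg.Adj x z ↔ H.Adj x z := fun x => dia_other' hza hzb hzw
  rw [e1, e1] at hsep
  exact ⟨z, mem_new.2 (Or.inr (Or.inl ⟨hz, hzu, hzw⟩)), hsep⟩

lemma card3 (h : Cfg H L p C u w a b) : L.card + 1 = (insert w (L \ C)).card + C.card := by
  have h1 := card_sdiff_add_card_eq_card h.CL
  have h2 : w ∉ L \ C := fun h' => (mem_sdiff.1 h').2 h.wC
  rw [card_insert_of_notMem h2]
  omega

lemma card_new {S T : Finset V} :
    (insert u ((S \ {u, w}) ∪ T)).card ≤ (S \ {u, w}).card + T.card + 1 := by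
  have k1 := card_insert_le u ((S \ {u, w}) ∪ T)
  have k2 := card_union_le (S \ {u, w}) T
  omega

lemma card_meet {S : Finset V} (h : u ∈ S ∨ w ∈ S) : (S \ {u, w}).card + 1 ≤ S.card := by
  have h1 : S \ {u, w} ⊂ S := by
    refine ⟨sdiff_subset, fun h' => ?_⟩
    rcases h with h | h
    · exact (mem_sdiff.1 (h' h)).2 (by simp)
    · exact (mem_sdiff.1 (h' h)).2 (by simp)
  exact card_lt_card h1

lemma card_both {S : Finset V} (hu : u ∈ S) (hw : w ∈ S) (huw : u ≠ w) :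
    (S \ {u, w}).card + 2 ≤ S.card := by
  have h1 : ({u, w} : Finset V) ⊆ S := by
    intro x hx
    rw [mem_insert, mem_singleton] at hx
    rcases hx with rfl | rfl
    · exact hu
    · exact hw
  have h2 := card_sdiff_add_card_eq_card h1
  rw [card_pair huw] at h2
  omega

/-- `C` has at least three vertices -/
lemma three_le (hR : ROn H L p) (h : Br H L p C u w) : 3 ≤ C.card := by
  classical
  have h1 := (h.rOn hR).root
  rw [E_single] at h1
  have h2 : insert w (C.filter fun y => H.Adj w y) ⊆ C := by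
    intro x hx
    rcases mem_insert.1 hx with rfl | hx
    · exact h.wC
    · exact (mem_filter.1 hx).1
  have h3 := card_le_card h2
  rw [card_insert_of_notMem] at h3
  · omega
  · intro h'
    exact H.loopless.irrefl _ (mem_filter.1 h').2

/-- The case of adjacent neighbours `a, b` different from the root. -/
theorem case3 (hR : ROn H L p) (h : Cfg H L p C u w a b) (hab : H.Adj a b) (hpa : p ≠ a)
    (hpb : p ≠ b)
    (IH : ∀ (H' : SimpleGraph V) (L' : Finset V), L'.card < L.card → ∀ p', ROn H' L' p' →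
      AOn H' L' p' ∧ GOn H' L' p') :
    AOn H L p ∧ GOn H L p := by
  classical
  have hc := h.card3
  have hC3 := three_le hR h.toBr
  have hpC := h.pC
  have hCL : C.card < L.card := by
    apply card_lt_card
    exact ⟨h.CL, fun h' => hpC (h' hR.mem)⟩
  obtain ⟨hA1, hG1⟩ := IH H C hCL w (h.toBr.rOn hR)
  obtain ⟨hA2, hG2⟩ := IH _ (insert w (L \ C)) (by omega) p (h.rOn3 hR hab)
  obtain ⟨TA, a1, a2, a3⟩ := hA1
  obtain ⟨TG, b1, b2, b3⟩ := hG1
  have hpu : p ≠ u := h.up.symm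
  have hpw : p ≠ w := by rintro rfl; exact hpC h.wC
  have hpo : p ∈ L ∧ p ∉ C ∧ p ≠ u ∧ p ≠ a ∧ p ≠ b := ⟨hR.mem, hpC, hpu, hpa, hpb⟩
  -- the extra conditions
  have exA : ∀ S T : Finset V, ExA h.dg (insert w (L \ C)) p S → T ⊆ C →
      (∀ x ∈ C, x ∉ insert u ((S \ {u, w}) ∪ T) → ∃ z ∈ T, H.Adj x z) →
      ExA H L p (insert u ((S \ {u, w}) ∪ T)) := by
    intro S T hE hTC hdomC
    refine ⟨mem_new.2 (Or.inr (Or.inl ⟨hE.1, hpu, hpw⟩)), ?_⟩
    intro x hx hxS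
    rcases cases3 (u := u) (C := C) (a := a) (b := b) hx with hx1 | rfl | rfl | rfl | hx1
    · obtain ⟨z, hz, hxz⟩ := hdomC x hx1 hxS
      exact ⟨z, mem_new.2 (Or.inr (Or.inr hz)), fun h' => hpC (h' ▸ hTC hz), hxz⟩
    · exact absurd (mem_insert_self _ _) hxS
    · exact ⟨u, mem_insert_self _ _, h.up, h.ua.symm⟩
    · exact ⟨u, mem_insert_self _ _, h.up, h.ub.symm⟩
    · have hxw : x ≠ w := by rintro rfl; exact hx1.2.1 h.wC
      obtain ⟨z, hz, hzp, hxz⟩ := hE.2 x (mem_L3.2 (Or.inr ⟨hx1.1, hx1.2.1⟩)) fun h' =>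
        hxS (mem_new.2 (Or.inr (Or.inl ⟨h', hx1.2.2.1, hxw⟩)))
      obtain ⟨h1, h2, h3⟩ := h.dg_adj hx1 hxz
      exact ⟨z, mem_new.2 (Or.inr (Or.inl ⟨hz, h2, h3⟩)), hzp, h1⟩
  have exG : ∀ S T : Finset V, ExG h.dg p S → ExG H p (insert u ((S \ {u, w}) ∪ T)) := by
    intro S T hE
    rcases hE with hE | ⟨z, hz, hpz⟩
    · exact Or.inl (mem_new.2 (Or.inr (Or.inl ⟨hE, hpu, hpw⟩)))
    · obtain ⟨h1, h2, h3⟩ := h.dg_adj hpo hpz
      exact Or.inr ⟨z, mem_new.2 (Or.inr (Or.inl ⟨hz, h2, h3⟩)), h1⟩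
  constructor
  · obtain ⟨S, c1, c2, c3⟩ := hA2
    by_cases hm : a ∈ S ∨ b ∈ S
    · refine ⟨_, h.loc3_meet c1 hm b1 b2, exA S TG c2 b1.1
        (Br.gin b1 b2 (subset_union_right.trans (subset_insert _ _))), ?_⟩
      have k1 := card_new (u := u) (w := w) (S := S) (T := TG)
      have k2 := card_meet (h.centre c1 (notMem_empty _) (notMem_empty _))
      omega
    · push Not at hm
      refine ⟨_, h.loc3_miss c1 hm.1 hm.2 a1 a2, exA S TA c2 a1.1
        (fun x hx _ => a1.2.1 x hx (notMem_empty _)), ?_⟩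
      have k1 := card_new (u := u) (w := w) (S := S) (T := TA)
      have k2 := h.centre_both c1 (notMem_empty _) (notMem_empty _) hm.1 hm.2
      have k3 := card_both k2.1 k2.2 h.uw
      omega
  · have huQ : u ∉ ({p} : Finset V) := by rw [mem_singleton]; exact h.up
    have hwQ : w ∉ ({p} : Finset V) := by rw [mem_singleton]; exact hpw.symm
    obtain ⟨S, c1, c2, c3⟩ := hG2
    by_cases hm : a ∈ S ∨ b ∈ S
    · refine ⟨_, h.loc3_meet c1 hm b1 b2, exG S TG c2, ?_⟩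
      have k1 := card_new (u := u) (w := w) (S := S) (T := TG)
      have k2 := card_meet (h.centre c1 huQ hwQ)
      omega
    · push Not at hm
      refine ⟨_, h.loc3_miss c1 hm.1 hm.2 a1 a2, exG S TA c2, ?_⟩
      have k1 := card_new (u := u) (w := w) (S := S) (T := TA)
      have k2 := h.centre_both c1 huQ hwQ hm.1 hm.2
      have k3 := card_both k2.1 k2.2 h.uw
      omega

end Cfg

end Pool.Agent.LTD
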