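import Pool.Agent.Lib.MP_a46439_co.Classify

set_option autoImplicit false
set_option linter.unusedSectionVars false

/-! The structure at a root which cannot be forced into a cover. -/

namespace Pool.Agent.LTD

open Finset

namespace Setup

variable {V : Type} [Fintype V] [DecidableEq V] {M : Setup V}

/-- The statement of the lemma on components without a cover. -/
def QLemma (M : Setup V) : Prop :=
  ∀ c, M.Mc c → (∀ v ∈ c, M.TV v) → c.card % 4 = 2 → M.d c = 4 →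
    (∀ c' ⊆ c, M.Mc c' → c'.Nonempty → c' ≠ c → 4 ≤ M.d c') → ¬ M.Cov c →
    ∃ X ⊆ c, M.Mc X ∧ M.e (c \ X) (c \ X) = 0 ∧ (c \ X).card = X.card + 2

lemma isCov_rail (y : V) (hgood : M.μ y ∉ M.rail y) : M.IsCov (M.blk y) (M.rail y) {y} := by
  by_cases h : M.TV y
  · rw [h.blk, h.rail]; exact isCov_node h
  · exact (ladder_cov hgood h).mono (empty_subset _)

/-- the structure at a bad root -/
structure Str (M : Setup V) (p p1 p2 y : V) (FF U C : Finset (Finset V)) : Prop where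
  vio : M.Vio (M.labOf FF) (M.TOf FF) (univ \ M.nd p) (M.win FF p1 y) U C
  single : ∀ c ∈ C, ∃ v, c = M.nd v
  card : C.card = U.card + 1
  sur : Tight.Surplus U (M.nbc C)
  p2C : p2 ∈ C.biUnion id
  tri : M.Tri p p1 y FF U C
  blocked : ∀ A ∈ U, ∀ v ∈ A, ∀ c1 ∈ C, ∀ c2 ∈ C, c1 ≠ c2 → ∀ w1 ∈ c1, ∀ w2 ∈ c2,
    M.H.Adj v w1 → M.H.Adj v w2 →
    ¬ ∀ X ⊆ U.erase A, X.card ≤ ((X.biUnion (M.nbc C)) \ {c1, c2}).card

namespace RCtx

variable {p p1 p2 y : V} {FF U C : Finset (Finset V)}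

lemma card_le (h : M.RCtx p p1 p2 y FF)
    (hv : M.Vio (M.labOf FF) (M.TOf FF) (univ \ M.nd p) (M.win FF p1 y) U C) :
    C.card ≤ U.card + 1 := by
  have hL := h.lab
  have hW := h.bW
  have hK : BCl (M.labOf FF) (M.win FF p1 y) := h.bK
  have hKW : M.win FF p1 y ⊆ univ \ M.nd p := h.KW
  have hKc : ((M.win FF p1 y).image (M.labOf FF)).card = 2 := h.Kcard
  have hp1K : p1 ∈ M.win FF p1 y := mem_union_left _ (self_mem_nd p1)
  have hyK : y ∈ M.win FF p1 y := mem_union_right _ (hL.self y)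
  have hd4 : ∀ c ∈ C, 4 ≤ M.d c := by
    intro c hc
    refine h.d4 ((hv.sub c hc).trans sdiff_subset) ?_ (hv.mc c hc) (hv.hT c hc) (hv.comp_ne hc)
    intro h1
    exact (mem_sdiff.1 (hv.sub c hc h1)).2 hp1K
  have hcount := hv.count hL hW hK hKW hd4
  rw [hKc, h.root.d_W] at hcount
  have hp1U : p1 ∈ M.win FF p1 y ∪ U.biUnion id := mem_union_left _ hp1K
  have hyU : y ∈ M.win FF p1 y ∪ U.biUnion id := mem_union_left _ hyK
  have hbd := one_le_bd (M := M) (W := univ \ M.nd p) hp1U Root.p_notW h.root.a1.symm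
  have hadj1 : (M.Hx (M.labOf FF)).Adj p1 y := ⟨h.ay, h.Bne⟩
  have hE := two_le_E hp1U hyU hadj1
  omega

lemma win_cov (h : M.RCtx p p1 p2 y FF) : M.CovF {p1} ∅ (M.win FF p1 y) := by
  have hL := h.lab
  have hd : Disjoint (M.nd p1) (M.labOf FF y) := by rw [← h.B1]; exact hL.disj h.Bne
  have hp1 : p1 ∉ M.labOf FF y := Finset.disjoint_left.1 hd (self_mem_nd p1)
  refine CovFX.cov_pair (Mc_nd p1) (hL.cl y).1 hd (a := p1) (b := y) ?_ ?_ h.ay
  · exact ⟨{p1}, mem_singleton_self _, inter_subset_left, (isCov_node h.t1).mono (by simp)⟩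
  · apply CovX.covFX
    · exact hL.flex y y (hL.self y) p1 hp1 h.ay.symm
    · rw [disjoint_singleton_left]; exact hp1

lemma win_covX (h : M.RCtx p p1 p2 y FF) (hy : ∀ A ∈ FF, y ∉ A) {a : V} (ha : a ∈ M.rail y) :
    M.CovFX {p1} ∅ (M.win FF p1 y) a := by
  have hL := h.lab
  have hBy : M.labOf FF y = M.blk y := labOf_not hy
  have hd : Disjoint (M.nd p1) (M.labOf FF y) := by rw [← h.B1]; exact hL.disj h.Bne
  have h1 : M.IsCov (M.win FF p1 y) ({p1} ∪ M.rail y) ∅ := by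
    have h2 := isCov_node h.t1
    have h3 := isCov_rail y (h.root.good y)
    rw [← hBy] at h3
    refine h2.glue (Mc_nd p1) (hL.cl y).1 hd h3 ?_
    intro x hx _ _
    rw [mem_union, mem_singleton, mem_singleton] at hx
    rcases hx with rfl | rfl
    · exact ⟨y, mem_union_right _ (self_mem_rail y), h.ay⟩
    · exact ⟨p1, mem_union_left _ (mem_singleton_self _), h.ay.symm⟩
  exact ⟨_, mem_union_right _ ha, inter_subset_left.trans subset_union_left,
    h1.mono (empty_subset _)⟩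

/-- covers of the rest -/
lemma rest_cov (h : M.RCtx p p1 p2 y FF) (ht : M.Tri p p1 y FF U C) :
    M.Cov (rest (univ \ M.nd p) (M.win FF p1 y) U C) := by
  rcases ht with ⟨_, h2, _⟩ | ⟨L, hL, _, h2, _⟩ | ⟨L, hL, _, _, h2, _⟩
  · rw [h2]; exact Cov.empty
  · rw [h2]; exact (light_good h.root.d_univ.le h.root.good L (h.fam.light L hL)).1
  · rw [h2]; exact Cov.empty

lemma comp_flex (h : M.RCtx p p1 p2 y FF)
    (hv : M.Vio (M.labOf FF) (M.TOf FF) (univ \ M.nd p) (M.win FF p1 y) U C) {c : Finset V}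
    (hc : c ∈ C) (hd : M.d c = 4) : M.Flex c := by
  intro x hx u hu hxu
  refine covX_comp (hv.mc c hc) (fun v hv' => (hv.hT c hc v hv').1) (hv.odd c hc) hd.le ?_ hx hu hxu
  intro c' hc' hmc' hcard' _
  refine h.d4 ((hc'.trans (hv.sub c hc)).trans sdiff_subset) ?_ hmc'
    (fun v hv' => hv.hT c hc v (hc' hv')) (by rw [← card_pos]; omega)
  intro h1
  exact (mem_sdiff.1 (hv.sub c hc (hc' h1))).2 (mem_union_left _ (self_mem_nd p1))

/-- **The structure at a bad root.** -/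
theorem exists_str (hQ : M.QLemma) (h : M.RCtx p p1 p2 y FF)
    (hbad : ¬ M.CovF {p1} ∅ (univ \ M.nd p)) : ∃ U C, M.Str p p1 p2 y FF U C := by
  classical
  have hL := h.lab
  have hW := h.bW
  have hK : BCl (M.labOf FF) (M.win FF p1 y) := h.bK
  have hKW : M.win FF p1 y ⊆ univ \ M.nd p := h.KW
  have hp1K : ({p1} : Finset V) ⊆ M.win FF p1 y :=
    singleton_subset_iff.2 (mem_union_left _ (self_mem_nd p1))
  -- step 1
  have step1 : ∃ U C, M.Vio (M.labOf FF) (M.TOf FF) (univ \ M.nd p) (M.win FF p1 y) U C ∧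
      ∀ c ∈ C, M.NoRail FF y c := by
    rcases window_lab hL (F := {p1}) (Ex := ∅)
      (Us := fun b => (∀ A ∈ FF, y ∉ A) ∧ b ∈ M.rail y) (empty_subset _) hW hK hKW hp1K
      h.win_cov
      (fun a _ ha => h.win_covX ha.1 ha.2) with hc | ⟨U, C, hv, hty⟩
    · exact absurd hc hbad
    · refine ⟨U, C, hv, ?_⟩
      rcases hty with hty | hty
      · have := h.card_le hv
        omega
      · intro c hc hy a ha b hb
        have hbK : b ∈ M.win FF p1 y := by
          refine mem_union_right _ ?_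
          rw [labOf_not hy]; exact mem_union_left _ hb
        exact hty c hc a ha b hbK ⟨hy, hb⟩
  -- step 2
  obtain ⟨U1, C1, hv1, hq1, hs1⟩ := exists_min_vio _ step1
  obtain ⟨hcard1, hd1, _, htri1⟩ := h.classify hv1 hq1
  have hR1 := h.rest_cov htri1
  have hncov : ∀ c ∈ C1, ¬ M.Cov c := by
    intro c hc hcov
    exact hbad (hv1.cov_of_cov hL hW hK hKW hcard1 hs1
      (fun c hc => h.comp_flex hv1 hc (hd1 c hc)) hp1K h.win_cov hR1 hc hcov)
  -- step 3
  have hbip : ∀ c ∈ C1, ∃ X ⊆ c, M.Mc X ∧ M.e (c \ X) (c \ X) = 0 ∧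
      (c \ X).card = X.card + 2 := by
    intro c hc
    refine hQ c (hv1.mc c hc) (fun v hv' => (hv1.hT c hc v hv').1) (hv1.odd c hc) (hd1 c hc) ?_
      (hncov c hc)
    intro c' hc' hmc' hne' _
    refine h.d4 ((hc'.trans (hv1.sub c hc)).trans sdiff_subset) ?_ hmc'
      (fun v hv' => hv1.hT c hc v (hc' hv')) hne'
    intro h1
    exact (mem_sdiff.1 (hv1.sub c hc (hc' h1))).2 (mem_union_left _ (self_mem_nd p1))
  obtain ⟨U2, C2, hv2, hsing2, hsub2⟩ := hv1.expand hL hbip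
  have hq2 : ∀ c ∈ C2, M.NoRail FF y c ∧ ∃ v, c = M.nd v := by
    intro c hc
    refine ⟨?_, hsing2 c hc⟩
    intro hy a ha b hb
    have : a ∈ C1.biUnion id := hsub2 (mem_biUnion.2 ⟨c, hc, ha⟩)
    obtain ⟨c', hc', hac'⟩ := mem_biUnion.1 this
    exact hq1 c' hc' hy a hac' b hb
  -- step 4
  obtain ⟨U, C, hv, hq, hs⟩ := exists_min_vio _ ⟨U2, C2, hv2, hq2⟩
  obtain ⟨hcard, hd, hp2, htri⟩ := h.classify hv (fun c hc => (hq c hc).1)
  have hR := h.rest_cov htri
  refine ⟨U, C, hv, fun c hc => (hq c hc).2, hcard, hs, hp2, htri, ?_⟩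
  intro A hA v hvA c1 hc1 c2 hc2 hne w1 hw1 w2 hw2 h1 h2 hall
  exact hbad (hv.cov_of_triple hL hW hK hKW hcard
    (fun c hc => h.comp_flex hv hc (hd c hc)) hp1K h.win_cov hR hA hvA hc1 hc2 hne hw1 hw2 h1 h2
    hall)

end RCtx

end Setup

end Pool.Agent.LTD
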