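import Pool.Agent.Lib.MP_a46439_co.Str

set_option autoImplicit false
set_option linter.unusedSectionVars false

/-! Consequences of the structure at a bad root. -/

namespace Pool.Agent.LTD

open Finset

namespace Setup

variable {V : Type} [Fintype V] [DecidableEq V] {M : Setup V}

namespace Str

variable {p p1 p2 y : V} {FF U C : Finset (Finset V)}

lemma Tc (s : M.Str p p1 p2 y FF U C) {a : V} (ha : a ∈ C.biUnion id) : M.TOf FF a := by
  obtain ⟨c, hc, hac⟩ := mem_biUnion.1 ha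
  exact s.vio.hT c hc a hac

lemma memC (s : M.Str p p1 p2 y FF U C) {a : V} (ha : a ∈ C.biUnion id) : M.nd a ∈ C := by
  obtain ⟨c, hc, hac⟩ := mem_biUnion.1 ha
  obtain ⟨v, rfl⟩ := s.single c hc
  rw [nd_eq_of_mem hac]; exact hc

lemma CCmu (s : M.Str p p1 p2 y FF U C) {a : V} (ha : a ∈ C.biUnion id) :
    M.μ a ∈ C.biUnion id :=
  mem_biUnion.2 ⟨M.nd a, s.memC ha, by simp⟩

lemma CCW (s : M.Str p p1 p2 y FF U C) {a : V} (ha : a ∈ C.biUnion id) :
    a ∈ univ \ M.nd p := (mem_sdiff.1 (s.vio.CC_sub ha)).1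

lemma CCK (s : M.Str p p1 p2 y FF U C) {a : V} (ha : a ∈ C.biUnion id) :
    a ∉ M.win FF p1 y := (mem_sdiff.1 (s.vio.CC_sub ha)).2

lemma bigC (s : M.Str p p1 p2 y FF U C) {a : V} (ha : a ∈ big (M.win FF p1 y) U) :
    a ∉ C.biUnion id := by
  intro h'
  rcases mem_union.1 ha with h1 | h1
  · exact s.CCK h' h1
  · exact s.vio.CC_disj h' h1

lemma nbrC (s : M.Str p p1 p2 y FF U C) {a b : V} (ha : a ∈ C.biUnion id)
    (hb : b ∈ univ \ M.nd p) (hab : M.H.Adj a b) : b ∈ big (M.win FF p1 y) U := by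
  obtain ⟨c, hc, hac⟩ := mem_biUnion.1 ha
  rcases s.vio.nbr hc hac hb hab with h1 | h1 | h1
  · exfalso
    obtain ⟨v, rfl⟩ := s.single c hc
    rw [← nd_eq_of_mem hac, mem_nd] at h1
    rcases h1 with rfl | rfl
    · exact M.H.loopless.irrefl _ hab
    · exact M.Hne _ hab
  · exact mem_union_left _ h1
  · exact mem_union_right _ h1

lemma bigW (h : M.RCtx p p1 p2 y FF) (s : M.Str p p1 p2 y FF U C) :
    big (M.win FF p1 y) U ⊆ univ \ M.nd p :=
  union_subset h.KW ((s.vio.UU_sub h.lab h.bW h.bK).trans sdiff_subset)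

lemma big_bcl (h : M.RCtx p p1 p2 y FF) (s : M.Str p p1 p2 y FF U C) :
    BCl (M.labOf FF) (big (M.win FF p1 y) U) :=
  BCl.union h.bK (s.vio.UU_bcl h.lab h.bW h.bK)

lemma loc (h : M.RCtx p p1 p2 y FF) (s : M.Str p p1 p2 y FF U C) {a : V}
    (ha : a ∈ univ \ M.nd p) : a ∈ big (M.win FF p1 y) U ∨ a ∈ C.biUnion id ∨
      a ∈ rest (univ \ M.nd p) (M.win FF p1 y) U C := by
  rw [s.vio.W_eq h.lab h.bW h.bK h.KW] at ha
  rcases mem_union.1 ha with h0 | h0
  · rcases mem_union.1 h0 with h1 | h1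
    · exact Or.inl (mem_union_left _ h1)
    · exact Or.inr (Or.inr h1)
  · rcases mem_union.1 h0 with h1 | h1
    · exact Or.inl (mem_union_right _ h1)
    · exact Or.inr (Or.inl h1)

lemma big_rest {a : V} {W : Finset V} (ha : a ∈ big (M.win FF p1 y) U) :
    a ∉ rest W (M.win FF p1 y) U C := by
  intro h'
  rw [mem_rest] at h'
  rcases mem_union.1 ha with h1 | h1
  · exact h'.2.1 h1
  · exact h'.2.2.1 h1

lemma memU (h : M.RCtx p p1 p2 y FF) (s : M.Str p p1 p2 y FF U C) {a : V}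
    (ha : a ∈ big (M.win FF p1 y) U) (haK : a ∉ M.win FF p1 y) : M.labOf FF a ∈ U := by
  rcases mem_union.1 ha with h1 | h1
  · exact absurd h1 haK
  · obtain ⟨A, hA, haA⟩ := mem_biUnion.1 h1
    rw [s.vio.Q_lab h.lab A (mem_union_left _ hA) a haA]
    exact hA

/-- tight sets blocking one side -/
lemma side (h : M.RCtx p p1 p2 y FF) (s : M.Str p p1 p2 y FF U C) {A : Finset V} {w v : V}
    (hA : A ∈ U) (hw : w ∈ A) (hv : v ∈ C.biUnion id) (hwv : M.H.Adj w v) :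
    ∃ X, A ∉ X ∧ Tight.Tg U (M.nbc C) (M.nd v) X ∧
      ∀ c ∈ C, ∀ b ∈ c, M.H.Adj w b → c ∈ insert (M.nd v) (X.biUnion (M.nbc C)) := by
  have hwU : w ∈ U.biUnion id := mem_biUnion.2 ⟨A, hA, hw⟩
  have hwW : w ∈ univ \ M.nd p := (mem_sdiff.1 (s.vio.UU_sub h.lab h.bW h.bK hwU)).1
  have hfull := h.root.full w (Root.mem_W.1 hwW).2
  obtain ⟨w', _, hne, hww'⟩ := exists_other hfull v
  have hnb : ∀ c ∈ C, ∀ b ∈ c, M.H.Adj w b → b = v ∨ b = w' := fun c _ b _ hb =>
    nbr_two hwv hww' hne.symm hb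
  have hcnd : ∀ c ∈ C, ∀ b ∈ c, c = M.nd b := by
    intro c hc b hb
    obtain ⟨x, rfl⟩ := s.single c hc
    exact (nd_eq_of_mem hb).symm
  by_cases hc : w' ∈ C.biUnion id ∧ M.nd w' ≠ M.nd v
  · have hbl := s.blocked A hA w hw (M.nd v) (s.memC hv) (M.nd w') (s.memC hc.1) (Ne.symm hc.2)
      v (self_mem_nd v) w' (self_mem_nd w') hwv hww'
    obtain ⟨X, h1, h2, h3⟩ := Tight.Tg.of_blocked s.sur hbl
    refine ⟨X, h1, h2, ?_⟩
    intro c hcC b hb hwb
    rcases hnb c hcC b hb hwb with rfl | rfl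
    · rw [hcnd c hcC b hb]; exact mem_insert_self _ _
    · rw [hcnd c hcC b hb]; exact mem_insert_of_mem h3
  · refine ⟨∅, notMem_empty _, Or.inl rfl, ?_⟩
    intro c hcC b hb hwb
    rcases hnb c hcC b hb hwb with rfl | rfl
    · rw [hcnd c hcC b hb]; exact mem_insert_self _ _
    · have h1 : b ∈ C.biUnion id := mem_biUnion.2 ⟨c, hcC, hb⟩
      have h2 : M.nd b = M.nd v := by
        by_contra hne'
        exact hc ⟨h1, hne'⟩
      rw [hcnd c hcC b hb, h2]; exact mem_insert_self _ _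

/-- no vertex of a component is adjacent to both sides of a node of `U` -/
lemma noDouble (h : M.RCtx p p1 p2 y FF) (s : M.Str p p1 p2 y FF U C) {w v : V}
    (hA : M.nd w ∈ U) (hv : v ∈ C.biUnion id) (h1 : M.H.Adj v w) (h2 : M.H.Adj v (M.μ w)) :
    False := by
  obtain ⟨X1, a1, b1, c1⟩ := side h s hA (self_mem_nd w) hv h1.symm
  obtain ⟨X2, a2, b2, c2⟩ := side h s hA (w := M.μ w) (by simp) hv h2.symm
  refine (b1.union s.sur b2).false s.sur hA (i := M.nd w) ?_ ?_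
  · rw [mem_union, not_or]; exact ⟨a1, a2⟩
  · intro c hc
    obtain ⟨hcC, a, ha, b, hb, hab⟩ := mem_nbc.1 hc
    rw [Tight.nb_union]
    rw [mem_nd] at ha
    rcases ha with rfl | rfl
    · have := c1 c hcC b hb hab
      rw [mem_insert] at this ⊢
      exact this.imp id fun h => mem_union_left _ h
    · have := c2 c hcC b hb hab
      rw [mem_insert] at this ⊢
      exact this.imp id fun h => mem_union_right _ h

/-- a tight set contains a node whose sides are doubly attached -/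
lemma doubly (s : M.Str p p1 p2 y FF U C) {Y : Finset (Finset V)}
    (hY : Tight.IsTight U (M.nbc C) Y) : ∃ A ∈ Y, ∀ v ∈ A, ∀ w1 w2, w1 ≠ w2 →
      w1 ∈ C.biUnion id → w2 ∈ C.biUnion id → M.H.Adj v w1 → M.H.Adj v w2 → w2 = M.μ w1 := by
  obtain ⟨A, hA, hun⟩ := Tight.exists_unblocked s.sur hY
  refine ⟨A, hA, ?_⟩
  intro v hv w1 w2 hne hw1 hw2 h1 h2
  by_cases heq : M.nd w1 = M.nd w2
  · have : w2 ∈ M.nd w1 := by rw [heq]; exact self_mem_nd w2
    rw [mem_nd] at this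
    rcases this with h3 | h3
    · exact absurd h3.symm hne
    · exact h3
  · exfalso
    refine s.blocked A (hY.1 hA) v hv (M.nd w1) (s.memC hw1) (M.nd w2) (s.memC hw2) heq w1
      (self_mem_nd _) w2 (self_mem_nd _) h1 h2 (hun _ ?_ _ ?_ heq)
    · exact mem_nbc.2 ⟨s.memC hw1, v, hv, w1, self_mem_nd _, h1⟩
    · exact mem_nbc.2 ⟨s.memC hw2, v, hv, w2, self_mem_nd _, h2⟩

end Str

end Setup

end Pool.Agent.LTD
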