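import Mathlib

set_option autoImplicit false

/-! Convenient forms of Tutte's theorem. -/

namespace Pool.Agent.LTD

open Finset SimpleGraph

/-- Tutte's theorem in terms of an involution / a family of odd closed sets. -/
theorem friendly_tutte {X : Type} [Fintype X] [DecidableEq X] (R : SimpleGraph X)
    (hev : Even (Fintype.card X)) :
    (∃ m : X → X, (∀ x, R.Adj x (m x)) ∧ ∀ x, m (m x) = x) ∨
    ∃ (U : Finset X) (C : Finset (Finset X)), U.card + 2 ≤ C.card ∧
      (∀ c ∈ C, Odd c.card ∧ Disjoint c U ∧ ∀ x ∈ c, ∀ y, R.Adj x y → y ∈ c ∨ y ∈ U) ∧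
      (∀ c ∈ C, ∀ c' ∈ C, c ≠ c' → Disjoint c c') := by
  classical
  by_cases h : ∃ M : Subgraph R, M.IsPerfectMatching
  · left
    obtain ⟨M, hM⟩ := h
    rw [Subgraph.isPerfectMatching_iff] at hM
    choose m hm hm' using hM
    refine ⟨m, fun x => (hm x).adj_sub, fun x => ?_⟩
    exact (hm' (m x) x (hm x).symm).symm
  · right
    rw [tutte] at h
    push Not at h
    obtain ⟨u, hu⟩ := h
    unfold IsTutteViolator at hu
    set K := ((⊤ : R.Subgraph).deleteVerts u) with hK
    have hKv : K.verts = uᶜ := by ext x; simp [hK]
    -- the family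
    let f : K.coe.ConnectedComponent → Finset X := fun c =>
      (c.supp.toFinset).image Subtype.val
    have hfmem : ∀ (c : K.coe.ConnectedComponent) (x : X), x ∈ f c ↔
        ∃ h : x ∈ K.verts, K.coe.connectedComponentMk ⟨x, h⟩ = c := by
      intro c x
      simp only [f, mem_image, Set.mem_toFinset, ConnectedComponent.mem_supp_iff, Subtype.exists,
        exists_and_right, exists_eq_right]
    have hfinj : Function.Injective f := by
      intro c c' hcc
      obtain ⟨⟨x, hx⟩, hxc⟩ := c.nonempty_supp
      have h1 : x ∈ f c := (hfmem c x).2 ⟨hx, hxc⟩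
      rw [hcc] at h1
      obtain ⟨h2, h3⟩ := (hfmem c' x).1 h1
      rw [← h3, ← hxc]
    refine ⟨u.toFinset, (K.coe.oddComponents.toFinset).image f, ?_, ?_, ?_⟩
    · rw [card_image_of_injective _ hfinj]
      have h1 : u.ncard = u.toFinset.card := Set.ncard_eq_toFinset_card' u
      have h2 : K.coe.oddComponents.ncard = K.coe.oddComponents.toFinset.card :=
        Set.ncard_eq_toFinset_card' _
      have h3 := odd_ncard_oddComponents K.coe
      have h4 : Nat.card K.verts + u.ncard = Fintype.card X := by
        rw [hKv, Nat.card_coe_set_eq]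
        have := Set.ncard_add_ncard_compl u
        rw [Nat.card_eq_fintype_card] at this
        omega
      rw [← h1, ← h2]
      rcases Nat.even_or_odd (K.coe.oddComponents.ncard) with h5 | h5
      · have h6 : ¬ Odd (Nat.card K.verts) := by
          rw [← h3]; exact Nat.not_odd_iff_even.2 h5
        rw [Nat.not_odd_iff_even] at h6
        obtain ⟨a, ha⟩ := h5
        obtain ⟨b, hb⟩ := h6
        obtain ⟨c, hc⟩ := hev
        omega
      · have h6 := h3.1 h5
        obtain ⟨a, ha⟩ := h5
        obtain ⟨b, hb⟩ := h6
        obtain ⟨c, hc⟩ := hev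
        omega
    · intro c hc
      simp only [mem_image, Set.mem_toFinset] at hc
      obtain ⟨c, hc, rfl⟩ := hc
      refine ⟨?_, ?_, ?_⟩
      · have : (f c).card = c.supp.ncard := by
          rw [card_image_of_injective _ Subtype.val_injective, Set.ncard_eq_toFinset_card']
        rw [this]; exact hc
      · rw [Finset.disjoint_left]
        intro x hx
        obtain ⟨h1, h2⟩ := (hfmem c x).1 hx
        rw [hKv] at h1
        simpa using h1
      · intro x hx y hxy
        obtain ⟨h1, h2⟩ := (hfmem c x).1 hx
        by_cases hy : y ∈ u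
        · right; simpa using hy
        · left
          have hy' : y ∈ K.verts := by rw [hKv]; exact hy
          refine (hfmem c y).2 ⟨hy', ?_⟩
          rw [← h2]
          apply ConnectedComponent.sound
          apply Adj.reachable
          have : K.Adj y x := by
            rw [hK]
            simp only [Subgraph.deleteVerts_adj, Subgraph.verts_top, Set.mem_univ, true_and,
              Subgraph.top_adj]
            rw [hKv] at h1
            exact ⟨hy, h1, hxy.symm⟩
          exact this
    · intro c hc c' hc' hne
      simp only [mem_image, Set.mem_toFinset] at hc hc'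
      obtain ⟨c, hc, rfl⟩ := hc
      obtain ⟨c', hc', rfl⟩ := hc'
      rw [Finset.disjoint_left]
      intro x hx hx'
      obtain ⟨h1, h2⟩ := (hfmem c x).1 hx
      obtain ⟨h1', h2'⟩ := (hfmem c' x).1 hx'
      apply hne
      rw [← h2, ← h2']

/-- Matching covering a set `T` of vertices (all vertices if `T = univ`). -/
theorem T_tutte {X : Type} [Fintype X] [DecidableEq X] (R : SimpleGraph X) (T : Finset X) :
    (∃ m : X → X, (∀ x, m (m x) = x) ∧ (∀ x, m x ≠ x → R.Adj x (m x)) ∧ ∀ x ∈ T, m x ≠ x) ∨
    ∃ (U : Finset X) (C : Finset (Finset X)),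
      U.card + 1 ≤ C.card ∧ ((T = univ ∧ Even (Fintype.card X)) → U.card + 2 ≤ C.card) ∧
      (∀ c ∈ C, c ⊆ T ∧ Odd c.card ∧ Disjoint c U ∧ ∀ x ∈ c, ∀ y, R.Adj x y → y ∈ c ∨ y ∈ U) ∧
      (∀ c ∈ C, ∀ c' ∈ C, c ≠ c' → Disjoint c c') := by
  classical
  let Y := X ⊕ Fin (Fintype.card X % 2)
  let adj : Y → Y → Prop := fun a b => match a, b with
    | Sum.inl x, Sum.inl y => R.Adj x y ∨ (x ≠ y ∧ x ∉ T ∧ y ∉ T)
    | Sum.inl x, Sum.inr _ => x ∉ T
    | Sum.inr _, Sum.inl y => y ∉ T
    | Sum.inr _, Sum.inr _ => False
  let R' : SimpleGraph Y :=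
    { Adj := adj
      symm := ⟨by
        rintro (x | i) (y | j) h
        · rcases h with h | ⟨h1, h2, h3⟩
          · exact Or.inl h.symm
          · exact Or.inr ⟨h1.symm, h3, h2⟩
        · exact h
        · exact h
        · exact h⟩
      loopless := ⟨by
        rintro (x | i) h
        · rcases h with h | ⟨h1, h2, h3⟩
          · exact R.loopless.irrefl _ h
          · exact h1 rfl
        · exact h⟩ }
  have hYcard : Fintype.card Y = Fintype.card X + Fintype.card X % 2 := by
    simp [Y]
  have hYev : Even (Fintype.card Y) := by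
    rw [hYcard, Nat.even_iff]; omega
  rcases friendly_tutte R' hYev with ⟨m, hm1, hm2⟩ | ⟨U, C, hUC, hC, hdis⟩
  · left
    -- real partner
    let g : X → X := fun x => match m (Sum.inl x) with
      | Sum.inl y => if R.Adj x y then y else x
      | Sum.inr _ => x
    have hg1 : ∀ x y, m (Sum.inl x) = Sum.inl y → R.Adj x y → g x = y := by
      intro x y h1 h2
      simp only [g, h1, h2, if_true]
    have hg2 : ∀ x, g x ≠ x → m (Sum.inl x) = Sum.inl (g x) ∧ R.Adj x (g x) := by
      intro x hx
      rcases hmx : m (Sum.inl x) with y | i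
      · by_cases h : R.Adj x y
        · have := hg1 x y hmx h
          rw [this]; exact ⟨rfl, h⟩
        · exfalso; apply hx; simp only [g, hmx, h, if_false]
      · exfalso; apply hx; simp only [g, hmx]
    refine ⟨g, ?_, fun x hx => (hg2 x hx).2, ?_⟩
    · intro x
      by_cases hx : g x = x
      · rw [hx, hx]
      · obtain ⟨h1, h2⟩ := hg2 x hx
        apply hg1
        · rw [← h1]; exact hm2 _
        · exact h2.symm
    · intro x hxT
      have h := hm1 (Sum.inl x)
      rcases hmx : m (Sum.inl x) with y | i
      · rw [hmx] at h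
        rcases h with h | ⟨h1, h2, h3⟩
        · rw [hg1 x y hmx h]; exact h.ne'
        · exact absurd hxT h2
      · rw [hmx] at h
        exact absurd hxT h
  · right
    let inlE : X ↪ Y := ⟨Sum.inl, Sum.inl_injective⟩
    -- restrict
    let pull : Finset Y → Finset X := fun c => univ.filter fun x => (Sum.inl x : Y) ∈ c
    let good : Finset Y → Prop := fun c => ∀ y ∈ c, ∃ x ∈ T, y = Sum.inl x
    -- at most one bad
    have hbad : ∀ c ∈ C, ∀ c' ∈ C, ¬ good c → ¬ good c' → c = c' := by
      intro c hc c' hc' h1 h2
      by_contra hne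
      simp only [good, not_forall] at h1 h2
      obtain ⟨y, hy, hy'⟩ := h1
      obtain ⟨z, hz, hz'⟩ := h2
      have hd := hdis c hc c' hc' hne
      have hyz : y ≠ z := by
        rintro rfl
        exact (Finset.disjoint_left.1 hd hy) hz
      have hadj : R'.Adj y z := by
        rcases y with x | i
        · rcases z with x' | j
          · right
            refine ⟨fun h => hyz (by rw [h]), fun h => hy' ⟨x, h, rfl⟩, fun h => hz' ⟨x', h, rfl⟩⟩
          · exact fun h => hy' ⟨x, h, rfl⟩
        · rcases z with x' | j
          · exact fun h => hz' ⟨x', h, rfl⟩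
          · exfalso
            apply hyz
            have hi := i.2
            have hj := j.2
            have : i = j := by ext; omega
            rw [this]
      rcases (hC c hc).2.2 y hy z hadj with h | h
      · exact (Finset.disjoint_left.1 hd h) hz
      · exact (Finset.disjoint_left.1 (hC c' hc').2.1 hz) h
    have hgoodpull : ∀ c, good c → (pull c).map inlE = c := by
      intro c hc
      ext y
      simp only [mem_map, pull, mem_filter, mem_univ, true_and, inlE, Function.Embedding.coeFn_mk]
      constructor
      · rintro ⟨x, hx, rfl⟩; exact hx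
      · intro hy
        obtain ⟨x, hx, rfl⟩ := hc y hy
        exact ⟨x, hy, rfl⟩
    let U' := pull U
    let C' := (C.filter good).image pull
    have hinj : Set.InjOn pull (C.filter good) := by
      intro c hc c' hc' h
      simp only [coe_filter, Set.mem_setOf_eq] at hc hc'
      rw [← hgoodpull c hc.2, ← hgoodpull c' hc'.2, h]
    have hC'card : C'.card = (C.filter good).card := card_image_of_injOn hinj
    have hU' : U'.card ≤ U.card := by
      have : U'.map inlE ⊆ U := by
        intro y hy
        simp only [mem_map, inlE, Function.Embedding.coeFn_mk] at hy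
        obtain ⟨x, hx, rfl⟩ := hy
        simpa [U', pull] using hx
      simpa using card_le_card this
    have hsplit : (C.filter good).card + (C.filter fun c => ¬ good c).card = C.card :=
      card_filter_add_card_filter_not good
    have hbad1 : (C.filter fun c => ¬ good c).card ≤ 1 := by
      rw [card_le_one]
      intro c hc c' hc'
      simp only [mem_filter] at hc hc'
      exact hbad c hc.1 c' hc'.1 hc.2 hc'.2
    refine ⟨U', C', by omega, ?_, ?_, ?_⟩
    · rintro ⟨hT, hev⟩
      have hallgood : ∀ c ∈ C, good c := by
        intro c hc y hy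
        rcases y with x | i
        · exact ⟨x, by rw [hT]; exact mem_univ _, rfl⟩
        · exfalso
          have := i.2
          rw [Nat.even_iff] at hev
          omega
      have : (C.filter fun c => ¬ good c).card = 0 := by
        rw [card_eq_zero, filter_eq_empty_iff]
        intro c hc h
        exact h (hallgood c hc)
      omega
    · intro c hc
      simp only [C', mem_image, mem_filter] at hc
      obtain ⟨c, ⟨hc1, hc2⟩, rfl⟩ := hc
      obtain ⟨hodd, hdU, hcl⟩ := hC c hc1
      refine ⟨?_, ?_, ?_, ?_⟩
      · intro x hx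
        simp only [pull, mem_filter, mem_univ, true_and] at hx
        obtain ⟨x', hx', h⟩ := hc2 _ hx
        rw [Sum.inl.inj h]; exact hx'
      · rw [← card_map inlE, hgoodpull c hc2]; exact hodd
      · rw [Finset.disjoint_left]
        intro x hx hx'
        simp only [pull, U', mem_filter, mem_univ, true_and] at hx hx'
        exact (Finset.disjoint_left.1 hdU hx) hx'
      · intro x hx y hxy
        simp only [pull, U', mem_filter, mem_univ, true_and] at hx ⊢
        exact hcl _ hx (Sum.inl y) (Or.inl hxy)
    · intro c hc c' hc' hne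
      simp only [C', mem_image, mem_filter] at hc hc'
      obtain ⟨c, ⟨hc1, hc2⟩, rfl⟩ := hc
      obtain ⟨c', ⟨hc1', hc2'⟩, rfl⟩ := hc'
      have hne' : c ≠ c' := by rintro rfl; exact hne rfl
      have hd := hdis c hc1 c' hc1' hne'
      rw [Finset.disjoint_left]
      intro x hx hx'
      simp only [pull, mem_filter, mem_univ, true_and] at hx hx'
      exact (Finset.disjoint_left.1 hd hx) hx'

end Pool.Agent.LTD
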