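import Pool.Agent.Lib.MP_a46439_co.Closed

set_option autoImplicit false
set_option linter.unusedSectionVars false

/-! Counting for violators; light closed sets are flexible. -/

namespace Pool.Agent.LTD

open Finset

namespace Setup

variable {V : Type} [Fintype V] [DecidableEq V] {M : Setup V} {B : V → Finset V} {T : V → Prop}
  {W K E0 : Finset V} {U C : Finset (Finset V)}

/-- the rest of a violator -/
def rest (W K : Finset V) (U C : Finset (Finset V)) : Finset V :=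
  (W \ (K ∪ U.biUnion id)) \ C.biUnion id

lemma mem_rest {x : V} : x ∈ rest W K U C ↔
    x ∈ W ∧ x ∉ K ∧ x ∉ U.biUnion id ∧ x ∉ C.biUnion id := by
  unfold rest
  rw [mem_sdiff, mem_sdiff, mem_union]
  tauto

namespace Vio

lemma UU_bcl (hL : M.LabE E0 B T) (hW : BCl B W) (hK : BCl B K) (hv : M.Vio B T W K U C) :
    BCl B (U.biUnion id) := by
  intro x hx
  obtain ⟨A, hA, hxA⟩ := mem_biUnion.1 hx
  obtain ⟨w, hw, rfl⟩ := mem_image.1 (hv.hU hA)
  intro z hz
  refine mem_biUnion.2 ⟨B w, hA, ?_⟩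
  rw [hL.eq w x hxA] at hz
  exact hz

lemma UU_sub (hL : M.LabE E0 B T) (hW : BCl B W) (hK : BCl B K) (hv : M.Vio B T W K U C) :
    U.biUnion id ⊆ W \ K := by
  intro x hx
  obtain ⟨A, hA, hxA⟩ := mem_biUnion.1 hx
  obtain ⟨w, hw, rfl⟩ := mem_image.1 (hv.hU hA)
  exact hW.sdiff hL hK w hw hxA

lemma CC_bcl (hL : M.LabE E0 B T) (hv : M.Vio B T W K U C) : BCl B (C.biUnion id) := by
  intro x hx
  obtain ⟨c, hc, hxc⟩ := mem_biUnion.1 hx
  intro z hz
  exact mem_biUnion.2 ⟨c, hc, BCl_of_T hL (hv.mc c hc) (hv.hT c hc) x hxc hz⟩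

lemma CC_sub (hv : M.Vio B T W K U C) : C.biUnion id ⊆ W \ K := by
  rw [biUnion_subset]; exact hv.sub

lemma CC_disj (hv : M.Vio B T W K U C) {x : V} (hx : x ∈ C.biUnion id) :
    x ∉ U.biUnion id := by
  obtain ⟨c, hc, hxc⟩ := mem_biUnion.1 hx
  exact Finset.disjoint_left.1 (hv.dU c hc) hxc

lemma rest_bcl (hL : M.LabE E0 B T) (hW : BCl B W) (hK : BCl B K) (hv : M.Vio B T W K U C) :
    BCl B (rest W K U C) :=
  (hW.sdiff hL (hK.union (hv.UU_bcl hL hW hK))).sdiff hL (hv.CC_bcl hL)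

/-- neighbours of a component -/
lemma nbr (hv : M.Vio B T W K U C) {c : Finset V} (hc : c ∈ C) {a b : V} (ha : a ∈ c)
    (hb : b ∈ W) (hab : M.H.Adj a b) : b ∈ c ∨ b ∈ K ∨ b ∈ U.biUnion id := by
  by_contra h
  rw [not_or, not_or] at h
  exact hv.clo c hc a ha b hb h.2.1 h.1 h.2.2 hab

lemma Q_biUnion (hL : M.LabE E0 B T) (hK : BCl B K) :
    (U ∪ K.image B).biUnion id = K ∪ U.biUnion id := by
  rw [union_biUnion, hK.biUnion hL.self, union_comm]

lemma Q_card (hL : M.LabE E0 B T) (hW : BCl B W) (hK : BCl B K) (hv : M.Vio B T W K U C) :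
    (U ∪ K.image B).card = U.card + (K.image B).card := by
  apply card_union_of_disjoint
  rw [Finset.disjoint_left]
  intro A hA hA'
  obtain ⟨v, hvW, rfl⟩ := mem_image.1 (hv.hU hA)
  obtain ⟨w, hw, hwv⟩ := mem_image.1 hA'
  have : v ∈ B w := by rw [hwv]; exact hL.self v
  exact (mem_sdiff.1 hvW).2 (hK w hw this)

lemma Q_lab (hL : M.LabE E0 B T) (hv : M.Vio B T W K U C) :
    ∀ A ∈ U ∪ K.image B, ∀ a ∈ A, B a = A := by
  intro A hA a ha
  rcases mem_union.1 hA with h | h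
  · obtain ⟨v, _, rfl⟩ := mem_image.1 (hv.hU h)
    exact hL.eq v a ha
  · obtain ⟨v, _, rfl⟩ := mem_image.1 h
    exact hL.eq v a ha

/-- the count for a violator -/
theorem count (hL : M.LabE E0 B T) (hW : BCl B W) (hK : BCl B K) (hKW : K ⊆ W)
    (hv : M.Vio B T W K U C) (h4 : ∀ c ∈ C, 4 ≤ M.d c) :
    4 * C.card + ∑ c ∈ C, (M.d c - 4) + M.d (rest W K U C) +
      2 * M.bd W (K ∪ U.biUnion id) +
      E (M.Hx B) (K ∪ U.biUnion id) (K ∪ U.biUnion id) +
      ∑ A ∈ U ∪ K.image B, (4 - M.d A) = M.d W + 4 * (U.card + (K.image B).card) := by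
  have hUs := hv.UU_sub hL hW hK
  have h1 := count4 (M := M) (W := W) (Q := U ∪ K.image B) (C := C) (lab := B)
    (hv.Q_lab hL)
    (by
      rw [Q_biUnion hL hK]
      exact union_subset hKW (hUs.trans sdiff_subset))
    (by
      rw [Q_biUnion hL hK]
      intro c hc
      refine ⟨?_, ?_⟩
      · intro x hx
        have h2 := mem_sdiff.1 (hv.sub c hc hx)
        rw [mem_sdiff, mem_union, not_or]
        exact ⟨h2.1, h2.2, Finset.disjoint_left.1 (hv.dU c hc) hx⟩
      · rw [M.e_eq_zero_iff]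
        intro a ha b hb
        rw [mem_sdiff, mem_sdiff, mem_union, not_or] at hb
        exact hv.clo c hc a ha b hb.1.1 hb.1.2.1 hb.2 hb.1.2.2)
    hv.dis h4
    (by
      intro A hA
      rcases mem_union.1 hA with h | h
      · obtain ⟨v, _, rfl⟩ := mem_image.1 (hv.hU h)
        exact hL.d4 v
      · obtain ⟨v, _, rfl⟩ := mem_image.1 h
        exact hL.d4 v)
  rw [Q_biUnion hL hK, hv.Q_card hL hW hK] at h1
  exact h1

end Vio

end Setup

end Pool.Agent.LTD
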