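import Pool.Agent.Lib.MP_a46439_co.Vio

set_option autoImplicit false
set_option linter.unusedSectionVars false
set_option maxHeartbeats 1000000

/-! Minimal violators and gluing. -/

namespace Pool.Agent.LTD

open Finset

namespace Setup

variable {V : Type} [Fintype V] [DecidableEq V] {M : Setup V} {B : V → Finset V} {T : V → Prop}
  {W K E0 : Finset V} {U C : Finset (Finset V)}

/-- A violator with the minimum number of blocks has surplus. -/
theorem exists_min_vio (q : Finset V → Prop)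
    (h : ∃ U C, M.Vio B T W K U C ∧ ∀ c ∈ C, q c) :
    ∃ U C, M.Vio B T W K U C ∧ (∀ c ∈ C, q c) ∧ Tight.Surplus U (M.nbc C) := by
  classical
  obtain ⟨U0, C0, h0, h0'⟩ := h
  have hex : ((univ : Finset (Finset (Finset V) × Finset (Finset V))).filter fun x =>
      M.Vio B T W K x.1 x.2 ∧ ∀ c ∈ x.2, q c).Nonempty :=
    ⟨(U0, C0), by rw [mem_filter]; exact ⟨mem_univ _, h0, h0'⟩⟩
  obtain ⟨⟨U, C⟩, hUC, hmin⟩ := exists_min_image _ (fun x => x.1.card) hex
  rw [mem_filter] at hUC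
  obtain ⟨_, hv, hq⟩ := hUC
  refine ⟨U, C, hv, hq, ?_⟩
  intro X hX hne
  by_contra hlt
  push Not at hlt
  have hXn : X.biUnion (M.nbc C) ⊆ C := by
    rw [biUnion_subset]; intro A _; exact filter_subset _ _
  have k1 := card_sdiff_add_card_eq_card hX
  have k2 := card_sdiff_add_card_eq_card hXn
  have k3 : U.card + 1 ≤ C.card := hv.card
  have k4 : 0 < X.card := card_pos.2 hne
  have := hmin (U \ X, C \ X.biUnion (M.nbc C)) (by
    rw [mem_filter]
    refine ⟨mem_univ _, ⟨?_, ?_, ?_, ?_, ?_, ?_, ?_, ?_, ?_⟩, ?_⟩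
    · exact sdiff_subset.trans hv.hU
    · intro c hc; exact hv.mc c (mem_sdiff.1 hc).1
    · intro c hc; exact hv.sub c (mem_sdiff.1 hc).1
    · intro c hc
      exact (hv.dU c (mem_sdiff.1 hc).1).mono_right
        (biUnion_subset_biUnion_of_subset_left _ sdiff_subset)
    · intro c hc; exact hv.hT c (mem_sdiff.1 hc).1
    · intro c hc; exact hv.odd c (mem_sdiff.1 hc).1
    · intro c hc a ha b hb hbK hbc hbU hab
      rw [mem_sdiff] at hc
      by_cases h5 : b ∈ U.biUnion id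
      · obtain ⟨A, hA, hbA⟩ := mem_biUnion.1 h5
        by_cases h6 : A ∈ X
        · apply hc.2
          refine mem_biUnion.2 ⟨A, h6, mem_nbc.2 ⟨hc.1, b, hbA, a, ha, hab.symm⟩⟩
        · exact hbU (mem_biUnion.2 ⟨A, mem_sdiff.2 ⟨hA, h6⟩, hbA⟩)
      · exact hv.clo c hc.1 a ha b hb hbK hbc h5 hab
    · intro c hc c' hc'
      exact hv.dis c (mem_sdiff.1 hc).1 c' (mem_sdiff.1 hc').1
    · simp only
      omega
    · intro c hc; exact hq c (mem_sdiff.1 hc).1)
  simp only at this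
  omega

namespace Vio

lemma W_eq (hL : M.LabE E0 B T) (hW : BCl B W) (hK : BCl B K) (hKW : K ⊆ W)
    (hv : M.Vio B T W K U C) :
    W = K ∪ rest W K U C ∪ (U.biUnion id ∪ C.biUnion id) := by
  ext x
  have h1 : x ∈ K → x ∈ W := fun h => hKW h
  have h2 : x ∈ U.biUnion id → x ∈ W := fun h => (mem_sdiff.1 (hv.UU_sub hL hW hK h)).1
  have h3 : x ∈ C.biUnion id → x ∈ W := fun h => (mem_sdiff.1 (hv.CC_sub h)).1
  rw [mem_union, mem_union, mem_rest, mem_union]
  tauto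

lemma block_mem (hv : M.Vio B T W K U C) {A : Finset V} (hA : A ∈ U) :
    ∃ v ∈ W \ K, B v = A := by
  obtain ⟨v, h1, h2⟩ := mem_image.1 (hv.hU hA)
  exact ⟨v, h1, h2⟩

lemma block_ne (hL : M.LabE E0 B T) (hv : M.Vio B T W K U C) :
    ∀ A ∈ U, ∀ A' ∈ U, A ≠ A' → Disjoint A A' := by
  intro A hA A' hA' hne
  obtain ⟨v, _, rfl⟩ := hv.block_mem hA
  obtain ⟨w, _, rfl⟩ := hv.block_mem hA'
  exact hL.disj hne

lemma comp_ne (hv : M.Vio B T W K U C) {c : Finset V} (hc : c ∈ C) : c.Nonempty := by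
  rw [← card_pos]; have := hv.odd c hc; omega

/-- gluing when a component has a cover -/
theorem cov_of_cov (hL : M.LabE E0 B T) (hW : BCl B W) (hK : BCl B K) (hKW : K ⊆ W)
    (hv : M.Vio B T W K U C) (hcard : C.card = U.card + 1) (hs : Tight.Surplus U (M.nbc C))
    (hCf : ∀ c ∈ C, M.Flex c) {F Ex : Finset V} (hFK : F ⊆ K) (hKc : M.CovF F Ex K)
    (hR : M.Cov (rest W K U C)) {c0 : Finset V} (hc0 : c0 ∈ C) (hcov : M.Cov c0) :
    M.CovF F Ex W := by
  have hUs := hv.UU_sub hL hW hK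
  have hRb := hv.rest_bcl hL hW hK
  have hRm := hRb.mc hL
  have dKR : Disjoint K (rest W K U C) := by
    rw [Finset.disjoint_left]; intro x hx hx'; exact (mem_rest.1 hx').2.1 hx
  have dKc : ∀ c ∈ C, Disjoint K c := by
    intro c hc
    rw [Finset.disjoint_left]; intro x hx hx'; exact (mem_sdiff.1 (hv.sub c hc hx')).2 hx
  have dRc : ∀ c ∈ C, Disjoint (rest W K U C) c := by
    intro c hc
    rw [Finset.disjoint_left]; intro x hx hx'
    exact (mem_rest.1 hx).2.2.2 (mem_biUnion.2 ⟨c, hc, hx'⟩)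
  have dUA : ∀ A ∈ U, Disjoint A (K ∪ rest W K U C) := by
    intro A hA
    rw [Finset.disjoint_left]
    intro x hx hx'
    have h1 : x ∈ U.biUnion id := mem_biUnion.2 ⟨A, hA, hx⟩
    rcases mem_union.1 hx' with h | h
    · exact (mem_sdiff.1 (hUs h1)).2 h
    · exact (mem_rest.1 h).2.2.1 h1
  have dUc : ∀ A ∈ U, ∀ c ∈ C, Disjoint A c := by
    intro A hA c hc
    rw [Finset.disjoint_left]
    intro x hx hx'
    exact (Finset.disjoint_left.1 (hv.dU c hc) hx') (mem_biUnion.2 ⟨A, hA, hx⟩)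
  have hFd : ∀ X : Finset V, Disjoint K X → Disjoint F X := fun X h =>
    disjoint_of_subset_left hFK h
  have hZ1 : M.CovF F Ex (K ∪ rest W K U C) :=
    CovF.union (hK.mc hL) hRm dKR hKc (hR.covF (hFd _ dKR))
  have hZ : M.CovF F Ex (K ∪ rest W K U C ∪ c0) :=
    CovF.union ((hK.mc hL).union hRm) (hv.mc c0 hc0)
      (disjoint_union_left.2 ⟨dKc c0 hc0, dRc c0 hc0⟩) hZ1 (hcov.covF (hFd _ (dKc c0 hc0)))
  have hfin := hall_glue (M := M) (Z := K ∪ rest W K U C ∪ c0) (F := F) (Ex := Ex) (I := U)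
    (D := C.erase c0) (N := M.nbc C)
    (((hK.mc hL).union hRm).union (hv.mc c0 hc0))
    (hFK.trans (subset_union_left.trans subset_union_left))
    (by
      intro A hA
      obtain ⟨v, _, rfl⟩ := hv.block_mem hA
      exact (hL.cl v).1)
    (fun c hc => hv.mc c (mem_erase.1 hc).2)
    (by
      intro A hA
      obtain ⟨v, _, rfl⟩ := hv.block_mem hA
      exact hL.flex v)
    (fun c hc => hCf c (mem_erase.1 hc).2)
    (hv.block_ne hL)
    (fun c hc c' hc' => hv.dis c (mem_erase.1 hc).2 c' (mem_erase.1 hc').2)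
    (fun A hA => disjoint_union_right.2 ⟨dUA A hA, dUc A hA c0 hc0⟩)
    (by
      intro c hc
      rw [mem_erase] at hc
      rw [disjoint_union_right, disjoint_union_right]
      exact ⟨⟨(dKc c hc.2).symm, (dRc c hc.2).symm⟩, hv.dis c hc.2 c0 hc0 hc.1⟩)
    (fun A hA c hc => dUc A hA c (mem_erase.1 hc).2)
    (fun A _ c hc => (mem_nbc.1 hc).2)
    (by rw [card_erase_of_mem hc0]; omega)
    (by
      intro X hX
      refine (hs.erase_one c0 X hX).trans (card_le_card ?_)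
      intro c hc
      rw [mem_sdiff, mem_singleton] at hc
      rw [mem_inter, mem_erase]
      obtain ⟨A, _, hcA⟩ := mem_biUnion.1 hc.1
      exact ⟨hc.1, hc.2, (mem_nbc.1 hcA).1⟩)
    hZ
  convert hfin using 1
  conv_lhs => rw [hv.W_eq hL hW hK hKW]
  ext x
  have : x ∈ C.biUnion id ↔ x ∈ c0 ∨ x ∈ (C.erase c0).biUnion id := by
    conv_lhs => rw [← insert_erase hc0]
    rw [biUnion_insert, mem_union, id]
  simp only [mem_union, this]
  exact iff_of_eq (by ac_rfl)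

/-- gluing along a triple -/
theorem cov_of_triple (hL : M.LabE E0 B T) (hW : BCl B W) (hK : BCl B K) (hKW : K ⊆ W)
    (hv : M.Vio B T W K U C) (hcard : C.card = U.card + 1)
    (hCf : ∀ c ∈ C, M.Flex c) {F Ex : Finset V} (hFK : F ⊆ K) (hKc : M.CovF F Ex K)
    (hR : M.Cov (rest W K U C)) {A c1 c2 : Finset V} {v w1 w2 : V} (hA : A ∈ U) (hvA : v ∈ A)
    (hc1 : c1 ∈ C) (hc2 : c2 ∈ C) (hne : c1 ≠ c2) (hw1 : w1 ∈ c1) (hw2 : w2 ∈ c2)
    (h1 : M.H.Adj v w1) (h2 : M.H.Adj v w2)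
    (hall : ∀ X ⊆ U.erase A, X.card ≤ ((X.biUnion (M.nbc C)) \ {c1, c2}).card) :
    M.CovF F Ex W := by
  have hUs := hv.UU_sub hL hW hK
  have hRb := hv.rest_bcl hL hW hK
  have hRm := hRb.mc hL
  have dKR : Disjoint K (rest W K U C) := by
    rw [Finset.disjoint_left]; intro x hx hx'; exact (mem_rest.1 hx').2.1 hx
  have dKc : ∀ c ∈ C, Disjoint K c := by
    intro c hc
    rw [Finset.disjoint_left]; intro x hx hx'; exact (mem_sdiff.1 (hv.sub c hc hx')).2 hx
  have dRc : ∀ c ∈ C, Disjoint (rest W K U C) c := by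
    intro c hc
    rw [Finset.disjoint_left]; intro x hx hx'
    exact (mem_rest.1 hx).2.2.2 (mem_biUnion.2 ⟨c, hc, hx'⟩)
  have dUA : ∀ A ∈ U, Disjoint A (K ∪ rest W K U C) := by
    intro A hA
    rw [Finset.disjoint_left]
    intro x hx hx'
    have h1 : x ∈ U.biUnion id := mem_biUnion.2 ⟨A, hA, hx⟩
    rcases mem_union.1 hx' with h | h
    · exact (mem_sdiff.1 (hUs h1)).2 h
    · exact (mem_rest.1 h).2.2.1 h1
  have dUc : ∀ A ∈ U, ∀ c ∈ C, Disjoint A c := by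
    intro A hA c hc
    rw [Finset.disjoint_left]
    intro x hx hx'
    exact (Finset.disjoint_left.1 (hv.dU c hc) hx') (mem_biUnion.2 ⟨A, hA, hx⟩)
  have hFd : ∀ X : Finset V, Disjoint K X → Disjoint F X := fun X h =>
    disjoint_of_subset_left hFK h
  have hAm : M.Mc A ∧ M.Flex A := by
    obtain ⟨v, _, rfl⟩ := hv.block_mem hA
    exact ⟨(hL.cl v).1, hL.flex v⟩
  have dKA : Disjoint K A := (disjoint_union_right.1 (dUA A hA)).1.symm
  have dRA : Disjoint (rest W K U C) A := (disjoint_union_right.1 (dUA A hA)).2.symm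
  have hZ1 : M.CovF F Ex (K ∪ rest W K U C) :=
    CovF.union (hK.mc hL) hRm dKR hKc (hR.covF (hFd _ dKR))
  have hw1A : w1 ∉ A := Finset.disjoint_right.1 (dUc A hA c1 hc1) hw1
  have hvc1 : v ∉ c1 := Finset.disjoint_left.1 (dUc A hA c1 hc1) hvA
  have hvc2 : v ∉ c2 := Finset.disjoint_left.1 (dUc A hA c2 hc2) hvA
  have hTr : M.CovF F Ex (A ∪ c1 ∪ c2) :=
    CovFX.cov_triple hAm.1 (hv.mc c1 hc1) (hv.mc c2 hc2) (dUc A hA c1 hc1) (dUc A hA c2 hc2)
      (hv.dis c1 hc1 c2 hc2 hne)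
      ((hAm.2 v hvA w1 hw1A h1).covFX (hFd _ dKA))
      ((hCf c1 hc1 w1 hw1 v hvc1 h1.symm).covFX (hFd _ (dKc c1 hc1)))
      ((hCf c2 hc2 w2 hw2 v hvc2 h2.symm).covFX (hFd _ (dKc c2 hc2))) h1 h2
  have hTm : M.Mc (A ∪ c1 ∪ c2) := (hAm.1.union (hv.mc c1 hc1)).union (hv.mc c2 hc2)
  have hZ : M.CovF F Ex (K ∪ rest W K U C ∪ (A ∪ c1 ∪ c2)) := by
    refine CovF.union ((hK.mc hL).union hRm) hTm ?_ hZ1 hTr
    exact disjoint_union_left.2 ⟨disjoint_union_right.2 ⟨disjoint_union_right.2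
      ⟨dKA, dKc c1 hc1⟩, dKc c2 hc2⟩, disjoint_union_right.2 ⟨disjoint_union_right.2
      ⟨dRA, dRc c1 hc1⟩, dRc c2 hc2⟩⟩
  have hc2' : c2 ∈ C.erase c1 := mem_erase.2 ⟨hne.symm, hc2⟩
  have hDm : ∀ c, c ∈ (C.erase c1).erase c2 ↔ c ≠ c2 ∧ c ≠ c1 ∧ c ∈ C := by
    intro c; rw [mem_erase, mem_erase]
  have hfin := hall_glue (M := M) (Z := K ∪ rest W K U C ∪ (A ∪ c1 ∪ c2)) (F := F) (Ex := Ex)
    (I := U.erase A) (D := (C.erase c1).erase c2) (N := M.nbc C)
    (((hK.mc hL).union hRm).union hTm)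
    (hFK.trans (subset_union_left.trans subset_union_left))
    (by
      intro A' hA'
      obtain ⟨v, _, rfl⟩ := hv.block_mem (mem_erase.1 hA').2
      exact (hL.cl v).1)
    (fun c hc => hv.mc c ((hDm c).1 hc).2.2)
    (by
      intro A' hA'
      obtain ⟨v, _, rfl⟩ := hv.block_mem (mem_erase.1 hA').2
      exact hL.flex v)
    (fun c hc => hCf c ((hDm c).1 hc).2.2)
    (fun A1 h1 A2 h2 => hv.block_ne hL A1 (mem_erase.1 h1).2 A2 (mem_erase.1 h2).2)
    (fun c hc c' hc' => hv.dis c ((hDm c).1 hc).2.2 c' ((hDm c').1 hc').2.2)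
    (by
      intro A' hA'
      rw [mem_erase] at hA'
      refine disjoint_union_right.2 ⟨dUA A' hA'.2, ?_⟩
      rw [disjoint_union_right, disjoint_union_right]
      exact ⟨⟨hv.block_ne hL A' hA'.2 A hA hA'.1, dUc A' hA'.2 c1 hc1⟩, dUc A' hA'.2 c2 hc2⟩)
    (by
      intro c hc
      rw [hDm] at hc
      exact disjoint_union_right.2 ⟨disjoint_union_right.2 ⟨(dKc c hc.2.2).symm,
        (dRc c hc.2.2).symm⟩, disjoint_union_right.2 ⟨disjoint_union_right.2
        ⟨(dUc A hA c hc.2.2).symm, hv.dis c hc.2.2 c1 hc1 hc.2.1⟩,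
        hv.dis c hc.2.2 c2 hc2 hc.1⟩⟩)
    (fun A' hA' c hc => dUc A' (mem_erase.1 hA').2 c ((hDm c).1 hc).2.2)
    (fun A' _ c hc => (mem_nbc.1 hc).2)
    (by rw [card_erase_of_mem hc2', card_erase_of_mem hc1, card_erase_of_mem hA]; omega)
    (by
      intro X hX
      refine (hall X hX).trans (card_le_card ?_)
      intro c hc
      rw [mem_sdiff, mem_insert, mem_singleton, not_or] at hc
      rw [mem_inter, hDm]
      obtain ⟨A, _, hcA⟩ := mem_biUnion.1 hc.1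
      exact ⟨hc.1, hc.2.2, hc.2.1, (mem_nbc.1 hcA).1⟩)
    hZ
  convert hfin using 1
  conv_lhs => rw [hv.W_eq hL hW hK hKW]
  ext x
  have e1 : x ∈ C.biUnion id ↔ x ∈ c1 ∨ x ∈ c2 ∨ x ∈ ((C.erase c1).erase c2).biUnion id := by
    conv_lhs => rw [← insert_erase hc1, ← insert_erase hc2']
    rw [biUnion_insert, mem_union, id, biUnion_insert, mem_union, id]
  have e2 : x ∈ U.biUnion id ↔ x ∈ A ∨ x ∈ (U.erase A).biUnion id := by
    conv_lhs => rw [← insert_erase hA]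
    rw [biUnion_insert, mem_union, id]
  simp only [mem_union, e1, e2]
  exact iff_of_eq (by ac_rfl)

end Vio

end Setup

end Pool.Agent.LTD
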